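import Pool.Agent.Run7.h163.FC

/-!
# The disc algebra on the circle
-/

set_option autoImplicit false
set_option linter.deprecated false
set_option linter.unusedSectionVars false

open scoped ComplexConjugate InnerProductSpace InnerProduct
open ContinuousLinearMap Polynomial

namespace Run7.h163

/-- polynomials as functions on the circle -/
noncomputable def polyHom : Polynomial ℂ →ₐ[ℂ] CA := Polynomial.aeval zC

/-- the disc algebra, as functions on the circle -/
noncomputable def AD : Subalgebra ℂ CA := polyHom.range.topologicalClosure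

lemma polyHom_mem (p : Polynomial ℂ) : polyHom p ∈ AD :=
  Subalgebra.le_topologicalClosure _ ⟨p, rfl⟩

lemma zC_mem : zC ∈ AD := by
  have : polyHom X = zC := by simp [polyHom]
  rw [← this]
  exact polyHom_mem _

lemma AD_closed : IsClosed (AD : Set CA) := Subalgebra.isClosed_topologicalClosure _

lemma AD_induction {P : CA → Prop} (hc : IsClosed {f | P f}) (hp : ∀ p, P (polyHom p)) :
    ∀ f ∈ AD, P f := by
  intro f hf
  have h1 : f ∈ closure (Set.range polyHom) := by
    have : ((AD : Subalgebra ℂ CA) : Set CA) = closure (Set.range polyHom) := by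
      unfold AD
      rw [Subalgebra.topologicalClosure_coe, AlgHom.coe_range]
    rw [← this]
    exact hf
  have h2 : Set.range polyHom ⊆ {f | P f} := by
    rintro _ ⟨p, rfl⟩
    exact hp p
  exact (closure_minimal h2 hc) h1

lemma AD_approx {f : CA} (hf : f ∈ AD) {ε : ℝ} (hε : 0 < ε) : ∃ p, ‖f - polyHom p‖ < ε := by
  have h1 : f ∈ closure (Set.range polyHom) := by
    have : ((AD : Subalgebra ℂ CA) : Set CA) = closure (Set.range polyHom) := by
      unfold AD
      rw [Subalgebra.topologicalClosure_coe, AlgHom.coe_range]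
    rw [← this]
    exact hf
  rw [Metric.mem_closure_iff] at h1
  obtain ⟨_, ⟨p, rfl⟩, hd⟩ := h1 ε hε
  exact ⟨p, by rwa [← dist_eq_norm]⟩

/-- induction from the powers of the coordinate -/
lemma AD_induction' {P : CA → Prop} (hc : IsClosed {f | P f})
    (hadd : ∀ f g, P f → P g → P (f + g)) (hmul : ∀ (c : ℂ) (k : ℕ), P (c • zC ^ k)) :
    ∀ f ∈ AD, P f := by
  refine AD_induction hc fun p => ?_
  induction p using Polynomial.induction_on' with
  | add p q hp hq => rw [map_add]; exact hadd _ _ hp hq
  | monomial k c =>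
    have : polyHom (monomial k c) = c • zC ^ k := by
      simp [polyHom, Polynomial.aeval_monomial, Algebra.smul_def]
    rw [this]
    exact hmul c k

/-- pointwise exponential -/
noncomputable def cexp (f : CA) : CA := ⟨fun w => Complex.exp (f w), by fun_prop⟩

lemma cexp_apply (f : CA) (w : Circle) : cexp f w = Complex.exp (f w) := rfl

lemma cexp_add (f g : CA) : cexp (f + g) = cexp f * cexp g := by
  ext w
  simp [cexp_apply, Complex.exp_add]

lemma cexp_zero : cexp 0 = 1 := by
  ext w
  simp [cexp_apply]

lemma cexp_mem {f : CA} (hf : f ∈ AD) : cexp f ∈ AD := by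
  have h1 : NormedSpace.exp f = cexp f := by
    ext w
    let ev : CA →ₐ[ℂ] ℂ := ContinuousMap.evalAlgHom ℂ ℂ w
    have hc : Continuous ev := continuous_eval_const w
    have h2 := NormedSpace.map_exp ev hc f
    change ev (NormedSpace.exp f) = _
    rw [h2, ← Complex.exp_eq_exp_ℂ]
    rfl
  rw [← h1, NormedSpace.exp_eq_tsum ℂ]
  have h2 := (NormedSpace.expSeries_summable' (𝕂 := ℂ) f).hasSum.tendsto_sum_nat
  refine AD_closed.mem_of_tendsto h2 (Filter.Eventually.of_forall fun n => ?_)
  exact AD.sum_mem fun i _ => AD.smul_mem (AD.pow_mem hf i) _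

section FC
variable {H : Type*} [NormedAddCommGroup H] [InnerProductSpace ℂ H] [CompleteSpace H]
variable {X : H →L[ℂ] H} {E : CA →ₗ[ℂ] (H →L[ℂ] H)}

lemma IsFC.norm_apply_le (h : IsFC X E) (f : CA) (x : H) : ‖E f x‖ ≤ ‖f‖ * ‖x‖ := by
  have h1 := h.column f 0 0 (‖f‖ ^ 2) (fun w => by
    have := f.norm_coe_le_norm w
    simp only [ContinuousMap.zero_apply, norm_zero]
    nlinarith [norm_nonneg (f w)]) x
  simp only [map_zero, zero_apply, norm_zero] at h1
  have h2 : ‖E f x‖ ^ 2 ≤ (‖f‖ * ‖x‖) ^ 2 := by nlinarith
  exact (sq_le_sq₀ (norm_nonneg _) (by positivity)).1 h2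

lemma IsFC.norm_le (h : IsFC X E) (f : CA) : ‖E f‖ ≤ ‖f‖ :=
  ContinuousLinearMap.opNorm_le_bound _ (norm_nonneg _) (h.norm_apply_le f)

lemma IsFC.continuous (h : IsFC X E) : Continuous E :=
  AddMonoidHomClass.continuous_of_bound E 1 (fun f => by rw [one_mul]; exact h.norm_le f)

lemma IsFC.one (h : IsFC X E) : E 1 = 1 := by
  have := h.pow 0
  simpa using this

lemma IsFC.z (h : IsFC X E) : E zC = X := by
  have := h.pow 1
  simpa using this

lemma IsFC.mul (h : IsFC X E) {f g : CA} (hf : f ∈ AD) (hg : g ∈ AD) :
    E (f * g) = E f * E g := by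
  have hE := h.continuous
  refine AD_induction' (P := fun f => ∀ g ∈ AD, E (f * g) = E f * E g) ?_ ?_ ?_ f hf g hg
  · simp only [Set.setOf_forall]
    refine isClosed_iInter fun g => isClosed_iInter fun _ => ?_
    exact isClosed_eq (hE.comp (continuous_id.mul continuous_const))
      (hE.mul continuous_const)
  · intro f1 f2 h1 h2 g hg
    rw [add_mul, map_add, h1 g hg, h2 g hg, map_add, add_mul]
  · intro c k g hg
    refine AD_induction' (P := fun g => E ((c • zC ^ k) * g) = E (c • zC ^ k) * E g) ?_ ?_ ?_ g hg
    · exact isClosed_eq (hE.comp (continuous_const.mul continuous_id))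
        (continuous_const.mul hE)
    · intro g1 g2 h1 h2
      rw [mul_add, map_add, h1, h2, map_add, mul_add]
    · intro c' k'
      rw [smul_mul_smul_comm, ← pow_add, map_smul, map_smul, map_smul, h.pow, h.pow, h.pow,
        smul_mul_smul_comm, ← pow_add]

lemma IsFC.mul_pow (h : IsFC X E) {f : CA} (hf : f ∈ AD) (k : ℕ) :
    E (zC ^ k * f) = X ^ k * E f := by
  rw [h.mul (AD.pow_mem zC_mem k) hf, h.pow]

lemma IsFC.commute (h : IsFC X E) {T : H →L[ℂ] H} (hT : T * X = X * T) {f : CA} (hf : f ∈ AD) :
    T * E f = E f * T := by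
  have hE := h.continuous
  refine AD_induction' (P := fun f => T * E f = E f * T) ?_ ?_ ?_ f hf
  · exact isClosed_eq (continuous_const.mul hE) (hE.mul continuous_const)
  · intro f1 f2 h1 h2
    rw [map_add, mul_add, h1, h2, add_mul]
  · intro c k
    rw [map_smul, h.pow, mul_smul_comm, smul_mul_assoc]
    congr 1
    exact (Commute.pow_right (show Commute T X from hT) k)

end FC

/-- the average is multiplicative on the disc algebra -/
lemma avg_zC_pow (k : ℕ) (hk : k ≠ 0) : avgL (zC ^ k) = 0 := by
  rw [← zp_natCast, avgL_apply, avg_zp _ (by exact_mod_cast hk)]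

lemma avgL_one : avgL 1 = 1 := by
  have := avg_zp_zero
  have h1 : zp 0 = (1 : CA) := by
    ext w
    rw [zp_apply]
    simp
  rw [h1] at this
  exact this

lemma avgL_mul {f g : CA} (hf : f ∈ AD) (hg : g ∈ AD) : avgL (f * g) = avgL f * avgL g := by
  have hE := avgL.continuous
  refine AD_induction' (P := fun f => ∀ g ∈ AD, avgL (f * g) = avgL f * avgL g) ?_ ?_ ?_ f hf g hg
  · simp only [Set.setOf_forall]
    refine isClosed_iInter fun g => isClosed_iInter fun _ => ?_
    exact isClosed_eq (hE.comp (continuous_id.mul continuous_const))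
      (hE.mul continuous_const)
  · intro f1 f2 h1 h2 g hg
    rw [add_mul, map_add, h1 g hg, h2 g hg, map_add, add_mul]
  · intro c k g hg
    refine AD_induction' (P := fun g => avgL ((c • zC ^ k) * g) = avgL (c • zC ^ k) * avgL g)
      ?_ ?_ ?_ g hg
    · exact isClosed_eq (hE.comp (continuous_const.mul continuous_id))
        (continuous_const.mul hE)
    · intro g1 g2 h1 h2
      rw [mul_add, map_add, h1, h2, map_add, mul_add]
    · intro c' k'
      rw [smul_mul_smul_comm, ← pow_add, map_smul, map_smul, map_smul, smul_eq_mul, smul_eq_mul,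
        smul_eq_mul]
      by_cases hk : k = 0
      · subst hk
        rw [pow_zero, zero_add, avgL_one]
        ring
      · rw [avg_zC_pow k hk, avg_zC_pow (k + k') (by omega)]
        ring

/-- a function divisible by a high power of `z` is orthogonal to polynomials of low degree -/
lemma avgL_orth {g : CA} (hg : g ∈ AD) {M : ℕ} {p : Polynomial ℂ} (hp : p.natDegree < M) :
    avgL (zC ^ M * g * star (polyHom p)) = 0 := by
  have hE := avgL.continuous
  refine AD_induction' (P := fun g => avgL (zC ^ M * g * star (polyHom p)) = 0) ?_ ?_ ?_ g hg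
  · exact isClosed_eq (hE.comp ((continuous_const.mul continuous_id).mul continuous_const))
      continuous_const
  · intro g1 g2 h1 h2
    rw [mul_add, add_mul, map_add, h1, h2, add_zero]
  · intro c k
    have h1 : polyHom p = ∑ i ∈ Finset.range (p.natDegree + 1), p.coeff i • zC ^ i := by
      unfold polyHom
      rw [Polynomial.aeval_eq_sum_range]
    rw [h1, star_sum, Finset.mul_sum, map_sum]
    apply Finset.sum_eq_zero
    intro i hi
    have hi2 : i < M := by
      have := Finset.mem_range.1 hi
      omega
    rw [star_smul, mul_smul_comm, mul_smul_comm, map_smul]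
    rw [smul_mul_assoc, map_smul, ← pow_add]
    have h2 : zC ^ (M + k) * star (zC ^ i) = zC ^ (M + k - i) := by
      rw [← zp_natCast, ← zp_natCast, ← zp_natCast, ← zp_neg, ← zp_add]
      congr 1
      omega
    rw [h2, avg_zC_pow _ (by omega)]
    simp

lemma norm_zC_le : ‖zC‖ ≤ 1 := by
  rw [ContinuousMap.norm_le _ zero_le_one]
  intro w
  simp

end Run7.h163
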