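import Pool.Agent.Run7.h163.FS

/-!
# The first function is not cyclic
-/

set_option autoImplicit false
set_option linter.unusedSectionVars false
set_option linter.unusedVariables false
set_option linter.deprecated false

open scoped ComplexConjugate InnerProductSpace InnerProduct
open ContinuousLinearMap Filter Topology Finset

namespace Run7.h163

lemma norm_bz (m : ℤ) : ‖bz m‖ = 1 := by
  have h4 : ⟪bz m, bz m⟫_ℂ = 1 := by
    rw [inner_bz, bz_apply]; simp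
  rw [inner_self_eq_norm_sq_to_K] at h4
  have h3 : ((‖bz m‖ ^ 2 : ℝ) : ℂ) = ((1 : ℝ) : ℂ) := by
    rw [Complex.ofReal_one, ← h4]
    simp
  have h5 := Complex.ofReal_injective h3
  nlinarith [norm_nonneg (bz m)]

lemma piS_avg (f : CA) : ⟪bz 0, piS f (bz 0)⟫_ℂ = avg f := by
  refine rep_avg piS (bz 0) (norm_bz 0) (fun k hk => ?_) f
  rw [inner_bz, map_pow, piS_z, Sh_pow_apply, bz_apply, if_neg (by omega)]

lemma piS_coord (f : CA) : piS f (bz 0) 0 = avg f := by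
  rw [← inner_bz, piS_avg]

lemma piS_l2 (f : CA) : ‖piS f (bz 0)‖ ^ 2 = avg (fun w => ‖f w‖ ^ 2) := by
  have h2 := rep_norm_sq piS f (bz 0)
  rw [piS_avg] at h2
  have h3 : ∀ w, (star f * f) w = ((‖f w‖ ^ 2 : ℝ) : ℂ) := by
    intro w
    rw [ContinuousMap.mul_apply, ContinuousMap.star_apply, ← Complex.normSq_eq_norm_sq,
      Complex.normSq_eq_conj_mul_self]
    rfl
  have h4 : avg (⇑(star f * f)) = ((avg (fun w => ‖f w‖ ^ 2) : ℝ) : ℂ) := by
    rw [← avg_ofReal]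
    congr 1
    ext w
    exact h3 w
  rw [h4] at h2
  exact Complex.ofReal_injective h2

namespace SUSeq
variable (s : SUSeq)

lemma Q_add_le (n0 : ℕ) (u v : KZ) : s.Q n0 (u + v) ≤ 2 * s.Q n0 u + 2 * s.Q n0 v := by
  unfold Q
  rw [← tsum_mul_left, ← tsum_mul_left, ← Summable.tsum_add ((s.Q_summable n0 u).mul_left 2)
    ((s.Q_summable n0 v).mul_left 2)]
  refine Summable.tsum_le_tsum (fun l => ?_) (s.Q_summable n0 _)
    (((s.Q_summable n0 u).mul_left 2).add ((s.Q_summable n0 v).mul_left 2))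
  have hsw := sw_nonneg (N := s.N') s.cc_nonneg n0 l
  rw [map_add]
  have h1 : ‖PZ (-(l : ℤ)) u + PZ (-(l : ℤ)) v‖ ^ 2 ≤
      2 * ‖PZ (-(l : ℤ)) u‖ ^ 2 + 2 * ‖PZ (-(l : ℤ)) v‖ ^ 2 := by
    have h2 := norm_add_le (PZ (-(l : ℤ)) u) (PZ (-(l : ℤ)) v)
    have h3 := pow_le_pow_left₀ (norm_nonneg _) h2 2
    nlinarith [sq_nonneg (‖PZ (-(l : ℤ)) u‖ - ‖PZ (-(l : ℤ)) v‖)]
  nlinarith

lemma Q_sum_le (n0 n : ℕ) (u : ℕ → KZ) :
    s.Q n0 (∑ j ∈ range n, u j) ≤ ∑ j ∈ range n, 2 ^ (j + 1) * s.Q n0 (u j) := by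
  induction n generalizing u with
  | zero => simp [Q]
  | succ n ih =>
    rw [sum_range_succ', sum_range_succ']
    refine (s.Q_add_le n0 _ _).trans ?_
    have h1 := ih (fun j => u (j + 1))
    have h2 : 2 * ∑ j ∈ range n, (2 : ℝ) ^ (j + 1) * s.Q n0 (u (j + 1)) =
        ∑ j ∈ range n, 2 ^ (j + 1 + 1) * s.Q n0 (u (j + 1)) := by
      rw [mul_sum]
      refine sum_congr rfl fun j _ => ?_
      rw [pow_succ (2 : ℝ) (j + 1)]
      ring
    rw [← h2]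
    simp only [zero_add, pow_one]
    linarith

lemma adj_coord_zero {f : CA} {M : ℕ} (hf : f ∈ DV M) {m : ℤ} (hm : -(M : ℤ) < m) :
    adjoint (piS f) (bz 0) m = 0 := by
  obtain ⟨g, hg, rfl⟩ := DV_eq hf
  rw [← inner_bz, ContinuousLinearMap.adjoint_inner_right, map_mul, mul_apply_eq_comp, map_pow,
    piS_z]
  have h1 : piS g (bz m) = PZ m (piS g (bz m)) := by
    have h2 : PZ m (bz m) = bz m := by
      ext k
      rw [PZ_apply, bz_apply]
      by_cases h : k = m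
      · subst h; simp
      · simp [h]
    have := PZ_AD hg m (bz m)
    rw [h2] at this
    exact this.symm
  rw [← inner_conj_symm, inner_bz, Sh_pow_apply, h1, PZ_apply, if_neg (by omega), map_zero]

lemma Q_DV (n0 : ℕ) {f : CA} {M : ℕ} (hM : 1 ≤ M) (hf : f ∈ DV M) :
    s.Q n0 (adjoint (piS f) (bz 0)) ≤
      ‖f‖ ^ 2 * ∑ k ∈ range n0, 100 * s.cc k * xx s.N' k ^ M := by
  set u := adjoint (piS f) (bz 0) with hu
  have hun : ‖u‖ ≤ ‖f‖ := by
    refine ((adjoint (piS f)).le_opNorm _).trans ?_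
    rw [LinearIsometryEquiv.norm_map, norm_bz, mul_one]
    exact piS_norm f
  have hz : ∀ l : ℕ, l < M → PZ (-(l : ℤ)) u = 0 := by
    intro l hl
    ext m
    rw [PZ_apply]
    split_ifs with h
    · exact adj_coord_zero hf (by omega)
    · rfl
  unfold Q
  rw [← (s.Q_summable n0 u).sum_add_tsum_nat_add M]
  have h1 : ∑ l ∈ range M, sw s.N' s.cc n0 l * ‖PZ (-(l : ℤ)) u‖ ^ 2 = 0 := by
    apply sum_eq_zero
    intro l hl
    rw [hz l (mem_range.1 hl)]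
    simp
  rw [h1, zero_add]
  have h2 : ∑' l : ℕ, sw s.N' s.cc n0 (l + M) * ‖PZ (-((l + M : ℕ) : ℤ)) u‖ ^ 2 ≤
      ∑' l : ℕ, sw s.N' s.cc n0 (l + M) * ‖f‖ ^ 2 := by
    refine Summable.tsum_le_tsum (fun l => ?_)
      ((summable_nat_add_iff (f := fun l : ℕ => sw s.N' s.cc n0 l * ‖PZ (-(l : ℤ)) u‖ ^ 2) M).2
        (s.Q_summable n0 u))
      (((summable_nat_add_iff (f := sw s.N' s.cc n0) M).2 (sw_summable n0)).mul_right _)
    exact mul_le_mul_of_nonneg_left (pow_le_pow_left₀ (norm_nonneg _)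
      ((PZ_norm_le _ u).trans hun) 2) (sw_nonneg s.cc_nonneg _ _)
  refine h2.trans (le_of_eq ?_)
  rw [tsum_mul_right, sw_tail n0 M hM, mul_comm]

end SUSeq

namespace FSeq
variable {d : ℕ} (F : FSeq d)

lemma norm_Ψ_le (n : ℕ) : ‖F.Φ (-1) n‖ ≤ Real.exp (F.L n) := by
  rw [ContinuousMap.norm_le _ (Real.exp_pos _).le]
  intro w
  rw [norm_Φ_apply, Real.exp_le_exp]
  have := F.h_le n w
  linarith

lemma L_nonneg (n : ℕ) : 0 ≤ F.L n := (F.h_pos n 1).trans (F.h_le n 1)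

/-- bound for `Q` of the reflected part -/
lemma Q_Ψ (n0 n : ℕ) : F.Q n0 (adjoint (piS (F.Φ (-1) n)) (bz 0)) ≤
    2 * Real.exp (F.L 0) ^ 2 + 16 := by
  let u : ℕ → KZ := fun j => match j with
    | 0 => adjoint (piS (F.Φ (-1) 0)) (bz 0)
    | (j + 1) => adjoint (piS (F.Φ (-1) (j + 1) - F.Φ (-1) j)) (bz 0)
  have hu : ∀ n, ∑ j ∈ range (n + 1), u j = adjoint (piS (F.Φ (-1) n)) (bz 0) := by
    intro n
    induction n with
    | zero => simp [u]
    | succ n ih =>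
      rw [sum_range_succ, ih]
      change _ + adjoint (piS (F.Φ (-1) (n + 1) - F.Φ (-1) n)) (bz 0) = _
      have : piS (F.Φ (-1) (n + 1) - F.Φ (-1) n) = piS (F.Φ (-1) (n + 1)) - piS (F.Φ (-1) n) :=
        map_sub _ _ _
      rw [this, map_sub, sub_apply]
      abel
  rw [← hu n]
  refine (F.Q_sum_le n0 (n + 1) u).trans ?_
  rw [sum_range_succ']
  have h0 : F.Q n0 (u 0) ≤ Real.exp (F.L 0) ^ 2 := by
    refine (F.Q_le F.hcs n0 _).trans (pow_le_pow_left₀ (norm_nonneg _) ?_ 2)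
    refine ((adjoint (piS (F.Φ (-1) 0))).le_opNorm _).trans ?_
    rw [LinearIsometryEquiv.norm_map, norm_bz, mul_one]
    exact (piS_norm _).trans (F.norm_Ψ_le 0)
  have h1 : ∀ j ∈ range n, (2 : ℝ) ^ (j + 1 + 1) * F.Q n0 (u (j + 1)) ≤
      16 * (1 / 2) ^ (j + 1) := by
    intro j _
    have h2 := F.toSUSeq.Q_DV n0 (M := F.Mx (j + 1)) (by have := F.Mx_ge j; omega)
      (F.Φ_sub_mem (-1) (Nat.le_succ j))
    have h3 : ‖F.Φ (-1) (j + 1) - F.Φ (-1) j‖ ≤ 2 * Real.exp (F.L (j + 1)) := by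
      refine (norm_sub_le _ _).trans ?_
      have a1 := F.norm_Ψ_le (j + 1)
      have a2 := F.norm_Ψ_le j
      have a3 := Real.exp_le_exp.2 (F.L_mono j)
      linarith
    have h4 : F.Q n0 (u (j + 1)) ≤ (2 * Real.exp (F.L (j + 1))) ^ 2 *
        ∑ k ∈ range n0, 100 * F.cc k * xx F.N' k ^ F.Mx (j + 1) := by
      refine h2.trans ?_
      have h5 : 0 ≤ ∑ k ∈ range n0, 100 * F.cc k * xx F.N' k ^ F.Mx (j + 1) :=
        sum_nonneg fun k _ => by
          have := F.cc_nonneg k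
          have := xx_nonneg (N := F.N') k
          positivity
      gcongr
    have h5 := F.weights n0 j
    have h6 : (2 * Real.exp (F.L (j + 1))) ^ 2 = 4 * Real.exp (2 * F.L (j + 1)) := by
      rw [mul_pow, ← Real.exp_nat_mul]
      norm_num
    have h7 : F.Q n0 (u (j + 1)) ≤ 8 * (1 / 4) ^ (j + 1) := by
      rw [h6] at h4
      linarith
    have h8 : (2 : ℝ) ^ (j + 1 + 1) * (8 * (1 / 4) ^ (j + 1)) = 16 * (1 / 2) ^ (j + 1) := by
      have : (1 / 2 : ℝ) ^ (j + 1) = 2 ^ (j + 1) * (1 / 4) ^ (j + 1) := by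
        rw [← mul_pow]; norm_num
      rw [this, pow_succ (2 : ℝ) (j + 1)]
      ring
    rw [← h8]
    gcongr
  have h2 := sum_le_sum h1
  rw [← mul_sum] at h2
  have h3 := SUSeq.half_sum n
  simp only [zero_add, pow_one]
  linarith

lemma avg_Φ_sq (n : ℕ) : avg (fun w => ‖(star (F.Φ 1 n) * F.Φ 1 n - 1 : CA) w‖ ^ 2) ≤
    2 * avg (fun w => min 1 (F.h n w).re) := by
  rw [← avg_rmul]
  refine avg_mono (by fun_prop) (by fun_prop) fun w => ?_
  have h1 : (star (F.Φ 1 n) * F.Φ 1 n - 1 : CA) w = ((Real.exp (-(2 * (F.h n w).re)) - 1 : ℝ) : ℂ) := by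
    have h2 : (star (F.Φ 1 n) * F.Φ 1 n - 1 : CA) w = star (F.Φ 1 n w) * F.Φ 1 n w - 1 := rfl
    have hsq : ∀ a : ℂ, star a * a = ((‖a‖ ^ 2 : ℝ) : ℂ) := by
      intro a
      rw [← Complex.normSq_eq_norm_sq, Complex.normSq_eq_conj_mul_self]
      rfl
    rw [h2, hsq, norm_Φ_apply, ← Real.exp_nat_mul]
    push_cast
    ring_nf
  rw [h1, Complex.norm_real, Real.norm_eq_abs, sq_abs]
  set ρ := (F.h n w).re with hρ
  have hρ0 : 0 ≤ ρ := F.h_pos n w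
  have e1 : Real.exp (-(2 * ρ)) ≤ 1 := by
    rw [Real.exp_le_one_iff]; linarith
  have e2 := Real.exp_pos (-(2 * ρ))
  have e3 := Real.add_one_le_exp (-(2 * ρ))
  rcases le_total 1 ρ with h | h
  · rw [min_eq_left h]
    nlinarith
  · rw [min_eq_right h]
    nlinarith

end FSeq

theorem b_main {d : ℕ} (Y : FSys d) (T1 : HD d →L[ℂ] HD d)
    (hT : ∀ x, Tendsto (fun n => Y.S.E (Y.F.Φ 1 n) x) atTop (𝓝 (T1 x))) :
    ∃ δ > 0, ∀ x, δ ≤ ‖T1 x - Sys.e0‖ := by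
  obtain ⟨G, hG1, hG2, hG3, hG4, hG5⟩ := exists_G Y.F.toSUSeq Y.F.hcs Y.S.i0 Y.S.i1 Y.S.i2
    Y.S.h01 Y.S.h02 Y.S.h12
  have hint := intertwine Y.F.toSUSeq Y.F.hok Y.S Y.eC Y.eA G hG3 hG4 hG5
  set c : ℝ := 2 + 2 * (2 * Real.exp (Y.F.L 0) ^ 2 + 16) with hc
  have hc0 : 0 ≤ c := by positivity
  obtain ⟨y, hy⟩ : ∃ y : ℕ → KZ, y = fun n => piS (Y.F.Φ 1 n) (bz 0) -
    adjoint (piS (Y.F.Φ (-1) n)) (bz 0) := ⟨_, rfl⟩
  have hQ : ∀ n n0, Y.F.Q n0 (y n) ≤ c := by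
    intro n n0
    have e : y n = piS (Y.F.Φ 1 n) (bz 0) +
        (-1 : ℂ) • adjoint (piS (Y.F.Φ (-1) n)) (bz 0) := by
      rw [hy]
      simp only [neg_smul, one_smul]
      abel
    rw [e]
    refine (Y.F.Q_add_le n0 _ _).trans ?_
    rw [Y.F.Q_smul]
    have h1 : Y.F.Q n0 (piS (Y.F.Φ 1 n) (bz 0)) ≤ 1 := by
      refine (Y.F.Q_le Y.F.hcs n0 _).trans ?_
      have h2 := piS_norm_apply (Y.F.Φ 1 n) (bz 0)
      rw [norm_bz, mul_one] at h2
      have h3 := Y.F.norm_Φ_le 1 zero_le_one n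
      nlinarith [norm_nonneg (piS (Y.F.Φ 1 n) (bz 0))]
    have h2 := Y.F.Q_Ψ n0 n
    have h3 : ‖(-1 : ℂ)‖ ^ 2 = 1 := by simp
    rw [h3, one_mul]
    linarith
  set B : ℝ := √(4 * c) with hB
  have hGy : ∀ n, ‖G (y n)‖ ≤ B := by
    intro n
    have h1 := hG1 (y n) c (hQ n)
    exact Real.le_sqrt_of_sq_le h1
  have hGn : ∀ v, ‖G v‖ ≤ 2 * ‖v‖ := by
    intro v
    have h1 := hG1 v (‖v‖ ^ 2) (fun n0 => Y.F.Q_le Y.F.hcs n0 v)
    have h2 : ‖G v‖ ^ 2 ≤ (2 * ‖v‖) ^ 2 := by linarith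
    exact (sq_le_sq₀ (norm_nonneg _) (by positivity)).1 h2
  -- the value of the functional at the vacuum
  set κ : ℂ := Complex.exp (-1) - Complex.exp 1 with hκ
  have hval : ∀ n, ⟪Sys.e0, G (y n)⟫_ℂ = κ := by
    intro n
    unfold Sys.e0
    rw [inner_bv, hG2]
    have h1 : y n 0 = piS (Y.F.Φ 1 n) (bz 0) 0 - adjoint (piS (Y.F.Φ (-1) n)) (bz 0) 0 := by
      rw [hy]; rfl
    have h2 : adjoint (piS (Y.F.Φ (-1) n)) (bz 0) 0 = conj (avg (Y.F.Φ (-1) n)) := by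
      rw [← inner_bz, ContinuousLinearMap.adjoint_inner_right, ← inner_conj_symm, piS_avg]
    have h3 : ∀ t : ℝ, avg (Y.F.Φ t n) = Complex.exp (-t) := by
      intro t
      rw [← avgL_apply]
      unfold FSeq.Φ
      rw [avgL_cexp (AD.neg_mem (AD.smul_mem (Y.F.h_mem n) _)), map_neg, map_smul, Y.F.h_avg]
      simp
    rw [h1, h2, piS_coord, h3, h3]
    have h4 : conj (Complex.exp (-((-1 : ℝ) : ℂ))) = Complex.exp 1 := by
      rw [← Complex.exp_conj]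
      congr 1
      simp
    rw [h4, hκ]
    norm_num
  -- the functional is almost annihilated
  obtain ⟨r, hr⟩ : ∃ r : ℕ → ℝ, r = fun n =>
    √(avg (fun w => ‖(star (Y.F.Φ 1 n) * Y.F.Φ 1 n - 1 : CA) w‖ ^ 2)) := ⟨_, rfl⟩
  have hr0 : Tendsto r atTop (𝓝 0) := by
    have h1 : Tendsto (fun n => 2 * avg (fun w => min 1 (Y.F.h n w).re)) atTop (𝓝 (2 * 0)) :=
      Y.F.min_tendsto.const_mul 2
    rw [mul_zero] at h1
    have h2 : Tendsto (fun n => √(2 * avg (fun w => min 1 (Y.F.h n w).re))) atTop (𝓝 (√0)) :=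
      (Real.continuous_sqrt.tendsto 0).comp h1
    rw [Real.sqrt_zero] at h2
    rw [hr]
    exact squeeze_zero (fun n => Real.sqrt_nonneg _) (fun n => Real.sqrt_le_sqrt (Y.F.avg_Φ_sq n)) h2
  have hann : ∀ n, ‖adjoint (Y.S.E (Y.F.Φ 1 n)) (G (y n))‖ ≤ 2 * r n := by
    intro n
    rw [intertwine_fc Y.S.fc G hint (Y.F.Φ_mem 1 n)]
    refine (hGn _).trans ?_
    have h1 : adjoint (piS (Y.F.Φ 1 n)) (y n) =
        piS (star (Y.F.Φ 1 n) * Y.F.Φ 1 n - 1) (bz 0) := by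
      rw [hy]
      simp only
      rw [map_sub]
      have e1 : adjoint (piS (Y.F.Φ 1 n)) (piS (Y.F.Φ 1 n) (bz 0)) =
          piS (star (Y.F.Φ 1 n) * Y.F.Φ 1 n) (bz 0) := by
        rw [← ContinuousLinearMap.star_eq_adjoint, ← map_star, map_mul, mul_apply_eq_comp]
      have e2 : adjoint (piS (Y.F.Φ 1 n)) (adjoint (piS (Y.F.Φ (-1) n)) (bz 0)) = bz 0 := by
        rw [← ContinuousLinearMap.star_eq_adjoint, ← ContinuousLinearMap.star_eq_adjoint,
          ← map_star, ← map_star, ← mul_apply_eq_comp, ← map_mul, ← star_mul, ← Y.F.Φ_add]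
        have : Y.F.Φ (-1 + 1) n = 1 := by
          unfold FSeq.Φ
          norm_num
          exact cexp_zero
        rw [this, star_one, map_one, one_apply_eq_self]
      rw [e1, e2]
      have e3 : piS (star (Y.F.Φ 1 n) * Y.F.Φ 1 n - 1) =
          piS (star (Y.F.Φ 1 n) * Y.F.Φ 1 n) - piS 1 := map_sub _ _ _
      rw [e3, map_one, sub_apply, one_apply_eq_self]
    rw [h1]
    have h2 := piS_l2 (star (Y.F.Φ 1 n) * Y.F.Φ 1 n - 1)
    have h3 : ‖piS (star (Y.F.Φ 1 n) * Y.F.Φ 1 n - 1) (bz 0)‖ = r n := by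
      rw [hr]
      simp only
      rw [← h2, Real.sqrt_sq (norm_nonneg _)]
    rw [h3]
  have hκ0 : 0 < ‖κ‖ := by
    rw [norm_pos_iff, hκ]
    have e : Complex.exp (-1) - Complex.exp 1 = ((Real.exp (-1) - Real.exp 1 : ℝ) : ℂ) := by
      push_cast
      rfl
    rw [e, Complex.ofReal_ne_zero]
    have := Real.exp_lt_exp.2 (show (-1 : ℝ) < 1 by norm_num)
    linarith
  refine ⟨‖κ‖ / (B + 1), by positivity, fun x => ?_⟩
  rw [div_le_iff₀ (by positivity)]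
  have h1 : ∀ n, ‖κ‖ ≤ ‖Y.S.E (Y.F.Φ 1 n) x - Sys.e0‖ * B + ‖x‖ * (2 * r n) := by
    intro n
    have e1 : κ = ⟪Sys.e0 - Y.S.E (Y.F.Φ 1 n) x, G (y n)⟫_ℂ +
        ⟪x, adjoint (Y.S.E (Y.F.Φ 1 n)) (G (y n))⟫_ℂ := by
      rw [ContinuousLinearMap.adjoint_inner_right, inner_sub_left, hval]
      ring
    rw [e1]
    refine (norm_add_le _ _).trans (add_le_add ?_ ?_)
    · refine (norm_inner_le_norm _ _).trans ?_
      rw [norm_sub_rev]
      gcongr
      exact hGy n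
    · refine (norm_inner_le_norm _ _).trans ?_
      gcongr
      exact hann n
  have h2 : Tendsto (fun n => ‖Y.S.E (Y.F.Φ 1 n) x - Sys.e0‖ * B + ‖x‖ * (2 * r n)) atTop
      (𝓝 (‖T1 x - Sys.e0‖ * B + ‖x‖ * (2 * 0))) :=
    ((((hT x).sub_const _).norm).mul_const B).add ((hr0.const_mul 2).const_mul _)
  have h3 := ge_of_tendsto' h2 h1
  rw [mul_zero, mul_zero, add_zero] at h3
  nlinarith [norm_nonneg (T1 x - Sys.e0)]

end Run7.h163
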