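import Pool.Agent.Run7.h163.HS1

/-!
# Multinomial weights, basis vectors
-/

set_option autoImplicit false
set_option linter.unusedSectionVars false
set_option linter.unusedVariables false
set_option linter.deprecated false

open scoped ComplexConjugate InnerProductSpace InnerProduct
open ContinuousLinearMap Filter Topology Finset

namespace Run7.h163

variable {d : ℕ}

/-- the multinomial coefficient `|α|!/α!` -/
noncomputable def wi (α : MI d) : ℝ := ((deg α).factorial : ℝ) / ∏ i, ((α i).factorial : ℝ)

lemma prod_fact_pos (α : MI d) : 0 < ∏ i, ((α i).factorial : ℝ) :=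
  prod_pos fun i _ => by exact_mod_cast Nat.factorial_pos _

lemma wi_pos (α : MI d) : 0 < wi α :=
  div_pos (by exact_mod_cast Nat.factorial_pos _) (prod_fact_pos α)

lemma wi_zero : wi (0 : MI d) = 1 := by
  simp [wi, deg_zero]

lemma prod_fact_succ (α : MI d) (j : Fin d) :
    ∏ i, (((α + ee j) i).factorial : ℝ) = (α j + 1) * ∏ i, ((α i).factorial : ℝ) := by
  rw [← mul_prod_erase univ (fun i => (((α + ee j) i).factorial : ℝ)) (mem_univ j),
    ← mul_prod_erase univ (fun i => ((α i).factorial : ℝ)) (mem_univ j)]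
  have h1 : (((α + ee j) j).factorial : ℝ) = (α j + 1) * (α j).factorial := by
    simp [ee, Nat.factorial_succ]
  have h2 : ∏ i ∈ univ.erase j, (((α + ee j) i).factorial : ℝ) =
      ∏ i ∈ univ.erase j, ((α i).factorial : ℝ) := by
    refine prod_congr rfl fun i hi => ?_
    have : i ≠ j := (mem_erase.1 hi).1
    simp [ee, this]
  rw [h1, h2]
  ring

lemma cf_wi (α : MI d) (j : Fin d) : cf j (α + ee j) ^ 2 * wi (α + ee j) = wi α := by
  rw [cf_sq]
  unfold wi
  rw [prod_fact_succ, deg_add, deg_ee, Nat.factorial_succ]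
  have h1 : (((α + ee j) j : ℕ) : ℝ) = α j + 1 := by simp [ee]
  rw [h1]
  have h2 := (prod_fact_pos α).ne'
  have h3 : ((α j : ℝ) + 1) ≠ 0 := by positivity
  push_cast
  field_simp

lemma cf_sum_all {β : MI d} (h : deg β ≠ 0) : ∑ j, cf j β ^ 2 = 1 := by
  simp_rw [cf_sq]
  rw [← sum_div]
  have : ∑ j, (β j : ℝ) = deg β := by
    unfold deg
    push_cast
    rfl
  rw [this, div_self]
  exact_mod_cast h

/-- multi-indices of degree `n` -/
def Dg (d n : ℕ) : Finset (MI d) := (univ : Finset (Fin d)).piAntidiag n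

lemma mem_Dg {n : ℕ} {α : MI d} : α ∈ Dg d n ↔ deg α = n := by
  unfold Dg
  rw [mem_piAntidiag]
  simp [deg]

lemma exists_fin_approx (x : HD d) {ε : ℝ} (hε : 0 < ε) :
    ∃ s : Finset (MI d), ‖(∑ β ∈ s, x β • bv β) - x‖ < ε := by
  have hs0 := lp.hasSum_single (E := fun _ : MI d => ℂ) (p := 2) (by norm_num) x
  have hs1 : Tendsto (fun s : Finset (MI d) => ∑ β ∈ s, (lp.single 2 β (x β) : HD d)) atTop
      (𝓝 x) := by
    unfold HasSum at hs0
    rw [SummationFilter.unconditional_filter] at hs0
    exact hs0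
  obtain ⟨s, hs⟩ := (Metric.tendsto_atTop.1 hs1) ε hε
  refine ⟨s, ?_⟩
  have h1 := hs s le_rfl
  rw [dist_eq_norm] at h1
  have h2 : ∑ β ∈ s, x β • (bv β : HD d) = ∑ β ∈ s, (lp.single 2 β (x β) : HD d) := by
    refine sum_congr rfl fun β _ => ?_
    unfold bv
    rw [← lp.single_smul, smul_eq_mul, mul_one]
  rw [h2]
  exact h1

/-- every basis vector is obtained from the vacuum by coordinate multiplications -/
lemma bv_induction {P : HD d → Prop} (h0 : P (bv 0)) (hM : ∀ j x, P x → P (M j x))
    (hs : ∀ (c : ℂ) x, P x → P (c • x)) (α : MI d) : P (bv α) := by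
  have key : ∀ n, ∀ α : MI d, deg α = n → P (bv α) := by
    intro n
    induction n with
    | zero => intro α hα; rw [deg_eq_zero hα]; exact h0
    | succ n ih =>
      intro α hα
      obtain ⟨j, hj⟩ : ∃ j, α j ≠ 0 := by
        by_contra h
        push Not at h
        have : deg α = 0 := by
          unfold deg
          exact Finset.sum_eq_zero fun i _ => h i
        omega
      have e1 := deg_add (α - ee j) (ee j)
      rw [sub_add_ee hj, deg_ee] at e1
      have h1 := hM j _ (ih (α - ee j) (by omega))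
      rw [M_bv, sub_add_ee hj] at h1
      have h2 := hs ((cf j α : ℂ)⁻¹) _ h1
      rw [smul_smul, inv_mul_cancel₀, one_smul] at h2
      · exact h2
      · rw [Complex.ofReal_ne_zero]
        unfold cf
        have h3 : (0 : ℝ) < α j := by exact_mod_cast Nat.pos_of_ne_zero hj
        have h4 : (0 : ℝ) < deg α := by
          rw [hα]; positivity
        exact (Real.sqrt_pos.2 (div_pos h3 h4)).ne'
  exact key _ α rfl

lemma comm_app {S T : HD d →L[ℂ] HD d} (h : Commute S T) (x : HD d) : S (T x) = T (S x) := by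
  have := congrArg (fun R : HD d →L[ℂ] HD d => R x) h.eq
  exact this

end Run7.h163
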