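import Mathlib

/-!
# The pointwise bound
-/

set_option autoImplicit false
set_option linter.unusedSectionVars false
set_option linter.unusedVariables false
set_option linter.deprecated false

open scoped ComplexConjugate InnerProductSpace InnerProduct
open ContinuousLinearMap Filter Topology Finset

namespace Run7.h163

lemma pt_identity (C A w2 w3 P Q : ℂ) :
    ‖C * P + Q * w2‖ ^ 2 + ‖A * P + Q * w3‖ ^ 2 =
      ‖P‖ ^ 2 * (‖C‖ ^ 2 + ‖A‖ ^ 2) + ‖Q‖ ^ 2 * (‖w2‖ ^ 2 + ‖w3‖ ^ 2) +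
        2 * (conj P * Q * (conj C * w2 + conj A * w3)).re := by
  simp only [Complex.sq_norm, Complex.normSq_apply, Complex.mul_re, Complex.mul_im,
    Complex.add_re, Complex.add_im, Complex.conj_re, Complex.conj_im]
  ring

lemma pt_bound (C A w2 w3 ζ ζK π y : ℂ) (b κ : ℝ) (hb : b ^ 2 = 1 / 2) (hb0 : 0 ≤ b)
    (h1 : ‖C‖ ^ 2 + ‖A‖ ^ 2 = 1) (h2 : ‖w2‖ ^ 2 + ‖w3‖ ^ 2 = 1) (hζ : ‖ζ‖ = 1) (hζK : ‖ζK‖ = 1)
    (hπ : ‖π‖ ≤ 1) (hr : ‖ζK * (conj C * w2 + conj A * w3) - ζ * π‖ ≤ κ) (hκ : κ ≤ 2)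
    (hy : ‖y‖ ≤ 1) :
    ‖(b : ℂ) * (1 - y * b * π)‖ ^ 2 + ‖C * ((b : ℂ) * ζ * (1 - y * b * π)) + y * ζK * w2‖ ^ 2 +
      ‖A * ((b : ℂ) * ζ * (1 - y * b * π)) + y * ζK * w3‖ ^ 2 ≤
      1 + 2 * b * κ * ‖y‖ + 4 * ‖y‖ ^ 2 := by
  rw [add_assoc, pt_identity, h1, h2]
  set g : ℂ := 1 - y * b * π with hg
  set β : ℂ := conj C * w2 + conj A * w3 with hβ
  set r : ℂ := ζK * β - ζ * π with hrr
  have hζζ : conj ζ * ζ = 1 := by
    rw [← Complex.normSq_eq_conj_mul_self, Complex.normSq_eq_norm_sq, hζ]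
    simp
  have e1 : conj ((b : ℂ) * ζ * g) * (y * ζK) * β =
      (b : ℂ) * (y * conj g * π) + (b : ℂ) * (y * conj g * conj ζ * r) := by
    rw [hrr]
    simp only [map_mul, Complex.conj_ofReal]
    linear_combination ((b : ℂ) * y * conj g * π) * hζζ
  have e2 : ‖(b : ℂ) * g‖ ^ 2 = 1 / 2 * ‖g‖ ^ 2 := by
    rw [norm_mul, mul_pow, Complex.norm_real, Real.norm_eq_abs, sq_abs, hb]
  have e3 : ‖(b : ℂ) * ζ * g‖ ^ 2 = 1 / 2 * ‖g‖ ^ 2 := by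
    rw [norm_mul, norm_mul, hζ, mul_one, mul_pow, Complex.norm_real, Real.norm_eq_abs, sq_abs, hb]
  have e4 : ‖y * ζK‖ ^ 2 = ‖y‖ ^ 2 := by rw [norm_mul, hζK, mul_one]
  rw [e1, e2, e3, e4, Complex.add_re]
  have e5 : ‖g‖ ^ 2 + 2 * ((b : ℂ) * (y * conj g * π)).re ≤ 1 := by
    have : ‖g‖ ^ 2 + 2 * ((b : ℂ) * (y * conj g * π)).re = 1 - ‖y * b * π‖ ^ 2 := by
      rw [hg]
      simp only [Complex.sq_norm, Complex.normSq_apply, Complex.mul_re, Complex.mul_im,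
        Complex.sub_re, Complex.sub_im, Complex.conj_re, Complex.conj_im, Complex.one_re,
        Complex.one_im, Complex.ofReal_re, Complex.ofReal_im, map_sub, map_one, map_mul]
      ring
    rw [this]
    nlinarith [sq_nonneg ‖y * b * π‖]
  have hgn : ‖g‖ ≤ 1 + b * ‖y‖ := by
    calc ‖g‖ ≤ ‖(1:ℂ)‖ + ‖y * b * π‖ := norm_sub_le _ _
      _ = 1 + ‖y‖ * b * ‖π‖ := by
          rw [norm_mul, norm_mul, Complex.norm_real, Real.norm_eq_abs, abs_of_nonneg hb0]; simp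
      _ ≤ 1 + ‖y‖ * b * 1 := by gcongr
      _ = 1 + b * ‖y‖ := by ring
  have hκ0 : 0 ≤ κ := (norm_nonneg _).trans hr
  have e6 : ((b : ℂ) * (y * conj g * conj ζ * r)).re ≤ b * (‖y‖ * (1 + b * ‖y‖) * κ) := by
    refine (Complex.re_le_norm _).trans ?_
    rw [norm_mul, norm_mul, norm_mul, norm_mul, RCLike.norm_conj, RCLike.norm_conj, hζ,
      Complex.norm_real, Real.norm_eq_abs, abs_of_nonneg hb0, mul_one]
    gcongr
  have hy0 := norm_nonneg y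
  have e7 : b * (‖y‖ * (1 + b * ‖y‖) * κ) ≤ b * κ * ‖y‖ + 1 / 2 * (2 * ‖y‖ ^ 2) := by
    have : b * (‖y‖ * (1 + b * ‖y‖) * κ) = b * κ * ‖y‖ + b ^ 2 * κ * ‖y‖ ^ 2 := by ring
    rw [this, hb]
    nlinarith [sq_nonneg ‖y‖]
  nlinarith [sq_nonneg ‖y‖]

end Run7.h163
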