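import Pool.Agent.Run7.h163.LE0
import Pool.Agent.Run7.h163.PB

/-!
# The key estimate for products of powers of `X` with almost annihilating operators
-/

set_option autoImplicit false
set_option linter.unusedSectionVars false
set_option linter.unusedVariables false
set_option linter.deprecated false

open scoped ComplexConjugate InnerProductSpace InnerProduct
open ContinuousLinearMap

namespace Run7.h163

section deriv
variable {𝔸 : Type*} [NormedRing 𝔸] [NormedAlgebra ℂ 𝔸]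

lemma lin_hasDerivAt (X Z : 𝔸) (c : ℂ) : HasDerivAt (fun y : ℂ => X + y • Z) Z c := by
  have h1 : HasDerivAt (fun y : ℂ => y • Z) ((1:ℂ) • Z) c := (hasDerivAt_id c).smul_const Z
  rw [one_smul] at h1
  exact h1.const_add X

lemma pow_differentiable (X Z : 𝔸) (n : ℕ) : Differentiable ℂ fun y : ℂ => (X + y • Z) ^ n := by
  induction n with
  | zero => simp
  | succ n ih =>
    simp_rw [pow_succ]
    exact ih.mul fun y => (lin_hasDerivAt X Z y).differentiableAt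

lemma pow_hasDerivAt (X Z : 𝔸) (h : Commute X Z) (n : ℕ) :
    HasDerivAt (fun y : ℂ => (X + y • Z) ^ (n + 1)) (((n : ℂ) + 1) • (X ^ n * Z)) 0 := by
  induction n with
  | zero =>
    simp only [zero_add, pow_one, Nat.cast_zero, one_smul, pow_zero, one_mul]
    exact lin_hasDerivAt X Z 0
  | succ n ih =>
    have h1 := ih.mul (lin_hasDerivAt X Z 0)
    simp only [zero_smul, add_zero] at h1
    have e : (((n + 1 : ℕ) : ℂ) + 1) • (X ^ (n + 1) * Z) =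
        ((n : ℂ) + 1) • (X ^ n * Z) * X + X ^ (n + 1) * Z := by
      have h2 : X ^ n * Z * X = X ^ (n + 1) * Z := by
        rw [mul_assoc, ← h.eq, ← mul_assoc, ← pow_succ]
      rw [smul_mul_assoc, h2]
      push_cast
      rw [add_smul _ (1:ℂ), one_smul]
    rw [e]
    have h3 : (fun y : ℂ => (X + y • Z) ^ (n + 1 + 1)) =
        (fun y : ℂ => (X + y • Z) ^ (n + 1)) * fun y => X + y • Z := by
      ext y
      rw [pow_succ]
      rfl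
    rw [h3]
    exact h1

theorem pow_mul_norm_le (X Z : 𝔸) (h : Commute X Z) (a : ℝ) (ha : 0 ≤ a)
    (hn : ∀ y : ℂ, ‖y‖ ≤ 1 → ‖X + y • Z‖ ^ 2 ≤ 1 + 2 * a * ‖y‖ + 4 * ‖y‖ ^ 2) (k : ℕ) :
    ‖X ^ k * Z‖ ≤ Real.exp (a * √((k : ℝ) + 1) + 2) / √((k : ℝ) + 1) := by
  set s : ℝ := √((k : ℝ) + 1) with hs
  have hs2 : s ^ 2 = (k : ℝ) + 1 := Real.sq_sqrt (by positivity)
  have hs1 : 1 ≤ s := by
    rw [hs]
    apply Real.one_le_sqrt.2
    have : (0 : ℝ) ≤ k := Nat.cast_nonneg k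
    linarith
  have hs0 : 0 < s := by linarith
  have h1 := Complex.norm_deriv_le_of_forall_mem_sphere_norm_le (c := (0:ℂ)) (R := s⁻¹)
    (C := Real.exp (a * s + 2)) (f := fun y : ℂ => (X + y • Z) ^ (k + 1)) (by positivity)
    (pow_differentiable X Z (k + 1)).diffContOnCl (by
      intro y hy
      rw [mem_sphere_zero_iff_norm] at hy
      have hy1 : ‖y‖ ≤ 1 := by
        rw [hy]
        exact inv_le_one_of_one_le₀ hs1
      have h2 := hn y hy1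
      rw [hy] at h2
      have h3 : 1 + 2 * a * s⁻¹ + 4 * s⁻¹ ^ 2 ≤ Real.exp ((a * s⁻¹ + 2 * s⁻¹ ^ 2)) ^ 2 := by
        rw [← Real.exp_nat_mul]
        have := Real.add_one_le_exp (((2 : ℕ) : ℝ) * (a * s⁻¹ + 2 * s⁻¹ ^ 2))
        refine le_trans (le_of_eq ?_) this
        push_cast
        ring
      have h4 : ‖X + y • Z‖ ≤ Real.exp ((a * s⁻¹ + 2 * s⁻¹ ^ 2)) :=
        (sq_le_sq₀ (norm_nonneg _) (Real.exp_pos _).le).1 (h2.trans h3)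
      calc ‖(X + y • Z) ^ (k + 1)‖ ≤ ‖X + y • Z‖ ^ (k + 1) := norm_pow_le' _ (Nat.succ_pos k)
        _ ≤ Real.exp ((a * s⁻¹ + 2 * s⁻¹ ^ 2)) ^ (k + 1) := by gcongr
        _ = Real.exp (a * s + 2) := by
            rw [← Real.exp_nat_mul]
            congr 1
            push_cast
            rw [← hs2]
            field_simp)
  rw [(pow_hasDerivAt X Z h k).deriv, norm_smul] at h1
  have h5 : ‖((k : ℂ) + 1)‖ = s ^ 2 := by
    rw [hs2]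
    have : ((k : ℂ) + 1) = (((k + 1 : ℕ) : ℝ) : ℂ) := by push_cast; ring
    rw [this, Complex.norm_real, Real.norm_eq_abs, abs_of_nonneg (by positivity)]
    push_cast
    ring
  rw [h5, div_inv_eq_mul] at h1
  rw [le_div_iff₀ hs0]
  have h6 : s * (‖X ^ k * Z‖ * s) ≤ s * Real.exp (a * s + 2) := by nlinarith
  exact le_of_mul_le_mul_left h6 hs0

end deriv

variable {d : ℕ}

namespace Sys

variable (S : Sys d)

lemma pencil_norm {w2 w3 π1 : CA} (h2 : w2 ∈ AD) (h3 : w3 ∈ AD) (hπ : π1 ∈ AD)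
    (hw : ∀ ζ, ‖w2 ζ‖ ^ 2 + ‖w3 ζ‖ ^ 2 = 1) (hπ1 : ∀ ζ, ‖π1 ζ‖ ≤ 1) (K0 : ℕ) (κ : ℝ) (hκ : κ ≤ 2)
    (hr : ∀ ζ : Circle, ‖(ζ : ℂ) ^ K0 * (conj (S.C ζ) * w2 ζ + conj (S.A ζ) * w3 ζ) -
      ζ * π1 ζ‖ ≤ κ) (y : ℂ) (hy : ‖y‖ ≤ 1) :
    ‖S.X + y • (S.X ^ K0 * S.W w2 w3 - (bb : ℂ) • (S.X * S.E π1))‖ ^ 2 ≤
      1 + 2 * (bb * κ) * ‖y‖ + 4 * ‖y‖ ^ 2 := by
  set g : CA := 1 - (y * bb) • π1 with hg
  have hgm : g ∈ AD := AD.sub_mem AD.one_mem (AD.smul_mem hπ _)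
  set f1 : CA := (bb : ℂ) • g with hf1
  set f2 : CA := (bb : ℂ) • (S.C * (zC * g)) + y • (zC ^ K0 * w2) with hf2
  set f3 : CA := (bb : ℂ) • (S.A * (zC * g)) + y • (zC ^ K0 * w3) with hf3
  have hzg : zC * g ∈ AD := AD.mul_mem zC_mem hgm
  have hEzg : S.E (zC * g) = S.X * S.E g := by rw [S.fc.mul zC_mem hgm, S.fc.z]
  have e1 : S.X + y • (S.X ^ K0 * S.W w2 w3 - (bb : ℂ) • (S.X * S.E π1)) =
      M S.i0 * S.E f1 + M S.i1 * S.E f2 + M S.i2 * S.E f3 := by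
    have e2 : S.E f2 = (bb : ℂ) • (S.E S.C * (S.X * S.E g)) + y • (S.X ^ K0 * S.E w2) := by
      rw [hf2, map_add, map_smul, map_smul, S.fc.mul S.hC hzg, hEzg, S.fc.mul_pow h2]
    have e3 : S.E f3 = (bb : ℂ) • (S.E S.A * (S.X * S.E g)) + y • (S.X ^ K0 * S.E w3) := by
      rw [hf3, map_add, map_smul, map_smul, S.fc.mul S.hA hzg, hEzg, S.fc.mul_pow h3]
    have e4 : S.E f1 = (bb : ℂ) • S.E g := by rw [hf1, map_smul]
    have e5 : S.E g = 1 - (y * bb) • S.E π1 := by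
      rw [hg, map_sub, S.fc.one, map_smul]
    have e6 : S.X * S.E g = (bb : ℂ) • (M S.i0 * S.E g) +
        (bb : ℂ) • ((M S.i1 * S.E S.C + M S.i2 * S.E S.A) * (S.X * S.E g)) := by
      have h := S.fix
      unfold GG at h
      conv_lhs => rw [h]
      rw [add_mul, smul_mul_assoc, smul_mul_assoc]
      simp only [mul_assoc]
    have c1 : M S.i1 * (S.X ^ K0 * S.E w2) = S.X ^ K0 * (M S.i1 * S.E w2) := by
      rw [← mul_assoc, ← mul_assoc, ((S.comm S.i1).pow_right K0).eq]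
    have c2 : M S.i2 * (S.X ^ K0 * S.E w3) = S.X ^ K0 * (M S.i2 * S.E w3) := by
      rw [← mul_assoc, ← mul_assoc, ((S.comm S.i2).pow_right K0).eq]
    have e7 : M S.i0 * S.E f1 + M S.i1 * S.E f2 + M S.i2 * S.E f3 =
        S.X * S.E g + y • (S.X ^ K0 * S.W w2 w3) := by
      rw [e2, e3, e4]
      rw [mul_add, mul_add, mul_smul_comm, mul_smul_comm, mul_smul_comm, mul_smul_comm,
        mul_smul_comm, c1, c2]
      unfold W
      conv_rhs => rw [e6]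
      rw [mul_add (S.X ^ K0), smul_add, add_mul, smul_add]
      simp only [mul_assoc]
      abel
    rw [e7, e5, mul_sub, mul_one, mul_smul_comm, smul_sub, smul_smul]
    abel
  have hpt : ∀ ζ, ‖f1 ζ‖ ^ 2 + ‖f2 ζ‖ ^ 2 + ‖f3 ζ‖ ^ 2 ≤ 1 + 2 * bb * κ * ‖y‖ + 4 * ‖y‖ ^ 2 := by
    intro ζ
    have h := pt_bound (S.C ζ) (S.A ζ) (w2 ζ) (w3 ζ) ζ ((ζ : ℂ) ^ K0) (π1 ζ) y bb κ bb_sq
      bb_pos.le (S.hCA ζ) (hw ζ) (Circle.norm_coe ζ) (by simp) (hπ1 ζ) (hr ζ) hκ hy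
    have e1 : f1 ζ = (bb : ℂ) * (1 - y * bb * π1 ζ) := rfl
    have e2 : f2 ζ = S.C ζ * ((bb : ℂ) * ζ * (1 - y * bb * π1 ζ)) + y * (ζ : ℂ) ^ K0 * w2 ζ := by
      have : f2 ζ = (bb : ℂ) * (S.C ζ * (ζ * (1 - y * bb * π1 ζ))) +
        y * ((ζ : ℂ) ^ K0 * w2 ζ) := rfl
      rw [this]; ring
    have e3 : f3 ζ = S.A ζ * ((bb : ℂ) * ζ * (1 - y * bb * π1 ζ)) + y * (ζ : ℂ) ^ K0 * w3 ζ := by
      have : f3 ζ = (bb : ℂ) * (S.A ζ * (ζ * (1 - y * bb * π1 ζ))) +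
        y * ((ζ : ℂ) ^ K0 * w3 ζ) := rfl
      rw [this]; ring
    rw [e1, e2, e3]
    exact h
  set c := 1 + 2 * bb * κ * ‖y‖ + 4 * ‖y‖ ^ 2 with hc
  have hc0 : 0 ≤ c := le_trans (by positivity) (hpt 1)
  rw [e1]
  have h5 : ‖M S.i0 * S.E f1 + M S.i1 * S.E f2 + M S.i2 * S.E f3‖ ≤ √c := by
    refine ContinuousLinearMap.opNorm_le_bound _ (Real.sqrt_nonneg _) fun x => ?_
    rw [← sq_le_sq₀ (norm_nonneg _) (by positivity), mul_pow, Real.sq_sqrt hc0]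
    exact (row_contr S.i0 S.i1 S.i2 S.h01 S.h02 S.h12 _ _ _).trans (S.fc.column f1 f2 f3 c hpt x)
  calc _ ≤ (√c) ^ 2 := pow_le_pow_left₀ (norm_nonneg _) h5 2
    _ = c := Real.sq_sqrt hc0
    _ = _ := by rw [hc]; ring

theorem key_estimate {w2 w3 π1 : CA} (h2 : w2 ∈ AD) (h3 : w3 ∈ AD) (hπ : π1 ∈ AD)
    (hw : ∀ ζ, ‖w2 ζ‖ ^ 2 + ‖w3 ζ‖ ^ 2 = 1) (hπ1 : ∀ ζ, ‖π1 ζ‖ ≤ 1) (K0 : ℕ) (κ : ℝ)
    (hκ0 : 0 ≤ κ) (hκ : κ ≤ 2)
    (hr : ∀ ζ : Circle, ‖(ζ : ℂ) ^ K0 * (conj (S.C ζ) * w2 ζ + conj (S.A ζ) * w3 ζ) -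
      ζ * π1 ζ‖ ≤ κ) (k : ℕ) :
    ‖S.X ^ k * (S.X ^ K0 * S.W w2 w3 - (bb : ℂ) • (S.X * S.E π1))‖ ≤
      Real.exp (bb * κ * √((k : ℝ) + 1) + 2) / √((k : ℝ) + 1) := by
  refine pow_mul_norm_le S.X _ ?_ (bb * κ) (mul_nonneg bb_pos.le hκ0)
    (S.pencil_norm h2 h3 hπ hw hπ1 K0 κ hκ hr) k
  refine Commute.sub_right ?_ (Commute.smul_right ?_ _)
  · exact ((Commute.refl S.X).pow_right K0).mul_right (S.comm_WX h2 h3)
  · exact (Commute.refl S.X).mul_right (S.comm_EX hπ)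

end Sys

end Run7.h163
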