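import Pool.Agent.Run7.h163.FS
import Pool.Agent.Run7.h163.LE

/-!
# The closed ranges: `φ₂` lies in the closure of the range of `φ₃`
-/

set_option autoImplicit false
set_option linter.unusedSectionVars false
set_option linter.unusedVariables false
set_option linter.deprecated false

open scoped ComplexConjugate InnerProductSpace InnerProduct
open ContinuousLinearMap Filter Topology Finset

namespace Run7.h163

variable {d : ℕ}

/-- lower semicontinuity of the norm under coordinatewise convergence -/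
lemma norm_le_of_coord (u : HD d) (C : ℝ) (hC : 0 ≤ C)
    (h : ∀ s : Finset (MI d), ∃ v : HD d, ‖v‖ ≤ C ∧ ∀ β ∈ s, v β = u β) : ‖u‖ ≤ C := by
  have h1 : ‖u‖ ^ 2 ≤ C ^ 2 := by
    have h2 := lp2_hasSum u
    rw [← h2.tsum_eq]
    refine Summable.tsum_le_of_sum_le h2.summable fun s => ?_
    obtain ⟨v, hv, hvs⟩ := h s
    calc ∑ β ∈ s, ‖u β‖ ^ 2 = ∑ β ∈ s, ‖v β‖ ^ 2 :=
          sum_congr rfl fun β hβ => by rw [hvs β hβ]
      _ ≤ ‖v‖ ^ 2 := sum_le_hasSum s (fun _ _ => by positivity) (lp2_hasSum v)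
      _ ≤ C ^ 2 := pow_le_pow_left₀ (norm_nonneg _) hv 2
  exact (sq_le_sq₀ (norm_nonneg _) hC).1 h1

/-- bounded sequences going to infinite degree converge weakly to zero -/
lemma weak_tendsto (v : HD d) (u : ℕ → HD d) (C : ℝ) (hu : ∀ n, ‖u n‖ ≤ C)
    (hF : ∀ n, u n ∈ Fl n) : Tendsto (fun n => ⟪v, u n⟫_ℂ) atTop (𝓝 0) := by
  rw [Metric.tendsto_atTop]
  intro ε hε
  have hC : 0 ≤ C := (norm_nonneg _).trans (hu 0)
  have hs0 := lp.hasSum_single (E := fun _ : MI d => ℂ) (p := 2) (by norm_num) v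
  have hs1 : Tendsto (fun s : Finset (MI d) => ∑ β ∈ s, (lp.single 2 β (v β) : HD d)) atTop
      (𝓝 v) := by
    unfold HasSum at hs0
    rw [SummationFilter.unconditional_filter] at hs0
    exact hs0
  obtain ⟨s, hs⟩ := (Metric.tendsto_atTop.1 hs1) (ε / (C + 1)) (by positivity)
  have hs := hs s le_rfl
  set v' : HD d := ∑ β ∈ s, lp.single 2 β (v β) with hv'
  refine ⟨s.sup (fun β => deg β + 1), fun n hn => ?_⟩
  have h1 : ⟪v', u n⟫_ℂ = 0 := by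
    rw [hv', sum_inner]
    apply sum_eq_zero
    intro β hβ
    rw [lp.inner_single_left]
    have h2 : deg β + 1 ≤ n := (Finset.le_sup (f := fun β : MI d => deg β + 1) hβ).trans hn
    rw [hF n β (by omega), inner_zero_right]
  have h2 : ⟪v, u n⟫_ℂ = ⟪v - v', u n⟫_ℂ := by
    rw [inner_sub_left, h1, sub_zero]
  rw [dist_zero_right, h2]
  refine lt_of_le_of_lt (norm_inner_le_norm _ _) ?_
  rw [dist_eq_norm, norm_sub_rev] at hs
  calc ‖v - v'‖ * ‖u n‖ ≤ ‖v - v'‖ * (C + 1) := by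
        have := hu n
        gcongr
        linarith
    _ < ε / (C + 1) * (C + 1) := by gcongr
    _ = ε := by field_simp

namespace FSys
variable (Y : FSys d)

lemma E_DV {M : ℕ} {f : CA} (hf : f ∈ DV M) : Raises (Y.S.E f) M := by
  obtain ⟨g, hg, rfl⟩ := DV_eq hf
  rw [Y.S.fc.mul_pow hg]
  have h1 := (Y.S.raises.pow M).mul (Y.S.fc.raises (Y.S.raises.mono (Nat.zero_le _)) hg)
  exact h1.mono (by omega)

lemma E_Φ_raises (t : ℝ) (n m : ℕ) (h : n ≤ m) :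
    Raises (Y.S.E (Y.F.Φ t m) - Y.S.E (Y.F.Φ t n)) n := by
  rw [← map_sub]
  refine (Y.E_DV (Y.F.Φ_sub_mem t h)).mono ?_
  have := Y.F.Mx_ge n
  omega

lemma E_Φ_norm {t : ℝ} (ht : 0 ≤ t) (n : ℕ) : ‖Y.S.E (Y.F.Φ t n)‖ ≤ 1 :=
  (Y.S.fc.norm_le _).trans (Y.F.norm_Φ_le t ht n)

/-- the approximate solutions -/
noncomputable def w2 (n : ℕ) : CA := -(zC ^ Y.F.N n * star (Y.F.A n))
/-- the approximate solutions -/
noncomputable def w3 (n : ℕ) : CA := zC ^ Y.F.N n * star (Y.F.C n)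

lemma w2_mem (n : ℕ) : Y.w2 n ∈ AD := AD.neg_mem (Pol_AD (Pol_rev le_rfl (Y.F.mem_Pol n).2))

lemma w3_mem (n : ℕ) : Y.w3 n ∈ AD := Pol_AD (Pol_rev le_rfl (Y.F.mem_Pol n).1)

lemma w_unit (n : ℕ) (ζ : Circle) : ‖Y.w2 n ζ‖ ^ 2 + ‖Y.w3 n ζ‖ ^ 2 = 1 := by
  have e2 : Y.w2 n ζ = -((ζ : ℂ) ^ Y.F.N n * star (Y.F.A n ζ)) := rfl
  have e3 : Y.w3 n ζ = (ζ : ℂ) ^ Y.F.N n * star (Y.F.C n ζ) := rfl
  rw [e2, e3, norm_neg, norm_mul, norm_mul, norm_star, norm_star, norm_pow, Circle.norm_coe,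
    one_pow, one_mul, one_mul, add_comm]
  exact Y.F.unit_apply n ζ

lemma beta_eq (n : ℕ) (ζ : Circle) : conj (Y.S.C ζ) * Y.w2 n ζ + conj (Y.S.A ζ) * Y.w3 n ζ =
    (ζ : ℂ) ^ Y.F.N n * conj ((Y.F.C n * Y.F.Al - Y.F.A n * Y.F.Cl : CA) ζ) := by
  have e2 : Y.w2 n ζ = -((ζ : ℂ) ^ Y.F.N n * conj (Y.F.A n ζ)) := rfl
  have e3 : Y.w3 n ζ = (ζ : ℂ) ^ Y.F.N n * conj (Y.F.C n ζ) := rfl
  rw [e2, e3, Y.eC, Y.eA]
  have e4 : (Y.F.C n * Y.F.Al - Y.F.A n * Y.F.Cl : CA) ζ =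
    Y.F.C n ζ * Y.F.Al ζ - Y.F.A n ζ * Y.F.Cl ζ := rfl
  rw [e4, map_sub, map_mul, map_mul]
  ring

lemma cross_apply (n : ℕ) (ζ : Circle) :
    ‖(Y.F.C n * Y.F.Al - Y.F.A n * Y.F.Cl : CA) ζ - (Y.F.a n : ℂ) * (ζ : ℂ) ^ Y.F.N (n + 1)‖ ≤
      8 * Y.F.a (n + 1) := by
  have h1 := Y.F.cross_lim n
  exact (ContinuousMap.norm_coe_le_norm (Y.F.C n * Y.F.Al - Y.F.A n * Y.F.Cl -
    (Y.F.a n : ℂ) • zC ^ Y.F.N (n + 1)) ζ).trans h1

/-- first use of the key estimate -/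
lemma est1 (n k : ℕ) (hk : k + 1 ≤ Y.F.N (n + 1)) :
    ‖Y.S.X ^ k * Y.S.W (Y.w2 n) (Y.w3 n)‖ ≤ Real.exp 3 / √((k : ℝ) + 1) := by
  have ha := Y.F.a_pos n
  have ha8 := Y.F.a_le n
  have hah := Y.F.a_half n
  have h := Y.S.key_estimate (Y.w2_mem n) (Y.w3_mem n) AD.zero_mem (Y.w_unit n)
    (fun ζ => by simp) 0 (5 * Y.F.a n) (by positivity) (by linarith) (fun ζ => by
      rw [Y.beta_eq]
      simp only [pow_zero, one_mul, ContinuousMap.zero_apply, mul_zero, sub_zero]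
      rw [norm_mul, norm_pow, Circle.norm_coe, one_pow, one_mul, RCLike.norm_conj]
      have h1 := Y.cross_apply n ζ
      have h2 : ‖(Y.F.a n : ℂ) * (ζ : ℂ) ^ Y.F.N (n + 1)‖ = Y.F.a n := by
        rw [norm_mul, norm_pow, Circle.norm_coe, one_pow, mul_one, Complex.norm_real,
          Real.norm_eq_abs, abs_of_pos ha]
      have h3 := norm_add_le ((Y.F.C n * Y.F.Al - Y.F.A n * Y.F.Cl : CA) ζ -
        (Y.F.a n : ℂ) * (ζ : ℂ) ^ Y.F.N (n + 1)) ((Y.F.a n : ℂ) * (ζ : ℂ) ^ Y.F.N (n + 1))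
      rw [sub_add_cancel, h2] at h3
      linarith) k
  rw [map_zero, mul_zero, smul_zero, sub_zero, pow_zero, one_mul] at h
  refine h.trans ?_
  have h4 : bb * (5 * Y.F.a n) * √((k : ℝ) + 1) + 2 ≤ 3 := by
    have h5 : √((k : ℝ) + 1) ≤ √(Y.F.N (n + 1)) := by
      apply Real.sqrt_le_sqrt
      exact_mod_cast hk
    have h6 := Y.F.a_N n
    have h7 : 5 * Y.F.a n * √((k : ℝ) + 1) ≤ 5 * Y.F.a n * √(Y.F.N (n + 1)) := by gcongr
    have h8 : 0 ≤ 5 * Y.F.a n * √((k : ℝ) + 1) := by positivity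
    have h9 := bb_le
    have h10 := bb_pos
    nlinarith
  gcongr

/-- second use of the key estimate -/
lemma est2 (n k : ℕ) (hk : k + 1 ≤ Y.F.Mx (n + 1)) :
    ‖Y.S.X ^ k * (Y.S.X ^ Y.F.N (n + 1) * Y.S.W (Y.w2 n) (Y.w3 n) -
      ((bb * Y.F.a n : ℝ) : ℂ) • Y.S.X ^ Y.F.N n)‖ ≤ Real.exp 3 / √((k : ℝ) + 1) := by
  have ha := Y.F.a_pos n
  have ha1 := Y.F.a_pos (n + 1)
  have ha8 := Y.F.a_le n
  have ha9 := Y.F.a_le (n + 1)
  have hNn := Y.F.one_le_N n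
  have h := Y.S.key_estimate (Y.w2_mem n) (Y.w3_mem n)
    (π1 := (Y.F.a n : ℂ) • zC ^ (Y.F.N n - 1)) (AD.smul_mem (AD.pow_mem zC_mem _) _) (Y.w_unit n)
    (fun ζ => by
      have : ((Y.F.a n : ℂ) • zC ^ (Y.F.N n - 1) : CA) ζ = (Y.F.a n : ℂ) * (ζ : ℂ) ^ (Y.F.N n - 1) :=
        rfl
      rw [this, norm_mul, norm_pow, Circle.norm_coe, one_pow, mul_one, Complex.norm_real,
          Real.norm_eq_abs, abs_of_pos ha]
      linarith) (Y.F.N (n + 1)) (8 * Y.F.a (n + 1)) (by positivity) (by linarith) (fun ζ => by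
      rw [Y.beta_eq]
      have e1 : ((Y.F.a n : ℂ) • zC ^ (Y.F.N n - 1) : CA) ζ =
        (Y.F.a n : ℂ) * (ζ : ℂ) ^ (Y.F.N n - 1) := rfl
      rw [e1]
      set D := (Y.F.C n * Y.F.Al - Y.F.A n * Y.F.Cl : CA) ζ with hD
      have e2 : (ζ : ℂ) * ((Y.F.a n : ℂ) * (ζ : ℂ) ^ (Y.F.N n - 1)) =
          (Y.F.a n : ℂ) * (ζ : ℂ) ^ Y.F.N n := by
        have : (ζ : ℂ) ^ Y.F.N n = (ζ : ℂ) * (ζ : ℂ) ^ (Y.F.N n - 1) := by
          rw [← pow_succ']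
          congr 1
          omega
        rw [this]
        ring
      have hz : (ζ : ℂ) ^ Y.F.N (n + 1) * conj ((ζ : ℂ) ^ Y.F.N (n + 1)) = 1 := by
        rw [Complex.mul_conj, Complex.normSq_eq_norm_sq, norm_pow, Circle.norm_coe]
        simp
      have e3 : (ζ : ℂ) ^ Y.F.N (n + 1) * ((ζ : ℂ) ^ Y.F.N n * conj D) -
          (ζ : ℂ) * ((Y.F.a n : ℂ) * (ζ : ℂ) ^ (Y.F.N n - 1)) =
          (ζ : ℂ) ^ Y.F.N (n + 1) * (ζ : ℂ) ^ Y.F.N n *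
            conj (D - (Y.F.a n : ℂ) * (ζ : ℂ) ^ Y.F.N (n + 1)) := by
        rw [e2, map_sub, map_mul, Complex.conj_ofReal]
        linear_combination (Y.F.a n : ℂ) * (ζ : ℂ) ^ Y.F.N n * hz
      rw [e3, norm_mul, norm_mul, norm_pow, norm_pow, Circle.norm_coe, one_pow, one_pow, one_mul,
        one_mul, RCLike.norm_conj]
      exact Y.cross_apply n ζ) k
  have e5 : (bb : ℂ) • (Y.S.X * Y.S.E ((Y.F.a n : ℂ) • zC ^ (Y.F.N n - 1))) =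
      ((bb * Y.F.a n : ℝ) : ℂ) • Y.S.X ^ Y.F.N n := by
    rw [map_smul, Y.S.fc.pow, mul_smul_comm, smul_smul, ← pow_succ']
    have : Y.F.N n - 1 + 1 = Y.F.N n := by omega
    rw [this]
    push_cast
    rfl
  rw [e5] at h
  refine h.trans ?_
  have h4 : bb * (8 * Y.F.a (n + 1)) * √((k : ℝ) + 1) + 2 ≤ 3 := by
    have h5 : √((k : ℝ) + 1) ≤ √(Y.F.Mx (n + 1)) := by
      apply Real.sqrt_le_sqrt
      exact_mod_cast hk
    have h6 := Y.F.a_Mx n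
    have h7 : 8 * Y.F.a (n + 1) * √((k : ℝ) + 1) ≤ 8 * Y.F.a (n + 1) * √(Y.F.Mx (n + 1)) := by
      gcongr
    have h8 : 0 ≤ 8 * Y.F.a (n + 1) * √((k : ℝ) + 1) := by positivity
    have h9 := bb_le
    have h10 := bb_pos
    nlinarith
  gcongr

/-- the function `z^{N(n+1) - N n} q n` -/
noncomputable def pp (n : ℕ) : CA := zC ^ (Y.F.N (n + 1) - Y.F.N n) * Y.F.q n

lemma pp_eq (n : ℕ) : Y.pp n = zC ^ (Y.F.N (n + 1) - Y.F.N n - Y.F.dq n) *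
    (zC ^ Y.F.dq n * Y.F.q n) := by
  unfold pp
  rw [← mul_assoc, ← pow_add]
  congr 2
  have := Y.F.N_large n
  omega

lemma pp_mem (n : ℕ) : Y.pp n ∈ AD := by
  rw [pp_eq]
  exact AD.mul_mem (AD.pow_mem zC_mem _) (Y.F.q_mem n)

lemma pp_norm (n : ℕ) : ‖Y.pp n‖ ≤ ‖Y.F.q n‖ := by
  unfold pp
  refine (norm_mul_le _ _).trans ?_
  have := SUSeq.norm_zC_pow (Y.F.N (n + 1) - Y.F.N n)
  nlinarith [norm_nonneg (Y.F.q n)]

/-- the approximate solutions -/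
noncomputable def gg (n : ℕ) : HD d := Y.S.E (Y.F.Φ (-1) n) Sys.e0 +
  (((bb * Y.F.a n)⁻¹ : ℝ) : ℂ) • Y.S.W (Y.w2 n) (Y.w3 n) (Y.S.E (Y.pp n) Sys.e0)

lemma comm_apply {S T : HD d →L[ℂ] HD d} (h : Commute S T) (x : HD d) : S (T x) = T (S x) := by
  have := congrArg (fun R : HD d →L[ℂ] HD d => R x) h.eq
  exact this

lemma claim1 (n : ℕ) : ‖Y.S.E (Y.F.Φ 3 n) (Y.gg n) - Y.S.E (Y.F.Φ 2 n) Sys.e0‖ ≤
    2 * Real.exp 3 * Y.F.τ n := by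
  have ha := Y.F.a_pos n
  have hbb := bb_pos
  set W := Y.S.W (Y.w2 n) (Y.w3 n) with hW
  set N1 := Y.F.N (n + 1) with hN1
  set k := N1 - Y.F.N n - Y.F.dq n with hk
  set f : CA := Y.F.Φ 3 n * (zC ^ Y.F.dq n * Y.F.q n) with hf
  have hfm : f ∈ AD := AD.mul_mem (Y.F.Φ_mem 3 n) (Y.F.q_mem n)
  have e1 : Y.S.E (Y.F.Φ 3 n) (Y.S.E (Y.F.Φ (-1) n) Sys.e0) = Y.S.E (Y.F.Φ 2 n) Sys.e0 := by
    rw [← mul_apply_eq_comp, ← Y.S.fc.mul (Y.F.Φ_mem 3 n) (Y.F.Φ_mem (-1) n), ← Y.F.Φ_add]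
    norm_num
  have e2 : Y.S.E (Y.F.Φ 3 n) (W (Y.S.E (Y.pp n) Sys.e0)) =
      (Y.S.X ^ k * W) (Y.S.E f Sys.e0) := by
    rw [comm_apply (Y.S.comm_WE (Y.w2_mem n) (Y.w3_mem n) (Y.F.Φ_mem 3 n)), ← mul_apply_eq_comp
      (Y.S.E (Y.F.Φ 3 n)), ← Y.S.fc.mul (Y.F.Φ_mem 3 n) (Y.pp_mem n), Y.pp_eq]
    have e3 : Y.F.Φ 3 n * (zC ^ k * (zC ^ Y.F.dq n * Y.F.q n)) = zC ^ k * f := by
      rw [hf]; ring
    rw [e3, Y.S.fc.mul_pow hfm, mul_apply_eq_comp, mul_apply_eq_comp]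
    exact (comm_apply ((Y.S.comm_WX (Y.w2_mem n) (Y.w3_mem n)).pow_left k) _).symm
  have e4 : Y.S.E (Y.F.Φ 3 n) (Y.gg n) - Y.S.E (Y.F.Φ 2 n) Sys.e0 =
      (((bb * Y.F.a n)⁻¹ : ℝ) : ℂ) • (Y.S.X ^ k * W) (Y.S.E f Sys.e0) := by
    unfold gg
    rw [map_add, map_smul, e1, e2]
    abel
  rw [e4, norm_smul, Complex.norm_real, Real.norm_eq_abs, abs_of_pos (by positivity)]
  have hNl := Y.F.N_large n
  have hNn := Y.F.one_le_N n
  have h1 := Y.est1 n k (by omega)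
  have h2 : ‖Y.S.E f Sys.e0‖ ≤ Y.F.a n * √N1 * Y.F.τ n := by
    have h3 := Y.S.l2 f
    have h4 : avg (fun w => ‖f w‖ ^ 2) =
        avg (fun w => ‖(cexp (-(Y.F.h n)) w) ^ 3 * Y.F.q n w‖ ^ 2) := by
      congr 1
      ext w
      congr 1
      have e5 : f w = Y.F.Φ 3 n w * ((w : ℂ) ^ Y.F.dq n * Y.F.q n w) := rfl
      have e6 : Y.F.Φ 3 n w = (cexp (-(Y.F.h n)) w) ^ 3 := by
        rw [FSeq.Φ_apply, cexp_apply, ← Complex.exp_nat_mul]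
        congr 1
        change -(((3 : ℝ) : ℂ) * Y.F.h n w) = ((3 : ℕ) : ℂ) * (-(Y.F.h n w))
        push_cast
        ring
      rw [e5, e6, norm_mul, norm_mul, norm_mul, norm_pow, norm_pow, Circle.norm_coe, one_pow,
        one_mul]
    rw [h4] at h3
    have h5 := h3.trans (Y.F.q_l2 n)
    have h6 : 0 ≤ Y.F.a n * √N1 * Y.F.τ n := by
      have := Y.F.τ_nonneg n
      positivity
    exact (sq_le_sq₀ (norm_nonneg _) h6).1 h5
  have h3 : ‖(Y.S.X ^ k * W) (Y.S.E f Sys.e0)‖ ≤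
      Real.exp 3 / √((k : ℝ) + 1) * (Y.F.a n * √N1 * Y.F.τ n) :=
    ((Y.S.X ^ k * W).le_opNorm _).trans (mul_le_mul h1 h2 (norm_nonneg _) (by positivity))
  have hN1p : (0 : ℝ) < N1 := by
    have : 1 ≤ N1 := Y.F.one_le_N (n + 1)
    exact_mod_cast this
  have h4 : √N1 ≤ √2 * √((k : ℝ) + 1) := by
    rw [← Real.sqrt_mul (by norm_num)]
    apply Real.sqrt_le_sqrt
    have : N1 ≤ 2 * (k + 1) := by omega
    have : (N1 : ℝ) ≤ 2 * (k + 1) := by exact_mod_cast this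
    exact this
  have hk1 : 0 < √((k : ℝ) + 1) := Real.sqrt_pos.2 (by positivity)
  have hτ := Y.F.τ_nonneg n
  have h5 : Real.exp 3 / √((k : ℝ) + 1) * (Y.F.a n * √N1 * Y.F.τ n) ≤
      √2 * Real.exp 3 * Y.F.a n * Y.F.τ n := by
    rw [div_mul_eq_mul_div, div_le_iff₀ hk1]
    have : √2 * Real.exp 3 * Y.F.a n * Y.F.τ n * √((k : ℝ) + 1) =
      (Real.exp 3 * (Y.F.a n * Y.F.τ n)) * (√2 * √((k : ℝ) + 1)) := by ring
    rw [this]
    have : Real.exp 3 * (Y.F.a n * √N1 * Y.F.τ n) = (Real.exp 3 * (Y.F.a n * Y.F.τ n)) * √N1 := by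
      ring
    rw [this]
    gcongr
  have h6 := h3.trans h5
  have hs2 : √2 = 2 * bb := by
    unfold bb
    have : √2 * √2 = 2 := Real.mul_self_sqrt (by norm_num)
    field_simp
    linarith
  calc (bb * Y.F.a n)⁻¹ * ‖(Y.S.X ^ k * W) (Y.S.E f Sys.e0)‖
      ≤ (bb * Y.F.a n)⁻¹ * (√2 * Real.exp 3 * Y.F.a n * Y.F.τ n) := by gcongr
    _ = 2 * Real.exp 3 * Y.F.τ n := by
        rw [hs2]
        field_simp

lemma claim2 (n : ℕ) {D : CA} (hD : D ∈ DV (Y.F.Mx (n + 1))) (hD2 : ‖D‖ ≤ 2) :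
    ‖Y.S.E D (Y.gg n)‖ ≤ 6 + 4 * Real.exp 3 := by
  have ha := Y.F.a_pos n
  have hbb := bb_pos
  set W := Y.S.W (Y.w2 n) (Y.w3 n) with hW
  set N1 := Y.F.N (n + 1) with hN1
  set M1 := Y.F.Mx (n + 1) with hM1
  have hMN : 2 * N1 ≤ M1 := Y.F.Mx_N n
  have hNn := Y.F.one_le_N n
  have hNm := Y.F.N_mono n
  set M' := M1 - N1 with hM'
  set D1 : CA := star (zC ^ M1) * D with hD1
  have hD1m : D1 ∈ AD := hD
  have hD1e : D = zC ^ M1 * D1 := by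
    rw [hD1, ← mul_assoc, mul_comm (zC ^ M1), zC_star_mul_pow, one_mul]
  have hD1n : ‖D1‖ ≤ 2 := by
    refine (norm_mul_le _ _).trans ?_
    rw [norm_star]
    have := SUSeq.norm_zC_pow M1
    nlinarith [norm_nonneg D]
  have hDm : D ∈ AD := DV_AD hD
  set Z := Y.S.X ^ M' * (Y.S.X ^ N1 * W - ((bb * Y.F.a n : ℝ) : ℂ) • Y.S.X ^ Y.F.N n) with hZ
  have hba : ((bb * Y.F.a n : ℝ) : ℂ) ≠ 0 := by
    rw [Complex.ofReal_ne_zero]; positivity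
  have e0 : Y.S.E D = Y.S.E D1 * Y.S.X ^ M' * Y.S.X ^ N1 := by
    rw [hD1e]
    have : zC ^ M1 * D1 = D1 * zC ^ M' * zC ^ N1 := by
      have : zC ^ M1 = zC ^ M' * zC ^ N1 := by
        rw [← pow_add]; congr 1; omega
      rw [this]; ring
    rw [this, Y.S.fc.mul (AD.mul_mem hD1m (AD.pow_mem zC_mem _)) (AD.pow_mem zC_mem _),
      Y.S.fc.mul hD1m (AD.pow_mem zC_mem _), Y.S.fc.pow, Y.S.fc.pow]
  have e1 : Y.S.E D * W = Y.S.E D1 * Z +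
      ((bb * Y.F.a n : ℝ) : ℂ) • (Y.S.E D1 * Y.S.X ^ M' * Y.S.X ^ Y.F.N n) := by
    rw [e0, hZ, mul_sub, mul_sub, mul_smul_comm, mul_smul_comm]
    simp only [mul_assoc]
    abel
  have hDq : D * Y.F.q n = D1 * zC ^ M' * zC ^ Y.F.N n * Y.pp n := by
    unfold pp
    rw [hD1e]
    have : zC ^ M1 = zC ^ M' * (zC ^ Y.F.N n * zC ^ (N1 - Y.F.N n)) := by
      rw [← pow_add, ← pow_add]; congr 1; omega
    rw [this]; ring
  have hDqm : D * Y.F.q n ∈ AD := by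
    rw [hDq]
    exact AD.mul_mem (AD.mul_mem (AD.mul_mem hD1m (AD.pow_mem zC_mem _)) (AD.pow_mem zC_mem _))
      (Y.pp_mem n)
  have e2 : Y.S.E (D * Y.F.q n) = Y.S.E D1 * Y.S.X ^ M' * Y.S.X ^ Y.F.N n * Y.S.E (Y.pp n) := by
    rw [hDq, Y.S.fc.mul (AD.mul_mem (AD.mul_mem hD1m (AD.pow_mem zC_mem _))
      (AD.pow_mem zC_mem _)) (Y.pp_mem n), Y.S.fc.mul (AD.mul_mem hD1m (AD.pow_mem zC_mem _))
      (AD.pow_mem zC_mem _), Y.S.fc.mul hD1m (AD.pow_mem zC_mem _), Y.S.fc.pow, Y.S.fc.pow]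
  have e3 : Y.S.E D (Y.gg n) = Y.S.E (D * (Y.F.Φ (-1) n + Y.F.q n)) Sys.e0 +
      (((bb * Y.F.a n)⁻¹ : ℝ) : ℂ) • Y.S.E D1 (Z (Y.S.E (Y.pp n) Sys.e0)) := by
    have e4 : Y.S.E D (W (Y.S.E (Y.pp n) Sys.e0)) = Y.S.E D1 (Z (Y.S.E (Y.pp n) Sys.e0)) +
        ((bb * Y.F.a n : ℝ) : ℂ) • Y.S.E (D * Y.F.q n) Sys.e0 := by
      have : Y.S.E D (W (Y.S.E (Y.pp n) Sys.e0)) = (Y.S.E D * W) (Y.S.E (Y.pp n) Sys.e0) := rfl
      rw [this, e1, e2]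
      rfl
    unfold gg
    rw [map_add, map_smul, e4, smul_add, smul_smul]
    have e5 : (((bb * Y.F.a n)⁻¹ : ℝ) : ℂ) * ((bb * Y.F.a n : ℝ) : ℂ) = 1 := by
      rw [Complex.ofReal_inv, inv_mul_cancel₀ hba]
    have e7 : Y.S.E (D * Y.F.Φ (-1) n) Sys.e0 = Y.S.E D (Y.S.E (Y.F.Φ (-1) n) Sys.e0) := by
      rw [Y.S.fc.mul hDm (Y.F.Φ_mem (-1) n)]
      rfl
    rw [e5, one_smul, mul_add, map_add, add_apply, e7]
    abel
  rw [e3]
  refine (norm_add_le _ _).trans (add_le_add ?_ ?_)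
  · refine (Y.S.fc.norm_apply_le _ _).trans ?_
    rw [Sys.norm_e0, mul_one, ContinuousMap.norm_le _ (by norm_num)]
    intro w
    have h1 := Y.F.q_near n w
    have e6 : (D * (Y.F.Φ (-1) n + Y.F.q n)) w = D w * (cexp (Y.F.h n) w + Y.F.q n w) := by
      have : Y.F.Φ (-1) n w = cexp (Y.F.h n) w := by
        rw [FSeq.Φ_apply, cexp_apply]
        simp
      change D w * (Y.F.Φ (-1) n w + Y.F.q n w) = _
      rw [this]
    rw [e6, norm_mul]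
    have h2 := (D.norm_coe_le_norm w).trans hD2
    nlinarith [norm_nonneg (D w), norm_nonneg (cexp (Y.F.h n) w + Y.F.q n w)]
  · rw [norm_smul, Complex.norm_real, Real.norm_eq_abs, abs_of_pos (by positivity)]
    have h1 : ‖Z‖ ≤ Real.exp 3 / √((M' : ℝ) + 1) := Y.est2 n M' (by omega)
    have h2 : ‖Y.S.E (Y.pp n) Sys.e0‖ ≤ Y.F.a n * √M1 := by
      refine (Y.S.fc.norm_apply_le _ _).trans ?_
      rw [Sys.norm_e0, mul_one]
      exact (Y.pp_norm n).trans (Y.F.q_norm n)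
    have h3 : ‖Z (Y.S.E (Y.pp n) Sys.e0)‖ ≤
        Real.exp 3 / √((M' : ℝ) + 1) * (Y.F.a n * √M1) :=
      (Z.le_opNorm _).trans (mul_le_mul h1 h2 (norm_nonneg _) (by positivity))
    have h4 : ‖Y.S.E D1 (Z (Y.S.E (Y.pp n) Sys.e0))‖ ≤
        2 * (Real.exp 3 / √((M' : ℝ) + 1) * (Y.F.a n * √M1)) :=
      (Y.S.fc.norm_apply_le _ _).trans (mul_le_mul hD1n h3 (norm_nonneg _) (by norm_num))
    have h5 : √(M1 : ℝ) ≤ √2 * √((M' : ℝ) + 1) := by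
      rw [← Real.sqrt_mul (by norm_num)]
      apply Real.sqrt_le_sqrt
      have : M1 ≤ 2 * (M' + 1) := by omega
      have : (M1 : ℝ) ≤ 2 * (M' + 1) := by exact_mod_cast this
      exact this
    have hk1 : 0 < √((M' : ℝ) + 1) := Real.sqrt_pos.2 (by positivity)
    have h6 : Real.exp 3 / √((M' : ℝ) + 1) * (Y.F.a n * √M1) ≤
        √2 * Real.exp 3 * Y.F.a n := by
      rw [div_mul_eq_mul_div, div_le_iff₀ hk1]
      have : √2 * Real.exp 3 * Y.F.a n * √((M' : ℝ) + 1) =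
        (Real.exp 3 * Y.F.a n) * (√2 * √((M' : ℝ) + 1)) := by ring
      rw [this, ← mul_assoc]
      gcongr
    have hs2 : √2 = 2 * bb := by
      unfold bb
      have : √2 * √2 = 2 := Real.mul_self_sqrt (by norm_num)
      field_simp
      linarith
    calc (bb * Y.F.a n)⁻¹ * ‖Y.S.E D1 (Z (Y.S.E (Y.pp n) Sys.e0))‖
        ≤ (bb * Y.F.a n)⁻¹ * (2 * (√2 * Real.exp 3 * Y.F.a n)) := by
          gcongr
          exact h4.trans (by linarith)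
      _ = 4 * Real.exp 3 := by
          rw [hs2]
          field_simp
          ring

theorem c_main (T2 T3 : HD d →L[ℂ] HD d)
    (h2 : ∀ n, Raises (T2 - Y.S.E (Y.F.Φ 2 n)) n) (h3 : ∀ n, Raises (T3 - Y.S.E (Y.F.Φ 3 n)) n)
    (n2 : ‖T2‖ ≤ 1) (v : HD d) (hv : ∀ x, ⟪v, T3 x⟫_ℂ = 0) : ⟪v, T2 Sys.e0⟫_ℂ = 0 := by
  set C2 : ℝ := 6 + 4 * Real.exp 3 with hC2
  have hC2p : 0 ≤ C2 := by positivity
  -- the three error terms
  set u1 : ℕ → HD d := fun n => (T3 - Y.S.E (Y.F.Φ 3 n)) (Y.gg n) with hu1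
  set u2 : ℕ → HD d := fun n => Y.S.E (Y.F.Φ 3 n) (Y.gg n) - Y.S.E (Y.F.Φ 2 n) Sys.e0 with hu2
  set u3 : ℕ → HD d := fun n => (T2 - Y.S.E (Y.F.Φ 2 n)) Sys.e0 with hu3
  have e : ∀ n, ⟪v, T2 Sys.e0⟫_ℂ = -⟪v, u1 n⟫_ℂ - ⟪v, u2 n⟫_ℂ + ⟪v, u3 n⟫_ℂ := by
    intro n
    have h := hv (Y.gg n)
    rw [hu1, hu2, hu3]
    simp only [sub_apply, inner_sub_right]
    rw [h]
    ring
  have t1 : Tendsto (fun n => ⟪v, u1 n⟫_ℂ) atTop (𝓝 0) := by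
    refine weak_tendsto v u1 C2 (fun n => ?_) (fun n => ?_)
    · refine norm_le_of_coord _ C2 hC2p fun s => ?_
      set m := max n (s.sup (fun β => deg β + 1)) with hm
      refine ⟨(Y.S.E (Y.F.Φ 3 m) - Y.S.E (Y.F.Φ 3 n)) (Y.gg n), ?_, fun β hβ => ?_⟩
      · rw [← map_sub]
        refine Y.claim2 n (Y.F.Φ_sub_mem 3 (le_max_left _ _)) ?_
        refine (norm_sub_le _ _).trans ?_
        have := Y.F.norm_Φ_le 3 (by norm_num) m
        have := Y.F.norm_Φ_le 3 (by norm_num) n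
        linarith
      · have h5 := h3 m 0 (Y.gg n) (mem_Fl_zero _) β (by
          have h6 : deg β + 1 ≤ m := (Finset.le_sup (f := fun β : MI d => deg β + 1) hβ).trans
            (le_max_right _ _)
          omega)
        have h6 : T3 (Y.gg n) β - Y.S.E (Y.F.Φ 3 m) (Y.gg n) β = 0 := h5
        change Y.S.E (Y.F.Φ 3 m) (Y.gg n) β - Y.S.E (Y.F.Φ 3 n) (Y.gg n) β =
          T3 (Y.gg n) β - Y.S.E (Y.F.Φ 3 n) (Y.gg n) β
        rw [sub_eq_zero.1 h6]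
    · have := h3 n 0 (Y.gg n) (mem_Fl_zero _)
      rwa [zero_add] at this
  have t2 : Tendsto (fun n => ⟪v, u2 n⟫_ℂ) atTop (𝓝 0) := by
    have h5 : Tendsto (fun n => ‖v‖ * (2 * Real.exp 3 * Y.F.τ n)) atTop (𝓝 0) := by
      have := (Y.F.τ_tendsto.const_mul (2 * Real.exp 3)).const_mul ‖v‖
      simpa using this
    refine squeeze_zero_norm (fun n => ?_) h5
    refine (norm_inner_le_norm _ _).trans ?_
    gcongr
    exact Y.claim1 n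
  have t3 : Tendsto (fun n => ⟪v, u3 n⟫_ℂ) atTop (𝓝 0) := by
    refine weak_tendsto v u3 2 (fun n => ?_) (fun n => ?_)
    · refine ((T2 - Y.S.E (Y.F.Φ 2 n)).le_opNorm _).trans ?_
      rw [Sys.norm_e0, mul_one]
      refine (norm_sub_le _ _).trans ?_
      have := Y.E_Φ_norm (t := 2) (by norm_num) n
      linarith
    · have := h2 n 0 Sys.e0 (mem_Fl_zero _)
      rwa [zero_add] at this
  have t4 := (t1.neg.sub t2).add t3
  simp only [neg_zero, sub_zero, add_zero] at t4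
  have t5 : Tendsto (fun _ : ℕ => ⟪v, T2 Sys.e0⟫_ℂ) atTop (𝓝 0) := by
    refine t4.congr fun n => (e n).symm
  exact tendsto_nhds_unique tendsto_const_nhds t5

end FSys

end Run7.h163
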