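import Pool.Agent.Run7.h163.Rep

/-!
# A unitary dilation of a contraction
-/

set_option autoImplicit false
set_option linter.deprecated false
set_option linter.unusedSectionVars false

open scoped ComplexConjugate InnerProductSpace InnerProduct
open ContinuousLinearMap

namespace Run7.h163

variable {H : Type*} [NormedAddCommGroup H] [InnerProductSpace ℂ H] [CompleteSpace H]

lemma exists_defect (X : H →L[ℂ] H) (hX : ‖X‖ ≤ 1) :
    ∃ D : H →L[ℂ] H, ∀ x, ‖X x‖ ^ 2 + ‖D x‖ ^ 2 = ‖x‖ ^ 2 := by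
  have key : ∀ (T : H →L[ℂ] H) (x : H), (⟪(star T * T) x, x⟫_ℂ) = ((‖T x‖ ^ 2 : ℝ) : ℂ) := by
    intro T x
    rw [mul_apply_eq_comp, ContinuousLinearMap.star_eq_adjoint,
      ContinuousLinearMap.adjoint_inner_left, inner_self_eq_norm_sq_to_K]
    norm_cast
  have h0 : (0 : H →L[ℂ] H) ≤ 1 - star X * X := by
    rw [ContinuousLinearMap.nonneg_iff_isPositive, ContinuousLinearMap.isPositive_iff_complex]
    intro x
    have h1 : (⟪(1 - star X * X) x, x⟫_ℂ) = ((‖x‖ ^ 2 - ‖X x‖ ^ 2 : ℝ) : ℂ) := by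
      rw [sub_apply, inner_sub_left, key, one_apply_eq_self,
        inner_self_eq_norm_sq_to_K]
      simp
    rw [h1]
    refine ⟨by simp only [RCLike.re_to_complex, Complex.ofReal_re], ?_⟩
    simp only [Complex.ofReal_re, RCLike.re_to_complex]
    have h2 : ‖X x‖ ≤ ‖x‖ := by
      calc ‖X x‖ ≤ ‖X‖ * ‖x‖ := X.le_opNorm x
        _ ≤ 1 * ‖x‖ := by gcongr
        _ = ‖x‖ := one_mul _
    have := norm_nonneg (X x)
    nlinarith
  obtain ⟨D, hD⟩ := CStarAlgebra.nonneg_iff_eq_star_mul_self.1 h0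
  refine ⟨D, fun x => ?_⟩
  have h1 := key D x
  rw [← hD, sub_apply, inner_sub_left, key, one_apply_eq_self,
    inner_self_eq_norm_sq_to_K] at h1
  have h2 : ((‖x‖ ^ 2 - ‖X x‖ ^ 2 : ℝ) : ℂ) = ((‖D x‖ ^ 2 : ℝ) : ℂ) := by
    rw [← h1]; simp
  have h3 := Complex.ofReal_injective h2
  linarith

/-- the function underlying the isometric dilation -/
def shiftFun (X D : H → H) (f : ℕ → H) : ℕ → H
  | 0 => X (f 0)
  | 1 => D (f 0)
  | (k + 2) => f (k + 1)

lemma shiftFun_hasSum {X D : H →L[ℂ] H} (hXD : ∀ x, ‖X x‖ ^ 2 + ‖D x‖ ^ 2 = ‖x‖ ^ 2)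
    (f : lp (fun _ : ℕ => H) 2) :
    HasSum (fun k => ‖shiftFun X D f k‖ ^ 2) (‖f‖ ^ 2) := by
  have h1 := lp2_hasSum f
  have h2 : HasSum (fun k => ‖f (k + 1)‖ ^ 2) (‖f‖ ^ 2 - ‖f 0‖ ^ 2) := by
    have := (hasSum_nat_add_iff' 1).2 h1
    simpa using this
  have h4 := (hasSum_nat_add_iff (f := fun k => ‖shiftFun X D f k‖ ^ 2) 2).1 h2
  have h5 : ‖f‖ ^ 2 - ‖f 0‖ ^ 2 + ∑ i ∈ Finset.range 2, ‖shiftFun X D f i‖ ^ 2 = ‖f‖ ^ 2 := by
    rw [Finset.sum_range_succ, Finset.sum_range_one]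
    have := hXD (f 0)
    simp only [shiftFun]
    linarith
  rw [h5] at h4
  exact h4

/-- the isometric dilation -/
noncomputable def dilV {X D : H →L[ℂ] H} (hXD : ∀ x, ‖X x‖ ^ 2 + ‖D x‖ ^ 2 = ‖x‖ ^ 2) :
    lp (fun _ : ℕ => H) 2 →ₗᵢ[ℂ] lp (fun _ : ℕ => H) 2 where
  toFun f := ⟨shiftFun X D f, memlp2 (shiftFun_hasSum hXD f).summable⟩
  map_add' f g := by
    ext k
    change shiftFun X D (f + g : lp (fun _ : ℕ => H) 2) k = shiftFun X D f k + shiftFun X D g k
    match k with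
    | 0 => simp [shiftFun]
    | 1 => simp [shiftFun]
    | (k + 2) => simp [shiftFun]
  map_smul' c f := by
    ext k
    change shiftFun X D (c • f : lp (fun _ : ℕ => H) 2) k = c • shiftFun X D f k
    match k with
    | 0 => simp [shiftFun]
    | 1 => simp [shiftFun]
    | (k + 2) => simp [shiftFun]
  norm_map' f := by
    have h1 := lp2_hasSum (⟨shiftFun X D f, memlp2 (shiftFun_hasSum hXD f).summable⟩ :
      lp (fun _ : ℕ => H) 2)
    have h2 := shiftFun_hasSum hXD f
    have h3 := h1.unique h2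
    exact (sq_eq_sq₀ (norm_nonneg _) (norm_nonneg _)).1 h3

/-- evaluation at `0` -/
noncomputable def ev0 : lp (fun _ : ℕ => H) 2 →L[ℂ] H :=
  LinearMap.mkContinuous
    { toFun := fun f => f 0
      map_add' := fun f g => rfl
      map_smul' := fun c f => rfl } 1 (fun f => by
        rw [one_mul]
        exact lp.norm_apply_le_norm (by norm_num) f 0)

lemma ev0_apply (f : lp (fun _ : ℕ => H) 2) : ev0 f = f 0 := rfl

lemma ev0_adj (x : H) : adjoint (ev0 : lp (fun _ : ℕ => H) 2 →L[ℂ] H) x = lp.single 2 0 x := by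
  refine ext_inner_right ℂ fun f => ?_
  rw [ContinuousLinearMap.adjoint_inner_left, ev0_apply, lp.inner_single_left]

lemma ev0_ev0_adj (x : H) : ev0 (adjoint (ev0 : lp (fun _ : ℕ => H) 2 →L[ℂ] H) x) = x := by
  rw [ev0_adj, ev0_apply, lp.single_apply_self]

/-- every isometry extends to a unitary operator -/
theorem exists_unitary_ext {K : Type*} [NormedAddCommGroup K] [InnerProductSpace ℂ K]
    [CompleteSpace K] (V : K →ₗᵢ[ℂ] K) :
    ∃ U : WithLp 2 (K × K) →L[ℂ] WithLp 2 (K × K), U ∈ unitary _ ∧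
      ∀ k, U (WithLp.toLp 2 (k, 0)) = WithLp.toLp 2 (V k, 0) := by
  set W : K →L[ℂ] K := V.toContinuousLinearMap with hW
  have hWk : ∀ k, W k = V k := fun k => rfl
  have hVV : ∀ k, adjoint W (W k) = k := by
    intro k
    refine ext_inner_right ℂ fun l => ?_
    rw [ContinuousLinearMap.adjoint_inner_left, hWk, hWk, V.inner_map_map]
  have hP : ∀ l, adjoint W (l - W (adjoint W l)) = 0 := by
    intro l
    rw [map_sub, hVV, sub_self]
  let Ul : WithLp 2 (K × K) →ₗ[ℂ] WithLp 2 (K × K) :=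
    { toFun := fun x => WithLp.toLp 2 (W x.fst + (x.snd - W (adjoint W x.snd)), adjoint W x.snd)
      map_add' := by
        intro x y
        have e1 : (x + y).fst = x.fst + y.fst := rfl
        have e2 : (x + y).snd = x.snd + y.snd := rfl
        rw [e1, e2, ← WithLp.toLp_add, Prod.mk_add_mk]
        congr 2
        · simp only [map_add]
          abel
        · simp only [map_add]
      map_smul' := by
        intro c x
        have e1 : (c • x).fst = c • x.fst := rfl
        have e2 : (c • x).snd = c • x.snd := rfl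
        rw [e1, e2, RingHom.id_apply, ← WithLp.toLp_smul, Prod.smul_mk]
        congr 2
        · simp only [map_smul, smul_add, smul_sub]
        · simp only [map_smul] }
  have horth : ∀ k l, (⟪W k, l - W (adjoint W l)⟫_ℂ) = 0 := by
    intro k l
    rw [← ContinuousLinearMap.adjoint_inner_right, hP, inner_zero_right]
  have hnorm : ∀ x, ‖Ul x‖ = ‖x‖ := by
    intro x
    rw [← sq_eq_sq₀ (norm_nonneg _) (norm_nonneg _), WithLp.prod_norm_sq_eq_of_L2,
      WithLp.prod_norm_sq_eq_of_L2]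
    change ‖W x.fst + (x.snd - W (adjoint W x.snd))‖ ^ 2 + ‖adjoint W x.snd‖ ^ 2 = _
    have h1 := norm_add_sq_eq_norm_sq_add_norm_sq_of_inner_eq_zero (𝕜 := ℂ)
      (W x.fst) (x.snd - W (adjoint W x.snd)) (horth _ _)
    have h2 := norm_add_sq_eq_norm_sq_add_norm_sq_of_inner_eq_zero (𝕜 := ℂ)
      (W (adjoint W x.snd)) (x.snd - W (adjoint W x.snd)) (horth _ _)
    rw [add_sub_cancel] at h2
    have h3 : ‖W x.fst‖ = ‖x.fst‖ := by rw [hWk]; exact V.norm_map _
    have h4 : ‖W (adjoint W x.snd)‖ = ‖adjoint W x.snd‖ := by rw [hWk]; exact V.norm_map _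
    rw [h3] at h1
    rw [h4] at h2
    nlinarith [h1, h2]
  let Ui : WithLp 2 (K × K) →ₗᵢ[ℂ] WithLp 2 (K × K) := ⟨Ul, hnorm⟩
  have hsurj : Function.Surjective Ui := by
    intro y
    refine ⟨WithLp.toLp 2 (adjoint W y.fst, W y.snd + (y.fst - W (adjoint W y.fst))), ?_⟩
    change Ul _ = y
    have e1 : adjoint W (W y.snd + (y.fst - W (adjoint W y.fst))) = y.snd := by
      rw [map_add, hP, add_zero, hVV]
    change WithLp.toLp 2 (W (adjoint W y.fst) + ((W y.snd + (y.fst - W (adjoint W y.fst))) -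
      W (adjoint W (W y.snd + (y.fst - W (adjoint W y.fst))))), adjoint W (W y.snd + (y.fst - W (adjoint W y.fst)))) = y
    rw [e1]
    have e2 : W (adjoint W y.fst) + (W y.snd + (y.fst - W (adjoint W y.fst)) - W y.snd) = y.fst := by abel
    rw [e2]
    rfl
  let Ue := LinearIsometryEquiv.ofSurjective Ui hsurj
  refine ⟨(Ue : WithLp 2 (K × K) →L[ℂ] WithLp 2 (K × K)), ?_, ?_⟩
  · exact (Unitary.linearIsometryEquiv.symm Ue).2
  · intro k
    change Ul _ = _
    change WithLp.toLp 2 (W k + ((0:K) - W (adjoint W (0:K))), adjoint W (0:K)) = _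
    simp [hWk]

end Run7.h163
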