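import Pool.Agent.Run7.h163.FQ

/-!
# Equidistribution on the torus, and functions with zero mean in the second variable
-/

set_option autoImplicit false
set_option linter.unusedSectionVars false
set_option linter.unusedVariables false
set_option linter.deprecated false

open scoped ComplexConjugate
open Filter Topology Finset

namespace Run7.h163

/-- restriction to the curve `(z, z^K)` -/
noncomputable def curve (K : ℕ) : C(Circle, Circle × Circle) :=
  ⟨fun z => (z, z ^ K), continuous_id.prodMk (continuous_pow K)⟩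

lemma curve_apply (K : ℕ) (z : Circle) : curve K z = (z, z ^ K) := rfl

lemma mono_curve (k l : ℤ) (K : ℕ) : (mono k l).comp (curve K) = zp (k + l * K) := by
  ext w
  rw [ContinuousMap.comp_apply, curve_apply, mono_apply, zp_apply]
  congr 1
  simp only
  rw [zpow_add, mul_comm l, zpow_mul, zpow_natCast]

/-- the average over the torus -/
noncomputable def avg2 (F : CT) : ℂ := avg (fun s => avg (fun θ => F (s, θ)))

lemma inner_avg_continuous {E : Type*} [NormedAddCommGroup E] [NormedSpace ℝ E] [CompleteSpace E]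
    {F : Circle × Circle → E} (hF : Continuous F) :
    Continuous fun s : Circle => avg (fun θ => F (s, θ)) := by
  unfold avg
  refine Continuous.const_smul ?_ _
  apply intervalIntegral.continuous_parametric_intervalIntegral_of_continuous'
  exact hF.comp ((continuous_fst).prodMk (Circle.exp.continuous.comp continuous_snd))

lemma avg2_add (F G : CT) : avg2 (F + G) = avg2 F + avg2 G := by
  unfold avg2
  have h : ∀ s : Circle, avg (fun θ => (F + G) (s, θ)) =
      avg (fun θ => F (s, θ)) + avg (fun θ => G (s, θ)) := fun s =>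
    avg_add (by fun_prop) (by fun_prop)
  simp_rw [h]
  exact avg_add (inner_avg_continuous F.continuous) (inner_avg_continuous G.continuous)

lemma avg2_smul (c : ℂ) (F : CT) : avg2 (c • F) = c * avg2 F := by
  unfold avg2
  have h : ∀ s : Circle, avg (fun θ => (c • F) (s, θ)) = c * avg (fun θ => F (s, θ)) := fun s =>
    avg_cmul c _
  simp_rw [h]
  exact avg_cmul c _

lemma avg2_sub (F G : CT) : avg2 (F - G) = avg2 F - avg2 G := by
  have : F - G = F + (-1 : ℂ) • G := by simp [sub_eq_add_neg]
  rw [this, avg2_add, avg2_smul]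
  ring

lemma avg2_norm (F : CT) : ‖avg2 F‖ ≤ ‖F‖ :=
  norm_avg_le fun s => norm_avg_le fun θ => F.norm_coe_le_norm _

lemma avg2_mono_eq (k l : ℤ) : avg2 (mono k l) = if k = 0 ∧ l = 0 then 1 else 0 := by
  unfold avg2
  have h : ∀ s : Circle, avg (fun θ => (mono k l) (s, θ)) = zp k s * avg (zp l) := by
    intro s
    have : (fun θ : Circle => (mono k l) (s, θ)) = fun θ => zp k s * zp l θ := by
      ext θ
      rw [mono_apply, zp_apply, zp_apply, ← Circle.coe_mul]
    rw [this, avg_cmul]
  simp_rw [h]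
  by_cases hl : l = 0
  · subst hl
    rw [avg_zp_zero]
    simp only [mul_one]
    by_cases hk : k = 0
    · subst hk
      simp [avg_zp_zero]
    · rw [avg_zp k hk]
      simp [hk]
  · rw [avg_zp l hl]
    simp only [mul_zero]
    rw [avg_const]
    simp [hl]

lemma avg_curve_TP {P : CT} (hP : P ∈ TP) :
    ∃ K0, ∀ K ≥ K0, avg (fun z => P (curve K z)) = avg2 P := by
  induction hP using Submodule.span_induction with
  | mem x h =>
    obtain ⟨⟨k, l⟩, rfl⟩ := h
    refine ⟨k.natAbs + 1, fun K hK => ?_⟩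
    simp only
    have e : (fun z => (mono k l) (curve K z)) = zp (k + l * K) := by
      rw [← mono_curve]; rfl
    rw [e, avg2_mono_eq]
    by_cases h : k = 0 ∧ l = 0
    · rw [if_pos h, h.1, h.2]
      simp [avg_zp_zero]
    · rw [if_neg h, avg_zp]
      intro h0
      rcases eq_or_ne l 0 with hl | hl
      · subst hl
        simp at h0
        exact h ⟨h0, rfl⟩
      · have h1 : k = -(l * K) := by linarith
        have h2 : k.natAbs = l.natAbs * K := by
          rw [h1, Int.natAbs_neg, Int.natAbs_mul, Int.natAbs_natCast]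
        have h3 : 1 ≤ l.natAbs := Int.natAbs_pos.2 hl
        nlinarith
  | zero =>
    refine ⟨0, fun K _ => ?_⟩
    have : avg2 (0 : CT) = 0 := by
      have := avg2_smul 0 (0 : CT)
      rwa [zero_smul, zero_mul] at this
    rw [this]
    simp [avg_const]
  | add x y _ _ hx hy =>
    obtain ⟨K1, h1⟩ := hx
    obtain ⟨K2, h2⟩ := hy
    refine ⟨max K1 K2, fun K hK => ?_⟩
    have e := avg_add (f := fun z => x (curve K z)) (g := fun z => y (curve K z))
      (by fun_prop) (by fun_prop)
    rw [avg2_add, ← h1 K (le_trans (le_max_left _ _) hK), ← h2 K (le_trans (le_max_right _ _) hK),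
      ← e]
    rfl
  | smul c x _ hx =>
    obtain ⟨K1, h1⟩ := hx
    refine ⟨K1, fun K hK => ?_⟩
    rw [avg2_smul, ← h1 K hK, ← avg_cmul]
    rfl

theorem equidist (F : CT) {ε : ℝ} (hε : 0 < ε) :
    ∃ K0, ∀ K ≥ K0, ‖avg (fun z => F (curve K z)) - avg2 F‖ ≤ ε := by
  obtain ⟨P, hP, hd⟩ := TP_dense F (show 0 < ε / 2 by positivity)
  obtain ⟨K0, hK⟩ := avg_curve_TP hP
  refine ⟨K0, fun K hK0 => ?_⟩
  have e1 : avg (fun z => F (curve K z)) - avg2 F =
      avg (fun z => (F - P) (curve K z)) - avg2 (F - P) := by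
    have : avg (fun z => (F - P) (curve K z)) =
      avg (fun z => F (curve K z)) - avg (fun z => P (curve K z)) :=
      avg_sub (f := fun z => F (curve K z)) (g := fun z => P (curve K z))
        (by fun_prop) (by fun_prop)
    rw [this, avg2_sub, hK K hK0]
    ring
  rw [e1]
  have h1 : ‖avg (fun z => (F - P) (curve K z))‖ ≤ ε / 2 :=
    norm_avg_le fun z => ((F - P).norm_coe_le_norm _).trans hd.le
  have h2 := (avg2_norm (F - P)).trans hd.le
  calc _ ≤ ‖avg (fun z => (F - P) (curve K z))‖ + ‖avg2 (F - P)‖ := norm_sub_le _ _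
    _ ≤ ε / 2 + ε / 2 := add_le_add h1 h2
    _ = ε := by ring

/-- trigonometric polynomials with only positive frequencies in the second variable -/
noncomputable def VP : Submodule ℂ CT :=
  Submodule.span ℂ {F | ∃ k l : ℤ, 1 ≤ l ∧ F = mono k l}

/-- functions independent of the second variable -/
def V0 : Submodule ℂ CT where
  carrier := {F | ∀ s θ θ', F (s, θ) = F (s, θ')}
  add_mem' := fun {f g} hf hg s θ θ' => by
    change f (s, θ) + g (s, θ) = f (s, θ') + g (s, θ')
    rw [hf s θ θ', hg s θ θ']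
  zero_mem' := fun s θ θ' => rfl
  smul_mem' := fun c f hf s θ θ' => by
    change c * f (s, θ) = c * f (s, θ')
    rw [hf s θ θ']

lemma VP_avg {G : CT} (hG : G ∈ VP) (s : Circle) : avg (fun θ => G (s, θ)) = 0 := by
  induction hG using Submodule.span_induction with
  | mem x h =>
    obtain ⟨k, l, hl, rfl⟩ := h
    have : (fun θ : Circle => (mono k l) (s, θ)) = fun θ => zp k s * zp l θ := by
      ext θ
      rw [mono_apply, zp_apply, zp_apply, ← Circle.coe_mul]
    rw [this, avg_cmul, avg_zp l (by omega), mul_zero]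
  | zero => simp [avg_const]
  | add x y _ _ hx hy =>
    have e := avg_add (f := fun θ => x (s, θ)) (g := fun θ => y (s, θ))
      (by fun_prop) (by fun_prop)
    rw [hx, hy, add_zero] at e
    exact e
  | smul c x _ hx =>
    have e := avg_cmul c (fun θ => x (s, θ))
    rw [hx, mul_zero] at e
    exact e

lemma VP_curve {G : CT} (hG : G ∈ VP) (M : ℕ) :
    ∃ K0, ∀ K ≥ K0, G.comp (curve K) ∈ DV M := by
  induction hG using Submodule.span_induction with
  | mem x h =>
    obtain ⟨k, l, hl, rfl⟩ := h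
    refine ⟨k.natAbs + M, fun K hK => ?_⟩
    rw [mono_curve]
    have h1 : (M : ℤ) ≤ k + l * K := by
      have h2 : (K : ℤ) ≤ l * K := by nlinarith [Int.natCast_nonneg K]
      omega
    obtain ⟨n, hn⟩ := Int.eq_ofNat_of_zero_le (by omega : 0 ≤ k + l * K - M)
    have h3 : k + l * K = ((M + n : ℕ) : ℤ) := by push_cast; omega
    rw [h3, zp_natCast, pow_add]
    exact DV_of (AD.pow_mem zC_mem n)
  | zero => exact ⟨0, fun K _ => (DV M).zero_mem⟩
  | add x y _ _ hx hy =>
    obtain ⟨K1, h1⟩ := hx
    obtain ⟨K2, h2⟩ := hy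
    refine ⟨max K1 K2, fun K hK => ?_⟩
    have e : (x + y).comp (curve K) = x.comp (curve K) + y.comp (curve K) := rfl
    rw [e]
    exact (DV M).add_mem (h1 K (le_trans (le_max_left _ _) hK))
      (h2 K (le_trans (le_max_right _ _) hK))
  | smul c x _ hx =>
    obtain ⟨K1, h1⟩ := hx
    refine ⟨K1, fun K hK => ?_⟩
    have e : (c • x).comp (curve K) = c • x.comp (curve K) := rfl
    rw [e]
    exact (DV M).smul_mem c (h1 K hK)

lemma TP_decomp {P : CT} (hP : P ∈ TP) :
    ∃ P1 ∈ VP, ∃ P2 ∈ VP, ∃ P0 ∈ V0, P = P1 + star P2 + P0 := by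
  induction hP using Submodule.span_induction with
  | mem x h =>
    obtain ⟨⟨k, l⟩, rfl⟩ := h
    rcases lt_trichotomy l 0 with hl | hl | hl
    · refine ⟨0, VP.zero_mem, mono (-k) (-l), Submodule.subset_span ⟨-k, -l, by omega, rfl⟩, 0,
        V0.zero_mem, ?_⟩
      rw [mono_star]
      simp
    · refine ⟨0, VP.zero_mem, 0, VP.zero_mem, mono k l, ?_, by simp⟩
      intro s θ θ'
      rw [mono_apply, mono_apply, hl]
      simp
    · exact ⟨mono k l, Submodule.subset_span ⟨k, l, by omega, rfl⟩, 0, VP.zero_mem, 0,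
        V0.zero_mem, by simp⟩
  | zero => exact ⟨0, VP.zero_mem, 0, VP.zero_mem, 0, V0.zero_mem, by simp⟩
  | add x y _ _ hx hy =>
    obtain ⟨P1, h1, P2, h2, P0, h0, rfl⟩ := hx
    obtain ⟨Q1, g1, Q2, g2, Q0, g0, rfl⟩ := hy
    refine ⟨P1 + Q1, VP.add_mem h1 g1, P2 + Q2, VP.add_mem h2 g2, P0 + Q0, V0.add_mem h0 g0, ?_⟩
    rw [star_add]
    abel
  | smul c x _ hx =>
    obtain ⟨P1, h1, P2, h2, P0, h0, rfl⟩ := hx
    refine ⟨c • P1, VP.smul_mem _ h1, (star c) • P2, VP.smul_mem _ h2, c • P0,
      V0.smul_mem _ h0, ?_⟩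
    rw [star_smul, star_star, smul_add, smul_add]

/-- real functions with zero mean in the second variable are uniformly close to real parts of
functions in `VP` -/
theorem approx_VP (F : C(Circle × Circle, ℝ)) (hF : ∀ s, avg (fun θ => F (s, θ)) = 0) {ε : ℝ}
    (hε : 0 < ε) : ∃ G ∈ VP, ∀ p, |F p - (G p).re| ≤ ε := by
  let Fc : CT := ⟨fun p => (F p : ℂ), by fun_prop⟩
  obtain ⟨P, hP, hd⟩ := TP_dense Fc (show 0 < ε / 2 by positivity)
  obtain ⟨P1, h1, P2, h2, P0, h0, hdec⟩ := TP_decomp hP
  refine ⟨P1 + P2, VP.add_mem h1 h2, ?_⟩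
  have hre : ∀ p, (P p).re = ((P1 + P2) p).re + (P0 p).re := by
    intro p
    rw [hdec]
    change (P1 p + star (P2 p) + P0 p).re = (P1 p + P2 p).re + (P0 p).re
    simp
  have hclose : ∀ p, |F p - (P p).re| ≤ ε / 2 := by
    intro p
    have h3 := ((Fc - P).norm_coe_le_norm p).trans hd.le
    have h4 : F p - (P p).re = ((Fc - P) p).re := by
      change F p - (P p).re = ((F p : ℂ) - P p).re
      simp
    rw [h4]
    exact (Complex.abs_re_le_norm _).trans h3
  have hP0 : ∀ s θ, |(P0 (s, θ)).re| ≤ ε / 2 := by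
    intro s θ
    have e1 : avg (fun θ' => (P0 (s, θ')).re) = (P0 (s, θ)).re := by
      have : (fun θ' => (P0 (s, θ')).re) = fun _ : Circle => (P0 (s, θ)).re := by
        ext θ'
        rw [h0 s θ' θ]
      rw [this, avg_const]
    have e2 : avg (fun θ' => ((P1 + P2) (s, θ')).re) = 0 := by
      rw [← avg_re (by fun_prop), VP_avg (VP.add_mem h1 h2) s, Complex.zero_re]
    have e3 : avg (fun θ' => F (s, θ') - (P (s, θ')).re) = -(P0 (s, θ)).re := by
      rw [avg_sub (by fun_prop) (by fun_prop), hF s]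
      simp_rw [hre]
      rw [avg_add (by fun_prop) (by fun_prop), e1, e2]
      ring
    have e4 : |avg (fun θ' => F (s, θ') - (P (s, θ')).re)| ≤ ε / 2 := by
      have := norm_avg_le (f := fun θ' => F (s, θ') - (P (s, θ')).re) (C := ε / 2)
        (fun θ' => by rw [Real.norm_eq_abs]; exact hclose _)
      rwa [Real.norm_eq_abs] at this
    rwa [e3, abs_neg] at e4
  rintro ⟨s, θ⟩
  have h5 := hclose (s, θ)
  have h6 := hP0 s θ
  rw [hre] at h5
  rw [abs_le] at h5 h6 ⊢
  constructor <;> linarith [h5.1, h5.2, h6.1, h6.2]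

end Run7.h163
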