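import Pool.Agent.Run7.h163.SW
import Pool.Agent.Run7.h163.Dil

/-!
# Functional calculus for a contraction
-/

set_option autoImplicit false
set_option linter.deprecated false
set_option linter.unusedSectionVars false

open scoped ComplexConjugate InnerProductSpace InnerProduct
open ContinuousLinearMap

namespace Run7.h163

/-- the average as a continuous linear functional -/
noncomputable def avgL : CA →L[ℂ] ℂ :=
  LinearMap.mkContinuous
    { toFun := fun f => avg f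
      map_add' := fun f g => avg_add f.continuous g.continuous
      map_smul' := fun c f => avg_cmul c f } 1 (fun f => by
        rw [one_mul]
        exact norm_avg_le fun w => f.norm_coe_le_norm w)

lemma avgL_apply (f : CA) : avgL f = avg f := rfl

section rep
variable {K : Type*} [NormedAddCommGroup K] [InnerProductSpace ℂ K] [CompleteSpace K]

lemma rep_norm_sq (π : CA →⋆ₐ[ℂ] (K →L[ℂ] K)) (f : CA) (x : K) :
    ((‖π f x‖ ^ 2 : ℝ) : ℂ) = ⟪x, π (star f * f) x⟫_ℂ := by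
  rw [map_mul, map_star, mul_apply_eq_comp, ContinuousLinearMap.star_eq_adjoint,
    ContinuousLinearMap.adjoint_inner_right, inner_self_eq_norm_sq_to_K]
  simp

lemma rep_norm_le (π : CA →⋆ₐ[ℂ] (K →L[ℂ] K)) (f : CA) : ‖π f‖ ≤ ‖f‖ :=
  NonUnitalStarAlgHom.norm_apply_le π f

lemma rep_continuous (π : CA →⋆ₐ[ℂ] (K →L[ℂ] K)) : Continuous π :=
  AddMonoidHomClass.continuous_of_bound π 1 (fun f => by rw [one_mul]; exact rep_norm_le π f)

/-- column inequality -/
lemma rep_column (π : CA →⋆ₐ[ℂ] (K →L[ℂ] K)) (f1 f2 f3 : CA) (c : ℝ)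
    (h : ∀ w, ‖f1 w‖ ^ 2 + ‖f2 w‖ ^ 2 + ‖f3 w‖ ^ 2 ≤ c) (x : K) :
    ‖π f1 x‖ ^ 2 + ‖π f2 x‖ ^ 2 + ‖π f3 x‖ ^ 2 ≤ c * ‖x‖ ^ 2 := by
  let g : CA := ⟨fun w => ((√(c - (‖f1 w‖ ^ 2 + ‖f2 w‖ ^ 2 + ‖f3 w‖ ^ 2)) : ℝ) : ℂ), by
    fun_prop⟩
  have h1 : star f1 * f1 + star f2 * f2 + star f3 * f3 + star g * g = (c : ℂ) • (1 : CA) := by
    ext w
    have hsq : ∀ a : ℂ, star a * a = ((‖a‖ ^ 2 : ℝ) : ℂ) := by
      intro a
      rw [← Complex.normSq_eq_norm_sq, Complex.normSq_eq_conj_mul_self]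
      rfl
    simp only [ContinuousMap.add_apply, ContinuousMap.mul_apply, ContinuousMap.star_apply, hsq,
      ContinuousMap.smul_apply, ContinuousMap.one_apply]
    have h2 : ‖g w‖ ^ 2 = c - (‖f1 w‖ ^ 2 + ‖f2 w‖ ^ 2 + ‖f3 w‖ ^ 2) := by
      change ‖((√(c - (‖f1 w‖ ^ 2 + ‖f2 w‖ ^ 2 + ‖f3 w‖ ^ 2)) : ℝ) : ℂ)‖ ^ 2 = _
      rw [Complex.norm_real, Real.norm_eq_abs, sq_abs, Real.sq_sqrt]
      linarith [h w]
    rw [h2]
    push_cast
    simp
  have h2 : ((‖π f1 x‖ ^ 2 + ‖π f2 x‖ ^ 2 + ‖π f3 x‖ ^ 2 + ‖π g x‖ ^ 2 : ℝ) : ℂ) =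
      ((c * ‖x‖ ^ 2 : ℝ) : ℂ) := by
    rw [Complex.ofReal_add, Complex.ofReal_add, Complex.ofReal_add, rep_norm_sq, rep_norm_sq,
      rep_norm_sq, rep_norm_sq, ← inner_add_right, ← inner_add_right, ← inner_add_right]
    rw [← add_apply, ← add_apply, ← add_apply, ← map_add, ← map_add, ← map_add, h1, map_smul,
      map_one, smul_apply, one_apply_eq_self, inner_smul_right, inner_self_eq_norm_sq_to_K]
    simp
  have h3 := Complex.ofReal_injective h2
  nlinarith [sq_nonneg ‖π g x‖]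

/-- if the powers of `π zC` move `e` orthogonally to `e`, the spectral measure at `e` is the
normalized arc length -/
lemma rep_avg (π : CA →⋆ₐ[ℂ] (K →L[ℂ] K)) (e : K) (he : ‖e‖ = 1)
    (h : ∀ k : ℕ, 1 ≤ k → ⟪e, π (zC ^ k) e⟫_ℂ = 0) (f : CA) :
    ⟪e, π f e⟫_ℂ = avg f := by
  have hzp : ∀ k : ℤ, ⟪e, π (zp k) e⟫_ℂ = avg (zp k) := by
    intro k
    have hnat : ∀ n : ℕ, 1 ≤ n → ⟪e, π (zp (n : ℤ)) e⟫_ℂ = 0 := by
      intro n hn
      rw [zp_natCast]
      exact h n hn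
    rcases lt_trichotomy k 0 with hk | hk | hk
    · rw [avg_zp k hk.ne]
      obtain ⟨n, hn⟩ := Int.eq_ofNat_of_zero_le (by omega : 0 ≤ -k)
      have h2 := hnat n (by omega)
      rw [← hn, zp_neg, map_star, ContinuousLinearMap.star_eq_adjoint,
        ContinuousLinearMap.adjoint_inner_right] at h2
      rw [← inner_conj_symm, h2, map_zero]
    · rw [hk, avg_zp_zero]
      have h1 : zp 0 = (1 : CA) := by
        ext w
        rw [zp_apply]
        simp
      rw [h1, map_one, one_apply_eq_self, inner_self_eq_norm_sq_to_K, he]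
      simp
    · rw [avg_zp k hk.ne']
      obtain ⟨n, hn⟩ := Int.eq_ofNat_of_zero_le hk.le
      have h2 := hnat n (by omega)
      rwa [← hn] at h2
  have hTP : ∀ g ∈ TP1, ⟪e, π g e⟫_ℂ = avgL g := by
    intro g hg
    induction hg using Submodule.span_induction with
    | mem x hx =>
      obtain ⟨k, rfl⟩ := hx
      exact hzp k
    | zero => simp
    | add x y _ _ hx hy => rw [map_add, add_apply, inner_add_right, hx, hy, map_add]
    | smul c x _ hx => rw [map_smul, smul_apply, inner_smul_right, hx, map_smul, smul_eq_mul]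
  have hden : Dense (TP1 : Set CA) := by
    intro g
    rw [Metric.mem_closure_iff]
    intro ε hε
    obtain ⟨P, hP, hd⟩ := TP1_dense g hε
    exact ⟨P, hP, by rwa [dist_eq_norm]⟩
  have hc1 : Continuous fun g : CA => ⟪e, π g e⟫_ℂ := by
    have h1 : Continuous fun g : CA => π g e :=
      (ContinuousLinearMap.apply ℂ K e).continuous.comp (rep_continuous π)
    exact continuous_const.inner h1
  have heq := Continuous.ext_on hden hc1 avgL.continuous hTP
  exact congrFun heq f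

end rep

variable {H : Type*} [NormedAddCommGroup H] [InnerProductSpace ℂ H] [CompleteSpace H]

/-- the properties of the functional calculus -/
structure IsFC (X : H →L[ℂ] H) (E : CA →ₗ[ℂ] (H →L[ℂ] H)) : Prop where
  pow : ∀ k : ℕ, E (zC ^ k) = X ^ k
  column : ∀ (f1 f2 f3 : CA) (c : ℝ), (∀ w, ‖f1 w‖ ^ 2 + ‖f2 w‖ ^ 2 + ‖f3 w‖ ^ 2 ≤ c) →
    ∀ x : H, ‖E f1 x‖ ^ 2 + ‖E f2 x‖ ^ 2 + ‖E f3 x‖ ^ 2 ≤ c * ‖x‖ ^ 2
  l2 : ∀ e : H, ‖e‖ = 1 → (∀ k : ℕ, 1 ≤ k → ⟪e, (X ^ k) e⟫_ℂ = 0) → ∀ f : CA,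
    ‖E f e‖ ^ 2 ≤ avg (fun w => ‖f w‖ ^ 2) ∧ ⟪e, E f e⟫_ℂ = avg f

theorem exists_fc (X : H →L[ℂ] H) (hX : ‖X‖ ≤ 1) : ∃ E : CA →ₗ[ℂ] (H →L[ℂ] H), IsFC X E := by
  obtain ⟨D, hD⟩ := exists_defect X hX
  set V := dilV hD with hV
  obtain ⟨U, hU, hUV⟩ := exists_unitary_ext V
  obtain ⟨π, hπ⟩ := exists_rep U hU
  -- the embedding of the space of the isometric dilation
  let K0 := lp (fun _ : ℕ => H) 2
  let Jl : K0 →ₗ[ℂ] WithLp 2 (K0 × K0) :=
    { toFun := fun k => WithLp.toLp 2 (k, 0)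
      map_add' := by
        intro x y
        rw [← WithLp.toLp_add, Prod.mk_add_mk, add_zero]
      map_smul' := by
        intro c x
        rw [RingHom.id_apply, ← WithLp.toLp_smul, Prod.smul_mk, smul_zero] }
  let Ji : K0 →ₗᵢ[ℂ] WithLp 2 (K0 × K0) := ⟨Jl, by
    intro x
    rw [← sq_eq_sq₀ (norm_nonneg _) (norm_nonneg _), WithLp.prod_norm_sq_eq_of_L2]
    change ‖x‖ ^ 2 + ‖(0:K0)‖ ^ 2 = _
    simp⟩
  let J1 : K0 →L[ℂ] WithLp 2 (K0 × K0) := Ji.toContinuousLinearMap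
  let P : K0 →L[ℂ] H := ev0
  let J : H →L[ℂ] WithLp 2 (K0 × K0) := J1 ∘L adjoint P
  have hJ : ∀ x, adjoint J (J x) = x := by
    intro x
    refine ext_inner_right ℂ fun y => ?_
    rw [ContinuousLinearMap.adjoint_inner_left]
    change ⟪Ji (adjoint P x), Ji (adjoint P y)⟫_ℂ = _
    rw [Ji.inner_map_map, ContinuousLinearMap.adjoint_inner_right]
    change ⟪ev0 (adjoint ev0 x), y⟫_ℂ = _
    rw [ev0_ev0_adj]
  have hJn : ∀ x, ‖J x‖ = ‖x‖ := by
    intro x
    have h1 : ⟪J x, J x⟫_ℂ = ⟪x, x⟫_ℂ := by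
      rw [← ContinuousLinearMap.adjoint_inner_left, hJ]
    rw [inner_self_eq_norm_sq_to_K, inner_self_eq_norm_sq_to_K] at h1
    have h2 : ‖J x‖ ^ 2 = ‖x‖ ^ 2 := by exact_mod_cast h1
    exact (sq_eq_sq₀ (norm_nonneg _) (norm_nonneg _)).1 h2
  have hJa : ∀ y, ‖adjoint J y‖ ≤ ‖y‖ := by
    intro y
    have h1 : ‖adjoint J‖ ≤ 1 := by
      rw [LinearIsometryEquiv.norm_map]
      exact ContinuousLinearMap.opNorm_le_bound _ zero_le_one fun x => by rw [hJn, one_mul]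
    calc ‖adjoint J y‖ ≤ ‖adjoint J‖ * ‖y‖ := (adjoint J).le_opNorm y
      _ ≤ 1 * ‖y‖ := by gcongr
      _ = ‖y‖ := one_mul _
  have hUk : ∀ (k : ℕ) (x : K0), (U ^ k) (J1 x) = J1 ((V ^ k) x) := by
    intro k
    induction k with
    | zero => intro x; simp
    | succ k ih =>
      intro x
      rw [pow_succ, mul_apply_eq_comp]
      have : U (J1 x) = J1 (V x) := hUV x
      rw [this, ih]
      rfl
  have hPV : ∀ (k : ℕ) (x : K0), P ((V ^ k) x) = (X ^ k) (P x) := by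
    intro k
    induction k with
    | zero => intro x; simp
    | succ k ih =>
      intro x
      have : (V ^ (k + 1)) x = (V ^ k) (V x) := rfl
      rw [this, ih, pow_succ]
      rfl
  have hdil : ∀ (k : ℕ) (x : H), adjoint J ((U ^ k) (J x)) = (X ^ k) x := by
    intro k x
    refine ext_inner_right ℂ fun y => ?_
    rw [ContinuousLinearMap.adjoint_inner_left]
    have h1 : (U ^ k) (J x) = J1 ((V ^ k) (adjoint P x)) := hUk k _
    rw [h1]
    change ⟪Ji ((V ^ k) (adjoint P x)), Ji (adjoint P y)⟫_ℂ = _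
    rw [Ji.inner_map_map, ContinuousLinearMap.adjoint_inner_right, hPV]
    change ⟪(X ^ k) (ev0 (adjoint ev0 x)), y⟫_ℂ = _
    rw [ev0_ev0_adj]
  let E : CA →ₗ[ℂ] (H →L[ℂ] H) :=
    { toFun := fun f => adjoint J ∘L (π f ∘L J)
      map_add' := by
        intro f g
        ext x
        simp
      map_smul' := by
        intro c f
        ext x
        simp }
  have hE : ∀ f x, E f x = adjoint J (π f (J x)) := fun f x => rfl
  refine ⟨E, ⟨?_, ?_, ?_⟩⟩
  · intro k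
    ext x
    rw [hE, map_pow, hπ, hdil]
  · intro f1 f2 f3 c h x
    have h1 := rep_column π f1 f2 f3 c h (J x)
    rw [hJn] at h1
    have h2 : ∀ f, ‖E f x‖ ^ 2 ≤ ‖π f (J x)‖ ^ 2 := by
      intro f
      rw [hE]
      exact pow_le_pow_left₀ (norm_nonneg _) (hJa _) 2
    linarith [h2 f1, h2 f2, h2 f3]
  · intro e he h f
    have h0 : ∀ g : CA, ⟪J e, π g (J e)⟫_ℂ = avg g := by
      intro g
      refine rep_avg π (J e) (by rw [hJn, he]) (fun k hk => ?_) g
      rw [← ContinuousLinearMap.adjoint_inner_right, map_pow, hπ, hdil]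
      exact h k hk
    constructor
    · have h1 : ‖E f e‖ ^ 2 ≤ ‖π f (J e)‖ ^ 2 := by
        rw [hE]
        exact pow_le_pow_left₀ (norm_nonneg _) (hJa _) 2
      refine h1.trans (le_of_eq ?_)
      have h2 := rep_norm_sq π f (J e)
      rw [h0] at h2
      have h3 : ∀ w, (star f * f) w = ((‖f w‖ ^ 2 : ℝ) : ℂ) := by
        intro w
        rw [ContinuousMap.mul_apply, ContinuousMap.star_apply, ← Complex.normSq_eq_norm_sq,
          Complex.normSq_eq_conj_mul_self]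
        rfl
      have h4 : avg (⇑(star f * f)) = ((avg (fun w => ‖f w‖ ^ 2) : ℝ) : ℂ) := by
        rw [← avg_ofReal]
        congr 1
        ext w
        exact h3 w
      rw [h4] at h2
      exact Complex.ofReal_injective h2
    · rw [hE, ContinuousLinearMap.adjoint_inner_right, h0]

end Run7.h163
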