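import Mathlib

/-!
# Uniqueness of the coefficients of a power series in several variables
-/

set_option autoImplicit false
set_option linter.unusedSectionVars false
set_option linter.unusedVariables false
set_option linter.deprecated false

open Filter Topology Finset

namespace Run7.h163

lemma pow_unique {s : ℕ → ℂ} {r : ℝ} (hr : 0 < r)
    (h : ∀ w : ℂ, ‖w‖ < r → HasSum (fun n => w ^ n * s n) 0) : s = 0 := by
  have h1 : HasFPowerSeriesAt (0 : ℂ → ℂ) (FormalMultilinearSeries.ofScalars ℂ s) 0 := by
    rw [hasFPowerSeriesAt_iff]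
    filter_upwards [Metric.ball_mem_nhds (0 : ℂ) hr] with w hw
    simp only [FormalMultilinearSeries.coeff_ofScalars, smul_eq_mul, Pi.zero_apply]
    exact h w (by simpa using hw)
  have h2 := h1.eq_zero
  funext n
  have h3 : (FormalMultilinearSeries.ofScalars ℂ s).coeff n = 0 := by
    rw [h2]; rfl
  rwa [FormalMultilinearSeries.coeff_ofScalars] at h3

theorem coeff_unique (d : ℕ) (c : (Fin d → ℕ) → ℂ) {r : ℝ} (hr : 0 < r)
    (h : ∀ z : Fin d → ℂ, (∀ i, ‖z i‖ < r) → HasSum (fun α => c α * ∏ i, z i ^ α i) 0) :
    c = 0 := by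
  induction d with
  | zero =>
    funext α
    have h1 := h (fun i => i.elim0) (fun i => i.elim0)
    have h2 : HasSum (fun α : Fin 0 → ℕ => c α * ∏ i, (fun i => i.elim0 : Fin 0 → ℂ) i ^ α i)
        (c α) := by
      have h3 := hasSum_unique (fun α : Fin 0 → ℕ => c α * ∏ i, (fun i => i.elim0 : Fin 0 → ℂ) i ^ α i)
      convert h3 using 1
      simp only [Finset.univ_eq_empty, Finset.prod_empty, mul_one]
      congr 1
      exact Subsingleton.elim _ _
    exact h2.unique h1
  | succ d ih =>
    have key : ∀ n : ℕ, (fun β : Fin d → ℕ => c (Fin.cons n β)) = 0 := by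
      -- first: all series in the last variables vanish
      have h1 : ∀ z : Fin d → ℂ, (∀ i, ‖z i‖ < r) → ∀ n : ℕ,
          HasSum (fun β : Fin d → ℕ => c (Fin.cons n β) * ∏ i, z i ^ β i) 0 := by
        intro z hz
        have h2 : ∀ w : ℂ, ‖w‖ < r →
            HasSum (fun p : ℕ × (Fin d → ℕ) =>
              w ^ p.1 * (c (Fin.cons p.1 p.2) * ∏ i, z i ^ p.2 i)) 0 := by
          intro w hw
          have h3 := h (Fin.cons w z) (by
            intro i
            refine Fin.cases ?_ (fun j => ?_) i
            · simpa using hw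
            · simpa using hz j)
          rw [← (Fin.consEquiv (fun _ : Fin (d + 1) => ℕ)).hasSum_iff] at h3
          convert h3 using 1
          funext p
          change _ = c (Fin.cons p.1 p.2) * ∏ i, (Fin.cons w z : Fin (d + 1) → ℂ) i ^
            (Fin.cons p.1 p.2 : Fin (d + 1) → ℕ) i
          rw [Fin.prod_univ_succ]
          simp only [Fin.cons_zero, Fin.cons_succ]
          ring
        have hsum : ∀ n : ℕ, Summable fun β : Fin d → ℕ => c (Fin.cons n β) * ∏ i, z i ^ β i := by
          intro n
          have h3 := (h2 ((r / 2 : ℝ) : ℂ) (by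
            rw [Complex.norm_real, Real.norm_eq_abs, abs_of_pos (by positivity)]
            linarith)).summable.prod_factor n
          have hne : ((r / 2 : ℝ) : ℂ) ^ n ≠ 0 := by
            apply pow_ne_zero
            exact_mod_cast (by positivity : (r / 2 : ℝ) ≠ 0)
          exact (summable_mul_left_iff hne).1 h3
        have h4 : (fun n : ℕ => ∑' β : Fin d → ℕ, c (Fin.cons n β) * ∏ i, z i ^ β i) = 0 := by
          refine pow_unique hr fun w hw => ?_
          exact (h2 w hw).prod_fiberwise fun n => (hsum n).hasSum.mul_left (w ^ n)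
        intro n
        have h5 := (hsum n).hasSum
        have h6 := congrFun h4 n
        simp only [Pi.zero_apply] at h6
        rwa [h6] at h5
      intro n
      exact ih (fun β => c (Fin.cons n β)) fun z hz => h1 z hz n
    funext α
    have h1 := congrFun (key (α 0)) (Fin.tail α)
    simp only [Fin.cons_self_tail, Pi.zero_apply] at h1
    exact h1

end Run7.h163
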