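import Pool.Agent.Run7.h163.BV
import Pool.Agent.Run7.h163.PU
import Pool.Agent.K4H52.DA.Defs

/-!
# From sequences to functions on the ball
-/

set_option autoImplicit false
set_option linter.unusedSectionVars false
set_option linter.unusedVariables false
set_option linter.deprecated false

open scoped ComplexConjugate InnerProductSpace InnerProduct
open ContinuousLinearMap Filter Topology Finset

namespace Run7.h163

open Pool.Agent.K4H52.DA

variable {d : ℕ}

lemma wt_mul_wi (α : MI d) : wt α * wi α = 1 := by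
  unfold wt wi deg
  have h1 := (prod_fact_pos α).ne'
  have h2 : (((∑ i, α i).factorial : ℕ) : ℝ) ≠ 0 := by exact_mod_cast (Nat.factorial_pos _).ne'
  field_simp

lemma wt_eq (α : MI d) : wt α = (wi α)⁻¹ := eq_inv_of_mul_eq_one_left (wt_mul_wi α)

/-- monomials -/
noncomputable def mon (z : Fin d → ℂ) (α : MI d) : ℂ := ∏ i, z i ^ α i

lemma mon_zero (z : Fin d → ℂ) : mon z 0 = 1 := by simp [mon]

lemma mon_add_ee (z : Fin d → ℂ) (α : MI d) (j : Fin d) : mon z (α + ee j) = z j * mon z α := by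
  unfold mon
  simp only [Pi.add_apply, pow_add, prod_mul_distrib]
  rw [mul_comm]
  congr 1
  rw [prod_eq_single j]
  · simp [ee]
  · intro i _ hi
    simp [ee, hi]
  · simp

lemma norm_mon_sq (z : Fin d → ℂ) (α : MI d) : ‖mon z α‖ ^ 2 = ∏ i, (‖z i‖ ^ 2) ^ α i := by
  unfold mon
  rw [norm_prod, ← Finset.prod_pow]
  refine prod_congr rfl fun i _ => ?_
  rw [norm_pow]
  ring

lemma Dg_sum (r : Fin d → ℝ) (n : ℕ) :
    ∑ α ∈ Dg d n, wi α * ∏ i, r i ^ α i = (∑ i, r i) ^ n := by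
  rw [Finset.sum_pow_eq_sum_piAntidiag]
  unfold Dg
  refine sum_congr rfl fun α hα => ?_
  congr 1
  have h1 := Nat.multinomial_spec univ α
  have h2 := prod_fact_pos α
  unfold wi deg
  rw [div_eq_iff h2.ne', ← h1]
  push_cast
  ring

lemma ker_summable (z : Ball d) : Summable fun α : MI d => wi α * ‖mon z.1 α‖ ^ 2 := by
  have hz : ∑ i, ‖z.1 i‖ ^ 2 < 1 := z.2
  set ρ := ∑ i, ‖z.1 i‖ ^ 2 with hρ
  have hρ0 : 0 ≤ ρ := sum_nonneg fun _ _ => by positivity
  refine summable_of_sum_le (c := (1 - ρ)⁻¹)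
    (fun α => mul_nonneg (wi_pos α).le (by positivity)) fun t => ?_
  set K := t.sup (fun α => deg α + 1) with hK
  have h2 : ∑ α ∈ t, wi α * ‖mon z.1 α‖ ^ 2 ≤
      ∑ n ∈ range K, ∑ α ∈ Dg d n, wi α * ‖mon z.1 α‖ ^ 2 := by
    rw [← sum_biUnion]
    · apply sum_le_sum_of_subset_of_nonneg
      · intro α hα
        rw [mem_biUnion]
        refine ⟨deg α, ?_, mem_Dg.2 rfl⟩
        rw [mem_range]
        exact Nat.lt_of_succ_le (Finset.le_sup (f := fun α => deg α + 1) hα)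
      · intro α _ _
        exact mul_nonneg (wi_pos α).le (by positivity)
    · intro n _ m _ hnm
      refine disjoint_left.2 fun α h1 h2 => hnm ?_
      rw [mem_Dg] at h1 h2
      rw [← h1, ← h2]
  refine h2.trans ?_
  have h3 : ∀ n, ∑ α ∈ Dg d n, wi α * ‖mon z.1 α‖ ^ 2 = ρ ^ n := by
    intro n
    rw [hρ, ← Dg_sum]
    exact sum_congr rfl fun α _ => by rw [norm_mon_sq]
  simp_rw [h3]
  exact sum_le_hasSum _ (fun n _ => pow_nonneg hρ0 n) (hasSum_geometric_of_lt_one hρ0 hz)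

/-- the kernel vectors -/
noncomputable def kz (z : Ball d) : HD d :=
  ⟨fun α => ((√(wi α) : ℝ) : ℂ) * conj (mon z.1 α), memlp2 (by
    refine (ker_summable z).congr fun α => ?_
    rw [norm_mul, mul_pow, Complex.norm_real, Real.norm_eq_abs, sq_abs,
      Real.sq_sqrt (wi_pos α).le, RCLike.norm_conj])⟩

lemma kz_apply (z : Ball d) (α : MI d) : kz z α = ((√(wi α) : ℝ) : ℂ) * conj (mon z.1 α) := rfl

/-- the function attached to a sequence -/
noncomputable def ev (x : HD d) : Ball d → ℂ := fun z => ⟪kz z, x⟫_ℂ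

lemma ev_apply (x : HD d) (z : Ball d) : ev x z = ⟪kz z, x⟫_ℂ := rfl

lemma ev_hasSum (x : HD d) (z : Ball d) :
    HasSum (fun α => (((√(wi α) : ℝ) : ℂ) * x α) * ∏ i, z.1 i ^ α i) (ev x z) := by
  have h := lp.hasSum_inner (𝕜 := ℂ) (kz z) x
  refine h.congr_fun ?_
  intro α
  rw [kz_apply, RCLike.inner_apply]
  simp only [map_mul, Complex.conj_ofReal, Complex.conj_conj]
  change _ = x α * (_ * mon z.1 α)
  unfold mon
  ring

lemma ev_hasCoeff (x : HD d) : HasCoeff (ev x) (fun α => ((√(wi α) : ℝ) : ℂ) * x α) where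
  summable := by
    refine (lp2_hasSum x).summable.congr fun α => ?_
    rw [norm_mul, mul_pow, Complex.norm_real, Real.norm_eq_abs, sq_abs,
      Real.sq_sqrt (wi_pos α).le, ← mul_assoc, wt_mul_wi, one_mul]
  hasSum := ev_hasSum x

lemma ev_mem (x : HD d) : ev x ∈ HSpace d := ⟨_, ev_hasCoeff x⟩

lemma hasCoeff_ev {f : Ball d → ℂ} {a : MI d → ℂ} (h : HasCoeff f a) :
    ∃ x : HD d, f = ev x ∧ ∑' α, wt α * ‖a α‖ ^ 2 = ‖x‖ ^ 2 := by
  have hw : ∀ α : MI d, ‖((√(wt α) : ℝ) : ℂ) * a α‖ ^ 2 = wt α * ‖a α‖ ^ 2 := by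
    intro α
    have : 0 ≤ wt α := by rw [wt_eq]; exact inv_nonneg.2 (wi_pos α).le
    rw [norm_mul, mul_pow, Complex.norm_real, Real.norm_eq_abs, sq_abs, Real.sq_sqrt this]
  have hmem : Memℓp (fun α : MI d => ((√(wt α) : ℝ) : ℂ) * a α) 2 := by
    refine memlp2 ?_
    simp_rw [hw]
    exact h.summable
  let x : HD d := ⟨fun α => ((√(wt α) : ℝ) : ℂ) * a α, hmem⟩
  have hx : ∀ α, x α = ((√(wt α) : ℝ) : ℂ) * a α := fun α => rfl
  refine ⟨x, ?_, ?_⟩
  · funext z
    have h1 := ev_hasSum x z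
    have h2 := h.hasSum z
    refine h2.unique ?_
    refine h1.congr_fun ?_
    intro α
    rw [hx, ← mul_assoc, ← Complex.ofReal_mul, ← Real.sqrt_mul (wi_pos α).le, mul_comm (wi α),
      wt_mul_wi, Real.sqrt_one]
    simp
  · have h1 := (lp2_hasSum x).tsum_eq
    rw [← h1]
    exact tsum_congr fun α => (hw α).symm

lemma mem_HSpace_iff {f : Ball d → ℂ} : f ∈ HSpace d ↔ ∃ x : HD d, f = ev x := by
  constructor
  · rintro ⟨a, ha⟩
    obtain ⟨x, hx, -⟩ := hasCoeff_ev ha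
    exact ⟨x, hx⟩
  · rintro ⟨x, rfl⟩
    exact ev_mem x

lemma ev_sub (x y : HD d) : ev (x - y) = ev x - ev y := by
  funext z
  simp only [ev_apply, Pi.sub_apply, inner_sub_right]

lemma ev_smul (c : ℂ) (x : HD d) : ev (c • x) = c • ev x := by
  funext z
  simp only [ev_apply, Pi.smul_apply, inner_smul_right, smul_eq_mul]

lemma ev_eq_zero {x : HD d} (h : ev x = 0) : x = 0 := by
  have h1 : (fun α : MI d => ((√(wi α) : ℝ) : ℂ) * x α) = 0 := by
    refine coeff_unique d _ (r := 1 / ((d : ℝ) + 1)) (by positivity) fun z hz => ?_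
    have hz2 : ∑ i, ‖z i‖ ^ 2 < 1 := by
      have h2 : ∑ i : Fin d, ‖z i‖ ^ 2 ≤ ∑ i : Fin d, (1 / ((d : ℝ) + 1)) ^ 2 := by
        refine sum_le_sum fun i _ => ?_
        exact pow_le_pow_left₀ (norm_nonneg _) (hz i).le 2
      refine lt_of_le_of_lt h2 ?_
      rw [sum_const, card_univ, Fintype.card_fin, nsmul_eq_mul, div_pow, one_pow, mul_one_div,
        div_lt_one (by positivity)]
      have : (0 : ℝ) ≤ d := Nat.cast_nonneg d
      nlinarith
    have h3 := ev_hasSum x ⟨z, hz2⟩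
    rw [h] at h3
    exact h3
  ext α
  have h2 := congrFun h1 α
  simp only [Pi.zero_apply, mul_eq_zero, Complex.ofReal_eq_zero] at h2
  rcases h2 with h2 | h2
  · exact absurd h2 (Real.sqrt_pos.2 (wi_pos α)).ne'
  · exact h2

lemma ev_inj {x y : HD d} (h : ev x = ev y) : x = y := by
  rw [← sub_eq_zero]
  apply ev_eq_zero
  rw [ev_sub, h, sub_self]

lemma adj_M_kz (j : Fin d) (z : Ball d) : adjoint (M j) (kz z) = conj (z.1 j) • kz z := by
  ext α
  rw [M_adj_apply]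
  change _ = conj (z.1 j) * kz z α
  rw [kz_apply, kz_apply, mon_add_ee, map_mul]
  have h1 : cf j (α + ee j) * √(wi (α + ee j)) = √(wi α) := by
    rw [← cf_wi α j, Real.sqrt_mul (by positivity), Real.sqrt_sq (cf_nonneg _ _)]
  have h2 : (cf j (α + ee j) : ℂ) * ((√(wi (α + ee j)) : ℝ) : ℂ) = ((√(wi α) : ℝ) : ℂ) := by
    rw [← Complex.ofReal_mul, h1]
  rw [← mul_assoc, h2]
  ring

lemma ev_M (j : Fin d) (x : HD d) (z : Ball d) : ev (M j x) z = z.1 j * ev x z := by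
  rw [ev_apply, ← ContinuousLinearMap.adjoint_inner_left, adj_M_kz, inner_smul_left,
    Complex.conj_conj, ev_apply]

lemma ev_bv_zero : ev (bv 0 : HD d) = 1 := by
  funext z
  rw [ev_apply, ← inner_conj_symm, inner_bv, kz_apply, wi_zero, mon_zero]
  simp

lemma clm_eq_zero {V : Type*} [NormedAddCommGroup V] [NormedSpace ℂ V] (L : HD d →L[ℂ] V)
    (h : ∀ α, L (bv α) = 0) : L = 0 := by
  ext1 x
  have h1 := L.hasSum (lp.hasSum_single (E := fun _ : MI d => ℂ) (p := 2) (by norm_num) x)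
  have h2 : (fun α : MI d => L (lp.single 2 α (x α))) = fun _ => 0 := by
    funext α
    have : (lp.single 2 α (x α) : HD d) = x α • bv α := by
      unfold bv
      rw [← lp.single_smul, smul_eq_mul, mul_one]
    rw [this, map_smul, h α, smul_zero]
  rw [h2] at h1
  exact h1.unique hasSum_zero

lemma ev_T {T : HD d →L[ℂ] HD d} (hT : ∀ j, Commute (M j) T) (x : HD d) :
    ev (T x) = ev (T (bv 0)) * ev x := by
  funext z
  let L : HD d →L[ℂ] ℂ := (innerSL ℂ (kz z)).comp T - ev (T (bv 0)) z • innerSL ℂ (kz z)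
  have hL : ∀ x, L x = ev (T x) z - ev (T (bv 0)) z * ev x z := fun x => rfl
  have h0 : L = 0 := by
    refine clm_eq_zero L fun α => ?_
    refine bv_induction (P := fun x => L x = 0) ?_ ?_ ?_ α
    · rw [hL, ev_bv_zero]
      simp
    · intro j x hx
      rw [hL] at hx ⊢
      rw [← comm_app (hT j), ev_M, ev_M]
      linear_combination z.1 j * hx
    · intro c x hx
      rw [map_smul, hx, smul_zero]
  have h1 := hL x
  rw [h0] at h1
  simp only [ContinuousLinearMap.zero_apply] at h1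
  rw [Pi.mul_apply]
  linear_combination -h1

lemma comm_pow {T : HD d →L[ℂ] HD d} (hT : ∀ j, Commute (M j) T) (n : ℕ) :
    ∀ j, Commute (M j) (T ^ n) := fun j => (hT j).pow_right n

lemma ev_pow {T : HD d →L[ℂ] HD d} (hT : ∀ j, Commute (M j) T) (n : ℕ) (x : HD d) :
    ev ((T ^ n) x) = ev (T (bv 0)) ^ n * ev x := by
  induction n generalizing x with
  | zero => rw [pow_zero, pow_zero, one_mul]; rfl
  | succ n ih =>
    have e : (T ^ (n + 1)) x = (T ^ n) (T x) := by rw [pow_succ]; rfl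
    rw [e, ih, ev_T hT x, pow_succ, mul_assoc]

lemma mult_of_comm {T : HD d →L[ℂ] HD d} (hT : ∀ j, Commute (M j) T) :
    ev (T (bv 0)) ∈ Mult d := by
  intro f hf
  obtain ⟨x, rfl⟩ := mem_HSpace_iff.1 hf
  rw [← ev_T hT]
  exact ev_mem _

/-- finite sequences come from multipliers -/
lemma exists_comm_fin (s : Finset (MI d)) (c : MI d → ℂ) :
    ∃ T : HD d →L[ℂ] HD d, (∀ j, Commute (M j) T) ∧ T (bv 0) = ∑ β ∈ s, c β • bv β := by
  have h1 : ∀ α : MI d, ∃ T : HD d →L[ℂ] HD d, (∀ j, Commute (M j) T) ∧ T (bv 0) = bv α := by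
    intro α
    refine bv_induction (P := fun x => ∃ T : HD d →L[ℂ] HD d, (∀ j, Commute (M j) T) ∧
      T (bv 0) = x) ⟨1, fun j => Commute.one_right _, rfl⟩ ?_ ?_ α
    · rintro i x ⟨T, hT, rfl⟩
      refine ⟨M i * T, fun j => ?_, rfl⟩
      exact Commute.mul_right (M_comm j i) (hT j)
    · rintro c x ⟨T, hT, rfl⟩
      exact ⟨c • T, fun j => (hT j).smul_right c, rfl⟩
  choose P hP hP2 using h1
  refine ⟨∑ β ∈ s, c β • P β, fun j => Commute.sum_right _ _ _ fun β _ => (hP β j).smul_right _, ?_⟩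
  rw [ContinuousLinearMap.sum_apply]
  refine sum_congr rfl fun β _ => ?_
  rw [ContinuousLinearMap.smul_apply, hP2]

lemma mult_mem_HSpace {φ : Ball d → ℂ} (h : φ ∈ Mult d) : φ ∈ HSpace d := by
  have h1 := h 1 (by rw [← ev_bv_zero]; exact ev_mem _)
  rwa [mul_one] at h1

theorem mem_Cyc_iff {T : HD d →L[ℂ] HD d} (hT : ∀ j, Commute (M j) T) (n : ℕ) (x : HD d) :
    ev x ∈ Cyc (ev (T (bv 0)) ^ n) ↔ x ∈ closure (Set.range (T ^ n)) := by
  constructor
  · rintro ⟨-, h⟩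
    rw [Metric.mem_closure_iff]
    intro ε hε
    obtain ⟨φ, hφ, a, ha, hlt⟩ := h (ε ^ 2) (by positivity)
    obtain ⟨y, rfl⟩ := mem_HSpace_iff.1 (mult_mem_HSpace hφ)
    obtain ⟨w, hw, hw2⟩ := hasCoeff_ev ha
    have h1 : ev w = ev (x - (T ^ n) y) := by
      rw [ev_sub, ev_pow hT, ← hw, mul_comm (ev y)]
    have h2 := ev_inj h1
    refine ⟨(T ^ n) y, ⟨y, rfl⟩, ?_⟩
    rw [dist_eq_norm, ← h2]
    rw [hw2] at hlt
    exact lt_of_pow_lt_pow_left₀ 2 hε.le hlt
  · intro h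
    refine ⟨ev_mem x, fun ε hε => ?_⟩
    rw [Metric.mem_closure_iff] at h
    have hs : 0 < √ε := Real.sqrt_pos.2 hε
    obtain ⟨_, ⟨y, rfl⟩, hy⟩ := h (√ε / 2) (by positivity)
    rw [dist_eq_norm] at hy
    set C : ℝ := ‖T ^ n‖ + 1 with hC
    have hC0 : 0 < C := by positivity
    obtain ⟨s, hs2⟩ := exists_fin_approx y (show 0 < √ε / 2 / C by positivity)
    obtain ⟨P, hP, hP2⟩ := exists_comm_fin s (fun β => y β)
    rw [← hP2] at hs2
    refine ⟨ev (P (bv 0)), mult_of_comm hP,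
      fun α => ((√(wi α) : ℝ) : ℂ) * (x - (T ^ n) (P (bv 0)) : HD d) α, ?_, ?_⟩
    · have h1 : ev x - ev (P (bv 0)) * ev (T (bv 0)) ^ n = ev (x - (T ^ n) (P (bv 0))) := by
        rw [ev_sub, ev_pow hT, mul_comm]
      rw [h1]
      exact ev_hasCoeff _
    · have h2 : ∑' α : MI d, wt α * ‖((√(wi α) : ℝ) : ℂ) *
          (x - (T ^ n) (P (bv 0)) : HD d) α‖ ^ 2 = ‖x - (T ^ n) (P (bv 0))‖ ^ 2 := by
        rw [← (lp2_hasSum (x - (T ^ n) (P (bv 0)))).tsum_eq]
        refine tsum_congr fun α => ?_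
        rw [norm_mul, mul_pow, Complex.norm_real, Real.norm_eq_abs, sq_abs,
          Real.sq_sqrt (wi_pos α).le, ← mul_assoc, wt_mul_wi, one_mul]
      rw [h2]
      have h3 : ‖x - (T ^ n) (P (bv 0))‖ < √ε := by
        have e : x - (T ^ n) (P (bv 0)) = (x - (T ^ n) y) - (T ^ n) (P (bv 0) - y) := by
          rw [map_sub]; abel
        rw [e]
        have h4 : ‖(T ^ n) (P (bv 0) - y)‖ ≤ √ε / 2 := by
          refine ((T ^ n).le_opNorm _).trans ?_
          have h5 : ‖T ^ n‖ ≤ C := by rw [hC]; linarith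
          calc ‖T ^ n‖ * ‖P (bv 0) - y‖ ≤ C * (√ε / 2 / C) := by gcongr
            _ = √ε / 2 := by field_simp
        calc ‖(x - (T ^ n) y) - (T ^ n) (P (bv 0) - y)‖ ≤
              ‖x - (T ^ n) y‖ + ‖(T ^ n) (P (bv 0) - y)‖ := norm_sub_le _ _
          _ < √ε / 2 + √ε / 2 := by linarith
          _ = √ε := by ring
      calc ‖x - (T ^ n) (P (bv 0))‖ ^ 2 < √ε ^ 2 := by gcongr
        _ = ε := Real.sq_sqrt hε.le

theorem Cyc_eq_iff {T : HD d →L[ℂ] HD d} (hT : ∀ j, Commute (M j) T) (n m : ℕ) :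
    Cyc (ev (T (bv 0)) ^ n) = Cyc (ev (T (bv 0)) ^ m) ↔
      closure (Set.range (T ^ n)) = closure (Set.range (T ^ m)) := by
  constructor
  · intro h
    ext x
    rw [← mem_Cyc_iff hT, ← mem_Cyc_iff hT, h]
  · intro h
    ext g
    constructor
    · intro hg
      obtain ⟨x, rfl⟩ := mem_HSpace_iff.1 hg.1
      rw [mem_Cyc_iff hT] at hg ⊢
      rwa [← h]
    · intro hg
      obtain ⟨x, rfl⟩ := mem_HSpace_iff.1 hg.1
      rw [mem_Cyc_iff hT] at hg ⊢
      rwa [h]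

lemma ev_ne_zero {T : HD d →L[ℂ] HD d} (hT : ∀ j, Commute (M j) T) (h : T ≠ 0) :
    ev (T (bv 0)) ≠ 0 := by
  intro h0
  apply h
  ext1 x
  apply ev_eq_zero
  rw [ev_T hT, h0, zero_mul]

end Run7.h163
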