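import Pool.Agent.Run7.h163.FO
import Pool.Agent.Run7.h163.FN0

/-!
# The result for functions on the ball
-/

set_option autoImplicit false
set_option linter.unusedSectionVars false
set_option linter.unusedVariables false
set_option linter.deprecated false

open scoped ComplexConjugate InnerProductSpace InnerProduct
open ContinuousLinearMap Filter Topology Finset

namespace Run7.h163

open Pool.Agent.K4H52.DA

/-- the result, with the class `𝒞_n(H²_d)` spelled out -/
theorem main_fn {d : ℕ} (hd : 3 ≤ d) (N : ℕ) :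
    ∃ n, N < n ∧ ∃ f : Ball d → ℂ,
      (f ∈ Mult d ∧ f ≠ 0 ∧ Cyc (f ^ n) = Cyc (f ^ (n + 1))) ∧
      ¬ (f ∈ Mult d ∧ f ≠ 0 ∧ Cyc (f ^ N) = Cyc (f ^ (N + 1))) := by
  obtain ⟨m, hm, T, hT, h1, h2, h3⟩ := final_op hd N
  refine ⟨2 * m, by omega, ev (T (bv 0)), ⟨mult_of_comm hT, ev_ne_zero hT h3, ?_⟩, ?_⟩
  · rw [Cyc_eq_iff hT]
    exact h1
  · rintro ⟨-, -, h4⟩
    rw [Cyc_eq_iff hT] at h4
    exact h2 h4

end Run7.h163
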