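import Pool.Agent.Run7.h163.BB
import Pool.Agent.Run7.h163.CC

/-!
# The semigroup and the main theorem in operator form
-/

set_option autoImplicit false
set_option linter.unusedSectionVars false
set_option linter.unusedVariables false
set_option linter.deprecated false

open scoped ComplexConjugate InnerProductSpace InnerProduct
open ContinuousLinearMap Filter Topology Finset

namespace Run7.h163

variable {d : ℕ}

namespace FSys
variable (Y : FSys d)

lemma exists_T (t : ℝ) (ht : 0 ≤ t) : ∃ T : HD d →L[ℂ] HD d, ‖T‖ ≤ 1 ∧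
    ∀ n, Raises (T - Y.S.E (Y.F.Φ t n)) n :=
  exists_lim (fun n => Y.S.E (Y.F.Φ t n)) 1 (fun n => Y.E_Φ_norm ht n)
    (fun n m h => Y.E_Φ_raises t n m h)

open Classical in
/-- the semigroup -/
noncomputable def T (t : ℝ) : HD d →L[ℂ] HD d :=
  if h : 0 ≤ t then (Y.exists_T t h).choose else 0

variable {t u : ℝ}

lemma T_norm (ht : 0 ≤ t) : ‖Y.T t‖ ≤ 1 := by
  unfold T
  rw [dif_pos ht]
  exact (Y.exists_T t ht).choose_spec.1

lemma T_near (ht : 0 ≤ t) (n : ℕ) : Raises (Y.T t - Y.S.E (Y.F.Φ t n)) n := by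
  unfold T
  rw [dif_pos ht]
  exact (Y.exists_T t ht).choose_spec.2 n

lemma E_raises (t : ℝ) (n : ℕ) : Raises (Y.S.E (Y.F.Φ t n)) 0 :=
  Y.S.fc.raises (Y.S.raises.mono (Nat.zero_le _)) (Y.F.Φ_mem t n)

lemma T_raises (ht : 0 ≤ t) : Raises (Y.T t) 0 := by
  have e : Y.T t = (Y.T t - Y.S.E (Y.F.Φ t 0)) + Y.S.E (Y.F.Φ t 0) := by abel
  rw [e]
  exact (Y.T_near ht 0).add (Y.E_raises t 0)

lemma T_comm (ht : 0 ≤ t) (j : Fin d) : Commute (M j) (Y.T t) := by
  have h : M j * Y.T t - Y.T t * M j = 0 := by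
    refine Raises.eq_zero fun r => ?_
    have h1 : M j * Y.S.E (Y.F.Φ t r) = Y.S.E (Y.F.Φ t r) * M j := Y.S.comm_E j (Y.F.Φ_mem t r)
    have e : M j * Y.T t - Y.T t * M j = M j * (Y.T t - Y.S.E (Y.F.Φ t r)) -
        (Y.T t - Y.S.E (Y.F.Φ t r)) * M j := by
      rw [mul_sub, sub_mul, h1]; abel
    rw [e]
    exact (((M_raises j).mul (Y.T_near ht r)).mono (by omega)).sub
      (((Y.T_near ht r).mul (M_raises j)).mono (by omega))
  exact sub_eq_zero.1 h

lemma T_add (ht : 0 ≤ t) (hu : 0 ≤ u) : Y.T (t + u) = Y.T t * Y.T u := by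
  rw [← sub_eq_zero]
  refine Raises.eq_zero fun r => ?_
  have h1 : Y.S.E (Y.F.Φ (t + u) r) = Y.S.E (Y.F.Φ t r) * Y.S.E (Y.F.Φ u r) := by
    rw [Y.F.Φ_add, Y.S.fc.mul (Y.F.Φ_mem t r) (Y.F.Φ_mem u r)]
  have e : Y.T (t + u) - Y.T t * Y.T u = (Y.T (t + u) - Y.S.E (Y.F.Φ (t + u) r)) -
      ((Y.T t - Y.S.E (Y.F.Φ t r)) * Y.T u + Y.S.E (Y.F.Φ t r) * (Y.T u - Y.S.E (Y.F.Φ u r))) := by
    rw [h1]
    noncomm_ring
  rw [e]
  refine (Y.T_near (add_nonneg ht hu) r).sub (Raises.add ?_ ?_)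
  · exact ((Y.T_near ht r).mul (Y.T_raises hu)).mono (by omega)
  · exact ((Y.E_raises t r).mul (Y.T_near hu r)).mono (by omega)

lemma T_zero : Y.T 0 = 1 := by
  rw [← sub_eq_zero]
  refine Raises.eq_zero fun r => ?_
  have h1 : Y.S.E (Y.F.Φ 0 r) = 1 := by
    have : Y.F.Φ 0 r = 1 := by
      unfold FSeq.Φ
      simp [cexp_zero]
    rw [this, Y.S.fc.one]
  have := Y.T_near le_rfl r
  rwa [h1] at this

lemma T_pow (ht : 0 ≤ t) (k : ℕ) : Y.T t ^ k = Y.T (k * t) := by
  induction k with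
  | zero => rw [pow_zero, Nat.cast_zero, zero_mul, T_zero]
  | succ k ih =>
    rw [pow_succ, ih, ← Y.T_add (by positivity) ht]
    congr 1
    push_cast
    ring

lemma T_inner (ht : 0 ≤ t) : ⟪(Sys.e0 : HD d), Y.T t Sys.e0⟫_ℂ = Complex.exp (-t) := by
  have h1 := Y.T_near ht 1 0 Sys.e0 (mem_Fl_zero _) 0 (by rw [deg_zero]; omega)
  have h2 : Y.T t Sys.e0 0 - Y.S.E (Y.F.Φ t 1) Sys.e0 0 = 0 := h1
  have h3 : ⟪(Sys.e0 : HD d), Y.S.E (Y.F.Φ t 1) Sys.e0⟫_ℂ = Complex.exp (-t) := by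
    rw [Y.S.inner_e0, ← avgL_apply]
    unfold FSeq.Φ
    rw [avgL_cexp (AD.neg_mem (AD.smul_mem (Y.F.h_mem 1) _)), map_neg, map_smul, Y.F.h_avg]
    simp
  rw [← h3]
  have e : ∀ x : HD d, ⟪(Sys.e0 : HD d), x⟫_ℂ = x 0 := fun x => inner_bv 0 x
  rw [e, e]
  exact sub_eq_zero.1 h2

lemma T_near_one (ht : 0 ≤ t) : ‖Y.T t Sys.e0 - Sys.e0‖ ^ 2 ≤ 2 - 2 * Real.exp (-t) := by
  rw [norm_sub_sq (𝕜 := ℂ), Sys.norm_e0]
  have h1 : ‖Y.T t Sys.e0‖ ≤ 1 := by
    refine ((Y.T t).le_opNorm _).trans ?_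
    rw [Sys.norm_e0, mul_one]
    exact Y.T_norm ht
  have h2 : RCLike.re ⟪Y.T t Sys.e0, (Sys.e0 : HD d)⟫_ℂ = Real.exp (-t) := by
    rw [← inner_conj_symm, Y.T_inner ht, RCLike.conj_re]
    have : Complex.exp (-(t : ℂ)) = ((Real.exp (-t) : ℝ) : ℂ) := by push_cast; rfl
    rw [this]
    exact Complex.ofReal_re _
  rw [h2]
  nlinarith [norm_nonneg (Y.T t Sys.e0)]

/-- Cauchy estimate -/
lemma Φ_cauchy (n m : ℕ) (h : n ≤ m) :
    avg (fun w => ‖(Y.F.Φ 1 m - Y.F.Φ 1 n : CA) w‖ ^ 2) ≤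
      2 * avg (fun w => min 1 (Y.F.h n w).re) + 4 * Y.F.δ n := by
  set a := Y.F.Φ 1 m with ha
  set b := Y.F.Φ 1 n with hb
  obtain ⟨p, hp, hpn⟩ := Y.F.approx n
  have hbn : cexp (-(Y.F.h n)) = b := by rw [hb, FSeq.Φ_one]
  rw [hbn] at hpn
  have hpt : ∀ w, ‖(a - b : CA) w‖ ^ 2 =
      (‖a w‖ ^ 2 - ‖b w‖ ^ 2) - 2 * (((a - b) * star b : CA) w).re := by
    intro w
    have e1 : ((a - b) * star b : CA) w = (a w - b w) * conj (b w) := rfl
    have e2 : (a - b : CA) w = a w - b w := rfl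
    rw [e1, e2]
    simp only [Complex.sq_norm, Complex.normSq_apply, Complex.mul_re, Complex.sub_re,
      Complex.sub_im, Complex.conj_re, Complex.conj_im]
    ring
  have hint : avg (fun w => ‖(a - b : CA) w‖ ^ 2) =
      avg (fun w => ‖a w‖ ^ 2 - ‖b w‖ ^ 2) - 2 * (avgL ((a - b) * star b)).re := by
    have e1 : avg (fun w => ‖(a - b : CA) w‖ ^ 2) =
        avg (fun w => (‖a w‖ ^ 2 - ‖b w‖ ^ 2) - 2 * (((a - b) * star b : CA) w).re) := by
      congr 1
      ext w
      exact hpt w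
    rw [e1, avg_sub (by fun_prop) (by fun_prop), avg_rmul, avgL_apply, avg_re (by fun_prop)]
  have horth : avgL ((a - b) * star (polyHom p)) = 0 := by
    obtain ⟨g, hg, hge⟩ := DV_eq (Y.F.Φ_sub_mem 1 h)
    rw [hge]
    exact avgL_orth hg hp
  have hcross : -(avgL ((a - b) * star b)).re ≤ 2 * Y.F.δ n := by
    have e1 : avgL ((a - b) * star b) = avgL ((a - b) * star (b - polyHom p)) := by
      rw [star_sub, mul_sub, map_sub, horth, sub_zero]
    rw [e1]
    have h1 : ‖avgL ((a - b) * star (b - polyHom p))‖ ≤ 2 * Y.F.δ n := by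
      have h2 : ‖(a - b) * star (b - polyHom p)‖ ≤ 2 * Y.F.δ n := by
        refine (norm_mul_le _ _).trans ?_
        rw [norm_star]
        have h3 : ‖a - b‖ ≤ 2 := by
          refine (norm_sub_le _ _).trans ?_
          have := Y.F.norm_Φ_le 1 zero_le_one m
          have := Y.F.norm_Φ_le 1 zero_le_one n
          linarith
        gcongr
      refine le_trans ?_ h2
      exact norm_avg_le fun w => ContinuousMap.norm_coe_le_norm _ w
    have h3 := Complex.abs_re_le_norm (avgL ((a - b) * star (b - polyHom p)))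
    have h4 := neg_abs_le (avgL ((a - b) * star (b - polyHom p))).re
    linarith
  have hmass : avg (fun w => ‖a w‖ ^ 2 - ‖b w‖ ^ 2) ≤
      2 * avg (fun w => min 1 (Y.F.h n w).re) := by
    rw [← avg_rmul]
    refine avg_mono (by fun_prop) (by fun_prop) fun w => ?_
    have h1 : ‖a w‖ ^ 2 ≤ 1 := by
      have := (a.norm_coe_le_norm w).trans (Y.F.norm_Φ_le 1 zero_le_one m)
      nlinarith [norm_nonneg (a w)]
    have h2 : ‖b w‖ ^ 2 = Real.exp (-(2 * (Y.F.h n w).re)) := by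
      rw [hb, FSeq.norm_Φ_apply, ← Real.exp_nat_mul]
      congr 1
      push_cast
      ring
    rw [h2]
    set ρ := (Y.F.h n w).re with hρ
    have hρ0 : 0 ≤ ρ := Y.F.h_pos n w
    have e2 := Real.exp_pos (-(2 * ρ))
    have e3 := Real.add_one_le_exp (-(2 * ρ))
    rcases le_total 1 ρ with h | h
    · rw [min_eq_left h]; linarith
    · rw [min_eq_right h]; linarith
  rw [hint]
  linarith

lemma T_one_e0 (n : ℕ) : ‖Y.T 1 Sys.e0 - Y.S.E (Y.F.Φ 1 n) Sys.e0‖ ≤
    √(2 * avg (fun w => min 1 (Y.F.h n w).re) + 4 * Y.F.δ n) := by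
  refine norm_le_of_coord _ _ (Real.sqrt_nonneg _) fun s => ?_
  set m := max n (s.sup (fun β => deg β + 1)) with hm
  refine ⟨Y.S.E (Y.F.Φ 1 m - Y.F.Φ 1 n) Sys.e0, ?_, fun β hβ => ?_⟩
  · apply Real.le_sqrt_of_sq_le
    exact (Y.S.l2 _).trans (Y.Φ_cauchy n m (le_max_left _ _))
  · have h5 := Y.T_near zero_le_one m 0 Sys.e0 (mem_Fl_zero _) β (by
      have h6 : deg β + 1 ≤ m := (Finset.le_sup (f := fun β : MI d => deg β + 1) hβ).trans
            (le_max_right _ _)
      omega)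
    have h6 : Y.T 1 Sys.e0 β - Y.S.E (Y.F.Φ 1 m) Sys.e0 β = 0 := h5
    rw [map_sub]
    change Y.S.E (Y.F.Φ 1 m) Sys.e0 β - Y.S.E (Y.F.Φ 1 n) Sys.e0 β =
      Y.T 1 Sys.e0 β - Y.S.E (Y.F.Φ 1 n) Sys.e0 β
    rw [sub_eq_zero.1 h6]

lemma T_one_tendsto (x : HD d) :
    Tendsto (fun n => Y.S.E (Y.F.Φ 1 n) x) atTop (𝓝 (Y.T 1 x)) := by
  have h0 : Tendsto (fun n => Y.S.E (Y.F.Φ 1 n) (bv 0)) atTop (𝓝 (Y.T 1 (bv 0))) := by
    rw [tendsto_iff_norm_sub_tendsto_zero]
    have h1 : Tendsto (fun n => √(2 * avg (fun w => min 1 (Y.F.h n w).re) + 4 * Y.F.δ n)) atTop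
        (𝓝 0) := by
      have h2 := ((Y.F.min_tendsto.const_mul 2).add (Y.F.δ_tendsto.const_mul 4))
      rw [mul_zero, mul_zero, add_zero] at h2
      have h3 := (Real.continuous_sqrt.tendsto 0).comp h2
      rw [Real.sqrt_zero] at h3
      exact h3
    refine squeeze_zero (fun n => norm_nonneg _) (fun n => ?_) h1
    rw [norm_sub_rev]
    exact Y.T_one_e0 n
  have hbv : ∀ α, Tendsto (fun n => Y.S.E (Y.F.Φ 1 n) (bv α)) atTop (𝓝 (Y.T 1 (bv α))) := by
    refine bv_induction (P := fun x => Tendsto (fun n => Y.S.E (Y.F.Φ 1 n) x) atTop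
      (𝓝 (Y.T 1 x))) h0 ?_ ?_
    · intro j x hx
      have e1 : ∀ n, Y.S.E (Y.F.Φ 1 n) (M j x) = M j (Y.S.E (Y.F.Φ 1 n) x) := fun n =>
        (comm_apply (Y.S.comm_E j (Y.F.Φ_mem 1 n)) x).symm
      have e2 : Y.T 1 (M j x) = M j (Y.T 1 x) := (comm_apply (Y.T_comm zero_le_one j) x).symm
      simp_rw [e1, e2]
      exact ((M j).continuous.tendsto _).comp hx
    · intro c x hx
      simp_rw [map_smul]
      exact hx.const_smul c
  rw [Metric.tendsto_atTop]
  intro ε hε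
  obtain ⟨s, hs⟩ := exists_fin_approx x (show 0 < ε / 4 by positivity)
  set v : HD d := ∑ β ∈ s, x β • bv β with hv
  have hvt : Tendsto (fun n => Y.S.E (Y.F.Φ 1 n) v) atTop (𝓝 (Y.T 1 v)) := by
    rw [hv]
    simp_rw [map_sum, map_smul]
    exact tendsto_finset_sum _ fun β _ => (hbv β).const_smul _
  obtain ⟨N, hN⟩ := (Metric.tendsto_atTop.1 hvt) (ε / 4) (by positivity)
  refine ⟨N, fun n hn => ?_⟩
  have h1 := hN n hn
  rw [dist_eq_norm] at h1 ⊢
  have e : Y.S.E (Y.F.Φ 1 n) x - Y.T 1 x = -(Y.S.E (Y.F.Φ 1 n) (v - x)) + Y.T 1 (v - x) +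
      (Y.S.E (Y.F.Φ 1 n) v - Y.T 1 v) := by
    rw [map_sub, map_sub]; abel
  rw [e]
  have h2 : ‖Y.S.E (Y.F.Φ 1 n) (v - x)‖ ≤ ‖v - x‖ := by
    refine ((Y.S.E (Y.F.Φ 1 n)).le_opNorm _).trans ?_
    have := Y.E_Φ_norm zero_le_one n
    nlinarith [norm_nonneg (v - x)]
  have h3 : ‖Y.T 1 (v - x)‖ ≤ ‖v - x‖ := by
    refine ((Y.T 1).le_opNorm _).trans ?_
    have := Y.T_norm zero_le_one
    nlinarith [norm_nonneg (v - x)]
  refine lt_of_le_of_lt (norm_add₃_le) ?_
  rw [norm_neg]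
  linarith

/-- the vacuum is at positive distance from the range of `T 1` -/
theorem dist_pos : ∃ δ > 0, ∀ x, δ ≤ ‖Y.T 1 x - Sys.e0‖ := b_main Y (Y.T 1) Y.T_one_tendsto

/-- `T 2` applied to the vacuum is in the closure of the range of `T 3` -/
theorem T2_mem : Y.T 2 Sys.e0 ∈ closure (Set.range (Y.T 3)) := by
  set K : Submodule ℂ (HD d) := LinearMap.range (Y.T 3 : HD d →ₗ[ℂ] HD d) with hK
  have h1 : Y.T 2 Sys.e0 ∈ Kᗮᗮ := by
    rw [Submodule.mem_orthogonal]
    intro v hv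
    refine Y.c_main (Y.T 2) (Y.T 3) (Y.T_near (by norm_num)) (Y.T_near (by norm_num))
      (Y.T_norm (by norm_num)) v fun x => ?_
    rw [Submodule.mem_orthogonal] at hv
    rw [← inner_conj_symm, hv (Y.T 3 x) ⟨x, rfl⟩, map_zero]
  rw [Submodule.orthogonal_orthogonal_eq_closure] at h1
  exact h1

lemma closure_mono_of {A B : HD d →L[ℂ] HD d} (h : ∀ x, A x ∈ closure (Set.range B)) :
    closure (Set.range A) ⊆ closure (Set.range B) := by
  apply closure_minimal _ isClosed_closure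
  rintro _ ⟨x, rfl⟩
  exact h x

/-- closures of ranges, as submodules -/
noncomputable def clR (B : HD d →L[ℂ] HD d) : Submodule ℂ (HD d) :=
  (LinearMap.range (B : HD d →ₗ[ℂ] HD d)).topologicalClosure

lemma mem_clR {B : HD d →L[ℂ] HD d} {x : HD d} : x ∈ clR B ↔ x ∈ closure (Set.range B) := by
  unfold clR
  rw [← SetLike.mem_coe, Submodule.topologicalClosure_coe]
  rfl

/-- if `B` commutes with the coordinate multiplications and the vacuum image is in the closed
range then so is everything -/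
lemma all_mem {A B : HD d →L[ℂ] HD d} (hA : ∀ j, Commute (M j) A) (hB : ∀ j, Commute (M j) B)
    (h : A Sys.e0 ∈ closure (Set.range B)) (x : HD d) : A x ∈ closure (Set.range B) := by
  have hbv : ∀ α, A (bv α) ∈ clR B := by
    refine bv_induction (P := fun x => A x ∈ clR B) (mem_clR.2 h) ?_ ?_
    · intro j x hx
      rw [← comm_apply (hA j)]
      rw [mem_clR] at hx ⊢
      have h1 : M j (A x) ∈ closure (M j '' Set.range B) :=
        image_closure_subset_closure_image (M j).continuous ⟨_, hx, rfl⟩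
      refine closure_mono ?_ h1
      rintro _ ⟨_, ⟨y, rfl⟩, rfl⟩
      exact ⟨M j y, (comm_apply (hB j) y).symm⟩
    · intro c x hx
      rw [map_smul]
      exact (clR B).smul_mem _ hx
  rw [← mem_clR]
  have hcl : IsClosed ((clR B : Submodule ℂ (HD d)) : Set (HD d)) :=
    Submodule.isClosed_topologicalClosure _
  have hx : x ∈ closure {v | A v ∈ clR B} := by
    rw [Metric.mem_closure_iff]
    intro ε hε
    obtain ⟨s, hs⟩ := exists_fin_approx x hε
    refine ⟨∑ β ∈ s, x β • bv β, ?_, ?_⟩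
    · change A (∑ β ∈ s, x β • bv β) ∈ clR B
      rw [map_sum]
      refine (clR B).sum_mem fun β _ => ?_
      rw [map_smul]
      exact (clR B).smul_mem _ (hbv β)
    · rw [dist_comm, dist_eq_norm]
      exact hs
  have h2 : IsClosed {v | A v ∈ clR B} := hcl.preimage A.continuous
  rw [h2.closure_eq] at hx
  exact hx

include Y in
/-- the main theorem in operator form -/
theorem main_op (N : ℕ) : ∃ m : ℕ, N < m ∧ ∃ ψ : HD d →L[ℂ] HD d, (∀ j, Commute (M j) ψ) ∧
    closure (Set.range (ψ ^ (2 * m))) = closure (Set.range (ψ ^ (2 * m + 1))) ∧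
    closure (Set.range (ψ ^ N)) ≠ closure (Set.range (ψ ^ (N + 1))) ∧ ψ ≠ 0 := by
  by_contra hcon
  push Not at hcon
  obtain ⟨δ, hδ, hdist⟩ := Y.dist_pos
  -- all roots satisfy the equality at level `2 m`
  have hclaim : ∀ m : ℕ, N < m → Y.T (N / m) Sys.e0 ∈ closure (Set.range (Y.T 1)) := by
    intro m hm
    have hm0 : (0 : ℝ) < m := by
      have : 0 < m := by omega
      exact_mod_cast this
    have ht : (0 : ℝ) ≤ 1 / m := by positivity
    set ψ := Y.T (1 / m) with hψ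
    have hcomm : ∀ j, Commute (M j) ψ := Y.T_comm ht
    have hpow : ∀ k : ℕ, ψ ^ k = Y.T (k * (1 / m)) := fun k => Y.T_pow ht k
    have e2 : ψ ^ (2 * m) = Y.T 2 := by
      rw [hpow]
      congr 1
      push_cast
      field_simp
    have e3 : ψ ^ (3 * m) = Y.T 3 := by
      rw [hpow]
      congr 1
      push_cast
      field_simp
    have e1 : ψ ^ m = Y.T 1 := by
      rw [hpow]
      congr 1
      field_simp
    have h1 : closure (Set.range (ψ ^ (2 * m))) = closure (Set.range (ψ ^ (2 * m + 1))) := by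
      apply Set.Subset.antisymm
      · have h2 : closure (Set.range (ψ ^ (2 * m))) ⊆ closure (Set.range (ψ ^ (3 * m))) := by
          apply closure_mono_of
          intro x
          rw [e2, e3]
          exact all_mem (Y.T_comm (by norm_num)) (Y.T_comm (by norm_num)) Y.T2_mem x
        refine h2.trans (closure_mono ?_)
        rintro _ ⟨x, rfl⟩
        refine ⟨(ψ ^ (m - 1)) x, ?_⟩
        have : ψ ^ (3 * m) = ψ ^ (2 * m + 1) * ψ ^ (m - 1) := by
          rw [← pow_add]; congr 1; omega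
        rw [this]
        rfl
      · apply closure_mono
        rintro _ ⟨x, rfl⟩
        exact ⟨ψ x, by rw [pow_succ]; rfl⟩
    have hne : ψ ≠ 0 := by
      intro h0
      have h3 := Y.T_inner ht
      rw [← hψ, h0] at h3
      simp only [zero_apply, inner_zero_right] at h3
      exact Complex.exp_ne_zero _ h3.symm
    have h2 : closure (Set.range (ψ ^ N)) = closure (Set.range (ψ ^ (N + 1))) := by
      by_contra h3
      exact hne (hcon m hm ψ hcomm h1 h3)
    have h3 : ∀ j x, (ψ ^ N) x ∈ closure (Set.range (ψ ^ (N + j))) := by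
      intro j
      induction j with
      | zero => intro x; exact subset_closure ⟨x, rfl⟩
      | succ j ih =>
        intro x
        have h4 : (ψ ^ N) x ∈ closure (Set.range (ψ ^ (N + 1))) := by
          rw [← h2]; exact subset_closure ⟨x, rfl⟩
        have h5 : closure (Set.range (ψ ^ (N + 1))) ⊆ closure (Set.range (ψ ^ (N + (j + 1)))) := by
          apply closure_mono_of
          intro y
          have h6 : (ψ ^ (N + 1)) y = ψ ((ψ ^ N) y) := by rw [pow_succ']; rfl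
          rw [h6]
          have h7 : ψ ((ψ ^ N) y) ∈ closure (ψ '' Set.range (ψ ^ (N + j))) :=
            image_closure_subset_closure_image ψ.continuous ⟨_, ih y, rfl⟩
          refine closure_mono ?_ h7
          rintro _ ⟨_, ⟨z, rfl⟩, rfl⟩
          refine ⟨z, ?_⟩
          rw [← add_assoc, pow_succ']
          rfl
        exact h5 h4
    have h4 := h3 (m - N) Sys.e0
    have h5 : N + (m - N) = m := by omega
    rw [h5, e1] at h4
    have h6 : ψ ^ N = Y.T (N / m) := by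
      rw [hpow]; congr 1; ring
    rwa [h6] at h4
  -- pass to the limit
  have hlim : Tendsto (fun m : ℕ => Y.T ((N : ℝ) / m) Sys.e0) atTop (𝓝 Sys.e0) := by
    rw [tendsto_iff_norm_sub_tendsto_zero]
    have h1 : Tendsto (fun m : ℕ => (N : ℝ) / m) atTop (𝓝 0) := tendsto_const_div_atTop_nhds_zero_nat _
    have h2 : Tendsto (fun m : ℕ => √(2 - 2 * Real.exp (-((N : ℝ) / m)))) atTop (𝓝 0) := by
      have h3 : Continuous fun t : ℝ => √(2 - 2 * Real.exp (-t)) := by fun_prop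
      have h4 := (h3.tendsto 0).comp h1
      have h5 : √(2 - 2 * Real.exp (-0)) = 0 := by
        rw [neg_zero, Real.exp_zero]; norm_num
      rw [h5] at h4
      exact h4
    refine squeeze_zero (fun m => norm_nonneg _) (fun m => ?_) h2
    apply Real.le_sqrt_of_sq_le
    exact Y.T_near_one (by positivity)
  have hmem : (Sys.e0 : HD d) ∈ closure (Set.range (Y.T 1)) := by
    refine isClosed_closure.mem_of_tendsto hlim ?_
    filter_upwards [eventually_gt_atTop N] with m hm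
    exact hclaim m hm
  rw [Metric.mem_closure_iff] at hmem
  obtain ⟨_, ⟨x, rfl⟩, hx⟩ := hmem δ hδ
  have := hdist x
  rw [dist_comm, dist_eq_norm] at hx
  linarith

end FSys

end Run7.h163
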