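import Pool.Agent.Run7.h163.RC
import Pool.Agent.Run7.h163.TT

/-!
# The operator statement for every dimension at least three
-/

set_option autoImplicit false
set_option linter.unusedSectionVars false
set_option linter.unusedVariables false
set_option linter.deprecated false

open scoped ComplexConjugate InnerProductSpace InnerProduct
open ContinuousLinearMap Filter Topology Finset

namespace Run7.h163

theorem exists_FSys {d : ℕ} (hd : 3 ≤ d) : Nonempty (FSys d) := by
  let F : FSeq d := fseq d
  let D : Dat d :=
    { i0 := ⟨0, by omega⟩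
      i1 := ⟨1, by omega⟩
      i2 := ⟨2, by omega⟩
      h01 := by simp
      h02 := by simp
      h12 := by simp
      C := F.Cl
      A := F.Al
      hC := F.Cl_mem
      hA := F.Al_mem
      hCA := F.unit_lim_apply }
  obtain ⟨S, hS⟩ := exists_sys D
  exact ⟨⟨F, S, by rw [hS], by rw [hS]⟩⟩

/-- the operator form of the result -/
theorem final_op {d : ℕ} (hd : 3 ≤ d) (N : ℕ) :
    ∃ m, N < m ∧ ∃ T : HD d →L[ℂ] HD d, (∀ j, Commute (M j) T) ∧
      closure (Set.range (T ^ (2 * m))) = closure (Set.range (T ^ (2 * m + 1))) ∧
      closure (Set.range (T ^ N)) ≠ closure (Set.range (T ^ (N + 1))) ∧ T ≠ 0 := by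
  obtain ⟨Y⟩ := exists_FSys hd
  exact Y.main_op N

end Run7.h163
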