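import Pool.Agent.Run7.h163.I1

/-!
# The full data, and consequences
-/

set_option autoImplicit false
set_option linter.unusedSectionVars false
set_option linter.unusedVariables false
set_option linter.deprecated false

open scoped ComplexConjugate InnerProductSpace InnerProduct
open ContinuousLinearMap Filter Topology Finset

namespace Run7.h163

/-- functions divisible by `z^M` in the disc algebra -/
noncomputable def DV (M : ℕ) : Submodule ℂ CA where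
  carrier := {f | star (zC ^ M) * f ∈ AD}
  add_mem' := fun {f g} hf hg => by
    change star (zC ^ M) * (f + g) ∈ AD
    rw [mul_add]; exact AD.add_mem hf hg
  zero_mem' := by
    change star (zC ^ M) * 0 ∈ AD
    rw [mul_zero]; exact AD.zero_mem
  smul_mem' := fun c f hf => by
    change star (zC ^ M) * (c • f) ∈ AD
    rw [mul_smul_comm]; exact AD.smul_mem hf c

lemma mem_DV {M : ℕ} {f : CA} : f ∈ DV M ↔ star (zC ^ M) * f ∈ AD := Iff.rfl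

lemma DV_closed (M : ℕ) : IsClosed ((DV M : Submodule ℂ CA) : Set CA) :=
  AD_closed.preimage (continuous_const.mul continuous_id)

lemma DV_of {M : ℕ} {g : CA} (hg : g ∈ AD) : zC ^ M * g ∈ DV M := by
  rw [mem_DV, ← mul_assoc, zC_star_mul_pow, one_mul]
  exact hg

lemma DV_eq {M : ℕ} {f : CA} (hf : f ∈ DV M) : ∃ g ∈ AD, f = zC ^ M * g := by
  refine ⟨star (zC ^ M) * f, hf, ?_⟩
  rw [← mul_assoc, mul_comm (zC ^ M), zC_star_mul_pow, one_mul]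

lemma DV_AD {M : ℕ} {f : CA} (hf : f ∈ DV M) : f ∈ AD := by
  obtain ⟨g, hg, rfl⟩ := DV_eq hf
  exact AD.mul_mem (AD.pow_mem zC_mem _) hg

lemma DV_mul {M : ℕ} {f g : CA} (hf : f ∈ DV M) (hg : g ∈ AD) : f * g ∈ DV M := by
  rw [mem_DV, ← mul_assoc]
  exact AD.mul_mem hf hg

lemma DV_mono {M M' : ℕ} (h : M ≤ M') {f : CA} (hf : f ∈ DV M') : f ∈ DV M := by
  obtain ⟨g, hg, rfl⟩ := DV_eq hf
  have : zC ^ M' * g = zC ^ M * (zC ^ (M' - M) * g) := by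
    rw [← mul_assoc, ← pow_add]
    congr 2
    omega
  rw [this]
  exact DV_of (AD.mul_mem (AD.pow_mem zC_mem _) hg)

lemma exp_eq_cexp (f : CA) : NormedSpace.exp f = cexp f := by
  ext w
  let ev : CA →ₐ[ℂ] ℂ := ContinuousMap.evalAlgHom ℂ ℂ w
  have hc : Continuous ev := continuous_eval_const w
  have h2 := NormedSpace.map_exp ev hc f
  change ev (NormedSpace.exp f) = _
  rw [h2, ← Complex.exp_eq_exp_ℂ]
  rfl

lemma cexp_sub_one_mem {M : ℕ} {f : CA} (hf : f ∈ DV M) : cexp f - 1 ∈ DV M := by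
  have h1 := (NormedSpace.exp_series_hasSum_exp' (𝕂 := ℂ) f).tendsto_sum_nat
  rw [exp_eq_cexp] at h1
  have h2 := (h1.comp (tendsto_add_atTop_nat 1)).sub_const (1 : CA)
  refine (DV_closed M).mem_of_tendsto h2 (Eventually.of_forall fun n => ?_)
  change (∑ i ∈ range (n + 1), ((i.factorial : ℂ)⁻¹) • f ^ i) - 1 ∈ DV M
  rw [sum_range_succ']
  simp only [Nat.factorial_zero, Nat.cast_one, inv_one, pow_zero, one_smul, add_sub_cancel_right]
  refine (DV M).sum_mem fun i _ => (DV M).smul_mem _ ?_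
  rw [pow_succ, mul_comm]
  exact DV_mul hf (AD.pow_mem (DV_AD hf) i)

lemma avgL_pow {f : CA} (hf : f ∈ AD) (n : ℕ) : avgL (f ^ n) = avgL f ^ n := by
  induction n with
  | zero => rw [pow_zero, pow_zero, avgL_one]
  | succ n ih => rw [pow_succ, avgL_mul (AD.pow_mem hf n) hf, ih, pow_succ]

lemma avgL_cexp {f : CA} (hf : f ∈ AD) : avgL (cexp f) = Complex.exp (avgL f) := by
  have h1 := (NormedSpace.exp_series_hasSum_exp' (𝕂 := ℂ) f)
  rw [exp_eq_cexp] at h1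
  have h2 := avgL.hasSum h1
  have h3 := (NormedSpace.exp_series_hasSum_exp' (𝕂 := ℂ) (avgL f))
  rw [← Complex.exp_eq_exp_ℂ] at h3
  have h4 : (fun n : ℕ => avgL (((n.factorial : ℂ)⁻¹) • f ^ n)) =
      fun n : ℕ => ((n.factorial : ℂ)⁻¹) • (avgL f) ^ n := by
    funext n
    rw [map_smul, avgL_pow hf]
  have h5 : HasSum (fun n : ℕ => avgL (((n.factorial : ℂ)⁻¹) • f ^ n)) (avgL (cexp f)) := h2
  rw [h4] at h5
  exact h5.unique h3

/-- the full data -/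
structure FSeq (d : ℕ) extends SUSeq where
  h : ℕ → CA
  L : ℕ → ℝ
  Mx : ℕ → ℕ
  q : ℕ → CA
  dq : ℕ → ℕ
  δ : ℕ → ℝ
  τ : ℕ → ℝ
  hcs : ∀ n0, ∑ n ∈ range n0, toSUSeq.cc n ≤ 1 / 200
  hok : ∀ n, StepOK d toSUSeq n
  h_mem : ∀ n, h n ∈ AD
  h_avg : ∀ n, avgL (h n) = 1
  h_pos : ∀ n w, 0 ≤ (h n w).re
  h_le : ∀ n w, (h n w).re ≤ L n
  L_mono : ∀ n, L n ≤ L (n + 1)
  h_succ : ∀ n, h (n + 1) - h n ∈ DV (Mx (n + 1))
  Mx_mono : ∀ n, Mx n ≤ Mx (n + 1)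
  Mx_ge : ∀ n, n + 1 ≤ Mx (n + 1)
  min_tendsto : Tendsto (fun n => avg (fun w => min 1 (h n w).re)) atTop (𝓝 0)
  approx : ∀ n, ∃ p : Polynomial ℂ, p.natDegree < Mx (n + 1) ∧ ‖cexp (-(h n)) - polyHom p‖ ≤ δ n
  δ_tendsto : Tendsto δ atTop (𝓝 0)
  weights : ∀ n0 j, (∑ k ∈ range n0, 100 * toSUSeq.cc k * xx toSUSeq.N' k ^ Mx (j + 1)) *
    Real.exp (2 * L (j + 1)) ≤ 2 * (1 / 4) ^ (j + 1)
  q_mem : ∀ n, zC ^ dq n * q n ∈ AD
  q_near : ∀ n w, ‖cexp (h n) w + q n w‖ ≤ 3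
  q_l2 : ∀ n, avg (fun w => ‖(cexp (-(h n)) w) ^ 3 * q n w‖ ^ 2) ≤
    (a n * √(N (n + 1)) * τ n) ^ 2
  τ_nonneg : ∀ n, 0 ≤ τ n
  τ_tendsto : Tendsto τ atTop (𝓝 0)
  N_large : ∀ n, 2 * (N n + dq n) ≤ N (n + 1)
  a_Mx : ∀ n, 8 * a (n + 1) * √(Mx (n + 1)) ≤ 1
  a_N : ∀ n, 5 * a n * √(N (n + 1)) ≤ 1
  Mx_N : ∀ n, 2 * N (n + 1) ≤ Mx (n + 1)
  q_norm : ∀ n, ‖q n‖ ≤ a n * √(Mx (n + 1))

namespace FSeq
variable {d : ℕ} (F : FSeq d)

/-- the functions `exp (-t h)` -/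
noncomputable def Φ (t : ℝ) (n : ℕ) : CA := cexp (-((t : ℂ) • F.h n))

lemma Φ_mem (t : ℝ) (n : ℕ) : F.Φ t n ∈ AD :=
  cexp_mem (AD.neg_mem (AD.smul_mem (F.h_mem n) _))

lemma Φ_one (n : ℕ) : F.Φ 1 n = cexp (-(F.h n)) := by
  unfold Φ
  simp

lemma Φ_apply (t : ℝ) (n : ℕ) (w : Circle) :
    F.Φ t n w = Complex.exp (-((t : ℂ) * F.h n w)) := rfl

lemma norm_Φ_apply (t : ℝ) (n : ℕ) (w : Circle) :
    ‖F.Φ t n w‖ = Real.exp (-(t * (F.h n w).re)) := by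
  rw [Φ_apply, Complex.norm_exp]
  congr 1
  simp

lemma norm_Φ_le (t : ℝ) (ht : 0 ≤ t) (n : ℕ) : ‖F.Φ t n‖ ≤ 1 := by
  rw [ContinuousMap.norm_le _ zero_le_one]
  intro w
  rw [norm_Φ_apply, Real.exp_le_one_iff]
  have := mul_nonneg ht (F.h_pos n w)
  linarith

lemma Φ_add (t u : ℝ) (n : ℕ) : F.Φ (t + u) n = F.Φ t n * F.Φ u n := by
  unfold Φ
  rw [← cexp_add]
  congr 1
  push_cast
  rw [add_smul]
  abel

lemma Mx_monotone : Monotone F.Mx := monotone_nat_of_le_succ F.Mx_mono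

lemma h_sub_mem {n m : ℕ} (hnm : n ≤ m) : F.h m - F.h n ∈ DV (F.Mx (n + 1)) := by
  induction m, hnm using Nat.le_induction with
  | base => rw [sub_self]; exact (DV _).zero_mem
  | succ m hm ih =>
    have e : F.h (m + 1) - F.h n = (F.h (m + 1) - F.h m) + (F.h m - F.h n) := by abel
    rw [e]
    exact (DV _).add_mem (DV_mono (F.Mx_monotone (by omega)) (F.h_succ m)) ih

lemma Φ_sub_mem (t : ℝ) {n m : ℕ} (hnm : n ≤ m) : F.Φ t m - F.Φ t n ∈ DV (F.Mx (n + 1)) := by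
  have e : F.Φ t m - F.Φ t n = (cexp (-((t : ℂ) • (F.h m - F.h n))) - 1) * F.Φ t n := by
    unfold Φ
    rw [sub_mul, one_mul, ← cexp_add]
    congr 2
    rw [smul_sub]
    abel
  rw [e]
  exact DV_mul (cexp_sub_one_mem ((DV _).neg_mem ((DV _).smul_mem _ (F.h_sub_mem hnm))))
    (F.Φ_mem t n)

end FSeq

end Run7.h163
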