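import Pool.Agent.Run7.h163.I1

/-!
# Bounds for the defect operators
-/

set_option autoImplicit false
set_option linter.unusedSectionVars false
set_option linter.unusedVariables false
set_option linter.deprecated false

open scoped ComplexConjugate InnerProductSpace InnerProduct
open ContinuousLinearMap Filter Topology Finset

namespace Run7.h163

variable {d : ℕ}

section
variable (s : SUSeq) {X : HD d →L[ℂ] HD d} {E : CA →ₗ[ℂ] (HD d →L[ℂ] HD d)}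

/-- the operators to be estimated -/
noncomputable def MM (E : CA →ₗ[ℂ] (HD d →L[ℂ] HD d)) (G : KZ →L[ℂ] HD d) (C A : CA) (y : KZ) :
    HD d := Zv E G C (piS C y) + Zv E G A (piS A y)

lemma MM_q (h : IsFC X E) (G : KZ →L[ℂ] HD d) (c a : ℝ) (y : KZ) (f g v : CA) (hv : v ∈ AD)
    (hg : g ∈ AD) : Zv E G ((c : ℂ) • f + (a : ℂ) • (v * g))
        (piS ((c : ℂ) • f + (a : ℂ) • (v * g)) y) =
        ((c ^ 2 : ℝ) : ℂ) • Zv E G f (piS f y) + ((c * a : ℝ) : ℂ) • Zv E G f (piS (v * g) y) +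
        ((c * a : ℝ) : ℂ) • (adjoint (E v) (Zv E G g (piS f y)) +
          Zv E G v (adjoint (piS g) (piS f y))) +
        ((a ^ 2 : ℝ) : ℂ) • (adjoint (E v) (Zv E G g (piS (v * g) y)) +
          Zv E G v (adjoint (piS g) (piS (v * g) y))) := by
  have c1 := Complex.conj_ofReal c
  have c2 := Complex.conj_ofReal a
  rw [Zv_add, Zv_smul, Zv_smul, c1, c2, ← Zv_mul G h hv hg, ← Zv_mul G h hv hg, map_add,
    map_smul, map_smul, add_apply, smul_apply, smul_apply]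
  rw [Zv_vadd, Zv_vadd, Zv_vsmul, Zv_vsmul, Zv_vsmul, Zv_vsmul]
  simp only [smul_add, smul_smul]
  push_cast
  have s1 : (c : ℂ) ^ 2 = c * c := by ring
  have s2 : (a : ℂ) ^ 2 = a * a := by ring
  have s3 : (a : ℂ) * c = c * a := by ring
  rw [s1, s2, s3]
  abel

lemma MM_r (c a : ℝ) (A1 B1 C1 D1 E1 F1 A2 B2 C2 D2 E2 F2 U : HD d) (hD : D1 + D2 = 0)
    (hF : F1 + F2 = U) :
    ((c ^ 2 : ℝ) : ℂ) • A1 + ((c * a : ℝ) : ℂ) • B1 + ((c * a : ℝ) : ℂ) • (C1 + D1) +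
      ((a ^ 2 : ℝ) : ℂ) • (E1 + F1) +
    (((c ^ 2 : ℝ) : ℂ) • A2 + ((c * a : ℝ) : ℂ) • B2 + ((c * a : ℝ) : ℂ) • (C2 + D2) +
      ((a ^ 2 : ℝ) : ℂ) • (E2 + F2)) =
    ((c ^ 2 : ℝ) : ℂ) • (A1 + A2) + ((c * a : ℝ) : ℂ) • (B1 + B2) +
    ((c * a : ℝ) : ℂ) • (C1 + C2) + ((a ^ 2 : ℝ) : ℂ) • (E1 + E2 + U) := by
  rw [← hF]
  have : D2 = -D1 := by rw [← sub_eq_zero, sub_neg_eq_add, add_comm]; exact hD
  rw [this]
  simp only [smul_add, smul_neg]
  abel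

lemma MM_e (h : IsFC X E) (G : KZ →L[ℂ] HD d) (P R g2 g3 u : CA)
    (h2 : g2 ∈ AD) (h3 : g3 ∈ AD) (hu : u ∈ AD)
    (ho : star g2 * P + star g3 * R = 0) (hg : star g2 * g2 + star g3 * g3 = 1)
    (c a : ℝ) (y : KZ) :
    MM E G ((c : ℂ) • P + (a : ℂ) • (u * g2)) ((c : ℂ) • R + (a : ℂ) • (u * g3)) y =
      ((c ^ 2 : ℝ) : ℂ) • MM E G P R y +
      ((c * a : ℝ) : ℂ) • (Zv E G P (piS (u * g2) y) + Zv E G R (piS (u * g3) y)) +
      ((c * a : ℝ) : ℂ) • (adjoint (E u) (Zv E G g2 (piS P y)) +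
        adjoint (E u) (Zv E G g3 (piS R y))) +
      ((a ^ 2 : ℝ) : ℂ) • (adjoint (E u) (Zv E G g2 (piS (u * g2) y)) +
        adjoint (E u) (Zv E G g3 (piS (u * g3) y)) + Zv E G u (piS u y)) := by
  have o1 : Zv E G u (adjoint (piS g2) (piS P y)) + Zv E G u (adjoint (piS g3) (piS R y)) = 0 := by
    rw [← Zv_vadd]
    have : adjoint (piS g2) (piS P y) + adjoint (piS g3) (piS R y) = 0 := by
      rw [← ContinuousLinearMap.star_eq_adjoint, ← ContinuousLinearMap.star_eq_adjoint,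
        ← map_star, ← map_star, ← mul_apply_eq_comp, ← mul_apply_eq_comp, ← map_mul, ← map_mul,
        ← add_apply, ← map_add, ho, map_zero, zero_apply]
    rw [this, Zv_vzero]
  have o2 : Zv E G u (adjoint (piS g2) (piS (u * g2) y)) +
      Zv E G u (adjoint (piS g3) (piS (u * g3) y)) = Zv E G u (piS u y) := by
    rw [← Zv_vadd]
    congr 1
    have h5 : star g2 * (u * g2) + star g3 * (u * g3) = u := by
      have : star g2 * (u * g2) + star g3 * (u * g3) =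
        u * (star g2 * g2 + star g3 * g3) := by ring
      rw [this, hg, mul_one]
    rw [← ContinuousLinearMap.star_eq_adjoint, ← ContinuousLinearMap.star_eq_adjoint,
        ← map_star, ← map_star, ← mul_apply_eq_comp, ← mul_apply_eq_comp, ← map_mul, ← map_mul,
        ← add_apply, ← map_add, h5]
  unfold MM
  rw [MM_q h G c a y P g2 u hu h2, MM_q h G c a y R g3 u hu h3]
  exact MM_r c a _ _ _ _ _ _ _ _ _ _ _ _ _ o1 o2

lemma MM_step_aux (h : IsFC X E) (G : KZ →L[ℂ] HD d) (z : ℝ) (hz : 0 ≤ z)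
    (hZ : ∀ y, ‖Zv E G zC y‖ ≤ z * ‖y‖) (P R g2 g3 u : CA) (hP : P ∈ AD) (hR : R ∈ AD)
    (h2 : g2 ∈ AD) (h3 : g3 ∈ AD) (hu : u ∈ AD) (nP : ‖P‖ ≤ 1) (nR : ‖R‖ ≤ 1) (n2 : ‖g2‖ ≤ 1)
    (n3 : ‖g3‖ ≤ 1) (nu : ‖u‖ ≤ 1) (K1 K2 K3 K4 L μ : ℝ) (k1 : 0 ≤ K1) (k2 : 0 ≤ K2)
    (k3 : 0 ≤ K3) (k4 : 0 ≤ K4) (hL : 0 ≤ L)
    (l1 : LipB d P K1) (l2 : LipB d R K2) (l3 : LipB d g2 K3) (l4 : LipB d g3 K4)
    (lu : LipB d u L)
    (ho : star g2 * P + star g3 * R = 0) (hg : star g2 * g2 + star g3 * g3 = 1)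
    (hμ : ∀ y, ‖MM E G P R y‖ ≤ μ * z * ‖y‖) (hμ0 : 0 ≤ μ) (c a : ℝ) (hc0 : 0 ≤ c) (hc1 : c ≤ 1)
    (ha0 : 0 ≤ a) (ha1 : a ≤ 1) (y : KZ) :
    ‖MM E G ((c : ℂ) • P + (a : ℂ) • (u * g2)) ((c : ℂ) • R + (a : ℂ) • (u * g3)) y‖ ≤
      (μ + (a ^ 2 * L + 2 * a * (K1 + K2 + K3 + K4))) * z * ‖y‖ := by
  have e := MM_e h G P R g2 g3 u h2 h3 hu ho hg c a y
  rw [e]
  have nug2 : ‖u * g2‖ ≤ 1 := (norm_mul_le _ _).trans (mul_le_one₀ nu (norm_nonneg _) n2)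
  have nug3 : ‖u * g3‖ ≤ 1 := (norm_mul_le _ _).trans (mul_le_one₀ nu (norm_nonneg _) n3)
  have lip : ∀ {f : CA} {K : ℝ}, 0 ≤ K → LipB d f K → ∀ {v : CA}, ‖v‖ ≤ 1 →
      ‖Zv E G f (piS v y)‖ ≤ K * z * ‖y‖ := by
    intro f K hK hf v hv
    refine (hf X E h G z hz hZ _).trans ?_
    have := norm_S hv y
    gcongr
  have b1 : ‖((c ^ 2 : ℝ) : ℂ) • MM E G P R y‖ ≤ μ * z * ‖y‖ := by
    rw [norm_smul, Complex.norm_real, Real.norm_eq_abs, abs_of_nonneg (by positivity)]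
    exact (mul_le_of_le_one_left (norm_nonneg _) (pow_le_one₀ hc0 hc1)).trans (hμ y)
  have nca : ‖((c * a : ℝ) : ℂ)‖ ≤ a := by
    rw [Complex.norm_real, Real.norm_eq_abs, abs_of_nonneg (by positivity)]
    exact mul_le_of_le_one_left ha0 hc1
  have na2 : ‖((a ^ 2 : ℝ) : ℂ)‖ = a ^ 2 := by
    rw [Complex.norm_real, Real.norm_eq_abs, abs_of_nonneg (by positivity)]
  have b2 : ‖((c * a : ℝ) : ℂ) • (Zv E G P (piS (u * g2) y) + Zv E G R (piS (u * g3) y))‖ ≤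
      a * ((K1 + K2) * z * ‖y‖) := by
    rw [norm_smul]
    refine mul_le_mul nca ?_ (norm_nonneg _) ha0
    refine (norm_add_le _ _).trans ?_
    have := lip k1 l1 nug2
    have := lip k2 l2 nug3
    linarith
  have b3 : ‖((c * a : ℝ) : ℂ) • (adjoint (E u) (Zv E G g2 (piS P y)) +
        adjoint (E u) (Zv E G g3 (piS R y)))‖ ≤ a * ((K3 + K4) * z * ‖y‖) := by
    rw [norm_smul]
    refine mul_le_mul nca ?_ (norm_nonneg _) ha0
    refine (norm_add_le _ _).trans ?_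
    have := (norm_adjE h nu _).trans (lip k3 l3 nP)
    have := (norm_adjE h nu _).trans (lip k4 l4 nR)
    linarith
  have b4 : ‖((a ^ 2 : ℝ) : ℂ) • (adjoint (E u) (Zv E G g2 (piS (u * g2) y)) +
        adjoint (E u) (Zv E G g3 (piS (u * g3) y)) + Zv E G u (piS u y))‖ ≤
      a ^ 2 * ((K3 + K4 + L) * z * ‖y‖) := by
    rw [norm_smul, na2]
    refine mul_le_mul_of_nonneg_left ?_ (by positivity)
    refine (norm_add₃_le).trans ?_
    have := (norm_adjE h nu _).trans (lip k3 l3 nug2)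
    have := (norm_adjE h nu _).trans (lip k4 l4 nug3)
    have := lip hL lu nu
    linarith
  refine (norm_add_le _ _).trans ?_
  refine (add_le_add ((norm_add_le _ _).trans (add_le_add ((norm_add_le _ _).trans
    (add_le_add b1 b2)) b3)) b4).trans ?_
  have h5 : 0 ≤ z * ‖y‖ := by positivity
  have h6 : a ^ 2 ≤ a := pow_le_of_le_one ha0 ha1 two_ne_zero
  have h7 : a ^ 2 * ((K3 + K4) * (z * ‖y‖)) ≤ a * ((K3 + K4) * (z * ‖y‖)) := by gcongr
  have h8 : 0 ≤ a * ((K1 + K2) * (z * ‖y‖)) := by positivity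
  linarith

theorem MM_bound (hok : ∀ n, StepOK d s n) (h : IsFC X E) (G : KZ →L[ℂ] HD d) (z : ℝ) (hz : 0 ≤ z)
    (hZ : ∀ y, ‖Zv E G zC y‖ ≤ z * ‖y‖) (n : ℕ) :
    ∀ y, ‖MM E G (s.C n) (s.A n) y‖ ≤ (1 / 2 * (1 - (1 / 2) ^ n)) * z * ‖y‖ := by
  induction n with
  | zero =>
    intro y
    have : MM E G (s.C 0) (s.A 0) y = 0 := by
      unfold MM
      rw [s.C_zero, s.A_zero]
      have h1 := LipB_pow (d := d) 0 X E h G z hz hZ (piS 1 y)
      rw [pow_zero, Nat.cast_zero, zero_mul, zero_mul] at h1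
      rw [norm_le_zero_iff.1 h1, zero_add]
      unfold Zv
      simp
    rw [this]
    simp
  | succ n ih =>
    obtain ⟨K1, K2, K3, K4, k1, k2, k3, k4, l1, l2, l3, l4, hb⟩ := hok n
    intro y
    set u : CA := zC ^ (s.N (n + 1) - s.N n) with hu
    set g2 : CA := -(zC ^ s.N n * star (s.A n)) with hg2
    set g3 : CA := zC ^ s.N n * star (s.C n) with hg3
    have hN := s.N_mono n
    have hz2 : u * zC ^ s.N n = zC ^ s.N (n + 1) := by
      rw [hu, ← pow_add]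
      congr 1
      omega
    have eC : s.C (n + 1) = ((√(1 - s.a n ^ 2) : ℝ) : ℂ) • s.C n + (s.a n : ℂ) • (u * g2) := by
      rw [s.C_succ, hg2, mul_neg, ← mul_assoc, hz2, smul_neg, sub_eq_add_neg]
    have eA : s.A (n + 1) = ((√(1 - s.a n ^ 2) : ℝ) : ℂ) • s.A n + (s.a n : ℂ) • (u * g3) := by
      rw [s.A_succ, hg3, ← mul_assoc, hz2]
    have hzz := zC_star_mul_pow (s.N n)
    have hun := s.unit n
    have hrevA : zC ^ s.N n * star (s.A n) ∈ AD := Pol_AD (Pol_rev le_rfl (s.mem_Pol n).2)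
    have hrevC : zC ^ s.N n * star (s.C n) ∈ AD := Pol_AD (Pol_rev le_rfl (s.mem_Pol n).1)
    have hn : ∀ f : CA, ‖f‖ ≤ 1 → ‖zC ^ s.N n * star f‖ ≤ 1 := by
      intro f hf
      refine (norm_mul_le _ _).trans (mul_le_one₀ (SUSeq.norm_zC_pow _) (norm_nonneg _) ?_)
      rwa [norm_star]
    have ho : star g2 * s.C n + star g3 * s.A n = 0 := by
      rw [hg2, hg3, star_neg, star_mul, star_mul, star_star, star_star]
      ring
    have hgg : star g2 * g2 + star g3 * g3 = 1 := by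
      rw [hg2, hg3, star_neg, star_mul, star_mul, star_star, star_star]
      have : -(s.A n * star (zC ^ s.N n)) * -(zC ^ s.N n * star (s.A n)) +
          s.C n * star (zC ^ s.N n) * (zC ^ s.N n * star (s.C n)) =
          (star (zC ^ s.N n) * zC ^ s.N n) * (star (s.C n) * s.C n + star (s.A n) * s.A n) := by
        ring
      rw [this, hzz, hun, mul_one]
    have l3' : LipB d g2 K3 := by
      intro X E h G z hz hZ y
      have h5 := l3 X E h G z hz hZ y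
      have : g2 = (-1 : ℂ) • (zC ^ s.N n * star (s.A n)) := by rw [hg2]; simp
      rw [this, Zv_smul, norm_smul, RCLike.norm_conj]
      simpa using h5
    have hcs : √(1 - s.a n ^ 2) ≤ 1 := by
      rw [Real.sqrt_le_one]
      nlinarith [sq_nonneg (s.a n)]
    have key := MM_step_aux h G z hz hZ (s.C n) (s.A n) g2 g3 u (Pol_AD (s.mem_Pol n).1)
      (Pol_AD (s.mem_Pol n).2) (AD.neg_mem hrevA) hrevC (AD.pow_mem zC_mem _) (s.norm_C_le n)
      (s.norm_A_le n) (by rw [hg2, norm_neg]; exact hn _ (s.norm_A_le n)) (hn _ (s.norm_C_le n))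
      (SUSeq.norm_zC_pow _) K1 K2 K3 K4 ((s.N (n + 1) - s.N n : ℕ) : ℝ)
      (1 / 2 * (1 - (1 / 2) ^ n)) k1 k2 k3 k4 (by positivity) l1 l2 l3' l4 (LipB_pow _) ho hgg ih
      (by
        have : (1 / 2 : ℝ) ^ n ≤ 1 := pow_le_one₀ (by norm_num) (by norm_num)
        linarith) (√(1 - s.a n ^ 2)) (s.a n) (Real.sqrt_nonneg _) hcs (s.a_pos n).le
      (by linarith [s.a_le n]) y
    rw [eC, eA]
    refine key.trans ?_
    have h5 : ((s.N (n + 1) - s.N n : ℕ) : ℝ) ≤ s.N (n + 1) := by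
      exact_mod_cast Nat.sub_le _ _
    have h6 : s.a n ^ 2 * ((s.N (n + 1) - s.N n : ℕ) : ℝ) ≤ s.a n ^ 2 * s.N (n + 1) := by gcongr
    have h7 : 1 / 2 * (1 - (1 / 2 : ℝ) ^ n) + (s.a n ^ 2 * ((s.N (n + 1) - s.N n : ℕ) : ℝ) +
        2 * s.a n * (K1 + K2 + K3 + K4)) ≤ 1 / 2 * (1 - (1 / 2) ^ (n + 1)) := by
      have h8 : (1 / 2 : ℝ) ^ (n + 1) = (1 / 2) ^ n * (1 / 2) := pow_succ _ _
      rw [h8]
      linarith
    gcongr

end

end Run7.h163
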