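import Pool.Agent.Run7.h163.FX

/-!
# Systems
-/

set_option autoImplicit false
set_option linter.unusedSectionVars false
set_option linter.unusedVariables false
set_option linter.deprecated false

open scoped ComplexConjugate InnerProductSpace InnerProduct
open ContinuousLinearMap

namespace Run7.h163

variable {d : ℕ}

/-- a system: the contraction `X` with its functional calculus -/
structure Sys (d : ℕ) extends Dat d where
  X : HD d →L[ℂ] HD d
  E : CA →ₗ[ℂ] (HD d →L[ℂ] HD d)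
  fc : IsFC X E
  fix : X = GG toDat X E
  comm : ∀ j, Commute (M j) X
  raises : Raises X 1

namespace Sys

variable (S : Sys d)

lemma comm_E (j : Fin d) {f : CA} (hf : f ∈ AD) : Commute (M j) (S.E f) :=
  S.fc.commute (S.comm j) hf

lemma comm_EX {f : CA} (hf : f ∈ AD) : Commute S.X (S.E f) := S.fc.commute rfl hf

lemma comm_EE {f g : CA} (hf : f ∈ AD) (hg : g ∈ AD) : Commute (S.E f) (S.E g) := by
  change S.E f * S.E g = S.E g * S.E f
  rw [← S.fc.mul hf hg, ← S.fc.mul hg hf, mul_comm]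

/-- the operators `M_{i1} w₂(X) + M_{i2} w₃(X)` -/
noncomputable def W (w2 w3 : CA) : HD d →L[ℂ] HD d := M S.i1 * S.E w2 + M S.i2 * S.E w3

lemma comm_WX {w2 w3 : CA} (h2 : w2 ∈ AD) (h3 : w3 ∈ AD) : Commute S.X (S.W w2 w3) := by
  unfold W
  exact ((S.comm _).symm.mul_right (S.comm_EX h2)).add_right
    ((S.comm _).symm.mul_right (S.comm_EX h3))

lemma comm_WE {w2 w3 f : CA} (h2 : w2 ∈ AD) (h3 : w3 ∈ AD) (hf : f ∈ AD) :
    Commute (S.E f) (S.W w2 w3) := by
  unfold W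
  exact ((S.comm_E _ hf).symm.mul_right (S.comm_EE hf h2)).add_right
    ((S.comm_E _ hf).symm.mul_right (S.comm_EE hf h3))

/-- the vacuum vector -/
noncomputable def e0 : HD d := bv 0

lemma norm_e0 : ‖(e0 : HD d)‖ = 1 := by
  have h : ⟪(e0 : HD d), e0⟫_ℂ = 1 := by
    unfold e0
    rw [inner_bv, bv_apply]
    simp
  rw [inner_self_eq_norm_sq_to_K] at h
  have h2 : ((‖(e0 : HD d)‖ ^ 2 : ℝ) : ℂ) = ((1 : ℝ) : ℂ) := by
    rw [Complex.ofReal_one, ← h]
    simp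
  have h3 := Complex.ofReal_injective h2
  nlinarith [norm_nonneg (e0 : HD d)]

lemma inner_pow (k : ℕ) (hk : 1 ≤ k) : ⟪(e0 : HD d), (S.X ^ k) e0⟫_ℂ = 0 := by
  unfold e0
  rw [inner_bv]
  have h1 := S.raises.pow k 0 (bv 0) (mem_Fl_zero _)
  exact h1 0 (by rw [deg_zero]; omega)

lemma l2 (f : CA) : ‖S.E f e0‖ ^ 2 ≤ avg (fun w => ‖f w‖ ^ 2) :=
  (S.fc.l2 e0 norm_e0 S.inner_pow f).1

lemma inner_e0 (f : CA) : ⟪(e0 : HD d), S.E f e0⟫_ℂ = avg f :=
  (S.fc.l2 e0 norm_e0 S.inner_pow f).2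

end Sys

theorem exists_sys (D : Dat d) : ∃ S : Sys d, S.toDat = D := by
  obtain ⟨X, E, h1, h2, h3, h4⟩ := exists_X D
  exact ⟨⟨D, X, E, h1, h2, h3, h4⟩, rfl⟩

end Run7.h163
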