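import Pool.Agent.Run7.h163.GO
import Pool.Agent.Run7.h163.LE0
import Pool.Agent.Run7.h163.I2

/-!
# The intertwining relation
-/

set_option autoImplicit false
set_option linter.unusedSectionVars false
set_option linter.unusedVariables false
set_option linter.deprecated false

open scoped ComplexConjugate InnerProductSpace InnerProduct
open ContinuousLinearMap Filter Topology Finset

namespace Run7.h163

variable {d : ℕ}

/-- the intertwining relation -/
theorem intertwine (s : SUSeq) (hok : ∀ n, StepOK d s n) (S : Sys d) (hC : S.C = s.Cl)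
    (hA : S.A = s.Al) (G : KZ →L[ℂ] HD d)
    (h0 : ∀ y, adjoint (M S.i0) (G y) = (bb : ℂ) • G (adjoint Sh y))
    (h1 : ∀ y, adjoint (M S.i1) (G y) = (bb : ℂ) • G (piS s.Cl y))
    (h2 : ∀ y, adjoint (M S.i2) (G y) = (bb : ℂ) • G (piS s.Al y)) (y : KZ) :
    adjoint S.X (G y) = G (adjoint Sh y) := by
  set Zop : KZ →L[ℂ] HD d := adjoint S.X ∘L G - G ∘L adjoint Sh with hZop
  have hZa : ∀ y, Zv S.E G zC y = Zop y := by
    intro y
    unfold Zv
    rw [S.fc.z, piS_z]
    rfl
  set z := ‖Zop‖ with hz
  have hZ : ∀ y, ‖Zv S.E G zC y‖ ≤ z * ‖y‖ := by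
    intro y
    rw [hZa]
    exact Zop.le_opNorm y
  -- the limit of the estimates
  have hlim : ∀ y, ‖MM S.E G s.Cl s.Al y‖ ≤ 1 / 2 * z * ‖y‖ := by
    intro y
    have hcont : Continuous fun p : CA × CA => MM S.E G p.1 p.2 y := by
      unfold MM Zv
      have c1 : Continuous fun p : CA × CA => piS p.1 y :=
        (ContinuousLinearMap.apply ℂ KZ y).continuous.comp ((rep_continuous piS).comp continuous_fst)
      have c2 : Continuous fun p : CA × CA => piS p.2 y :=
        (ContinuousLinearMap.apply ℂ KZ y).continuous.comp ((rep_continuous piS).comp continuous_snd)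
      have a1 : Continuous fun p : CA × CA => adjoint (S.E p.1) :=
        (LinearIsometryEquiv.continuous _).comp (S.fc.continuous.comp continuous_fst)
      have a2 : Continuous fun p : CA × CA => adjoint (S.E p.2) :=
        (LinearIsometryEquiv.continuous _).comp (S.fc.continuous.comp continuous_snd)
      have a3 : Continuous fun p : CA × CA => adjoint (piS p.1) :=
        (LinearIsometryEquiv.continuous _).comp ((rep_continuous piS).comp continuous_fst)
      have a4 : Continuous fun p : CA × CA => adjoint (piS p.2) :=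
        (LinearIsometryEquiv.continuous _).comp ((rep_continuous piS).comp continuous_snd)
      exact ((a1.clm_apply (G.continuous.comp c1)).sub (G.continuous.comp (a3.clm_apply c1))).add
        ((a2.clm_apply (G.continuous.comp c2)).sub (G.continuous.comp (a4.clm_apply c2)))
    have ht : Tendsto (fun n => ‖MM S.E G (s.C n) (s.A n) y‖) atTop
        (𝓝 ‖MM S.E G s.Cl s.Al y‖) :=
      ((hcont.tendsto (s.Cl, s.Al)).comp (s.C_tendsto.prodMk_nhds s.A_tendsto)).norm
    refine le_of_tendsto ht (Eventually.of_forall fun n => ?_)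
    refine (MM_bound s hok S.fc G z (norm_nonneg _) hZ n y).trans ?_
    have : 0 ≤ (1 / 2 : ℝ) ^ n := by positivity
    have h5 : 0 ≤ z * ‖y‖ := by positivity
    nlinarith
  -- the fixed point equation
  have hmain : ∀ y, Zop y = adjoint S.X (MM S.E G s.Cl s.Al y) := by
    intro y
    have hfix := S.fix
    unfold GG at hfix
    have hbb : (bb : ℂ) * bb = 1 / 2 := by
      rw [← Complex.ofReal_mul, ← sq, bb_sq]
      push_cast
      ring
    have hadj : adjoint S.X (G y) = (bb : ℂ) • adjoint (M S.i0) (G y) +
        (bb : ℂ) • adjoint S.X (adjoint (S.E S.C) (adjoint (M S.i1) (G y)) +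
          adjoint (S.E S.A) (adjoint (M S.i2) (G y))) := by
      conv_lhs => rw [hfix]
      rw [map_add, map_smulₛₗ, map_smulₛₗ, add_apply, smul_apply, smul_apply, adj_mul_apply,
        Complex.conj_ofReal, map_add, add_apply, adj_mul_apply, adj_mul_apply]
    have hun : ∀ v : KZ, adjoint (piS s.Cl) (piS s.Cl v) + adjoint (piS s.Al) (piS s.Al v) = v := by
      intro v
      rw [← ContinuousLinearMap.star_eq_adjoint, ← ContinuousLinearMap.star_eq_adjoint,
          ← map_star, ← map_star, ← mul_apply_eq_comp, ← mul_apply_eq_comp, ← map_mul, ← map_mul,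
          ← add_apply, ← map_add, s.unit_lim, map_one, one_apply_eq_self]
    have e1 : adjoint (S.E S.C) (adjoint (M S.i1) (G y)) +
          adjoint (S.E S.A) (adjoint (M S.i2) (G y)) =
        (bb : ℂ) • (MM S.E G s.Cl s.Al y + G y) := by
      rw [h1, h2, map_smul, map_smul, ← smul_add, hC, hA]
      congr 1
      unfold MM Zv
      have : G y = G (adjoint (piS s.Cl) (piS s.Cl y)) + G (adjoint (piS s.Al) (piS s.Al y)) := by
        rw [← map_add, hun]
      rw [this]
      abel
    rw [e1, h0, smul_smul, hbb, map_smul, smul_smul, hbb, map_add] at hadj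
    have e2 : Zop y = adjoint S.X (G y) - G (adjoint Sh y) := rfl
    have e3 : adjoint S.X (G y) = (2 : ℂ) • adjoint S.X (G y) - adjoint S.X (G y) := by
      rw [two_smul]; abel
    rw [e2]
    have e4 : (2 : ℂ) • adjoint S.X (G y) = G (adjoint Sh y) +
        (adjoint S.X (MM S.E G s.Cl s.Al y) + adjoint S.X (G y)) := by
      conv_lhs => rw [hadj]
      rw [smul_add, smul_smul, smul_smul]
      norm_num
    rw [e3, e4]
    abel
  have hz0 : z ≤ 1 / 2 * z := by
    refine ContinuousLinearMap.opNorm_le_bound _ (by positivity) fun y => ?_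
    rw [hmain]
    refine ((adjoint S.X).le_opNorm _).trans ?_
    rw [LinearIsometryEquiv.norm_map]
    have h5 := S.fc.norm_X
    have h6 := hlim y
    nlinarith [norm_nonneg (MM S.E G s.Cl s.Al y)]
  have hz1 : z = 0 := by
    have := norm_nonneg Zop
    linarith
  have h7 : Zop = 0 := norm_eq_zero.1 hz1
  have h8 : Zop y = 0 := by rw [h7]; rfl
  have e2 : Zop y = adjoint S.X (G y) - G (adjoint Sh y) := rfl
  rw [e2] at h8
  exact sub_eq_zero.1 h8

/-- consequence for the functional calculus -/
theorem intertwine_fc {X : HD d →L[ℂ] HD d} {E : CA →ₗ[ℂ] (HD d →L[ℂ] HD d)} (h : IsFC X E)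
    (G : KZ →L[ℂ] HD d) (hG : ∀ y, adjoint X (G y) = G (adjoint Sh y)) {f : CA} (hf : f ∈ AD)
    (y : KZ) : adjoint (E f) (G y) = G (adjoint (piS f) y) := by
  obtain ⟨⟩ : True := trivial
  have hp : ∀ p : Polynomial ℂ, Zv E G (polyHom p) y = 0 := by
    intro p
    obtain ⟨K, hK, hL⟩ := exists_LipB (d := d) (n := p.natDegree) (f := polyHom p) (by
      unfold polyHom
      rw [Polynomial.aeval_eq_sum_range]
      exact (Pol _).sum_mem fun i hi => (Pol _).smul_mem _
        (pow_mem_Pol (by have := mem_range.1 hi; omega)))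
    have h1 := hL X E h G 0 le_rfl (fun y => by
      have : Zv E G zC y = 0 := by
        unfold Zv
        rw [h.z, piS_z, hG, sub_self]
      rw [this]; simp) y
    rw [mul_zero, zero_mul] at h1
    exact norm_le_zero_iff.1 h1
  have hcont : Continuous fun f : CA => Zv E G f y := by
    unfold Zv
    have a1 : Continuous fun p : CA => adjoint (E p) :=
      (LinearIsometryEquiv.continuous _).comp h.continuous
    have a3 : Continuous fun p : CA => adjoint (piS p) :=
      (LinearIsometryEquiv.continuous _).comp (rep_continuous piS)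
    exact (a1.clm_apply continuous_const).sub (G.continuous.comp (a3.clm_apply continuous_const))
  have h2 : Zv E G f y = 0 :=
    AD_induction (P := fun f => Zv E G f y = 0) (isClosed_eq hcont continuous_const) hp f hf
  exact sub_eq_zero.1 h2

end Run7.h163
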