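import Pool.Agent.Run7.h163.FQ
import Pool.Agent.Run7.h163.IT

/-!
# Systems built on a full sequence
-/

set_option autoImplicit false
set_option linter.unusedSectionVars false
set_option linter.unusedVariables false
set_option linter.deprecated false

open scoped ComplexConjugate InnerProductSpace InnerProduct
open ContinuousLinearMap Filter Topology Finset

namespace Run7.h163

/-- systems built on a full sequence -/
structure FSys (d : ℕ) where
  F : FSeq d
  S : Sys d
  eC : S.C = F.Cl
  eA : S.A = F.Al

end Run7.h163
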