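import Pool.Agent.Run7.h163.HS

/-!
# The contraction `X` defined by the fixed point equation
-/

set_option autoImplicit false
set_option linter.unusedSectionVars false
set_option linter.unusedVariables false
set_option linter.deprecated false

open scoped ComplexConjugate InnerProductSpace InnerProduct
open ContinuousLinearMap

namespace Run7.h163

/-- the constant `1/√2` -/
noncomputable def bb : ℝ := (√2)⁻¹

lemma bb_pos : 0 < bb := by unfold bb; positivity

lemma bb_sq : bb ^ 2 = 1 / 2 := by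
  unfold bb
  rw [inv_pow, Real.sq_sqrt (by norm_num)]
  norm_num

lemma bb_le : bb ≤ 1 := by
  nlinarith [bb_sq, bb_pos]

lemma norm_bb : ‖(bb : ℂ)‖ = bb := by
  rw [Complex.norm_real, Real.norm_eq_abs, abs_of_pos bb_pos]

variable {d : ℕ}

lemma IsFC.norm_X {H : Type*} [NormedAddCommGroup H] [InnerProductSpace ℂ H] [CompleteSpace H]
    {X : H →L[ℂ] H} {E : CA →ₗ[ℂ] (H →L[ℂ] H)} (h : IsFC X E) : ‖X‖ ≤ 1 := by
  rw [← h.z]
  exact (h.norm_le zC).trans norm_zC_le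

/-- data of the problem -/
structure Dat (d : ℕ) where
  (i0 i1 i2 : Fin d)
  h01 : i0 ≠ i1
  h02 : i0 ≠ i2
  h12 : i1 ≠ i2
  (C A : CA)
  hC : C ∈ AD
  hA : A ∈ AD
  hCA : ∀ w, ‖C w‖ ^ 2 + ‖A w‖ ^ 2 = 1

/-- the right hand side of the fixed point equation -/
noncomputable def GG (D : Dat d) (Y : HD d →L[ℂ] HD d) (E : CA →ₗ[ℂ] (HD d →L[ℂ] HD d)) :
    HD d →L[ℂ] HD d :=
  (bb : ℂ) • M D.i0 + (bb : ℂ) • ((M D.i1 * E D.C + M D.i2 * E D.A) * Y)

lemma GG_norm (D : Dat d) {Y : HD d →L[ℂ] HD d} {E : CA →ₗ[ℂ] (HD d →L[ℂ] HD d)}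
    (h : IsFC Y E) : ‖GG D Y E‖ ≤ 1 := by
  refine ContinuousLinearMap.opNorm_le_bound _ zero_le_one fun x => ?_
  rw [one_mul, ← sq_le_sq₀ (norm_nonneg _) (norm_nonneg _)]
  have h1 : GG D Y E x = M D.i0 ((bb : ℂ) • x) + M D.i1 ((bb : ℂ) • E D.C (Y x)) +
      M D.i2 ((bb : ℂ) • E D.A (Y x)) := by
    unfold GG
    simp only [add_apply, smul_apply, mul_apply_eq_comp, map_smul, smul_add]
    rw [add_assoc]
  rw [h1]
  refine (row_contr D.i0 D.i1 D.i2 D.h01 D.h02 D.h12 _ _ _).trans ?_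
  rw [norm_smul, norm_smul, norm_smul, norm_bb, mul_pow, mul_pow, mul_pow, bb_sq]
  have h2 := h.column D.C D.A 0 1 (fun w => by
    have := D.hCA w
    simp only [ContinuousMap.zero_apply, norm_zero]
    nlinarith) (Y x)
  simp only [map_zero, zero_apply, norm_zero] at h2
  have h3 : ‖Y x‖ ≤ ‖x‖ := by
    calc ‖Y x‖ ≤ ‖Y‖ * ‖x‖ := Y.le_opNorm x
      _ ≤ 1 * ‖x‖ := by gcongr; exact h.norm_X
      _ = ‖x‖ := one_mul _
  have h4 : ‖Y x‖ ^ 2 ≤ ‖x‖ ^ 2 := pow_le_pow_left₀ (norm_nonneg _) h3 2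
  nlinarith

lemma GG_sub_raises (D : Dat d) {Y Y' : HD d →L[ℂ] HD d} {E E' : CA →ₗ[ℂ] (HD d →L[ℂ] HD d)}
    (h : IsFC Y E) (h' : IsFC Y' E') (hY : Raises Y 0) (hY' : Raises Y' 0) {r : ℕ}
    (hr : Raises (Y - Y') r) : Raises (GG D Y E - GG D Y' E') (r + 1) := by
  have e : GG D Y E - GG D Y' E' =
      (bb : ℂ) • ((M D.i1 * (E D.C - E' D.C) + M D.i2 * (E D.A - E' D.A)) * Y +
        (M D.i1 * E' D.C + M D.i2 * E' D.A) * (Y - Y')) := by
    unfold GG
    rw [add_sub_add_left_eq_sub, ← smul_sub]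
    congr 1
    noncomm_ring
  rw [e]
  refine Raises.smul ?_ _
  have hc := fc_sub_raises h h' hY hY' hr D.hC
  have ha := fc_sub_raises h h' hY hY' hr D.hA
  have hc' := h'.raises hY' D.hC
  have ha' := h'.raises hY' D.hA
  refine Raises.add ?_ ?_
  · have := ((((M_raises D.i1).mul hc).add ((M_raises D.i2).mul ha))).mul hY
    rwa [add_zero, add_comm 1 r] at this
  · have := ((((M_raises D.i1).mul hc').add ((M_raises D.i2).mul ha'))).mul hr
    rwa [add_zero, add_comm 1 r] at this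

/-- the properties of the iterates -/
structure Iter (p : (HD d →L[ℂ] HD d) × (CA →ₗ[ℂ] (HD d →L[ℂ] HD d))) : Prop where
  fc : IsFC p.1 p.2
  raises : Raises p.1 0
  comm : ∀ j, M j * p.1 = p.1 * M j

lemma GG_comm (D : Dat d) {p : (HD d →L[ℂ] HD d) × (CA →ₗ[ℂ] (HD d →L[ℂ] HD d))}
    (h : Iter p) (j : Fin d) : M j * GG D p.1 p.2 = GG D p.1 p.2 * M j := by
  have h1 : Commute (M j) p.1 := h.comm j
  have hc : Commute (M j) (p.2 D.C) := h.fc.commute h1 D.hC
  have ha : Commute (M j) (p.2 D.A) := h.fc.commute h1 D.hA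
  have k0 : Commute (M j) (M D.i0) := M_comm _ _
  have k1 : Commute (M j) (M D.i1) := M_comm _ _
  have k2 : Commute (M j) (M D.i2) := M_comm _ _
  exact (k0.smul_right _).add_right
    ((((k1.mul_right hc).add_right (k2.mul_right ha)).mul_right h1).smul_right _)

lemma exists_step (D : Dat d) (p : {p : (HD d →L[ℂ] HD d) × (CA →ₗ[ℂ] (HD d →L[ℂ] HD d)) //
    Iter p}) : ∃ q : {p : (HD d →L[ℂ] HD d) × (CA →ₗ[ℂ] (HD d →L[ℂ] HD d)) // Iter p},
    q.1.1 = GG D p.1.1 p.1.2 := by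
  obtain ⟨E, hE⟩ := exists_fc (GG D p.1.1 p.1.2) (GG_norm D p.2.fc)
  refine ⟨⟨(GG D p.1.1 p.1.2, E), ⟨hE, ?_, GG_comm D p.2⟩⟩, rfl⟩
  have hc := p.2.fc.raises p.2.raises D.hC
  have ha := p.2.fc.raises p.2.raises D.hA
  refine Raises.add (((M_raises D.i0).mono (Nat.zero_le _)).smul _) (Raises.smul ?_ _)
  exact (((((M_raises D.i1).mul hc).add ((M_raises D.i2).mul ha))).mul p.2.raises).mono
    (Nat.zero_le _)

theorem exists_X (D : Dat d) : ∃ (X : HD d →L[ℂ] HD d) (E : CA →ₗ[ℂ] (HD d →L[ℂ] HD d)),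
    IsFC X E ∧ X = GG D X E ∧ (∀ j, M j * X = X * M j) ∧ Raises X 1 := by
  obtain ⟨E0, hE0⟩ := exists_fc (0 : HD d →L[ℂ] HD d) (by simp)
  choose step hstep using exists_step D
  let p0 : {p : (HD d →L[ℂ] HD d) × (CA →ₗ[ℂ] (HD d →L[ℂ] HD d)) // Iter p} :=
    ⟨(0, E0), ⟨hE0, Raises.zero, fun j => by simp⟩⟩
  let s : ℕ → {p : (HD d →L[ℂ] HD d) × (CA →ₗ[ℂ] (HD d →L[ℂ] HD d)) // Iter p} :=
    fun n => Nat.rec p0 (fun _ p => step p) n
  have hs : ∀ n, (s (n + 1)).1.1 = GG D (s n).1.1 (s n).1.2 := fun n => hstep (s n)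
  have hr : ∀ n, Raises ((s (n + 1)).1.1 - (s n).1.1) n := by
    intro n
    induction n with
    | zero => exact (s 1).2.raises.sub (s 0).2.raises
    | succ n ih =>
      rw [hs (n + 1)]
      nth_rewrite 2 [hs n]
      exact GG_sub_raises D (s (n + 1)).2.fc (s n).2.fc (s (n + 1)).2.raises (s n).2.raises ih
  have hr2 : ∀ n m, n ≤ m → Raises ((s m).1.1 - (s n).1.1) n := by
    intro n m hnm
    induction m, hnm using Nat.le_induction with
    | base => rw [sub_self]; exact Raises.zero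
    | succ m hm ih =>
      have e : (s (m + 1)).1.1 - (s n).1.1 =
        ((s (m + 1)).1.1 - (s m).1.1) + ((s m).1.1 - (s n).1.1) := by abel
      rw [e]
      exact ((hr m).mono hm).add ih
  obtain ⟨X, hX, hXr⟩ := exists_lim (fun n => (s n).1.1) 1 (fun n => (s n).2.fc.norm_X) hr2
  obtain ⟨E, hE⟩ := exists_fc X hX
  have hX0 : Raises X 0 := by
    have e : X = (X - (s 0).1.1) + (s 0).1.1 := by abel
    rw [e]
    exact (hXr 0).add (s 0).2.raises
  have hfix : X = GG D X E := by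
    rw [← sub_eq_zero]
    refine Raises.eq_zero fun r => ?_
    have e : X - GG D X E = (X - (s (r + 1)).1.1) -
        (GG D X E - GG D (s r).1.1 (s r).1.2) := by
      rw [hs r]; abel
    rw [e]
    refine ((hXr (r + 1)).mono (Nat.le_succ r)).sub ?_
    exact (GG_sub_raises D hE (s r).2.fc hX0 (s r).2.raises (hXr r)).mono (Nat.le_succ r)
  refine ⟨X, E, hE, hfix, ?_, ?_⟩
  · intro j
    rw [← sub_eq_zero]
    refine Raises.eq_zero fun r => ?_
    have e : M j * X - X * M j = M j * (X - (s r).1.1) - (X - (s r).1.1) * M j := by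
      have := (s r).2.comm j
      rw [mul_sub, sub_mul, this]
      abel
    rw [e]
    have h1 := (M_raises j).mul (hXr r)
    have h2 := (hXr r).mul (M_raises j)
    exact (h1.mono (by omega)).sub (h2.mono (by omega))
  · rw [hfix]
    have hc := hE.raises hX0 D.hC
    have ha := hE.raises hX0 D.hA
    refine Raises.add ((M_raises D.i0).smul _) (Raises.smul ?_ _)
    exact (((((M_raises D.i1).mul hc).add ((M_raises D.i2).mul ha))).mul hX0)

end Run7.h163
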