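import Pool.Agent.Run7.h163.QI
import Pool.Agent.Run7.h163.BV

/-!
# The intertwining operator
-/

set_option autoImplicit false
set_option linter.unusedSectionVars false
set_option linter.unusedVariables false
set_option linter.deprecated false

open scoped ComplexConjugate InnerProductSpace InnerProduct
open ContinuousLinearMap Filter Topology Finset

namespace Run7.h163

variable {d : ℕ}

/-- powers -/
noncomputable def fpow (f : Fin d → CA) (α : MI d) : CA := ∏ j, f j ^ α j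

lemma fpow_zero (f : Fin d → CA) : fpow f 0 = 1 := by simp [fpow]

lemma fpow_add_ee (f : Fin d → CA) (α : MI d) (j : Fin d) :
    fpow f (α + ee j) = fpow f α * f j := by
  unfold fpow
  simp only [Pi.add_apply, pow_add, prod_mul_distrib]
  congr 1
  rw [prod_eq_single j]
  · simp [ee]
  · intro i _ hi
    simp [ee, hi]
  · simp

/-- the sums over degree `n` -/
noncomputable def TS (f : Fin d → CA) (n : ℕ) (y : KZ) : ℝ :=
  ∑ α ∈ Dg d n, wi α * ‖piS (fpow f α) y 0‖ ^ 2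

lemma TS_nonneg (f : Fin d → CA) (n : ℕ) (y : KZ) : 0 ≤ TS f n y :=
  sum_nonneg fun α _ => mul_nonneg (wi_pos α).le (by positivity)

lemma TS_zero (f : Fin d → CA) (y : KZ) : TS f 0 y = ‖y 0‖ ^ 2 := by
  have : Dg d 0 = {0} := by
    ext α
    rw [mem_Dg, mem_singleton]
    exact ⟨deg_eq_zero, fun h => by rw [h, deg_zero]⟩
  unfold TS
  rw [this, sum_singleton, wi_zero, fpow_zero, map_one, one_mul, one_apply_eq_self]

lemma TS_succ (f : Fin d → CA) (n : ℕ) (y : KZ) :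
    TS f (n + 1) y = ∑ j, TS f n (piS (f j) y) := by
  unfold TS
  have h1 : ∀ j, ∑ α ∈ Dg d n, wi α * ‖piS (fpow f α) (piS (f j) y) 0‖ ^ 2 =
      ∑ β ∈ Dg d (n + 1), cf j β ^ 2 * (wi β * ‖piS (fpow f β) y 0‖ ^ 2) := by
    intro j
    have hsub : (Dg d n).image (fun α => α + ee j) ⊆ Dg d (n + 1) := by
      intro β hβ
      obtain ⟨α, hα, rfl⟩ := mem_image.1 hβ
      rw [mem_Dg] at hα ⊢
      rw [deg_add, deg_ee, hα]
    rw [← sum_subset hsub, sum_image (fun _ _ _ _ h => add_ee_inj j h)]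
    · refine sum_congr rfl fun α _ => ?_
      rw [← mul_assoc, cf_wi, fpow_add_ee, map_mul, mul_apply_eq_comp]
    · intro β hβ hβ2
      have : β j = 0 := by
        by_contra h
        apply hβ2
        rw [mem_image]
        refine ⟨β - ee j, ?_, sub_add_ee h⟩
        rw [mem_Dg] at hβ ⊢
        have e1 := deg_add (β - ee j) (ee j)
        rw [sub_add_ee h, deg_ee] at e1
        omega
      rw [cf_zero this]
      ring
  simp_rw [h1]
  rw [sum_comm]
  refine sum_congr rfl fun β hβ => ?_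
  rw [← sum_mul, cf_sum_all, one_mul]
  rw [mem_Dg] at hβ
  omega

/-- the symbols of the three operators -/
noncomputable def ff (i0 i1 i2 : Fin d) (C A : CA) : Fin d → CA := fun j =>
  if j = i0 then (bb : ℂ) • star zC else if j = i1 then (bb : ℂ) • C else
    if j = i2 then (bb : ℂ) • A else 0

section
variable (s : SUSeq) (hcs : ∀ n0, ∑ n ∈ range n0, s.cc n ≤ 1 / 200) (i0 i1 i2 : Fin d)
  (h01 : i0 ≠ i1) (h02 : i0 ≠ i2) (h12 : i1 ≠ i2)

lemma piS_star_z : piS (star zC) = adjoint Sh := by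
  rw [map_star, piS_z, ContinuousLinearMap.star_eq_adjoint]

lemma SUSeq.Q_zero (n0 : ℕ) : s.Q n0 0 = 0 := by
  unfold SUSeq.Q
  simp

include h01 h02 h12 in
lemma sum_Q (n0 : ℕ) (C A : CA) (y : KZ) :
    ∑ j, s.Q n0 (piS (ff i0 i1 i2 C A j) y) =
      s.Q n0 ((bb : ℂ) • adjoint Sh y) + s.Q n0 ((bb : ℂ) • piS C y) +
        s.Q n0 ((bb : ℂ) • piS A y) := by
  have hsub : ({i0, i1, i2} : Finset (Fin d)) ⊆ univ := subset_univ _
  rw [← sum_subset hsub]
  · rw [sum_insert (by simp [h01, h02]), sum_insert (by simp [h12]), sum_singleton]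
    have e0 : ff i0 i1 i2 C A i0 = (bb : ℂ) • star zC := by simp [ff]
    have e1 : ff i0 i1 i2 C A i1 = (bb : ℂ) • C := by simp [ff, h01.symm]
    have e2 : ff i0 i1 i2 C A i2 = (bb : ℂ) • A := by simp [ff, h02.symm, h12.symm]
    rw [e0, e1, e2, map_smul, map_smul, map_smul, piS_star_z, smul_apply, smul_apply, smul_apply]
    ring
  · intro j _ hj
    simp only [mem_insert, mem_singleton, not_or] at hj
    have : ff i0 i1 i2 C A j = 0 := by simp [ff, hj.1, hj.2.1, hj.2.2]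
    rw [this, map_zero, zero_apply, s.Q_zero]

include hcs h01 h02 h12 in
lemma TS_bound (n0 K : ℕ) (y : KZ) :
    1 / 4 * ∑ n ∈ range K, TS (ff i0 i1 i2 (s.C n0) (s.A n0)) n y ≤ s.Q n0 y := by
  induction K generalizing y with
  | zero => simp; exact s.Q_nonneg n0 y
  | succ K ih =>
    rw [sum_range_succ', TS_zero]
    simp_rw [TS_succ]
    rw [sum_comm, mul_add, mul_sum]
    have h1 := sum_le_sum (s := univ) fun (j : Fin d) _ =>
      ih (piS (ff i0 i1 i2 (s.C n0) (s.A n0) j) y)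
    rw [sum_Q s i0 i1 i2 h01 h02 h12] at h1
    have h2 := s.Q_ineq hcs n0 y
    linarith

include hcs h01 h02 h12 in
lemma fin_bound (n0 : ℕ) (y : KZ) (t : Finset (MI d)) :
    ∑ α ∈ t, wi α * ‖piS (fpow (ff i0 i1 i2 (s.C n0) (s.A n0)) α) y 0‖ ^ 2 ≤ 4 * s.Q n0 y := by
  set K := t.sup (fun α => deg α + 1) with hK
  have h1 := TS_bound s hcs i0 i1 i2 h01 h02 h12 n0 K y
  have h2 : ∑ α ∈ t, wi α * ‖piS (fpow (ff i0 i1 i2 (s.C n0) (s.A n0)) α) y 0‖ ^ 2 ≤
      ∑ n ∈ range K, TS (ff i0 i1 i2 (s.C n0) (s.A n0)) n y := by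
    unfold TS
    rw [← sum_biUnion]
    · apply sum_le_sum_of_subset_of_nonneg
      · intro α hα
        rw [mem_biUnion]
        refine ⟨deg α, ?_, mem_Dg.2 rfl⟩
        rw [mem_range]
        have := Finset.le_sup (f := fun α : MI d => deg α + 1) hα
        change deg α + 1 ≤ K at this
        omega
      · intro α _ _
        exact mul_nonneg (wi_pos α).le (by positivity)
    · intro a _ b _ hab
      rw [Function.onFun, disjoint_left]
      intro α h1 h2
      rw [mem_Dg] at h1 h2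
      omega
  linarith

/-- the limit symbols -/
noncomputable def fl : Fin d → CA := ff i0 i1 i2 s.Cl s.Al

lemma ff_tendsto (j : Fin d) : Tendsto (fun n => ff i0 i1 i2 (s.C n) (s.A n) j) atTop
    (𝓝 (fl s i0 i1 i2 j)) := by
  unfold fl ff
  split_ifs
  · exact tendsto_const_nhds
  · exact s.C_tendsto.const_smul _
  · exact s.A_tendsto.const_smul _
  · exact tendsto_const_nhds

include hcs h01 h02 h12 in
lemma lim_bound (y : KZ) (c : ℝ) (hc : ∀ n0, s.Q n0 y ≤ c) (t : Finset (MI d)) :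
    ∑ α ∈ t, wi α * ‖piS (fpow (fl s i0 i1 i2) α) y 0‖ ^ 2 ≤ 4 * c := by
  have h1 : Tendsto (fun n0 => ∑ α ∈ t, wi α *
      ‖piS (fpow (ff i0 i1 i2 (s.C n0) (s.A n0)) α) y 0‖ ^ 2) atTop
      (𝓝 (∑ α ∈ t, wi α * ‖piS (fpow (fl s i0 i1 i2) α) y 0‖ ^ 2)) := by
    refine tendsto_finset_sum _ fun α _ => ?_
    have h2 : Tendsto (fun n0 => fpow (ff i0 i1 i2 (s.C n0) (s.A n0)) α) atTop
        (𝓝 (fpow (fl s i0 i1 i2) α)) := by
      unfold fpow
      exact tendsto_finset_prod _ fun j _ => (ff_tendsto s i0 i1 i2 j).pow _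
    have h3 : Tendsto (fun n0 => piS (fpow (ff i0 i1 i2 (s.C n0) (s.A n0)) α) y) atTop
        (𝓝 (piS (fpow (fl s i0 i1 i2) α) y)) :=
      (((ContinuousLinearMap.apply ℂ KZ y).continuous.comp (rep_continuous piS)).tendsto _).comp h2
    have h4 := ((evalZ_continuous 0).tendsto _).comp h3
    exact (h4.norm.pow 2).const_mul _
  refine le_of_tendsto h1 (Eventually.of_forall fun n0 => ?_)
  exact (fin_bound s hcs i0 i1 i2 h01 h02 h12 n0 y t).trans (by linarith [hc n0])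

include hcs h01 h02 h12 in
theorem exists_G : ∃ G : KZ →L[ℂ] HD d,
    (∀ y c, (∀ n0, s.Q n0 y ≤ c) → ‖G y‖ ^ 2 ≤ 4 * c) ∧
    (∀ y, G y 0 = y 0) ∧
    (∀ y, adjoint (M i0) (G y) = (bb : ℂ) • G (adjoint Sh y)) ∧
    (∀ y, adjoint (M i1) (G y) = (bb : ℂ) • G (piS s.Cl y)) ∧
    (∀ y, adjoint (M i2) (G y) = (bb : ℂ) • G (piS s.Al y)) := by
  set f := fl s i0 i1 i2 with hf
  let g : KZ → MI d → ℂ := fun y α => ((√(wi α) : ℝ) : ℂ) * piS (fpow f α) y 0
  have hgn : ∀ y α, ‖g y α‖ ^ 2 = wi α * ‖piS (fpow f α) y 0‖ ^ 2 := by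
    intro y α
    change ‖((√(wi α) : ℝ) : ℂ) * piS (fpow f α) y 0‖ ^ 2 = _
    rw [norm_mul, Complex.norm_real, Real.norm_eq_abs, mul_pow, sq_abs, Real.sq_sqrt (wi_pos α).le]
  have hb : ∀ y c, (∀ n0, s.Q n0 y ≤ c) → ∀ t : Finset (MI d), ∑ α ∈ t, ‖g y α‖ ^ 2 ≤ 4 * c := by
    intro y c hc t
    simp_rw [hgn]
    exact lim_bound s hcs i0 i1 i2 h01 h02 h12 y c hc t
  have hb0 : ∀ y, ∀ n0, s.Q n0 y ≤ ‖y‖ ^ 2 := fun y n0 => s.Q_le hcs n0 y
  have hmem : ∀ y, Memℓp (g y) 2 := fun y =>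
    memlp2 (summable_of_sum_le (fun _ => by positivity) (hb y _ (hb0 y)))
  let L : KZ →ₗ[ℂ] HD d :=
    { toFun := fun y => ⟨g y, hmem y⟩
      map_add' := fun x y => by
        ext α
        change ((√(wi α) : ℝ) : ℂ) * piS (fpow f α) (x + y) 0 =
          ((√(wi α) : ℝ) : ℂ) * piS (fpow f α) x 0 + ((√(wi α) : ℝ) : ℂ) * piS (fpow f α) y 0
        rw [map_add, ← mul_add]
        rfl
      map_smul' := fun c x => by
        ext α
        change ((√(wi α) : ℝ) : ℂ) * piS (fpow f α) (c • x) 0 =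
          c * (((√(wi α) : ℝ) : ℂ) * piS (fpow f α) x 0)
        rw [map_smul]
        change ((√(wi α) : ℝ) : ℂ) * (c * piS (fpow f α) x 0) = _
        ring }
  have hLn : ∀ y c, (∀ n0, s.Q n0 y ≤ c) → ‖L y‖ ^ 2 ≤ 4 * c := by
    intro y c hc
    have h2 := lp2_hasSum (L y)
    rw [← h2.tsum_eq]
    exact Summable.tsum_le_of_sum_le h2.summable (hb y c hc)
  have hL : ∀ y, ‖L y‖ ≤ 2 * ‖y‖ := by
    intro y
    have h1 : ‖L y‖ ^ 2 ≤ (2 * ‖y‖) ^ 2 := (hLn y _ (hb0 y)).trans (by linarith)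
    exact (sq_le_sq₀ (norm_nonneg _) (by positivity)).1 h1
  have key : ∀ (j : Fin d) (y : KZ) (h : CA), f j = (bb : ℂ) • h →
      adjoint (M j) (L y) = (bb : ℂ) • L (piS h y) := by
    intro j y h hj
    ext α
    rw [M_adj_apply]
    change (cf j (α + ee j) : ℂ) * (((√(wi (α + ee j)) : ℝ) : ℂ) *
      piS (fpow f (α + ee j)) y 0) = (bb : ℂ) * (((√(wi α) : ℝ) : ℂ) * piS (fpow f α) (piS h y) 0)
    rw [fpow_add_ee, hj, mul_smul_comm, map_smul, map_mul]
    have e1 : (((bb : ℂ) • (piS (fpow f α) * piS h)) y) 0 =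
        (bb : ℂ) * piS (fpow f α) (piS h y) 0 := rfl
    rw [e1]
    have e2 : cf j (α + ee j) * √(wi (α + ee j)) = √(wi α) := by
      rw [← cf_wi α j, Real.sqrt_mul (by positivity), Real.sqrt_sq (cf_nonneg _ _)]
    rw [← e2]
    push_cast
    ring
  refine ⟨L.mkContinuous 2 hL, hLn, ?_, ?_, ?_, ?_⟩
  · intro y
    change ((√(wi (0 : MI d)) : ℝ) : ℂ) * piS (fpow f 0) y 0 = y 0
    rw [wi_zero, fpow_zero, map_one, Real.sqrt_one]
    simp
  · intro y
    have e0 : f i0 = (bb : ℂ) • star zC := by simp [hf, fl, ff]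
    have := key i0 y (star zC) e0
    rw [piS_star_z] at this
    exact this
  · intro y
    have e1 : f i1 = (bb : ℂ) • s.Cl := by simp [hf, fl, ff, h01.symm]
    exact key i1 y s.Cl e1
  · intro y
    have e2 : f i2 = (bb : ℂ) • s.Al := by simp [hf, fl, ff, h02.symm, h12.symm]
    exact key i2 y s.Al e2

end

end Run7.h163
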