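import Pool.Agent.Run7.h163.HS1
import Pool.Agent.Run7.h163.AD

/-!
# Functional calculus and degrees
-/

set_option autoImplicit false
set_option linter.unusedSectionVars false
set_option linter.unusedVariables false
set_option linter.deprecated false

open scoped ComplexConjugate InnerProductSpace InnerProduct
open ContinuousLinearMap

namespace Run7.h163

variable {d : ℕ}

/-- functional calculus raises no degree less than zero -/
lemma IsFC.raises {X : HD d →L[ℂ] HD d} {E : CA →ₗ[ℂ] (HD d →L[ℂ] HD d)} (h : IsFC X E)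
    (hX : Raises X 0) {f : CA} (hf : f ∈ AD) : Raises (E f) 0 := by
  refine AD_induction' (P := fun f => Raises (E f) 0) ?_ ?_ ?_ f hf
  · exact (Raises.isClosed 0).preimage h.continuous
  · intro f g hf hg
    rw [map_add]; exact hf.add hg
  · intro c k
    rw [map_smul, h.pow]
    exact (hX.pow k).smul c

lemma pow_sub_raises {X Y : HD d →L[ℂ] HD d} (hX : Raises X 0) (hY : Raises Y 0) {r : ℕ}
    (h : Raises (X - Y) r) (k : ℕ) : Raises (X ^ k - Y ^ k) r := by
  induction k with
  | zero => rw [pow_zero, pow_zero, sub_self]; exact Raises.zero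
  | succ k ih =>
    have e : X ^ (k + 1) - Y ^ (k + 1) = X ^ k * (X - Y) + (X ^ k - Y ^ k) * Y := by
      rw [pow_succ, pow_succ]
      noncomm_ring
    rw [e]
    have h1 := (hX.pow k).mul h
    have h2 := ih.mul hY
    rw [Nat.mul_zero, Nat.zero_add] at h1
    exact h1.add h2

lemma fc_sub_raises {X Y : HD d →L[ℂ] HD d} {E E' : CA →ₗ[ℂ] (HD d →L[ℂ] HD d)}
    (hE : IsFC X E) (hE' : IsFC Y E') (hX : Raises X 0) (hY : Raises Y 0) {r : ℕ}
    (h : Raises (X - Y) r) {f : CA} (hf : f ∈ AD) : Raises (E f - E' f) r := by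
  refine AD_induction' (P := fun f => Raises (E f - E' f) r) ?_ ?_ ?_ f hf
  · exact (Raises.isClosed r).preimage (hE.continuous.sub hE'.continuous)
  · intro f g hf hg
    rw [map_add, map_add, add_sub_add_comm]; exact hf.add hg
  · intro c k
    rw [map_smul, map_smul, hE.pow, hE'.pow, ← smul_sub]
    exact (pow_sub_raises hX hY h k).smul c

end Run7.h163
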