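import Pool.Agent.Run7.h163.Rep

/-!
# The Drury-Arveson space as a sequence space, and the coordinate multiplications
-/

set_option autoImplicit false
set_option linter.unusedSectionVars false
set_option linter.unusedVariables false
set_option linter.deprecated false

open scoped ComplexConjugate InnerProductSpace InnerProduct
open ContinuousLinearMap

namespace Run7.h163

/-- multi-indices -/
abbrev MI (d : ℕ) := Fin d → ℕ

/-- the Drury-Arveson space in its orthonormal basis -/
noncomputable abbrev HD (d : ℕ) := lp (fun _ : MI d => ℂ) 2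

section shortcuts

variable {d : ℕ}

/-! shortcuts for instance search -/

noncomputable instance HD.nacg : NormedAddCommGroup (HD d) := inferInstance
noncomputable instance HD.snacg : SeminormedAddCommGroup (HD d) := inferInstance
noncomputable instance HD.ips : InnerProductSpace ℂ (HD d) := inferInstance
noncomputable instance HD.nsp : NormedSpace ℂ (HD d) := inferInstance
noncomputable instance HD.acg : AddCommGroup (HD d) := inferInstance
noncomputable instance HD.acm : AddCommMonoid (HD d) := inferInstance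
noncomputable instance HD.md : Module ℂ (HD d) := inferInstance
noncomputable instance HD.sm : SMul ℂ (HD d) := inferInstance
noncomputable instance HD.hsm : HSMul ℂ (HD d) (HD d) := inferInstance
instance HD.csp : CompleteSpace (HD d) := inferInstance
instance HD.t2 : T2Space (HD d) := inferInstance
noncomputable instance HD.oacm : AddCommMonoid (HD d →L[ℂ] HD d) := inferInstance
noncomputable instance HD.oacg : AddCommGroup (HD d →L[ℂ] HD d) := inferInstance
noncomputable instance HD.omd : Module ℂ (HD d →L[ℂ] HD d) := inferInstance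
noncomputable instance HD.osm : SMul ℂ (HD d →L[ℂ] HD d) := inferInstance
noncomputable instance HD.ohsm : HSMul ℂ (HD d →L[ℂ] HD d) (HD d →L[ℂ] HD d) := inferInstance
noncomputable instance HD.orng : Ring (HD d →L[ℂ] HD d) := inferInstance

end shortcuts

variable {d : ℕ}

/-- the degree of a multi-index -/
def deg (α : MI d) : ℕ := ∑ i, α i

/-- unit multi-index -/
def ee (j : Fin d) : MI d := Pi.single j 1

lemma deg_zero : deg (0 : MI d) = 0 := by simp [deg]

lemma deg_add (α β : MI d) : deg (α + β) = deg α + deg β := by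
  simp [deg, Finset.sum_add_distrib]

lemma deg_ee (j : Fin d) : deg (ee j) = 1 := by
  simp [deg, ee]

lemma le_deg (α : MI d) (j : Fin d) : α j ≤ deg α :=
  Finset.single_le_sum (f := α) (fun _ _ => Nat.zero_le _) (Finset.mem_univ j)

lemma deg_eq_zero {α : MI d} (h : deg α = 0) : α = 0 := by
  ext i
  have := le_deg α i
  simp only [Pi.zero_apply]
  omega

lemma sub_add_ee {β : MI d} {j : Fin d} (h : β j ≠ 0) : β - ee j + ee j = β := by
  ext i
  by_cases hi : i = j
  · subst hi
    simp [ee]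
    omega
  · simp [ee, hi]

lemma add_sub_ee (α : MI d) (j : Fin d) : α + ee j - ee j = α := by
  ext i
  simp

lemma add_ee_inj (j : Fin d) : Function.Injective fun α : MI d => α + ee j := by
  intro α β h
  simpa using h

/-- the coefficient `√(β_j / |β|)` -/
noncomputable def cf (j : Fin d) (β : MI d) : ℝ := √((β j : ℝ) / (deg β : ℝ))

lemma cf_nonneg (j : Fin d) (β : MI d) : 0 ≤ cf j β := Real.sqrt_nonneg _

lemma cf_sq (j : Fin d) (β : MI d) : cf j β ^ 2 = (β j : ℝ) / (deg β : ℝ) :=
  Real.sq_sqrt (by positivity)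

lemma cf_le_one (j : Fin d) (β : MI d) : cf j β ≤ 1 := by
  unfold cf
  rw [Real.sqrt_le_one]
  apply div_le_one_of_le₀ _ (by positivity)
  exact_mod_cast le_deg β j

lemma cf_zero {j : Fin d} {β : MI d} (h : β j = 0) : cf j β = 0 := by
  simp [cf, h]

lemma cf_sum (i0 i1 i2 : Fin d) (h01 : i0 ≠ i1) (h02 : i0 ≠ i2) (h12 : i1 ≠ i2) (β : MI d) :
    cf i0 β ^ 2 + cf i1 β ^ 2 + cf i2 β ^ 2 ≤ 1 := by
  rw [cf_sq, cf_sq, cf_sq, ← add_div, ← add_div]
  apply div_le_one_of_le₀ _ (by positivity)
  have h1 : ∑ i ∈ ({i0, i1, i2} : Finset (Fin d)), β i ≤ deg β :=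
    Finset.sum_le_sum_of_subset (Finset.subset_univ _)
  rw [Finset.sum_insert (by simp [h01, h02]), Finset.sum_insert (by simp [h12]),
    Finset.sum_singleton] at h1
  have : ((β i0 + (β i1 + β i2) : ℕ) : ℝ) ≤ deg β := by exact_mod_cast h1
  push_cast at this
  linarith

/-- the squared coefficients of the shifted sequence -/
lemma shift_hasSum (j : Fin d) (x : HD d) :
    HasSum (fun β : MI d => if β j = 0 then 0 else ‖x (β - ee j)‖ ^ 2) (‖x‖ ^ 2) := by
  have h1 := lp2_hasSum x
  rw [← (add_ee_inj j).hasSum_iff]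
  · convert h1 using 1
    ext α
    have : (α + ee j) j ≠ 0 := by simp [ee]
    simp only [Function.comp_apply, if_neg this, add_sub_ee]
  · intro β hβ
    by_cases h : β j = 0
    · simp [h]
    · exact absurd ⟨β - ee j, sub_add_ee h⟩ hβ

lemma norm_Mfun_le (j : Fin d) (x : HD d) (β : MI d) :
    ‖(cf j β : ℂ) * x (β - ee j)‖ ^ 2 ≤ if β j = 0 then 0 else ‖x (β - ee j)‖ ^ 2 := by
  by_cases h : β j = 0
  · simp [h, cf_zero h]
  · rw [if_neg h, norm_mul, Complex.norm_real, Real.norm_eq_abs, abs_of_nonneg (cf_nonneg _ _)]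
    have h1 := cf_le_one j β
    have h2 := cf_nonneg j β
    have h3 := norm_nonneg (x (β - ee j))
    apply pow_le_pow_left₀ (by positivity)
    nlinarith

/-- multiplication by the coordinate `z_j` -/
noncomputable def M (j : Fin d) : HD d →L[ℂ] HD d :=
  LinearMap.mkContinuous
    { toFun := fun x => ⟨fun β => (cf j β : ℂ) * x (β - ee j), memlp2
        (Summable.of_nonneg_of_le (fun _ => by positivity) (norm_Mfun_le j x)
          (shift_hasSum j x).summable)⟩
      map_add' := fun x y => by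
        ext β
        change (cf j β : ℂ) * (x (β - ee j) + y (β - ee j)) =
          (cf j β : ℂ) * x (β - ee j) + (cf j β : ℂ) * y (β - ee j)
        ring
      map_smul' := fun c x => by
        ext β
        change (cf j β : ℂ) * (c * x (β - ee j)) = c * ((cf j β : ℂ) * x (β - ee j))
        ring } 1 (fun x => by
      rw [one_mul]
      have h1 := lp2_hasSum (⟨fun β => (cf j β : ℂ) * x (β - ee j), memlp2
        (Summable.of_nonneg_of_le (fun _ => by positivity) (norm_Mfun_le j x)
          (shift_hasSum j x).summable)⟩ : HD d)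
      have h2 := hasSum_le (norm_Mfun_le j x) h1 (shift_hasSum j x)
      exact (sq_le_sq₀ (norm_nonneg _) (norm_nonneg _)).1 h2)

lemma M_apply (j : Fin d) (x : HD d) (β : MI d) : M j x β = (cf j β : ℂ) * x (β - ee j) := rfl

/-- row contraction -/
theorem row_contr (i0 i1 i2 : Fin d) (h01 : i0 ≠ i1) (h02 : i0 ≠ i2) (h12 : i1 ≠ i2)
    (x0 x1 x2 : HD d) :
    ‖M i0 x0 + M i1 x1 + M i2 x2‖ ^ 2 ≤ ‖x0‖ ^ 2 + ‖x1‖ ^ 2 + ‖x2‖ ^ 2 := by
  have h := ((shift_hasSum i0 x0).add (shift_hasSum i1 x1)).add (shift_hasSum i2 x2)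
  refine hasSum_le ?_ (lp2_hasSum _) h
  intro β
  change ‖(cf i0 β : ℂ) * x0 (β - ee i0) + (cf i1 β : ℂ) * x1 (β - ee i1) +
    (cf i2 β : ℂ) * x2 (β - ee i2)‖ ^ 2 ≤ _
  have key : ∀ (j : Fin d) (x : HD d), ∃ u : ℝ, 0 ≤ u ∧
      u ^ 2 = (if β j = 0 then 0 else ‖x (β - ee j)‖ ^ 2) ∧
      ‖(cf j β : ℂ) * x (β - ee j)‖ = cf j β * u := by
    intro j x
    by_cases h : β j = 0
    · exact ⟨0, le_rfl, by simp [h], by simp [cf_zero h]⟩
    · refine ⟨‖x (β - ee j)‖, norm_nonneg _, by simp [h], ?_⟩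
      rw [norm_mul, Complex.norm_real, Real.norm_eq_abs, abs_of_nonneg (cf_nonneg _ _)]
  obtain ⟨u0, hu0, hs0, hn0⟩ := key i0 x0
  obtain ⟨u1, hu1, hs1, hn1⟩ := key i1 x1
  obtain ⟨u2, hu2, hs2, hn2⟩ := key i2 x2
  have h1 : ‖(cf i0 β : ℂ) * x0 (β - ee i0) + (cf i1 β : ℂ) * x1 (β - ee i1) +
    (cf i2 β : ℂ) * x2 (β - ee i2)‖ ≤ cf i0 β * u0 + cf i1 β * u1 + cf i2 β * u2 := by
    rw [← hn0, ← hn1, ← hn2]
    exact norm_add₃_le
  have hc := cf_sum i0 i1 i2 h01 h02 h12 β
  have h2 := pow_le_pow_left₀ (norm_nonneg _) h1 2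
  refine h2.trans ?_
  rw [← hs0, ← hs1, ← hs2]
  have c0 := cf_nonneg i0 β
  have c1 := cf_nonneg i1 β
  have c2 := cf_nonneg i2 β
  nlinarith [sq_nonneg (cf i0 β * u1 - cf i1 β * u0), sq_nonneg (cf i0 β * u2 - cf i2 β * u0),
    sq_nonneg (cf i1 β * u2 - cf i2 β * u1), mul_nonneg (sq_nonneg u0) (sub_nonneg.2 hc),
    mul_nonneg (sq_nonneg u1) (sub_nonneg.2 hc), mul_nonneg (sq_nonneg u2) (sub_nonneg.2 hc)]

lemma M_comm (i j : Fin d) : M i * M j = M j * M i := by
  ext x β
  change (cf i β : ℂ) * ((cf j (β - ee i) : ℂ) * x (β - ee i - ee j)) =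
    (cf j β : ℂ) * ((cf i (β - ee j) : ℂ) * x (β - ee j - ee i))
  rw [tsub_right_comm, ← mul_assoc, ← mul_assoc]
  congr 1
  by_cases hij : i = j
  · subst hij; rfl
  by_cases hi : β i = 0
  · rw [cf_zero hi, cf_zero (show (β - ee j) i = 0 by simp [hi])]
    simp
  by_cases hj : β j = 0
  · rw [cf_zero hj, cf_zero (show (β - ee i) j = 0 by simp [hj])]
    simp
  have h1 : (β - ee i) j = β j := by simp [ee, Ne.symm hij]
  have h2 : (β - ee j) i = β i := by simp [ee, hij]
  have h3 : deg (β - ee i) = deg (β - ee j) := by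
    have e1 := deg_add (β - ee i) (ee i)
    have e2 := deg_add (β - ee j) (ee j)
    rw [sub_add_ee hi, deg_ee] at e1
    rw [sub_add_ee hj, deg_ee] at e2
    omega
  unfold cf
  rw [h1, h2, h3, ← Complex.ofReal_mul, ← Complex.ofReal_mul, ← Real.sqrt_mul (by positivity),
    ← Real.sqrt_mul (by positivity)]
  congr 2
  ring

/-- basis vectors -/
noncomputable def bv (α : MI d) : HD d := lp.single 2 α (1 : ℂ)

lemma inner_bv (α : MI d) (x : HD d) : ⟪bv α, x⟫_ℂ = x α := by
  unfold bv
  rw [lp.inner_single_left]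
  simp

lemma bv_apply (α β : MI d) : bv α β = if β = α then 1 else 0 := by
  unfold bv
  rw [lp.single_apply]
  split_ifs with h
  · subst h; simp
  · simp [h]

lemma M_bv (j : Fin d) (α : MI d) : M j (bv α) = (cf j (α + ee j) : ℂ) • bv (α + ee j) := by
  ext β
  change (cf j β : ℂ) * bv α (β - ee j) = (cf j (α + ee j) : ℂ) * bv (α + ee j) β
  rw [bv_apply, bv_apply]
  by_cases hj : β j = 0
  · have hne : β ≠ α + ee j := by
      intro h
      rw [h] at hj
      simp [ee] at hj
    rw [cf_zero hj, if_neg hne]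
    simp
  · by_cases h : β = α + ee j
    · rw [if_pos h, if_pos (by rw [h, add_sub_ee]), h]
    · rw [if_neg h, if_neg (by
        intro h2
        apply h
        rw [← h2, sub_add_ee hj])]
      simp

lemma M_adj_apply (j : Fin d) (x : HD d) (α : MI d) :
    adjoint (M j) x α = (cf j (α + ee j) : ℂ) * x (α + ee j) := by
  rw [← inner_bv, ContinuousLinearMap.adjoint_inner_right, M_bv, inner_smul_left, inner_bv,
    Complex.conj_ofReal]

/-- vectors supported in degrees at least `k` -/
def Fl (k : ℕ) : Submodule ℂ (HD d) where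
  carrier := {x | ∀ β, deg β < k → x β = 0}
  add_mem' := fun {x y} hx hy β hβ => by
    change x β + y β = 0
    rw [hx β hβ, hy β hβ, add_zero]
  zero_mem' := fun _ _ => rfl
  smul_mem' := fun c x hx β hβ => by
    change c * x β = 0
    rw [hx β hβ, mul_zero]

lemma mem_Fl {k : ℕ} {x : HD d} : x ∈ Fl k ↔ ∀ β, deg β < k → x β = 0 := Iff.rfl

lemma mem_Fl_zero (x : HD d) : x ∈ Fl 0 := fun β hβ => absurd hβ (Nat.not_lt_zero _)

lemma Fl_mono {k l : ℕ} (h : k ≤ l) {x : HD d} (hx : x ∈ Fl l) : x ∈ Fl k :=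
  fun β hβ => hx β (lt_of_lt_of_le hβ h)

lemma eval_continuous (β : MI d) : Continuous fun x : HD d => x β := by
  have : (fun x : HD d => x β) = fun x => ⟪bv β, x⟫_ℂ := by
    ext x
    rw [inner_bv]
  rw [this]
  exact continuous_const.inner continuous_id

lemma Fl_closed (k : ℕ) : IsClosed ((Fl k : Submodule ℂ (HD d)) : Set (HD d)) := by
  have : ((Fl k : Submodule ℂ (HD d)) : Set (HD d)) = ⋂ β, ⋂ (_ : deg β < k), {x | x β = 0} := by
    ext x
    simp [mem_Fl]
  rw [this]
  exact isClosed_iInter fun β => isClosed_iInter fun _ =>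
    isClosed_eq (eval_continuous β) continuous_const

lemma Fl_all {x : HD d} (h : ∀ k, x ∈ Fl k) : x = 0 := by
  ext β
  exact h (deg β + 1) β (Nat.lt_succ_self _)

/-- operators raising the degree by at least `r` -/
def Raises (T : HD d →L[ℂ] HD d) (r : ℕ) : Prop := ∀ k x, x ∈ Fl k → T x ∈ Fl (k + r)

namespace Raises
variable {T T' : HD d →L[ℂ] HD d} {r r' : ℕ}

lemma mono (h : Raises T r) (hr : r' ≤ r) : Raises T r' :=
  fun k x hx => Fl_mono (by omega) (h k x hx)

lemma add (h : Raises T r) (h' : Raises T' r) : Raises (T + T') r :=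
  fun k x hx => (Fl (k + r)).add_mem (h k x hx) (h' k x hx)

lemma sub (h : Raises T r) (h' : Raises T' r) : Raises (T - T') r :=
  fun k x hx => (Fl (k + r)).sub_mem (h k x hx) (h' k x hx)

lemma smul (h : Raises T r) (c : ℂ) : Raises (c • T) r :=
  fun k x hx => (Fl (k + r)).smul_mem _ (h k x hx)

lemma mul (h : Raises T r) (h' : Raises T' r') : Raises (T * T') (r + r') := by
  intro k x hx
  have := h (k + r') (T' x) (h' k x hx)
  rw [add_assoc, add_comm r' r] at this
  exact this

lemma zero : Raises (0 : HD d →L[ℂ] HD d) r := fun k _ _ => (Fl (k + r)).zero_mem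

lemma one : Raises (1 : HD d →L[ℂ] HD d) 0 := fun _ _ hx => hx

lemma pow (h : Raises T r) (k : ℕ) : Raises (T ^ k) (k * r) := by
  induction k with
  | zero => rw [pow_zero, Nat.zero_mul]; exact one
  | succ k ih => rw [pow_succ, Nat.succ_mul]; exact ih.mul h

lemma isClosed (r : ℕ) : IsClosed {T : HD d →L[ℂ] HD d | Raises T r} := by
  have : {T : HD d →L[ℂ] HD d | Raises T r} =
      ⋂ k : ℕ, ⋂ x : HD d, ⋂ (_ : x ∈ (Fl k : Submodule ℂ (HD d))), {T | T x ∈ Fl (k + r)} := by
    ext T
    simp only [Set.mem_iInter]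
    rfl
  rw [this]
  exact isClosed_iInter fun k => isClosed_iInter fun x => isClosed_iInter fun _ =>
    (Fl_closed (k + r)).preimage (ContinuousLinearMap.apply ℂ (HD d) x).continuous

lemma eq_zero (h : ∀ r, Raises T r) : T = 0 := by
  ext1 x
  refine Fl_all fun k => ?_
  have := h k 0 x (mem_Fl_zero x)
  rwa [zero_add] at this

end Raises

lemma M_raises (j : Fin d) : Raises (M j) 1 := by
  intro k x hx β hβ
  rw [M_apply]
  by_cases h : β j = 0
  · rw [cf_zero h]; simp
  · rw [hx (β - ee j), mul_zero]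
    have e1 := deg_add (β - ee j) (ee j)
    rw [sub_add_ee h, deg_ee] at e1
    omega

/-- limit of a bounded sequence of operators which is eventually constant in each degree -/
theorem exists_lim (T : ℕ → HD d →L[ℂ] HD d) (C : ℝ) (hC : ∀ n, ‖T n‖ ≤ C)
    (hT : ∀ n m, n ≤ m → Raises (T m - T n) n) :
    ∃ T' : HD d →L[ℂ] HD d, ‖T'‖ ≤ C ∧ ∀ n, Raises (T' - T n) n := by
  have hC0 : 0 ≤ C := (norm_nonneg _).trans (hC 0)
  have hstab : ∀ (x : HD d) (β : MI d) (n m : ℕ), deg β < n → n ≤ m → T m x β = T n x β := by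
    intro x β n m h1 h2
    have := hT n m h2 0 x (mem_Fl_zero x) β (by omega)
    have h3 : T m x β - T n x β = 0 := this
    exact sub_eq_zero.1 h3
  let f : HD d → MI d → ℂ := fun x β => T (deg β + 1) x β
  have hsum : ∀ (x : HD d) (s : Finset (MI d)), ∑ β ∈ s, ‖f x β‖ ^ 2 ≤ (C * ‖x‖) ^ 2 := by
    intro x s
    set m := s.sup (fun β => deg β + 1) with hm
    have h1 : ∀ β ∈ s, f x β = T m x β := by
      intro β hβ
      exact (hstab x β (deg β + 1) m (Nat.lt_succ_self _)
        (Finset.le_sup (f := fun β => deg β + 1) hβ)).symm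
    calc ∑ β ∈ s, ‖f x β‖ ^ 2 = ∑ β ∈ s, ‖T m x β‖ ^ 2 :=
          Finset.sum_congr rfl fun β hβ => by rw [h1 β hβ]
      _ ≤ ‖T m x‖ ^ 2 := sum_le_hasSum s (fun _ _ => by positivity) (lp2_hasSum (T m x))
      _ ≤ (C * ‖x‖) ^ 2 := by
          apply pow_le_pow_left₀ (norm_nonneg _)
          exact ((T m).le_opNorm x).trans (by gcongr; exact hC m)
  have hmem : ∀ x, Memℓp (f x) 2 := fun x =>
    memlp2 (summable_of_sum_le (fun _ => by positivity) (hsum x))
  let L : HD d →ₗ[ℂ] HD d :=
    { toFun := fun x => ⟨f x, hmem x⟩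
      map_add' := fun x y => by
        ext β
        change T (deg β + 1) (x + y) β = T (deg β + 1) x β + T (deg β + 1) y β
        rw [map_add]
        rfl
      map_smul' := fun c x => by
        ext β
        change T (deg β + 1) (c • x) β = c * T (deg β + 1) x β
        rw [map_smul]
        rfl }
  have hL : ∀ x, ‖L x‖ ≤ C * ‖x‖ := by
    intro x
    have h1 : ‖L x‖ ^ 2 ≤ (C * ‖x‖) ^ 2 := by
      have h2 := lp2_hasSum (L x)
      rw [← h2.tsum_eq]
      exact Summable.tsum_le_of_sum_le h2.summable (hsum x)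
    exact (sq_le_sq₀ (norm_nonneg _) (by positivity)).1 h1
  refine ⟨L.mkContinuous C hL, LinearMap.mkContinuous_norm_le _ hC0 _, ?_⟩
  intro n k x hx β hβ
  change T (deg β + 1) x β - T n x β = 0
  set m := max (deg β + 1) n with hm
  have h1 : T m x β = T (deg β + 1) x β := hstab x β _ _ (Nat.lt_succ_self _) (le_max_left _ _)
  have h2 : T m x β - T n x β = 0 := hT n m (le_max_right _ _) k x hx β hβ
  rw [← h1, h2]

end Run7.h163
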