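import Pool.Agent.Run7.h163.PL

/-!
# The bilateral shift
-/

set_option autoImplicit false
set_option linter.unusedSectionVars false
set_option linter.unusedVariables false
set_option linter.deprecated false

open scoped ComplexConjugate InnerProductSpace InnerProduct
open ContinuousLinearMap

namespace Run7.h163

/-- two sided sequences -/
noncomputable abbrev KZ := lp (fun _ : ℤ => ℂ) 2

section shortcuts

/-! shortcuts for instance search -/

noncomputable instance KZ.nacg : NormedAddCommGroup KZ := inferInstance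
noncomputable instance KZ.snacg : SeminormedAddCommGroup KZ := inferInstance
noncomputable instance KZ.ips : InnerProductSpace ℂ KZ := inferInstance
noncomputable instance KZ.nsp : NormedSpace ℂ KZ := inferInstance
noncomputable instance KZ.acg : AddCommGroup KZ := inferInstance
noncomputable instance KZ.acm : AddCommMonoid KZ := inferInstance
noncomputable instance KZ.md : Module ℂ KZ := inferInstance
noncomputable instance KZ.sm : SMul ℂ KZ := inferInstance
noncomputable instance KZ.hsm : HSMul ℂ KZ KZ := inferInstance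
instance KZ.csp : CompleteSpace KZ := inferInstance
instance KZ.t2 : T2Space KZ := inferInstance
noncomputable instance KZ.oacm : AddCommMonoid (KZ →L[ℂ] KZ) := inferInstance
noncomputable instance KZ.oacg : AddCommGroup (KZ →L[ℂ] KZ) := inferInstance
noncomputable instance KZ.omd : Module ℂ (KZ →L[ℂ] KZ) := inferInstance
noncomputable instance KZ.osm : SMul ℂ (KZ →L[ℂ] KZ) := inferInstance
noncomputable instance KZ.ohsm : HSMul ℂ (KZ →L[ℂ] KZ) (KZ →L[ℂ] KZ) := inferInstance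
noncomputable instance KZ.orng : Ring (KZ →L[ℂ] KZ) := inferInstance

end shortcuts

lemma shiftZ_hasSum (y : KZ) : HasSum (fun m : ℤ => ‖y (m - 1)‖ ^ 2) (‖y‖ ^ 2) :=
  ((Equiv.subRight (1 : ℤ)).hasSum_iff (f := fun m : ℤ => ‖y m‖ ^ 2)).2 (lp2_hasSum y)

/-- the bilateral shift, as a linear isometry -/
noncomputable def shI : KZ →ₗᵢ[ℂ] KZ where
  toFun y := ⟨fun m => y (m - 1), memlp2 (shiftZ_hasSum y).summable⟩
  map_add' x y := by
    ext m
    rfl
  map_smul' c x := by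
    ext m
    rfl
  norm_map' y := by
    have h1 := lp2_hasSum (⟨fun m => y (m - 1), memlp2 (shiftZ_hasSum y).summable⟩ : KZ)
    have h2 := shiftZ_hasSum y
    have h3 := h1.unique h2
    exact (sq_eq_sq₀ (norm_nonneg _) (norm_nonneg _)).1 h3

lemma shI_apply (y : KZ) (m : ℤ) : shI y m = y (m - 1) := rfl

lemma shI_surj : Function.Surjective shI := by
  intro y
  have h : HasSum (fun m : ℤ => ‖y (m + 1)‖ ^ 2) (‖y‖ ^ 2) :=
    ((Equiv.addRight (1 : ℤ)).hasSum_iff (f := fun m : ℤ => ‖y m‖ ^ 2)).2 (lp2_hasSum y)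
  refine ⟨⟨fun m => y (m + 1), memlp2 h.summable⟩, ?_⟩
  ext m
  rw [shI_apply]
  change y (m - 1 + 1) = y m
  rw [sub_add_cancel]

/-- the bilateral shift -/
noncomputable def shE : KZ ≃ₗᵢ[ℂ] KZ := LinearIsometryEquiv.ofSurjective shI shI_surj

/-- the bilateral shift as a bounded operator -/
noncomputable def Sh : KZ →L[ℂ] KZ := (shE : KZ →L[ℂ] KZ)

lemma Sh_apply (y : KZ) (m : ℤ) : Sh y m = y (m - 1) := rfl

lemma Sh_unitary : Sh ∈ unitary (KZ →L[ℂ] KZ) := (Unitary.linearIsometryEquiv.symm shE).2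

/-- the representation of continuous functions on the circle by the shift -/
noncomputable def piS : CA →⋆ₐ[ℂ] (KZ →L[ℂ] KZ) := (exists_rep Sh Sh_unitary).choose

lemma piS_z : piS zC = Sh := (exists_rep Sh Sh_unitary).choose_spec

lemma piS_norm (f : CA) : ‖piS f‖ ≤ ‖f‖ := rep_norm_le piS f

lemma piS_norm_apply (f : CA) (y : KZ) : ‖piS f y‖ ≤ ‖f‖ * ‖y‖ :=
  ((piS f).le_opNorm y).trans (by gcongr; exact piS_norm f)

lemma Sh_pow_apply (k : ℕ) (y : KZ) (m : ℤ) : (Sh ^ k) y m = y (m - k) := by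
  induction k generalizing y m with
  | zero => simp
  | succ k ih =>
    rw [pow_succ, mul_apply_eq_comp, ih, Sh_apply]
    have e : m - (k : ℤ) - 1 = m - ((k + 1 : ℕ) : ℤ) := by push_cast; ring
    rw [e]

/-- basis vectors -/
noncomputable def bz (m : ℤ) : KZ := lp.single 2 m (1 : ℂ)

lemma inner_bz (m : ℤ) (x : KZ) : ⟪bz m, x⟫_ℂ = x m := by
  unfold bz
  rw [lp.inner_single_left]
  simp

lemma bz_apply (α β : ℤ) : bz α β = if β = α then 1 else 0 := by
  unfold bz
  rw [lp.single_apply]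
  split_ifs with h
  · subst h; simp
  · simp [h]

lemma evalZ_continuous (m : ℤ) : Continuous fun y : KZ => y m := by
  have : (fun y : KZ => y m) = fun y => ⟪bz m, y⟫_ℂ := by
    ext x
    rw [inner_bz]
  rw [this]
  exact continuous_const.inner continuous_id

lemma Sh_adj (y : KZ) : adjoint Sh (Sh y) = y := by
  have h := (Unitary.mem_iff.1 Sh_unitary).1
  have h2 := congrArg (fun T : KZ →L[ℂ] KZ => T y) h
  exact h2

lemma Sh_adj' (y : KZ) : Sh (adjoint Sh y) = y := by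
  have h := (Unitary.mem_iff.1 Sh_unitary).2
  have h2 := congrArg (fun T : KZ →L[ℂ] KZ => T y) h
  exact h2

lemma Sh_adj_apply (y : KZ) (m : ℤ) : adjoint Sh y m = y (m + 1) := by
  have h := Sh_apply (adjoint Sh y) (m + 1)
  rw [Sh_adj', add_sub_cancel_right] at h
  exact h.symm

lemma projZ_summable (i : ℤ) (y : KZ) :
    Summable fun m : ℤ => ‖(if i ≤ m then y m else 0 : ℂ)‖ ^ 2 := by
  refine Summable.of_nonneg_of_le (fun _ => by positivity) (fun m => ?_) (lp2_hasSum y).summable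
  split_ifs
  · exact le_rfl
  · simp

/-- projection onto the coordinates `≥ i` -/
noncomputable def PZ (i : ℤ) : KZ →L[ℂ] KZ :=
  LinearMap.mkContinuous
    { toFun := fun y => ⟨fun m => if i ≤ m then y m else 0, memlp2 (projZ_summable i y)⟩
      map_add' := fun x y => by
        ext m
        change (if i ≤ m then x m + y m else 0) = (if i ≤ m then x m else 0) +
          (if i ≤ m then y m else 0)
        split_ifs <;> simp
      map_smul' := fun c x => by
        ext m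
        change (if i ≤ m then c * x m else 0) = c * (if i ≤ m then x m else 0)
        split_ifs <;> simp } 1 (fun y => by
      rw [one_mul]
      have h1 := lp2_hasSum (⟨fun m => if i ≤ m then y m else 0, memlp2 (projZ_summable i y)⟩ : KZ)
      have h2 := hasSum_le (fun m => by
        change ‖(if i ≤ m then y m else 0 : ℂ)‖ ^ 2 ≤ ‖y m‖ ^ 2
        split_ifs
        · exact le_rfl
        · simp) h1 (lp2_hasSum y)
      exact (sq_le_sq₀ (norm_nonneg _) (norm_nonneg _)).1 h2)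

lemma PZ_apply (i : ℤ) (y : KZ) (m : ℤ) : PZ i y m = if i ≤ m then y m else 0 := rfl

lemma PZ_norm_le (i : ℤ) (y : KZ) : ‖PZ i y‖ ≤ ‖y‖ := by
  refine ((PZ i).le_opNorm y).trans ?_
  have : ‖PZ i‖ ≤ 1 := LinearMap.mkContinuous_norm_le _ zero_le_one _
  calc ‖PZ i‖ * ‖y‖ ≤ 1 * ‖y‖ := by gcongr
    _ = ‖y‖ := one_mul _

lemma PZ_PZ {i j : ℤ} (h : i ≤ j) (y : KZ) : PZ j (PZ i y) = PZ j y := by
  ext m
  rw [PZ_apply, PZ_apply, PZ_apply]
  by_cases h1 : j ≤ m
  · rw [if_pos h1, if_pos h1, if_pos (h.trans h1)]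
  · rw [if_neg h1, if_neg h1]

lemma PZ_PZ' {i j : ℤ} (h : i ≤ j) (y : KZ) : PZ i (PZ j y) = PZ j y := by
  ext m
  rw [PZ_apply, PZ_apply]
  by_cases h1 : j ≤ m
  · rw [if_pos h1, if_pos (h.trans h1)]
  · rw [if_neg h1]
    split_ifs <;> rfl

lemma PZ_Sh_pow (i : ℤ) (k : ℕ) (y : KZ) : PZ i ((Sh ^ k) y) = (Sh ^ k) (PZ (i - k) y) := by
  ext m
  rw [PZ_apply, Sh_pow_apply, Sh_pow_apply, PZ_apply]
  by_cases h : i ≤ m
  · rw [if_pos h, if_pos (by omega)]
  · rw [if_neg h, if_neg (by omega)]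

lemma PZ_Sh_adj (i : ℤ) (y : KZ) : PZ i (adjoint Sh y) = adjoint Sh (PZ (i + 1) y) := by
  ext m
  rw [PZ_apply, Sh_adj_apply, Sh_adj_apply, PZ_apply]
  by_cases h : i ≤ m
  · rw [if_pos h, if_pos (by omega)]
  · rw [if_neg h, if_neg (by omega)]

lemma norm_Sh_adj (y : KZ) : ‖adjoint Sh y‖ = ‖y‖ := by
  have h1 : ‖Sh (adjoint Sh y)‖ = ‖adjoint Sh y‖ := shE.norm_map _
  rw [Sh_adj'] at h1
  exact h1.symm

/-- orthogonality of complementary coordinate projections -/
lemma PZ_inner (i : ℤ) (x y : KZ) : ⟪PZ i x, y - PZ i y⟫_ℂ = 0 := by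
  rw [lp.inner_eq_tsum]
  have : ∀ m : ℤ, ⟪PZ i x m, (y - PZ i y) m⟫_ℂ = 0 := by
    intro m
    have h1 : (y - PZ i y) m = y m - PZ i y m := rfl
    rw [h1, PZ_apply, PZ_apply]
    split_ifs <;> simp
  simp_rw [this]
  simp

lemma PZ_inner' (i : ℤ) (x y : KZ) : ⟪PZ i x, y⟫_ℂ = ⟪PZ i x, PZ i y⟫_ℂ := by
  have := PZ_inner i x y
  rw [inner_sub_right, sub_eq_zero] at this
  exact this

lemma PZ_pyth (i : ℤ) (y : KZ) : ‖y‖ ^ 2 = ‖PZ i y‖ ^ 2 + ‖y - PZ i y‖ ^ 2 := by
  have h2 := norm_add_sq_eq_norm_sq_add_norm_sq_of_inner_eq_zero (𝕜 := ℂ)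
      (PZ i y) (y - PZ i y) (PZ_inner i y y)
  rw [add_sub_cancel] at h2
  nlinarith [h2]

/-- polynomials of low degree see only few coordinates -/
lemma PZ_Pol {n : ℕ} {f : CA} (hf : f ∈ Pol n) (i : ℤ) (y : KZ) :
    PZ i (piS f y) = PZ i (piS f (PZ (i - n) y)) := by
  refine Pol_induction (P := fun f => PZ i (piS f y) = PZ i (piS f (PZ (i - n) y)))
    ?_ ?_ ?_ ?_ f hf
  · intro f g hf hg
    rw [map_add, add_apply, add_apply, map_add, map_add, hf, hg]
  · intro c f hf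
    rw [map_smul, smul_apply, smul_apply, map_smul, map_smul, hf]
  · simp
  · intro k hk
    rw [map_pow, piS_z, PZ_Sh_pow, PZ_Sh_pow, PZ_PZ (by omega)]

/-- analytic functions preserve the coordinate subspaces -/
lemma PZ_AD {f : CA} (hf : f ∈ AD) (i : ℤ) (y : KZ) :
    PZ i (piS f (PZ i y)) = piS f (PZ i y) := by
  have hc := rep_continuous piS
  have hc1 : Continuous fun g : CA => piS g (PZ i y) :=
    (ContinuousLinearMap.apply ℂ KZ (PZ i y)).continuous.comp hc
  refine AD_induction' (P := fun f => PZ i (piS f (PZ i y)) = piS f (PZ i y)) ?_ ?_ ?_ f hf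
  · exact isClosed_eq ((PZ i).continuous.comp hc1) hc1
  · intro f g hf hg
    rw [map_add, add_apply, map_add, hf, hg]
  · intro c k
    rw [map_smul, smul_apply, map_smul, map_pow, piS_z, PZ_Sh_pow, PZ_PZ' (by omega)]

lemma rep_inner (f g : CA) (x y : KZ) : ⟪piS f x, piS g y⟫_ℂ = ⟪x, piS (star f * g) y⟫_ℂ := by
  rw [map_mul, map_star, mul_apply_eq_comp, ContinuousLinearMap.star_eq_adjoint,
    ContinuousLinearMap.adjoint_inner_right]

/-- the basic identity for columns `(C, A)` -/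
lemma column_identity {C A : CA} (hC : C ∈ AD) (hA : A ∈ AD)
    (hCA : star C * C + star A * A = 1) (i : ℤ) (y : KZ) :
    ‖PZ i (piS C y)‖ ^ 2 + ‖PZ i (piS A y)‖ ^ 2 =
      ‖PZ i y‖ ^ 2 + (‖PZ i (piS C (y - PZ i y))‖ ^ 2 + ‖PZ i (piS A (y - PZ i y))‖ ^ 2) := by
  set y1 := PZ i y with hy1
  set y2 := y - y1 with hy2
  have hy : y = y1 + y2 := by rw [hy2]; abel
  have key : ∀ f ∈ AD, ‖PZ i (piS f y)‖ ^ 2 = ‖piS f y1‖ ^ 2 + ‖PZ i (piS f y2)‖ ^ 2 +
      2 * (⟪y1, piS (star f * f) y2⟫_ℂ).re := by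
    intro f hf
    have h1 : PZ i (piS f y) = piS f y1 + PZ i (piS f y2) := by
      conv_lhs => rw [hy]
      rw [map_add, map_add, hy1, PZ_AD hf]
    have h2 : ⟪piS f y1, PZ i (piS f y2)⟫_ℂ = ⟪y1, piS (star f * f) y2⟫_ℂ := by
      rw [← rep_inner, hy1, ← PZ_AD hf, ← PZ_inner']
    rw [h1, norm_add_sq (𝕜 := ℂ), h2]
    simp only [RCLike.re_to_complex]
    ring
  have hsum : (⟪y1, piS (star C * C) y2⟫_ℂ).re + (⟪y1, piS (star A * A) y2⟫_ℂ).re = 0 := by
    rw [← Complex.add_re, ← inner_add_right, ← add_apply, ← map_add, hCA, map_one,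
      one_apply_eq_self, hy1, hy2, hy1, PZ_inner, Complex.zero_re]
  have hn : ‖piS C y1‖ ^ 2 + ‖piS A y1‖ ^ 2 = ‖y1‖ ^ 2 := by
    have h2 : ((‖piS C y1‖ ^ 2 + ‖piS A y1‖ ^ 2 : ℝ) : ℂ) = ((‖y1‖ ^ 2 : ℝ) : ℂ) := by
      rw [Complex.ofReal_add, rep_norm_sq, rep_norm_sq, ← inner_add_right, ← add_apply, ← map_add,
        hCA, map_one, one_apply_eq_self, inner_self_eq_norm_sq_to_K]
      simp
    exact Complex.ofReal_injective h2
  rw [key C hC, key A hA]
  linarith

end Run7.h163
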