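import Pool.Agent.Run7.h163.SD
import Pool.Agent.Run7.h163.KZ
import Pool.Agent.Run7.h163.HS

/-!
# The defect of intertwining
-/

set_option autoImplicit false
set_option linter.unusedSectionVars false
set_option linter.unusedVariables false
set_option linter.deprecated false

open scoped ComplexConjugate InnerProductSpace InnerProduct
open ContinuousLinearMap Filter Topology Finset

namespace Run7.h163

variable {d : ℕ}

/-- the defect of intertwining -/
noncomputable def Zv (E : CA →ₗ[ℂ] (HD d →L[ℂ] HD d)) (G : KZ →L[ℂ] HD d) (f : CA) (y : KZ) :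
    HD d := adjoint (E f) (G y) - G (adjoint (piS f) y)

section
variable {X : HD d →L[ℂ] HD d} {E : CA →ₗ[ℂ] (HD d →L[ℂ] HD d)} (G : KZ →L[ℂ] HD d)

lemma Zv_add (f g : CA) (y : KZ) : Zv E G (f + g) y = Zv E G f y + Zv E G g y := by
  unfold Zv
  rw [map_add, map_add, map_add, map_add, add_apply, add_apply, map_add]
  abel

lemma Zv_smul (c : ℂ) (f : CA) (y : KZ) : Zv E G (c • f) y = conj c • Zv E G f y := by
  unfold Zv
  have e1 : adjoint (E (c • f)) = conj c • adjoint (E f) := by rw [map_smul, map_smulₛₗ]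
  have e2 : adjoint (piS (c • f)) = conj c • adjoint (piS f) := by rw [map_smul, map_smulₛₗ]
  rw [e1, e2, smul_apply, smul_apply, map_smul, smul_sub]

lemma Zv_vadd (f : CA) (y y' : KZ) : Zv E G f (y + y') = Zv E G f y + Zv E G f y' := by
  unfold Zv
  rw [map_add, map_add, map_add, map_add]
  abel

lemma Zv_vsmul (c : ℂ) (f : CA) (y : KZ) : Zv E G f (c • y) = c • Zv E G f y := by
  unfold Zv
  rw [map_smul, map_smul, map_smul, map_smul, smul_sub]

lemma Zv_vzero (f : CA) : Zv E G f 0 = 0 := by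
  unfold Zv
  simp

lemma adj_mul_apply {H : Type*} [NormedAddCommGroup H] [InnerProductSpace ℂ H] [CompleteSpace H]
    (S T : H →L[ℂ] H) (x : H) : adjoint (S * T) x = adjoint T (adjoint S x) := by
  have : adjoint (S * T) = adjoint T ∘L adjoint S := ContinuousLinearMap.adjoint_comp S T
  rw [this]
  rfl

lemma Zv_mul (h : IsFC X E) {f g : CA} (hf : f ∈ AD) (hg : g ∈ AD) (y : KZ) :
    Zv E G (f * g) y = adjoint (E f) (Zv E G g y) + Zv E G f (adjoint (piS g) y) := by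
  unfold Zv
  have e1 : E (f * g) = E g * E f := by rw [mul_comm, h.mul hg hf]
  have e2 : piS (f * g) = piS g * piS f := by rw [mul_comm, map_mul]
  rw [e1, e2, adj_mul_apply, adj_mul_apply, map_sub]
  abel

end

/-- a Lipschitz bound, uniform over all systems -/
def LipB (d : ℕ) (f : CA) (K : ℝ) : Prop :=
  ∀ (X : HD d →L[ℂ] HD d) (E : CA →ₗ[ℂ] (HD d →L[ℂ] HD d)), IsFC X E →
    ∀ (G : KZ →L[ℂ] HD d) (z : ℝ), 0 ≤ z → (∀ y, ‖Zv E G zC y‖ ≤ z * ‖y‖) →
      ∀ y, ‖Zv E G f y‖ ≤ K * z * ‖y‖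

lemma norm_adjE {X : HD d →L[ℂ] HD d} {E : CA →ₗ[ℂ] (HD d →L[ℂ] HD d)} (h : IsFC X E)
    {f : CA} (hf : ‖f‖ ≤ 1) (x : HD d) : ‖adjoint (E f) x‖ ≤ ‖x‖ := by
  refine ((adjoint (E f)).le_opNorm x).trans ?_
  rw [LinearIsometryEquiv.norm_map]
  have := h.norm_le f
  nlinarith [norm_nonneg x]

lemma norm_adjS {f : CA} (hf : ‖f‖ ≤ 1) (x : KZ) : ‖adjoint (piS f) x‖ ≤ ‖x‖ := by
  refine ((adjoint (piS f)).le_opNorm x).trans ?_
  rw [LinearIsometryEquiv.norm_map]
  have := piS_norm f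
  nlinarith [norm_nonneg x]

lemma norm_S {f : CA} (hf : ‖f‖ ≤ 1) (x : KZ) : ‖piS f x‖ ≤ ‖x‖ := by
  refine (piS_norm_apply f x).trans ?_
  nlinarith [norm_nonneg x]

lemma LipB_pow (k : ℕ) : LipB d (zC ^ k) k := by
  intro X E h G z hz hZ
  induction k with
  | zero =>
    intro y
    have : Zv E G (zC ^ 0) y = 0 := by
      unfold Zv
      have e1 : piS (1 : CA) = 1 := map_one piS
      rw [pow_zero, h.one, e1, ← ContinuousLinearMap.star_eq_adjoint,
        ← ContinuousLinearMap.star_eq_adjoint, star_one, star_one]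
      simp
    rw [this]
    simp
  | succ k ih =>
    intro y
    rw [pow_succ, Zv_mul G h (AD.pow_mem zC_mem k) zC_mem]
    refine (norm_add_le _ _).trans ?_
    have h1 := norm_adjE h (SUSeq.norm_zC_pow k) (Zv E G zC y)
    have h2 := ih (adjoint (piS zC) y)
    have h3 := norm_adjS norm_zC_le y
    have h4 := hZ y
    have h5 : (k : ℝ) * z * ‖adjoint (piS zC) y‖ ≤ k * z * ‖y‖ := by gcongr
    push_cast
    nlinarith

lemma exists_LipB {n : ℕ} {f : CA} (hf : f ∈ Pol n) : ∃ K : ℝ, 0 ≤ K ∧ LipB d f K := by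
  refine Pol_induction (P := fun f => ∃ K : ℝ, 0 ≤ K ∧ LipB d f K) ?_ ?_ ?_ ?_ f hf
  · rintro f g ⟨K1, h1, hf⟩ ⟨K2, h2, hg⟩
    refine ⟨K1 + K2, by positivity, fun X E h G z hz hZ y => ?_⟩
    rw [Zv_add]
    refine (norm_add_le _ _).trans ?_
    have := hf X E h G z hz hZ y
    have := hg X E h G z hz hZ y
    nlinarith
  · rintro c f ⟨K1, h1, hf⟩
    refine ⟨‖c‖ * K1, by positivity, fun X E h G z hz hZ y => ?_⟩
    rw [Zv_smul, norm_smul, RCLike.norm_conj, mul_assoc, mul_assoc]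
    have := hf X E h G z hz hZ y
    rw [mul_assoc] at this
    gcongr
  · refine ⟨0, le_rfl, fun X E h G z hz hZ y => ?_⟩
    unfold Zv
    simp
  · intro k _
    exact ⟨k, by positivity, LipB_pow k⟩

/-- the condition on step `n` ensuring the intertwining relation -/
def StepOK (d : ℕ) (s : SUSeq) (n : ℕ) : Prop :=
  ∃ K1 K2 K3 K4 : ℝ, 0 ≤ K1 ∧ 0 ≤ K2 ∧ 0 ≤ K3 ∧ 0 ≤ K4 ∧
    LipB d (s.C n) K1 ∧ LipB d (s.A n) K2 ∧
    LipB d (zC ^ s.N n * star (s.A n)) K3 ∧ LipB d (zC ^ s.N n * star (s.C n)) K4 ∧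
    s.a n ^ 2 * s.N (n + 1) + 2 * s.a n * (K1 + K2 + K3 + K4) ≤ 1 / 4 * (1 / 2) ^ n

end Run7.h163
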