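import Pool.Agent.Run7.h163.SW

/-!
# The tent function on the circle and its distribution
-/

set_option autoImplicit false
set_option linter.unusedSectionVars false
set_option linter.unusedVariables false
set_option linter.deprecated false

open scoped ComplexConjugate
open Filter Topology

namespace Run7.h163

/-- the tent function -/
noncomputable def tent (θ : Circle) : ℝ := Real.arccos ((θ : ℂ).re) / Real.pi

lemma tent_continuous : Continuous tent := by
  unfold tent
  exact (Real.continuous_arccos.comp (Complex.continuous_re.comp continuous_subtype_val)).div_const _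

lemma tent_nonneg (θ : Circle) : 0 ≤ tent θ :=
  div_nonneg (Real.arccos_nonneg _) Real.pi_pos.le

lemma tent_le (θ : Circle) : tent θ ≤ 1 :=
  div_le_one_of_le₀ (Real.arccos_le_pi _) Real.pi_pos.le

lemma tent_exp (t : ℝ) : tent (Circle.exp t) = Real.arccos (Real.cos t) / Real.pi := by
  unfold tent
  rw [Circle.coe_exp, Complex.exp_ofReal_mul_I_re]

lemma mean_tent (g : ℝ → ℝ) (hg : Continuous g) :
    avg (fun θ : Circle => g (tent θ)) = ∫ u in (0:ℝ)..1, g u := by
  unfold avg
  simp_rw [tent_exp]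
  have hpi := Real.pi_pos
  have hc : Continuous fun t : ℝ => g (Real.arccos (Real.cos t) / Real.pi) :=
    hg.comp ((Real.continuous_arccos.comp Real.continuous_cos).div_const _)
  have hI : ∫ t in (0:ℝ)..Real.pi, g (t / Real.pi) = Real.pi * ∫ u in (0:ℝ)..1, g u := by
    rw [intervalIntegral.integral_comp_div (fun u => g u) hpi.ne', zero_div, div_self hpi.ne',
      smul_eq_mul]
  have h1 : ∫ t in (0:ℝ)..Real.pi, g (Real.arccos (Real.cos t) / Real.pi) =
      Real.pi * ∫ u in (0:ℝ)..1, g u := by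
    rw [← hI]
    apply intervalIntegral.integral_congr
    intro t ht
    rw [Set.uIcc_of_le hpi.le] at ht
    simp only
    rw [Real.arccos_cos ht.1 ht.2]
  have h2 : ∫ t in Real.pi..(2 * Real.pi), g (Real.arccos (Real.cos t) / Real.pi) =
      Real.pi * ∫ u in (0:ℝ)..1, g u := by
    rw [← hI]
    have h3 : ∫ t in Real.pi..(2 * Real.pi), g (Real.arccos (Real.cos t) / Real.pi) =
        ∫ t in Real.pi..(2 * Real.pi), g ((2 * Real.pi - t) / Real.pi) := by
      apply intervalIntegral.integral_congr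
      intro t ht
      rw [Set.uIcc_of_le (by linarith)] at ht
      simp only
      have : Real.cos t = Real.cos (2 * Real.pi - t) := by
        rw [Real.cos_two_pi_sub]
      rw [this, Real.arccos_cos (by linarith [ht.2]) (by linarith [ht.1])]
    rw [h3, intervalIntegral.integral_comp_sub_left (fun x => g (x / Real.pi)) (2 * Real.pi)]
    congr 1 <;> ring
  rw [← intervalIntegral.integral_add_adjacent_intervals (hc.intervalIntegrable _ _)
    (hc.intervalIntegrable Real.pi (2 * Real.pi)), h1, h2, smul_eq_mul]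
  field_simp
  ring

/-- truncation to `[0, 1]` -/
noncomputable def cl (x : ℝ) : ℝ := max 0 (min 1 x)

lemma cl_continuous : Continuous cl := by unfold cl; fun_prop

lemma cl_nonneg (x : ℝ) : 0 ≤ cl x := le_max_left _ _

lemma cl_le (x : ℝ) : cl x ≤ 1 := max_le zero_le_one (min_le_left _ _)

lemma cl_of_ge {x : ℝ} (h : 1 ≤ x) : cl x = 1 := by
  unfold cl
  rw [min_eq_left h]
  simp

lemma cl_of_le {x : ℝ} (h : x ≤ 0) : cl x = 0 := by
  unfold cl
  rw [min_eq_right (by linarith)]
  exact max_eq_left h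

lemma cl_of_mem {x : ℝ} (h0 : 0 ≤ x) (h1 : x ≤ 1) : cl x = x := by
  unfold cl
  rw [min_eq_right h1, max_eq_right h0]

lemma cl_mono {x y : ℝ} (h : x ≤ y) : cl x ≤ cl y := by
  unfold cl
  exact max_le_max le_rfl (min_le_min le_rfl h)

lemma mean_cl {t τ : ℝ} (hτ : 0 < τ) (h1 : τ ≤ t) (h2 : t ≤ 1) :
    avg (fun θ : Circle => cl ((t - tent θ) / τ)) = t - τ / 2 := by
  rw [mean_tent (fun u => cl ((t - u) / τ)) (cl_continuous.comp (by fun_prop))]
  have hc : Continuous fun u : ℝ => cl ((t - u) / τ) := cl_continuous.comp (by fun_prop)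
  have e1 : ∫ u in (0:ℝ)..(t - τ), cl ((t - u) / τ) = t - τ := by
    have : ∫ u in (0:ℝ)..(t - τ), cl ((t - u) / τ) = ∫ u in (0:ℝ)..(t - τ), (1:ℝ) := by
      apply intervalIntegral.integral_congr
      intro u hu
      rw [Set.uIcc_of_le (by linarith)] at hu
      simp only
      apply cl_of_ge
      rw [le_div_iff₀ hτ]
      linarith [hu.2]
    rw [this]
    simp
  have e2 : ∫ u in (t - τ)..t, cl ((t - u) / τ) = τ / 2 := by
    have : ∫ u in (t - τ)..t, cl ((t - u) / τ) = ∫ u in (t - τ)..t, (t - u) / τ := by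
      apply intervalIntegral.integral_congr
      intro u hu
      rw [Set.uIcc_of_le (by linarith)] at hu
      simp only
      apply cl_of_mem
      · exact div_nonneg (by linarith [hu.2]) hτ.le
      · rw [div_le_one hτ]
        linarith [hu.1]
    rw [this, intervalIntegral.integral_div]
    rw [intervalIntegral.integral_sub (by simp) (by simp)]
    simp only [intervalIntegral.integral_const, integral_id, smul_eq_mul]
    field_simp
    ring
  have e3 : ∫ u in t..(1:ℝ), cl ((t - u) / τ) = 0 := by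
    have : ∫ u in t..(1:ℝ), cl ((t - u) / τ) = ∫ u in t..(1:ℝ), (0:ℝ) := by
      apply intervalIntegral.integral_congr
      intro u hu
      rw [Set.uIcc_of_le h2] at hu
      simp only
      apply cl_of_le
      exact div_nonpos_of_nonpos_of_nonneg (by linarith [hu.1]) hτ.le
    rw [this]
    simp
  rw [← intervalIntegral.integral_add_adjacent_intervals (hc.intervalIntegrable 0 t)
    (hc.intervalIntegrable t 1), ← intervalIntegral.integral_add_adjacent_intervals
    (hc.intervalIntegrable 0 (t - τ)) (hc.intervalIntegrable (t - τ) t), e1, e2, e3]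
  ring

/-- the cut off function -/
noncomputable def chi (x : ℝ) : ℝ := cl (2 * x - 1)

/-- the weight function -/
noncomputable def Om (x : ℝ) : ℝ := chi x ^ 2 * Real.exp (-(4 * x))

lemma chi_continuous : Continuous chi := cl_continuous.comp (by fun_prop)

lemma Om_continuous : Continuous Om := by
  unfold Om
  have := chi_continuous
  fun_prop

lemma chi_nonneg (x : ℝ) : 0 ≤ chi x := cl_nonneg _
lemma chi_le (x : ℝ) : chi x ≤ 1 := cl_le _

lemma chi_of_le {x : ℝ} (h : x ≤ 1 / 2) : chi x = 0 := cl_of_le (by linarith)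

lemma chi_of_ge {x : ℝ} (h : 1 ≤ x) : chi x = 1 := cl_of_ge (by linarith)

lemma Om_nonneg (x : ℝ) : 0 ≤ Om x := by unfold Om; positivity

lemma Om_le_one {x : ℝ} (h : 0 ≤ x) : Om x ≤ 1 := by
  unfold Om
  have h1 := chi_nonneg x
  have h2 := chi_le x
  have h3 : Real.exp (-(4 * x)) ≤ 1 := by rw [Real.exp_le_one_iff]; linarith
  have h4 := Real.exp_pos (-(4 * x))
  have h5 : chi x ^ 2 ≤ 1 := by nlinarith
  nlinarith [sq_nonneg (chi x)]

lemma cl_lip (x y : ℝ) : |cl x - cl y| ≤ |x - y| := by
  unfold cl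
  have h1 : |max 0 (min 1 x) - max 0 (min 1 y)| ≤ |min 1 x - min 1 y| := by
    rw [max_comm 0, max_comm 0]
    exact abs_max_sub_max_le_abs _ _ _
  have h2 : |min 1 x - min 1 y| ≤ |x - y| := by
    rw [min_comm 1, min_comm 1]
    exact abs_min_sub_min_le_max (a := x) (b := 1) (c := y) (d := 1) |>.trans (by simp)
  exact h1.trans h2

lemma exp_lip {x y : ℝ} (hx : 0 ≤ x) (hy : 0 ≤ y) :
    |Real.exp (-(4 * x)) - Real.exp (-(4 * y))| ≤ 4 * |x - y| := by
  wlog h : x ≤ y generalizing x y
  · rw [abs_sub_comm, abs_sub_comm x y]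
    exact this hy hx (le_of_not_ge h)
  have h1 : Real.exp (-(4 * y)) ≤ Real.exp (-(4 * x)) := Real.exp_le_exp.2 (by linarith)
  rw [abs_of_nonneg (by linarith), abs_of_nonpos (by linarith)]
  have h2 : Real.exp (-(4 * y)) = Real.exp (-(4 * x)) * Real.exp (-(4 * (y - x))) := by
    rw [← Real.exp_add]; congr 1; ring
  have h3 := Real.add_one_le_exp (-(4 * (y - x)))
  have h4 : Real.exp (-(4 * x)) ≤ 1 := by rw [Real.exp_le_one_iff]; linarith
  have h5 := Real.exp_pos (-(4 * x))
  rw [h2]
  have h6 : Real.exp (-(4 * x)) * (1 - Real.exp (-(4 * (y - x)))) ≤ 1 * (4 * (y - x)) := by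
    apply mul_le_mul h4 (by linarith) _ zero_le_one
    have : Real.exp (-(4 * (y - x))) ≤ 1 := by rw [Real.exp_le_one_iff]; linarith
    linarith
  linarith

lemma Om_lip {x y : ℝ} (hx : 0 ≤ x) (hy : 0 ≤ y) : |Om x - Om y| ≤ 8 * |x - y| := by
  unfold Om
  have h1 : |chi x - chi y| ≤ 2 * |x - y| := by
    unfold chi
    refine (cl_lip _ _).trans (le_of_eq ?_)
    have : 2 * x - 1 - (2 * y - 1) = 2 * (x - y) := by ring
    rw [this, abs_mul, abs_of_pos (by norm_num : (0:ℝ) < 2)]
  have h2 := exp_lip hx hy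
  have e : chi x ^ 2 * Real.exp (-(4 * x)) - chi y ^ 2 * Real.exp (-(4 * y)) =
      (chi x - chi y) * ((chi x + chi y) * Real.exp (-(4 * x))) +
        chi y ^ 2 * (Real.exp (-(4 * x)) - Real.exp (-(4 * y))) := by ring
  rw [e]
  refine (abs_add_le _ _).trans ?_
  rw [abs_mul, abs_mul (chi y ^ 2)]
  have h3 : Real.exp (-(4 * x)) ≤ 1 := by rw [Real.exp_le_one_iff]; linarith
  have h4 := Real.exp_pos (-(4 * x))
  have a1 := chi_nonneg x
  have a2 := chi_le x
  have a3 := chi_nonneg y
  have a4 := chi_le y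
  have h5 : |(chi x + chi y) * Real.exp (-(4 * x))| ≤ 2 := by
    rw [abs_of_nonneg (by positivity)]
    nlinarith
  have h6 : |chi y ^ 2| ≤ 1 := by
    rw [abs_of_nonneg (by positivity)]
    nlinarith
  have h7 : |chi x - chi y| * |(chi x + chi y) * Real.exp (-(4 * x))| ≤ (2 * |x - y|) * 2 := by
    gcongr
  have h8 : |chi y ^ 2| * |Real.exp (-(4 * x)) - Real.exp (-(4 * y))| ≤ 1 * (4 * |x - y|) := by
    gcongr
  linarith

end Run7.h163
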