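import Pool.Agent.Run7.h163.EQ
import Pool.Agent.Run7.h163.MN

/-!
# The next density
-/

set_option autoImplicit false
set_option linter.unusedSectionVars false
set_option linter.unusedVariables false
set_option linter.deprecated false

open scoped ComplexConjugate
open Filter Topology

namespace Run7.h163

lemma equidist_real (F : C(Circle × Circle, ℝ)) {ε : ℝ} (hε : 0 < ε) :
    ∃ K0, ∀ K ≥ K0, |avg (fun z => F (curve K z)) - avg (fun s => avg (fun θ => F (s, θ)))| ≤ ε := by
  let Fc : CT := ⟨fun p => (F p : ℂ), by fun_prop⟩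
  obtain ⟨K0, hK⟩ := equidist Fc hε
  refine ⟨K0, fun K hK0 => ?_⟩
  have h1 := hK K hK0
  have e1 : avg (fun z => Fc (curve K z)) = ((avg (fun z => F (curve K z)) : ℝ) : ℂ) :=
    avg_ofReal (fun z => F (curve K z))
  have e2 : avg2 Fc = ((avg (fun s => avg (fun θ => F (s, θ))) : ℝ) : ℂ) := by
    unfold avg2
    have : ∀ s : Circle, avg (fun θ => Fc (s, θ)) = ((avg (fun θ => F (s, θ)) : ℝ) : ℂ) := fun s =>
      avg_ofReal (fun θ => F (s, θ))
    simp_rw [this]
    exact avg_ofReal _
  rw [e1, e2, ← Complex.ofReal_sub, Complex.norm_real, Real.norm_eq_abs] at h1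
  exact h1

lemma Om_le_exp (x : ℝ) : Om x ≤ Real.exp (-(4 * x)) := by
  unfold Om
  exact mul_le_of_le_one_left (Real.exp_pos _).le (pow_le_one₀ (chi_nonneg x) (chi_le x))

theorem lemmaG (h : CA) (havg : avgL h = 1) (hpos : ∀ w, 0 < (h w).re)
    (L lam : ℝ) (hL : ∀ w, (h w).re ≤ L) (hlam : L < lam) (hlam1 : 1 ≤ lam) (η : ℝ) (hη : 0 < η)
    (M : ℕ) : ∃ h' : CA, h' - h ∈ DV M ∧ (∀ w, 0 < (h' w).re) ∧ (∀ w, (h' w).re ≤ lam + 1) ∧
      avg (fun w => min 1 (h' w).re) ≤ 1 / lam + η ∧
      avg (fun w => Om (h' w).re) ≤ Real.exp (-(4 * lam)) + η := by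
  -- the minimum of `Re h`
  obtain ⟨w0, -, hw0⟩ := isCompact_univ.exists_isMinOn (Set.univ_nonempty (α := Circle))
    (f := fun w => (h w).re) (by fun_prop)
  set m := (h w0).re with hm
  have hmpos : 0 < m := hpos w0
  have hmle : ∀ w, m ≤ (h w).re := fun w => hw0 (Set.mem_univ w)
  set c := min (m / 2) (min (1 / 2) (η / 8)) with hc
  have hc0 : 0 < c := by positivity
  have hc1 : c ≤ m / 2 := min_le_left _ _
  have hc2 : c ≤ 1 / 2 := (min_le_right _ _).trans (min_le_left _ _)
  have hc3 : c ≤ η / 8 := (min_le_right _ _).trans (min_le_right _ _)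
  set D := lam - c with hD
  have hD0 : 0 < D := by linarith
  have hmL : m ≤ L := hL w0
  set τ := min ((m - c) / (2 * D)) (min ((lam - L) / (2 * D)) (η / 8)) with hτ
  have hτ0 : 0 < τ := by
    have h1 : 0 < (m - c) / (2 * D) := div_pos (by linarith) (by linarith)
    have h2 : 0 < (lam - L) / (2 * D) := div_pos (by linarith) (by linarith)
    have h3 : 0 < η / 8 := by linarith
    exact lt_min h1 (lt_min h2 h3)
  have hτ1 : τ * (2 * D) ≤ m - c := by
    have : τ ≤ (m - c) / (2 * D) := min_le_left _ _
    rwa [le_div_iff₀ (by linarith)] at this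
  have hτ2 : τ * (2 * D) ≤ lam - L := by
    have : τ ≤ (lam - L) / (2 * D) := (min_le_right _ _).trans (min_le_left _ _)
    rwa [le_div_iff₀ (by linarith)] at this
  have hτ3 : τ ≤ η / 8 := (min_le_right _ _).trans (min_le_right _ _)
  set e1 := min (c / 4) (η / 100) with he1
  have he0 : 0 < e1 := by positivity
  have hec : e1 ≤ c / 4 := min_le_left _ _
  have heη : e1 ≤ η / 100 := min_le_right _ _
  -- the function `y`
  set y : Circle → ℝ := fun s => ((h s).re - c) / D + τ / 2 with hy
  have hyc : Continuous y := by fun_prop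
  have hy1 : ∀ s, 2 * τ ≤ y s := by
    intro s
    have h1 : τ * 2 ≤ ((h s).re - c) / D := by
      rw [le_div_iff₀ hD0]
      linarith [hmle s]
    change 2 * τ ≤ ((h s).re - c) / D + τ / 2
    linarith
  have hy2 : ∀ s, y s ≤ 1 - τ := by
    intro s
    have h1 : ((h s).re - c) / D ≤ 1 - 2 * τ := by
      rw [div_le_iff₀ hD0]
      linarith [hL s]
    change ((h s).re - c) / D + τ / 2 ≤ 1 - τ
    linarith
  -- the function `f`
  let f : C(Circle × Circle, ℝ) := ⟨fun p => c + D * cl ((y p.1 - tent p.2) / τ), by
    have := tent_continuous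
    have := cl_continuous
    fun_prop⟩
  have hf : ∀ s θ, f (s, θ) = c + D * cl ((y s - tent θ) / τ) := fun s θ => rfl
  have hfc : ∀ p, c ≤ f p := by
    rintro ⟨s, θ⟩
    rw [hf]
    linarith [mul_nonneg hD0.le (cl_nonneg ((y s - tent θ) / τ))]
  have hfl : ∀ p, f p ≤ lam := by
    rintro ⟨s, θ⟩
    rw [hf]
    linarith [mul_le_of_le_one_right hD0.le (cl_le ((y s - tent θ) / τ))]
  have hcltent : ∀ t : ℝ, Continuous fun θ : Circle => cl ((t - tent θ) / τ) := by
    intro t
    have := tent_continuous
    have := cl_continuous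
    fun_prop
  let F : C(Circle × Circle, ℝ) := ⟨fun p => f p - (h p.1).re, by fun_prop⟩
  have hF0 : ∀ s, avg (fun θ => F (s, θ)) = 0 := by
    intro s
    have e : (fun θ => F (s, θ)) = fun θ : Circle => (D * cl ((y s - tent θ) / τ)) -
        ((h s).re - c) := by
      ext θ
      change f (s, θ) - (h s).re = _
      rw [hf]; ring
    rw [e, avg_sub ((hcltent (y s)).const_mul D) continuous_const, avg_rmul,
      mean_cl hτ0 (by linarith [hy1 s]) (by linarith [hy2 s]), avg_const]
    change D * (((h s).re - c) / D + τ / 2 - τ / 2) - ((h s).re - c) = 0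
    field_simp
    ring
  obtain ⟨G, hG, hGF⟩ := approx_VP F hF0 he0
  -- the two test functions
  let F1 : C(Circle × Circle, ℝ) := ⟨fun p => min 1 (f p), by fun_prop⟩
  let F2 : C(Circle × Circle, ℝ) := ⟨fun p => Om (f p), Om_continuous.comp f.continuous⟩
  obtain ⟨K1, hK1⟩ := equidist_real F1 he0
  obtain ⟨K2, hK2⟩ := equidist_real F2 he0
  obtain ⟨K3, hK3⟩ := VP_curve hG M
  set K := max K1 (max K2 K3) with hK
  have k1 := hK1 K (le_max_left _ _)
  have k2 := hK2 K ((le_max_left _ _).trans (le_max_right _ _))
  have k3 := hK3 K ((le_max_right _ _).trans (le_max_right _ _))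
  set h' : CA := h + G.comp (curve K) with hh'
  have hclose : ∀ w, |(h' w).re - f (curve K w)| ≤ e1 := by
    intro w
    have h1 := hGF (curve K w)
    have h2 : (h' w).re = (h w).re + (G (curve K w)).re := by
      change (h w + G (curve K w)).re = _
      simp
    have h3 : F (curve K w) = f (curve K w) - (h w).re := rfl
    rw [h2]
    rw [h3] at h1
    rw [abs_sub_comm] at h1
    have h4 : (h w).re + (G (curve K w)).re - f (curve K w) =
      (G (curve K w)).re - (f (curve K w) - (h w).re) := by ring
    rw [h4]
    exact h1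
  have hpos' : ∀ w, 0 < (h' w).re := by
    intro w
    have h1 := abs_le.1 (hclose w)
    have h2 := hfc (curve K w)
    linarith [h1.1]
  have e1le : e1 ≤ 1 := by linarith
  refine ⟨h', ?_, hpos', ?_, ?_, ?_⟩
  · have : h' - h = G.comp (curve K) := by rw [hh']; abel
    rw [this]
    exact k3
  · intro w
    have h1 := abs_le.1 (hclose w)
    have h2 := hfl (curve K w)
    linarith [h1.2]
  · -- the average of the minimum
    have s1 : avg (fun w => min 1 (h' w).re) ≤ avg (fun w => F1 (curve K w) + e1) := by
      refine avg_mono (by fun_prop) (by fun_prop) fun w => ?_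
      have h1 := abs_le.1 (hclose w)
      change min 1 (h' w).re ≤ min 1 (f (curve K w)) + e1
      rcases le_total 1 (f (curve K w)) with h2 | h2
      · rw [min_eq_left h2]
        exact (min_le_left _ _).trans (by linarith)
      · rw [min_eq_right h2]
        exact (min_le_right _ _).trans (by linarith [h1.2])
    have s2 : avg (fun w => F1 (curve K w) + e1) = avg (fun w => F1 (curve K w)) + e1 := by
      rw [avg_add (by fun_prop) (by fun_prop), avg_const]
    have s3 : avg (fun s => avg (fun θ => F1 (s, θ))) ≤ avg (fun s => (y s) + (c + τ / 2)) := by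
      refine avg_mono (inner_avg_continuous F1.continuous) (by fun_prop) fun s => ?_
      have s4 : avg (fun θ => F1 (s, θ)) ≤ avg (fun θ => cl (((y s + τ) - tent θ) / τ) + c) := by
        refine avg_mono (by fun_prop) ((hcltent _).add continuous_const) fun θ => ?_
        change min 1 (f (s, θ)) ≤ _
        have e2 : ((y s + τ) - tent θ) / τ = (y s - tent θ) / τ + 1 := by field_simp; ring
        rw [e2, hf]
        set x := (y s - tent θ) / τ with hx
        rcases le_total x 0 with h5 | h5
        · rw [cl_of_le h5, mul_zero, add_zero]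
          have := cl_nonneg (x + 1)
          exact (min_le_right _ _).trans (by linarith)
        · rw [cl_of_ge (by linarith : 1 ≤ x + 1)]
          exact (min_le_left _ _).trans (by linarith)
      refine s4.trans (le_of_eq ?_)
      rw [avg_add (hcltent _) continuous_const, avg_const,
        mean_cl hτ0 (by linarith [hy1 s]) (by linarith [hy2 s])]
      ring
    have s5 : avg (fun s => (y s) + (c + τ / 2)) = (1 - c) / D + c + τ := by
      have s6 : avg (fun s : Circle => (h s).re) = 1 := by
        rw [← avg_re (by fun_prop)]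
        have : avg (fun s => h s) = avgL h := rfl
        rw [this, havg, Complex.one_re]
      have s7 : (fun s => (y s) + (c + τ / 2)) =
          fun s : Circle => D⁻¹ * (h s).re + ((c + τ) - D⁻¹ * c) := by
        ext s
        change ((h s).re - c) / D + τ / 2 + (c + τ / 2) = _
        field_simp
        ring
      rw [s7, avg_add (by fun_prop) (by fun_prop), avg_rmul, s6, avg_const]
      field_simp
      ring
    have s8 : (1 - c) / D ≤ 1 / lam := by
      rw [div_le_div_iff₀ hD0 (by linarith)]
      linarith [mul_nonneg hc0.le (sub_nonneg.2 hlam1)]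
    have s9 := (abs_le.1 k1).2
    linarith
  · -- the average of `Om`
    have s1 : avg (fun w => Om (h' w).re) ≤ avg (fun w => F2 (curve K w) + 8 * e1) := by
      have := Om_continuous
      refine avg_mono (by fun_prop) (by fun_prop) fun w => ?_
      have h1 := Om_lip (hpos' w).le (hc0.le.trans (hfc (curve K w)))
      have h2 := hclose w
      change Om (h' w).re ≤ Om (f (curve K w)) + 8 * e1
      linarith [(abs_le.1 h1).2]
    have s2 : avg (fun w => F2 (curve K w) + 8 * e1) = avg (fun w => F2 (curve K w)) + 8 * e1 := by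
      rw [avg_add (by fun_prop) (by fun_prop), avg_const]
    have s3 : avg (fun s => avg (fun θ => F2 (s, θ))) ≤
        avg (fun s : Circle => Real.exp (-(4 * lam)) + 2 * τ) := by
      refine avg_mono (inner_avg_continuous F2.continuous) (by fun_prop) fun s => ?_
      have s4 : avg (fun θ => F2 (s, θ)) ≤ avg (fun θ => (cl (((y s + τ) - tent θ) / τ) -
          cl (((y s - τ) - tent θ) / τ)) + Real.exp (-(4 * lam))) := by
        refine avg_mono (by fun_prop) (((hcltent _).sub (hcltent _)).add continuous_const)
          fun θ => ?_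
        change Om (f (s, θ)) ≤ _
        have e2 : ((y s + τ) - tent θ) / τ = (y s - tent θ) / τ + 1 := by field_simp; ring
        have e3 : ((y s - τ) - tent θ) / τ = (y s - tent θ) / τ - 1 := by field_simp; ring
        rw [e2, e3, hf]
        set x := (y s - tent θ) / τ with hx
        have hmono : cl (x - 1) ≤ cl (x + 1) := cl_mono (by linarith)
        have hexp := Real.exp_pos (-(4 * lam))
        rcases le_total x 0 with h5 | h5
        · rw [cl_of_le h5, mul_zero, add_zero]
          have : Om c = 0 := by
            unfold Om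
            rw [chi_of_le hc2]
            simp
          rw [this]
          linarith
        · rcases le_total 1 x with h6 | h6
          · rw [cl_of_ge h6, mul_one]
            have e4 : c + D = lam := by rw [hD]; ring
            rw [e4]
            have h7 : Om lam ≤ Real.exp (-(4 * lam)) := Om_le_exp lam
            linarith
          · rw [cl_of_ge (by linarith : 1 ≤ x + 1), cl_of_le (by linarith : x - 1 ≤ 0)]
            have h7 : Om (c + D * cl x) ≤ 1 := by
              apply Om_le_one
              have := cl_nonneg x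
              positivity
            linarith
      refine s4.trans (le_of_eq ?_)
      have hsub : Continuous fun θ : Circle => cl (((y s + τ) - tent θ) / τ) -
          cl (((y s - τ) - tent θ) / τ) := (hcltent _).sub (hcltent _)
      rw [avg_add hsub continuous_const, avg_const,
        avg_sub (hcltent _) (hcltent _),
        mean_cl hτ0 (by linarith [hy1 s]) (by linarith [hy2 s]),
        mean_cl hτ0 (by linarith [hy1 s]) (by linarith [hy2 s])]
      ring
    rw [avg_const] at s3
    have s9 := (abs_le.1 k2).2
    linarith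

end Run7.h163
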