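import Pool.Agent.Run7.h163.AD

/-!
# Polynomials of bounded degree on the circle
-/

set_option autoImplicit false
set_option linter.unusedSectionVars false
set_option linter.unusedVariables false
set_option linter.deprecated false

open scoped ComplexConjugate InnerProductSpace InnerProduct
open ContinuousLinearMap

namespace Run7.h163

/-- polynomials of degree at most `n` -/
noncomputable def Pol (n : ℕ) : Submodule ℂ CA :=
  Submodule.span ℂ ((fun k : ℕ => zC ^ k) '' {k | k ≤ n})

lemma pow_mem_Pol {n k : ℕ} (h : k ≤ n) : zC ^ k ∈ Pol n := Submodule.subset_span ⟨k, h, rfl⟩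

lemma one_mem_Pol (n : ℕ) : (1 : CA) ∈ Pol n := by
  have := pow_mem_Pol (Nat.zero_le n)
  rwa [pow_zero] at this

lemma Pol_induction {n : ℕ} {P : CA → Prop} (hadd : ∀ f g, P f → P g → P (f + g))
    (hsmul : ∀ (c : ℂ) f, P f → P (c • f)) (h0 : P 0) (hpow : ∀ k ≤ n, P (zC ^ k)) :
    ∀ f ∈ Pol n, P f := by
  intro f hf
  induction hf using Submodule.span_induction with
  | mem x h =>
    obtain ⟨k, hk, rfl⟩ := h
    exact hpow k hk
  | zero => exact h0
  | add x y _ _ hx hy => exact hadd _ _ hx hy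
  | smul c x _ hx => exact hsmul _ _ hx

lemma Pol_mono {n m : ℕ} (h : n ≤ m) {f : CA} (hf : f ∈ Pol n) : f ∈ Pol m :=
  Pol_induction (P := fun f => f ∈ Pol m) (fun _ _ => (Pol m).add_mem)
    (fun c _ => (Pol m).smul_mem c) (Pol m).zero_mem (fun k hk => pow_mem_Pol (hk.trans h)) f hf

lemma Pol_AD {n : ℕ} {f : CA} (hf : f ∈ Pol n) : f ∈ AD :=
  Pol_induction (P := fun f => f ∈ AD) (fun _ _ => AD.add_mem)
    (fun c _ hf => AD.smul_mem hf c) AD.zero_mem (fun k _ => AD.pow_mem zC_mem k) f hf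

lemma zC_pow_mul_star {k N : ℕ} (h : k ≤ N) : zC ^ N * star (zC ^ k) = zC ^ (N - k) := by
  rw [← zp_natCast, ← zp_natCast, ← zp_natCast, ← zp_neg, ← zp_add]
  congr 1
  omega

lemma Pol_rev {n N : ℕ} (h : n ≤ N) {f : CA} (hf : f ∈ Pol n) : zC ^ N * star f ∈ Pol N :=
  Pol_induction (P := fun f => zC ^ N * star f ∈ Pol N)
    (fun f g hf hg => by rw [star_add, mul_add]; exact (Pol N).add_mem hf hg)
    (fun c f hf => by rw [star_smul, mul_smul_comm]; exact (Pol N).smul_mem _ hf)
    (by simp) (fun k hk => by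
      rw [zC_pow_mul_star (hk.trans h)]
      exact pow_mem_Pol (Nat.sub_le _ _)) f hf

end Run7.h163
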