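import Pool.Agent.Run7.h163.SD
import Pool.Agent.Run7.h163.KZ
import Pool.Agent.Run7.h163.FX

/-!
# The quadratic form `Q` and its basic inequality
-/

set_option autoImplicit false
set_option linter.unusedSectionVars false
set_option linter.unusedVariables false
set_option linter.deprecated false

open scoped ComplexConjugate InnerProductSpace InnerProduct
open ContinuousLinearMap Filter Topology Finset

namespace Run7.h163

lemma PZ_step (i : ℤ) (y : KZ) : ‖PZ i y‖ ^ 2 = ‖PZ (i + 1) y‖ ^ 2 + ‖y i‖ ^ 2 := by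
  have h := PZ_pyth (i + 1) (PZ i y)
  rw [PZ_PZ (by omega)] at h
  rw [h]
  congr 1
  have h1 : PZ i y - PZ (i + 1) y = y i • bz i := by
    ext m
    change PZ i y m - PZ (i + 1) y m = y i * bz i m
    rw [PZ_apply, PZ_apply, bz_apply]
    by_cases h1 : m = i
    · subst h1
      simp
    · by_cases h2 : i ≤ m
      · rw [if_pos h2, if_pos (by omega), if_neg h1]; simp
      · rw [if_neg h2, if_neg (by omega), if_neg h1]; simp
  rw [h1, norm_smul, mul_pow]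
  have h2 : ‖bz i‖ ^ 2 = 1 := by
    have h3 : ((‖bz i‖ ^ 2 : ℝ) : ℂ) = 1 := by
      have h4 : ⟪bz i, bz i⟫_ℂ = 1 := by
        rw [inner_bz, bz_apply]; simp
      rw [inner_self_eq_norm_sq_to_K] at h4
      rw [← h4]
      simp
    exact_mod_cast h3
  rw [h2, mul_one]

lemma PZ_window (i : ℤ) (n : ℕ) (y : KZ) :
    ‖PZ (i - n) y - PZ i y‖ ^ 2 = ∑ j ∈ Icc 1 n, ‖y (i - j)‖ ^ 2 := by
  have h := PZ_pyth i (PZ (i - n) y)
  rw [PZ_PZ (by omega)] at h
  have h2 : ‖PZ (i - n) y‖ ^ 2 = ‖PZ i y‖ ^ 2 + ∑ j ∈ Icc 1 n, ‖y (i - j)‖ ^ 2 := by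
    clear h
    induction n with
    | zero => simp
    | succ n ih =>
      rw [PZ_step, sum_Icc_succ_top (by omega)]
      have e : i - ((n + 1 : ℕ) : ℤ) + 1 = i - n := by push_cast; ring
      rw [e, ih]
      ring
  linarith

namespace SUSeq
variable (s : SUSeq)

/-- the quadratic form at level `n0` -/
noncomputable def Q (n0 : ℕ) (y : KZ) : ℝ :=
  ∑' l : ℕ, sw s.N' s.cc n0 l * ‖PZ (-(l : ℤ)) y‖ ^ 2

lemma Q_summable_aux (n0 : ℕ) {v : ℕ → ℝ} {B : ℝ} (hv : ∀ l, 0 ≤ v l) (hB : ∀ l, v l ≤ B) :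
    Summable fun l => sw s.N' s.cc n0 l * v l := by
  refine Summable.of_nonneg_of_le (fun l => mul_nonneg (sw_nonneg s.cc_nonneg _ _) (hv l))
    (fun l => mul_le_mul_of_nonneg_left (hB l) (sw_nonneg s.cc_nonneg _ _))
    ((sw_summable n0).mul_right B)

lemma Q_summable (n0 : ℕ) (y : KZ) :
    Summable fun l : ℕ => sw s.N' s.cc n0 l * ‖PZ (-(l : ℤ)) y‖ ^ 2 :=
  s.Q_summable_aux n0 (fun _ => by positivity)
    (fun l => pow_le_pow_left₀ (norm_nonneg _) (PZ_norm_le _ y) 2)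

lemma Q_nonneg (n0 : ℕ) (y : KZ) : 0 ≤ s.Q n0 y :=
  tsum_nonneg fun l => mul_nonneg (sw_nonneg s.cc_nonneg _ _) (by positivity)

lemma coord_le (y : KZ) (m : ℤ) : ‖y m‖ ^ 2 ≤ ‖y‖ ^ 2 :=
  pow_le_pow_left₀ (norm_nonneg _) (lp.norm_apply_le_norm (by norm_num) y m) 2

lemma Q_Sh_adj (n0 : ℕ) (y : KZ) : s.Q n0 (adjoint Sh y) =
    s.Q n0 y - ∑' l : ℕ, sw s.N' s.cc n0 l * ‖y (-(l : ℤ))‖ ^ 2 := by
  unfold Q
  rw [← Summable.tsum_sub (s.Q_summable n0 y)
    (s.Q_summable_aux n0 (fun _ => by positivity) (fun l => coord_le y _))]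
  congr 1
  ext l
  rw [PZ_Sh_adj, norm_Sh_adj, PZ_step (-(l : ℤ)) y]
  ring

lemma Q_smul (n0 : ℕ) (c : ℂ) (y : KZ) : s.Q n0 (c • y) = ‖c‖ ^ 2 * s.Q n0 y := by
  unfold Q
  rw [← tsum_mul_left]
  congr 1
  ext l
  rw [map_smul, norm_smul]
  ring

lemma diff_bound (f : ℕ → CA) (hf0 : ∀ (i : ℤ) (y : KZ), PZ i (piS (f 0) (y - PZ i y)) = 0)
    (hf1 : ∀ n, f (n + 1) - f n ∈ Pol (s.N (n + 1)))
    (hf2 : ∀ n, ‖f (n + 1) - f n‖ ≤ 2 * s.a n) (n0 : ℕ) (i : ℤ) (y : KZ) :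
    ‖PZ i (piS (f n0) (y - PZ i y))‖ ≤
      ∑ n ∈ range n0, 2 * s.a n * ‖PZ (i - s.N' n) y - PZ i y‖ := by
  induction n0 with
  | zero => rw [hf0]; simp
  | succ n ih =>
    rw [sum_range_succ]
    have e : piS (f (n + 1)) (y - PZ i y) = piS (f n) (y - PZ i y) +
        piS (f (n + 1) - f n) (y - PZ i y) := by
      have e0 : piS (f (n + 1) - f n) = piS (f (n + 1)) - piS (f n) := map_sub _ _ _
      rw [e0, sub_apply]; abel
    rw [e, map_add]
    refine (norm_add_le _ _).trans (add_le_add ih ?_)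
    rw [PZ_Pol (hf1 n)]
    refine (PZ_norm_le _ _).trans ((piS_norm_apply _ _).trans ?_)
    have e2 : PZ (i - s.N (n + 1)) (y - PZ i y) = PZ (i - s.N' n) y - PZ i y := by
      rw [map_sub, PZ_PZ' (by omega)]
      rfl
    rw [e2]
    gcongr
    exact hf2 n

lemma diff_bound_sq (f : ℕ → CA) (hf0 : ∀ (i : ℤ) (y : KZ), PZ i (piS (f 0) (y - PZ i y)) = 0)
    (hf1 : ∀ n, f (n + 1) - f n ∈ Pol (s.N (n + 1)))
    (hf2 : ∀ n, ‖f (n + 1) - f n‖ ≤ 2 * s.a n) (n0 : ℕ) (i : ℤ) (y : KZ) :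
    ‖PZ i (piS (f n0) (y - PZ i y))‖ ^ 2 ≤
      ∑ n ∈ range n0, 4 * (s.cc n / s.N' n) * ∑ j ∈ Icc 1 (s.N' n), ‖y (i - j)‖ ^ 2 := by
  have h1 := s.diff_bound f hf0 hf1 hf2 n0 i y
  have h2 := pow_le_pow_left₀ (norm_nonneg _) h1 2
  refine h2.trans ?_
  have h3 := Finset.sum_sq_le_sum_mul_sum_of_sq_eq_mul (range n0)
    (r := fun n => 2 * s.a n * ‖PZ (i - s.N' n) y - PZ i y‖)
    (f := fun n => (1 / 2 : ℝ) ^ (n + 1))
    (g := fun n => 4 * (s.cc n / s.N' n) * ∑ j ∈ Icc 1 (s.N' n), ‖y (i - j)‖ ^ 2)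
    (fun n _ => by positivity)
    (fun n _ => by
      have := s.cc_nonneg n
      positivity)
    (fun n _ => by
      have hN : (s.N' n : ℝ) ≠ 0 := by
        have := s.N'_pos n
        positivity
      rw [← PZ_window]
      have e : s.cc n / s.N' n = 2 ^ (n + 1) * s.a n ^ 2 := by
        unfold cc
        have : (s.N (n + 1) : ℝ) = s.N' n := rfl
        rw [this]
        field_simp
      rw [e]
      have e2 : (1 / 2 : ℝ) ^ (n + 1) * 2 ^ (n + 1) = 1 := by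
        rw [← mul_pow]; norm_num
      calc (2 * s.a n * ‖PZ (i - s.N' n) y - PZ i y‖) ^ 2
          = 4 * s.a n ^ 2 * ‖PZ (i - s.N' n) y - PZ i y‖ ^ 2 := by ring
        _ = ((1 / 2 : ℝ) ^ (n + 1) * 2 ^ (n + 1)) *
            (4 * s.a n ^ 2 * ‖PZ (i - s.N' n) y - PZ i y‖ ^ 2) := by rw [e2, one_mul]
        _ = _ := by ring)
  refine h3.trans ?_
  have h4 := half_sum n0
  have h5 : 0 ≤ ∑ n ∈ range n0, 4 * (s.cc n / s.N' n) *
      ∑ j ∈ Icc 1 (s.N' n), ‖y (i - j)‖ ^ 2 :=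
    sum_nonneg fun n _ => by
      have := s.cc_nonneg n
      positivity
  nlinarith

lemma conv_tsum (n0 : ℕ) (j : ℕ) {v : ℕ → ℝ} {B : ℝ} (hv : ∀ l, 0 ≤ v l) (hB : ∀ l, v l ≤ B) :
    Summable (fun p => (if j ≤ p then sw s.N' s.cc n0 (p - j) else 0) * v p) ∧
    ∑' l, sw s.N' s.cc n0 l * v (l + j) =
      ∑' p, (if j ≤ p then sw s.N' s.cc n0 (p - j) else 0) * v p := by
  have h1 : Summable fun l => sw s.N' s.cc n0 l * v (l + j) :=
    s.Q_summable_aux n0 (fun l => hv _) (fun l => hB _)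
  have e : (fun l => (if j ≤ l + j then sw s.N' s.cc n0 (l + j - j) else 0) * v (l + j)) =
      fun l => sw s.N' s.cc n0 l * v (l + j) := by
    ext l
    rw [if_pos (by omega), Nat.add_sub_cancel]
  have h2 : Summable (fun p => (if j ≤ p then sw s.N' s.cc n0 (p - j) else 0) * v p) := by
    rw [← summable_nat_add_iff j]
    simp only [e]
    exact h1
  refine ⟨h2, ?_⟩
  rw [← h2.sum_add_tsum_nat_add j, e]
  have h3 : ∑ i ∈ range j, (if j ≤ i then sw s.N' s.cc n0 (i - j) else 0) * v i = 0 := by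
    apply sum_eq_zero
    intro i hi
    rw [if_neg (by have := mem_range.1 hi; omega), zero_mul]
  rw [h3, zero_add]

/-- the column inequality for `Q` -/
lemma Q_column (hcs : ∀ n0, ∑ n ∈ range n0, s.cc n ≤ 1 / 200) (n0 : ℕ) (y : KZ) :
    s.Q n0 (piS (s.C n0) y) + s.Q n0 (piS (s.A n0) y) + 1 / 2 * ‖y 0‖ ^ 2 ≤
      s.Q n0 y + ∑' l : ℕ, sw s.N' s.cc n0 l * ‖y (-(l : ℤ))‖ ^ 2 := by
  set v : ℕ → ℝ := fun p => ‖y (-(p : ℤ))‖ ^ 2 with hv
  have hv0 : ∀ l, 0 ≤ v l := fun l => by positivity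
  have hvB : ∀ l, v l ≤ ‖y‖ ^ 2 := fun l => coord_le y _
  -- pointwise bound
  have h1 : ∀ l : ℕ, ‖PZ (-(l : ℤ)) (piS (s.C n0) y)‖ ^ 2 + ‖PZ (-(l : ℤ)) (piS (s.A n0) y)‖ ^ 2 ≤
      ‖PZ (-(l : ℤ)) y‖ ^ 2 +
        ∑ n ∈ range n0, 8 * (s.cc n / s.N' n) * ∑ j ∈ Icc 1 (s.N' n), v (l + j) := by
    intro l
    rw [column_identity (Pol_AD (s.mem_Pol n0).1) (Pol_AD (s.mem_Pol n0).2) (s.unit n0)]
    have hc := s.diff_bound_sq s.C (fun i y => by
      rw [s.C_zero, map_one, one_apply_eq_self, map_sub, PZ_PZ' le_rfl, sub_self])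
      (fun n => (s.diff_mem n).1) (fun n => (s.diff_norm n).1) n0 (-(l : ℤ)) y
    have ha := s.diff_bound_sq s.A (fun i y => by
      rw [s.A_zero, map_zero, zero_apply, map_zero])
      (fun n => (s.diff_mem n).2) (fun n => (s.diff_norm n).2) n0 (-(l : ℤ)) y
    have e : ∑ n ∈ range n0, 8 * (s.cc n / s.N' n) * ∑ j ∈ Icc 1 (s.N' n), v (l + j) =
        ∑ n ∈ range n0, 4 * (s.cc n / s.N' n) * ∑ j ∈ Icc 1 (s.N' n), ‖y (-(l : ℤ) - j)‖ ^ 2 +
        ∑ n ∈ range n0, 4 * (s.cc n / s.N' n) *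
          ∑ j ∈ Icc 1 (s.N' n), ‖y (-(l : ℤ) - j)‖ ^ 2 := by
      rw [← sum_add_distrib]
      refine sum_congr rfl fun n _ => ?_
      have e1 : ∀ j : ℕ, v (l + j) = ‖y (-(l : ℤ) - j)‖ ^ 2 := by
        intro j
        change ‖y (-((l + j : ℕ) : ℤ))‖ ^ 2 = _
        have : -((l + j : ℕ) : ℤ) = -(l : ℤ) - j := by push_cast; ring
        rw [this]
      simp_rw [e1]
      ring
    rw [e]
    linarith
  set u : ℕ → ℝ := fun l => ∑ n ∈ range n0, 8 * (s.cc n / s.N' n) *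
    ∑ j ∈ Icc 1 (s.N' n), v (l + j) with hu
  have hsw := fun l => sw_nonneg (N := s.N') s.cc_nonneg n0 l
  have huS : Summable fun l => sw s.N' s.cc n0 l * u l := by
    refine s.Q_summable_aux n0 (B := ∑ n ∈ range n0, 8 * (s.cc n / s.N' n) *
      ∑ j ∈ Icc 1 (s.N' n), ‖y‖ ^ 2) (fun l => ?_) (fun l => ?_)
    · refine sum_nonneg fun n _ => ?_
      have := s.cc_nonneg n
      have : 0 ≤ ∑ j ∈ Icc 1 (s.N' n), v (l + j) := sum_nonneg fun j _ => hv0 _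
      positivity
    · refine sum_le_sum fun n _ => ?_
      have := s.cc_nonneg n
      have : ∑ j ∈ Icc 1 (s.N' n), v (l + j) ≤ ∑ j ∈ Icc 1 (s.N' n), ‖y‖ ^ 2 :=
        sum_le_sum fun j _ => hvB _
      gcongr
  have h2 : s.Q n0 (piS (s.C n0) y) + s.Q n0 (piS (s.A n0) y) ≤
      s.Q n0 y + ∑' l, sw s.N' s.cc n0 l * u l := by
    unfold Q
    rw [← Summable.tsum_add (s.Q_summable n0 _) (s.Q_summable n0 _),
      ← Summable.tsum_add (s.Q_summable n0 _) huS]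
    refine Summable.tsum_le_tsum (fun l => ?_)
      ((s.Q_summable n0 _).add (s.Q_summable n0 _)) ((s.Q_summable n0 _).add huS)
    rw [← mul_add, ← mul_add]
    exact mul_le_mul_of_nonneg_left (h1 l) (hsw l)
  -- exchange of sums
  set t : ℕ → ℝ := fun p => ∑ n ∈ range n0, 8 * (s.cc n / s.N' n) *
    ∑ j ∈ Icc 1 (s.N' n), (if j ≤ p then sw s.N' s.cc n0 (p - j) else 0) with ht
  have hconv : ∀ j, Summable (fun p => (if j ≤ p then sw s.N' s.cc n0 (p - j) else 0) * v p) :=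
    fun j => (s.conv_tsum n0 j hv0 hvB).1
  have hconv2 : ∀ j, Summable fun l => sw s.N' s.cc n0 l * v (l + j) := fun j =>
    s.Q_summable_aux n0 (fun l => hv0 _) (fun l => hvB _)
  have h3 : ∑' l, sw s.N' s.cc n0 l * u l = ∑' p, t p * v p := by
    have e1 : (fun l => sw s.N' s.cc n0 l * u l) = fun l =>
        ∑ n ∈ range n0, ∑ j ∈ Icc 1 (s.N' n),
          8 * (s.cc n / s.N' n) * (sw s.N' s.cc n0 l * v (l + j)) := by
      ext l
      rw [hu, mul_sum]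
      refine sum_congr rfl fun n _ => ?_
      rw [mul_sum, mul_sum]
      refine sum_congr rfl fun j _ => ?_
      ring
    have e2 : (fun p => t p * v p) = fun p =>
        ∑ n ∈ range n0, ∑ j ∈ Icc 1 (s.N' n),
          8 * (s.cc n / s.N' n) * ((if j ≤ p then sw s.N' s.cc n0 (p - j) else 0) * v p) := by
      ext p
      rw [ht, sum_mul]
      refine sum_congr rfl fun n _ => ?_
      rw [mul_sum, sum_mul]
      refine sum_congr rfl fun j _ => ?_
      ring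
    rw [e1, e2, Summable.tsum_finsetSum (fun n _ => summable_sum fun j _ =>
      (hconv2 j).mul_left _), Summable.tsum_finsetSum (fun n _ => summable_sum fun j _ =>
      (hconv j).mul_left _)]
    refine sum_congr rfl fun n _ => ?_
    rw [Summable.tsum_finsetSum (fun j _ => (hconv2 j).mul_left _),
      Summable.tsum_finsetSum (fun j _ => (hconv j).mul_left _)]
    refine sum_congr rfl fun j _ => ?_
    rw [tsum_mul_left, tsum_mul_left, (s.conv_tsum n0 j hv0 hvB).2]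
  have htS : Summable fun p => t p * v p := by
    have e2 : (fun p => t p * v p) = fun p =>
        ∑ n ∈ range n0, ∑ j ∈ Icc 1 (s.N' n),
          8 * (s.cc n / s.N' n) * ((if j ≤ p then sw s.N' s.cc n0 (p - j) else 0) * v p) := by
      ext p
      rw [ht, sum_mul]
      refine sum_congr rfl fun n _ => ?_
      rw [mul_sum, sum_mul]
      refine sum_congr rfl fun j _ => ?_
      ring
    rw [e2]
    exact summable_sum fun n _ => summable_sum fun j _ => (hconv j).mul_left _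
  have hswS : Summable fun p => sw s.N' s.cc n0 p * v p :=
    s.Q_summable_aux n0 hv0 hvB
  have h4 : ∑' p, t p * v p + 1 / 2 * ‖y 0‖ ^ 2 ≤ ∑' p, sw s.N' s.cc n0 p * v p := by
    rw [htS.tsum_eq_zero_add, hswS.tsum_eq_zero_add]
    have e0 : t 0 = 0 := by
      rw [ht]
      apply sum_eq_zero
      intro n _
      rw [sum_eq_zero, mul_zero]
      intro j hj
      rw [if_neg (by have := (mem_Icc.1 hj).1; omega)]
    have e1 : sw s.N' s.cc n0 0 = 1 / 2 := by simp [sw]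
    have e2 : v 0 = ‖y 0‖ ^ 2 := by simp [hv]
    rw [e0, e1, e2]
    have h5 : ∑' p, t (p + 1) * v (p + 1) ≤ ∑' p, sw s.N' s.cc n0 (p + 1) * v (p + 1) := by
      refine Summable.tsum_le_tsum (fun p => ?_)
        ((summable_nat_add_iff (f := fun p => t p * v p) 1).2 htS)
        ((summable_nat_add_iff (f := fun p => sw s.N' s.cc n0 p * v p) 1).2 hswS)
      refine mul_le_mul_of_nonneg_right ?_ (hv0 _)
      exact scalar_ineq s.N'_pos s.N'_mono s.cc_nonneg hcs n0 (p + 1) (by omega)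
    linarith
  rw [h3] at h2
  linarith

/-- the basic inequality -/
theorem Q_ineq (hcs : ∀ n0, ∑ n ∈ range n0, s.cc n ≤ 1 / 200) (n0 : ℕ) (y : KZ) :
    1 / 4 * ‖y 0‖ ^ 2 + s.Q n0 ((bb : ℂ) • adjoint Sh y) + s.Q n0 ((bb : ℂ) • piS (s.C n0) y) +
      s.Q n0 ((bb : ℂ) • piS (s.A n0) y) ≤ s.Q n0 y := by
  have h1 := s.Q_column hcs n0 y
  have h2 := s.Q_Sh_adj n0 y
  rw [s.Q_smul, s.Q_smul, s.Q_smul, norm_bb, bb_sq, h2]
  linarith

lemma Q_le (hcs : ∀ n0, ∑ n ∈ range n0, s.cc n ≤ 1 / 200) (n0 : ℕ) (y : KZ) :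
    s.Q n0 y ≤ ‖y‖ ^ 2 := by
  unfold Q
  have h1 : ∑' l : ℕ, sw s.N' s.cc n0 l * ‖PZ (-(l : ℤ)) y‖ ^ 2 ≤
      ∑' l : ℕ, sw s.N' s.cc n0 l * ‖y‖ ^ 2 := by
    refine Summable.tsum_le_tsum (fun l => ?_) (s.Q_summable n0 y) ((sw_summable n0).mul_right _)
    exact mul_le_mul_of_nonneg_left (pow_le_pow_left₀ (norm_nonneg _) (PZ_norm_le _ y) 2)
      (sw_nonneg s.cc_nonneg _ _)
  refine h1.trans ?_
  rw [tsum_mul_right]
  have h2 := sw_total s.cc_nonneg hcs n0 (N := s.N')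
  nlinarith [sq_nonneg ‖y‖]

end SUSeq

end Run7.h163
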