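import Pool.Agent.Run7.h163.FQ
import Pool.Agent.Run7.h163.MN

/-!
# The correcting trigonometric polynomials
-/

set_option autoImplicit false
set_option linter.unusedSectionVars false
set_option linter.unusedVariables false
set_option linter.deprecated false

open scoped ComplexConjugate
open Filter Topology

namespace Run7.h163

lemma TP1_AD {P : CA} (hP : P ∈ TP1) : ∃ m : ℕ, zC ^ m * P ∈ AD := by
  induction hP using Submodule.span_induction with
  | mem x h =>
    obtain ⟨k, rfl⟩ := h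
    refine ⟨k.natAbs, ?_⟩
    obtain ⟨n, hn⟩ := Int.eq_ofNat_of_zero_le (by omega : 0 ≤ (k.natAbs : ℤ) + k)
    rw [← zp_natCast, ← zp_add, hn]
    have : zp (Int.ofNat n) = zC ^ n := zp_natCast n
    rw [← this] at *
    rw [show ((n : ℕ) : ℤ) = Int.ofNat n from rfl, this]
    exact AD.pow_mem zC_mem n
  | zero => exact ⟨0, by simp [AD.zero_mem]⟩
  | add x y _ _ hx hy =>
    obtain ⟨m1, h1⟩ := hx
    obtain ⟨m2, h2⟩ := hy
    refine ⟨m1 + m2, ?_⟩
    have : zC ^ (m1 + m2) * (x + y) = zC ^ m2 * (zC ^ m1 * x) + zC ^ m1 * (zC ^ m2 * y) := by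
      rw [pow_add]; ring
    rw [this]
    exact AD.add_mem (AD.mul_mem (AD.pow_mem zC_mem _) h1) (AD.mul_mem (AD.pow_mem zC_mem _) h2)
  | smul c x _ hx =>
    obtain ⟨m1, h1⟩ := hx
    exact ⟨m1, by rw [mul_smul_comm]; exact AD.smul_mem h1 c⟩

theorem lemmaQ (h : CA) (hpos : ∀ w, 0 ≤ (h w).re) (η : ℝ) (hη : 0 < η) :
    ∃ (q : CA) (dq : ℕ), zC ^ dq * q ∈ AD ∧ (∀ w, ‖cexp h w + q w‖ ≤ 3) ∧
      avg (fun w => ‖(cexp (-h) w) ^ 3 * q w‖ ^ 2) ≤
        8 * avg (fun w => Om (h w).re) + 2 * η ^ 2 := by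
  have hchi := chi_continuous
  let q' : CA := ⟨fun w => (chi (h w).re : ℂ) * (conj (cexp (-h) w) - cexp h w), by fun_prop⟩
  obtain ⟨q, hq, hd⟩ := TP1_dense q' (show 0 < min η (1 / 5) by positivity)
  obtain ⟨dq, hdq⟩ := TP1_AD hq
  have hclose : ∀ w, ‖q' w - q w‖ ≤ min η (1 / 5) := fun w =>
    ((q' - q).norm_coe_le_norm w).trans hd.le
  have hq'w : ∀ w, q' w = (chi (h w).re : ℂ) * (conj (cexp (-h) w) - cexp h w) := fun w => rfl
  have hΨ : ∀ w, ‖cexp h w‖ = Real.exp (h w).re := fun w => by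
    rw [cexp_apply, Complex.norm_exp]
  have hΦ : ∀ w, ‖cexp (-h) w‖ = Real.exp (-(h w).re) := fun w => by
    rw [cexp_apply, Complex.norm_exp]
    congr 1
  refine ⟨q, dq, hdq, fun w => ?_, ?_⟩
  · set ρ := (h w).re with hρ
    have hρ0 : 0 ≤ ρ := hpos w
    have e1 : cexp h w + q w = ((1 - chi ρ : ℝ) : ℂ) * cexp h w +
        (chi ρ : ℂ) * conj (cexp (-h) w) - (q' w - q w) := by
      rw [hq'w]
      push_cast
      ring
    have h1 : ‖((1 - chi ρ : ℝ) : ℂ) * cexp h w + (chi ρ : ℂ) * conj (cexp (-h) w)‖ ≤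
        (1 - chi ρ) * Real.exp ρ + chi ρ * Real.exp (-ρ) := by
      refine (norm_add_le _ _).trans (le_of_eq ?_)
      rw [norm_mul, norm_mul, RCLike.norm_conj, hΨ, hΦ, Complex.norm_real, Complex.norm_real,
        Real.norm_eq_abs, Real.norm_eq_abs, abs_of_nonneg (chi_nonneg ρ),
        abs_of_nonneg (by linarith [chi_le ρ])]
    have h2 : (1 - chi ρ) * Real.exp ρ + chi ρ * Real.exp (-ρ) ≤ 2.75 := by
      have a1 := chi_nonneg ρ
      have a2 := chi_le ρ
      have a3 : Real.exp (-ρ) ≤ 1 := by rw [Real.exp_le_one_iff]; linarith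
      rcases le_total ρ 1 with h3 | h3
      · have h4 : Real.exp ρ ≤ 2.75 := (Real.exp_le_exp.2 h3).trans
          (Real.exp_one_lt_d9.le.trans (by norm_num))
        have := Real.exp_pos ρ
        nlinarith
      · rw [chi_of_ge h3]
        linarith
    have h3 := (hclose w).trans (min_le_right _ _)
    rw [e1]
    refine (norm_sub_le _ _).trans ?_
    have : (2.75 : ℝ) + 1 / 5 ≤ 3 := by norm_num
    linarith
  · rw [← avg_rmul]
    have hOm := Om_continuous
    have e0 : avg (fun w => 8 * Om (h w).re) + 2 * η ^ 2 =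
        avg (fun w => 8 * Om (h w).re + 2 * η ^ 2) := by
      rw [avg_add (by fun_prop) (by fun_prop), avg_const]
    rw [e0]
    refine avg_mono (by fun_prop) (by fun_prop) fun w => ?_
    set ρ := (h w).re with hρ
    have hρ0 : 0 ≤ ρ := hpos w
    have h1 : ‖(cexp (-h) w) ^ 3 * q w‖ ≤ 2 * (chi ρ * Real.exp (-(2 * ρ))) + η := by
      have e1 : (cexp (-h) w) ^ 3 * q w = (cexp (-h) w) ^ 3 * q' w -
          (cexp (-h) w) ^ 3 * (q' w - q w) := by ring
      rw [e1]
      refine (norm_sub_le _ _).trans (add_le_add ?_ ?_)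
      · rw [norm_mul, norm_pow, hΦ, hq'w, norm_mul, Complex.norm_real, Real.norm_eq_abs,
          abs_of_nonneg (chi_nonneg _)]
        have h2 : ‖conj (cexp (-h) w) - cexp h w‖ ≤ 2 * Real.exp ρ := by
          refine (norm_sub_le _ _).trans ?_
          rw [RCLike.norm_conj, hΦ, hΨ]
          have : Real.exp (-ρ) ≤ Real.exp ρ := Real.exp_le_exp.2 (by linarith)
          linarith
        have h3 : Real.exp (-ρ) ^ 3 * Real.exp ρ = Real.exp (-(2 * ρ)) := by
          rw [← Real.exp_nat_mul, ← Real.exp_add]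
          congr 1
          push_cast
          ring
        calc Real.exp (-ρ) ^ 3 * (chi ρ * ‖conj (cexp (-h) w) - cexp h w‖)
            ≤ Real.exp (-ρ) ^ 3 * (chi ρ * (2 * Real.exp ρ)) := by
              have := chi_nonneg ρ
              gcongr
          _ = 2 * (chi ρ * (Real.exp (-ρ) ^ 3 * Real.exp ρ)) := by ring
          _ = _ := by rw [h3]
      · rw [norm_mul, norm_pow, hΦ]
        have h2 := (hclose w).trans (min_le_left _ _)
        have h3 : Real.exp (-ρ) ≤ 1 := by rw [Real.exp_le_one_iff]; linarith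
        have h4 : Real.exp (-ρ) ^ 3 ≤ 1 := pow_le_one₀ (Real.exp_pos _).le h3
        have h5 := norm_nonneg (q' w - q w)
        nlinarith
    have h2 := pow_le_pow_left₀ (norm_nonneg _) h1 2
    refine h2.trans ?_
    have e2 : Om ρ = (chi ρ * Real.exp (-(2 * ρ))) ^ 2 := by
      unfold Om
      rw [mul_pow, ← Real.exp_nat_mul]
      congr 2
      push_cast
      ring
    rw [e2]
    nlinarith [sq_nonneg (2 * (chi ρ * Real.exp (-(2 * ρ))) - η)]

end Run7.h163
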