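import Pool.Agent.Run7.h163.LG
import Pool.Agent.Run7.h163.QQ

/-!
# Construction of the data
-/

set_option autoImplicit false
set_option linter.unusedSectionVars false
set_option linter.unusedVariables false
set_option linter.deprecated false

open scoped ComplexConjugate
open Filter Topology Finset

namespace Run7.h163

/-- the small parameters -/
noncomputable def eps (n : ℕ) : ℝ := (1 / 40) * (1 / 4) ^ n * Real.exp (-(10 * n + 1))

lemma eps_pos (n : ℕ) : 0 < eps n := by unfold eps; positivity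

lemma eps_le (n : ℕ) : eps n ≤ 1 / 40 * (1 / 4) ^ n := by
  unfold eps
  have h1 : Real.exp (-(10 * n + 1)) ≤ 1 := by
    rw [Real.exp_le_one_iff]
    have : (0 : ℝ) ≤ n := Nat.cast_nonneg n
    linarith
  have h2 : (0 : ℝ) ≤ 1 / 40 * (1 / 4) ^ n := by positivity
  nlinarith

lemma eps_le' (n : ℕ) : eps n ≤ 1 / 40 := by
  refine (eps_le n).trans ?_
  have : (1 / 4 : ℝ) ^ n ≤ 1 := pow_le_one₀ (by norm_num) (by norm_num)
  linarith

/-- a stage of the construction -/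
structure Stage (n : ℕ) where
  N : ℕ
  a' : ℝ
  C : CA
  A : CA
  Mx : ℕ
  h : CA
  N_pos : 1 ≤ N
  a'_pos : 0 < a'
  C_mem : C ∈ Pol N
  A_mem : A ∈ Pol N
  h_mem : h ∈ AD
  h_avg : avgL h = 1
  h_pos : ∀ w, 0 < (h w).re
  h_le : ∀ w, (h w).re ≤ 10 * n + 1
  h_Om : avg (fun w => Om (h w).re) ≤ 2 * Real.exp (-(40 * n))
  h_min : avg (fun w => min 1 (h w).re) ≤ 4 / (10 * n + 1)

/-- the relation between consecutive stages -/
structure Rel (d n : ℕ) (s : Stage n) (t : Stage (n + 1)) (q : CA) (dq : ℕ) : Prop where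
  a_eq : t.a' = eps n / √t.N
  a_le : t.a' ≤ 1 / 8
  a_half : t.a' ≤ s.a' / 2
  N_large : 2 * (s.N + dq) ≤ t.N
  a_Mx : 8 * t.a' * √s.Mx ≤ 1
  lip : ∃ K1 K2 K3 K4 : ℝ, 0 ≤ K1 ∧ 0 ≤ K2 ∧ 0 ≤ K3 ∧ 0 ≤ K4 ∧
    LipB d s.C K1 ∧ LipB d s.A K2 ∧ LipB d (zC ^ s.N * star s.A) K3 ∧
    LipB d (zC ^ s.N * star s.C) K4 ∧
    t.a' ^ 2 * t.N + 2 * t.a' * (K1 + K2 + K3 + K4) ≤ 1 / 4 * (1 / 2) ^ n
  C_eq : t.C = ((√(1 - t.a' ^ 2) : ℝ) : ℂ) • s.C - (t.a' : ℂ) • (zC ^ t.N * star s.A)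
  A_eq : t.A = ((√(1 - t.a' ^ 2) : ℝ) : ℂ) • s.A + (t.a' : ℂ) • (zC ^ t.N * star s.C)
  Mx_N : 2 * t.N ≤ t.Mx
  Mx_ge : n + 1 ≤ t.Mx
  Mx_mono : s.Mx ≤ t.Mx
  q_norm : ‖q‖ ≤ t.a' * √t.Mx
  approx : ∃ p : Polynomial ℂ, p.natDegree < t.Mx ∧ ‖cexp (-s.h) - polyHom p‖ ≤ (1 / 2) ^ n
  wt : ((t.N : ℝ) / (t.N + 1)) ^ t.Mx * Real.exp (2 * (10 * (n + 1) + 1)) ≤ (1 / 4) ^ (n + 1)
  h_dv : t.h - s.h ∈ DV t.Mx
  q_mem : zC ^ dq * q ∈ AD
  q_near : ∀ w, ‖cexp s.h w + q w‖ ≤ 3
  q_l2 : avg (fun w => ‖(cexp (-s.h) w) ^ 3 * q w‖ ^ 2) ≤ 18 * Real.exp (-(40 * n))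

lemma avgL_DV {M : ℕ} (hM : 1 ≤ M) {f : CA} (hf : f ∈ DV M) : avgL f = 0 := by
  obtain ⟨g, hg, rfl⟩ := DV_eq hf
  rw [avgL_mul (AD.pow_mem zC_mem M) hg, avg_zC_pow M (by omega), zero_mul]

theorem exists_next (d n : ℕ) (s : Stage n) :
    ∃ (t : Stage (n + 1)) (q : CA) (dq : ℕ), Rel d n s t q dq := by
  obtain ⟨q, dq, hq1, hq2, hq3⟩ := lemmaQ s.h (fun w => (s.h_pos w).le)
    (Real.exp (-(20 * n))) (Real.exp_pos _)
  obtain ⟨K1, k1, l1⟩ := exists_LipB (d := d) s.C_mem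
  obtain ⟨K2, k2, l2⟩ := exists_LipB (d := d) s.A_mem
  obtain ⟨K3, k3, l3⟩ := exists_LipB (d := d) (Pol_rev le_rfl s.A_mem)
  obtain ⟨K4, k4, l4⟩ := exists_LipB (d := d) (Pol_rev le_rfl s.C_mem)
  set K := K1 + K2 + K3 + K4 with hK
  have hK0 : 0 ≤ K := by positivity
  have hsa := s.a'_pos
  set thr := min (1 / 8 : ℝ) (min (s.a' / 2) (min (1 / (8 * (√s.Mx + 1)))
    (1 / 16 * (1 / 2) ^ n / (K + 1)))) with hthr
  have hthr0 : 0 < thr := by positivity
  have hsqrt : Tendsto (fun N : ℕ => √(N : ℝ)) atTop atTop :=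
    Real.tendsto_sqrt_atTop.comp tendsto_natCast_atTop_atTop
  have htend : Tendsto (fun N : ℕ => eps n / √(N : ℝ)) atTop (𝓝 0) :=
    tendsto_const_nhds.div_atTop hsqrt
  obtain ⟨N, hN1, hN2⟩ := ((htend.eventually (gt_mem_nhds hthr0)).and
    (eventually_ge_atTop (2 * (s.N + dq) + 1))).exists
  set a := eps n / √(N : ℝ) with ha
  have hNpos : (0 : ℝ) < N := by
    have : 0 < N := by omega
    exact_mod_cast this
  have ha0 : 0 < a := div_pos (eps_pos n) (Real.sqrt_pos.2 hNpos)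
  have ha1 : a ≤ 1 / 8 := hN1.le.trans (min_le_left _ _)
  have ha2 : a ≤ s.a' / 2 := hN1.le.trans ((min_le_right _ _).trans (min_le_left _ _))
  have ha3 : a ≤ 1 / (8 * (√s.Mx + 1)) :=
    hN1.le.trans ((min_le_right _ _).trans ((min_le_right _ _).trans (min_le_left _ _)))
  have ha4 : a ≤ 1 / 16 * (1 / 2) ^ n / (K + 1) :=
    hN1.le.trans ((min_le_right _ _).trans ((min_le_right _ _).trans (min_le_right _ _)))
  have haN : a ^ 2 * N = eps n ^ 2 := by
    rw [ha, div_pow, Real.sq_sqrt hNpos.le]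
    field_simp
  obtain ⟨p, hp⟩ := AD_approx (cexp_mem (AD.neg_mem s.h_mem))
    (show (0 : ℝ) < (1 / 2) ^ n by positivity)
  -- choice of the next `Mx`
  have hx0 : (0 : ℝ) ≤ (N : ℝ) / (N + 1) := by positivity
  have hx1 : (N : ℝ) / (N + 1) < 1 := by
    rw [div_lt_one (by positivity)]
    linarith
  have hpow : Tendsto (fun M : ℕ => ((N : ℝ) / (N + 1)) ^ M *
      Real.exp (2 * (10 * (n + 1) + 1))) atTop (𝓝 0) := by
    have := (tendsto_pow_atTop_nhds_zero_of_lt_one hx0 hx1).mul_const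
      (Real.exp (2 * (10 * ((n : ℝ) + 1) + 1)))
    rwa [zero_mul] at this
  have hsq2 : Tendsto (fun M : ℕ => a * √(M : ℝ)) atTop atTop := hsqrt.const_mul_atTop ha0
  obtain ⟨Mx, hM1, hM2, hM3⟩ := ((hpow.eventually (gt_mem_nhds
    (show (0 : ℝ) < (1 / 4) ^ (n + 1) by positivity))).and
    ((hsq2.eventually_ge_atTop ‖q‖).and
      (eventually_ge_atTop (2 * N + n + 1 + s.Mx + p.natDegree + 1)))).exists
  obtain ⟨h', hh1, hh2, hh3, hh4, hh5⟩ := lemmaG s.h s.h_avg s.h_pos (10 * n + 1)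
    (10 * (n + 1)) s.h_le (by linarith) (by
      have : (0 : ℝ) ≤ n := Nat.cast_nonneg n
      linarith) (Real.exp (-(40 * (n + 1)))) (Real.exp_pos _) Mx
  have hn0 : (0 : ℝ) ≤ n := Nat.cast_nonneg n
  have hC' : ((√(1 - a ^ 2) : ℝ) : ℂ) • s.C - (a : ℂ) • (zC ^ N * star s.A) ∈ Pol N :=
    (Pol _).sub_mem ((Pol _).smul_mem _ (Pol_mono (by omega) s.C_mem))
      ((Pol _).smul_mem _ (Pol_rev (by omega) s.A_mem))
  have hA' : ((√(1 - a ^ 2) : ℝ) : ℂ) • s.A + (a : ℂ) • (zC ^ N * star s.C) ∈ Pol N :=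
    (Pol _).add_mem ((Pol _).smul_mem _ (Pol_mono (by omega) s.A_mem))
      ((Pol _).smul_mem _ (Pol_rev (by omega) s.C_mem))
  have hh'mem : h' ∈ AD := by
    have e : h' = (h' - s.h) + s.h := by abel
    rw [e]
    exact AD.add_mem (DV_AD hh1) s.h_mem
  have hh'avg : avgL h' = 1 := by
    have e : h' = (h' - s.h) + s.h := by abel
    rw [e, map_add, avgL_DV (by omega) hh1, s.h_avg, zero_add]
  let t : Stage (n + 1) :=
    { N := N
      a' := a
      C := ((√(1 - a ^ 2) : ℝ) : ℂ) • s.C - (a : ℂ) • (zC ^ N * star s.A)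
      A := ((√(1 - a ^ 2) : ℝ) : ℂ) • s.A + (a : ℂ) • (zC ^ N * star s.C)
      Mx := Mx
      h := h'
      N_pos := by omega
      a'_pos := ha0
      C_mem := hC'
      A_mem := hA'
      h_mem := hh'mem
      h_avg := hh'avg
      h_pos := hh2
      h_le := fun w => by
        refine (hh3 w).trans ?_
        push_cast
        linarith
      h_Om := by
        refine hh5.trans (le_of_eq ?_)
        push_cast
        have : -(4 * (10 * ((n : ℝ) + 1))) = -(40 * ((n : ℝ) + 1)) := by ring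
        rw [this]
        ring
      h_min := by
        refine hh4.trans ?_
        push_cast
        have h1 : Real.exp (-(40 * ((n : ℝ) + 1))) ≤ 1 / (40 * ((n : ℝ) + 1)) := by
          rw [Real.exp_neg, ← one_div]
          apply one_div_le_one_div_of_le (by positivity)
          have := Real.add_one_le_exp (40 * ((n : ℝ) + 1))
          linarith
        have h2 : 1 / (10 * ((n : ℝ) + 1)) + 1 / (40 * ((n : ℝ) + 1)) ≤
            4 / (10 * ((n : ℝ) + 1) + 1) := by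
          rw [div_add_div _ _ (by positivity) (by positivity), div_le_div_iff₀ (by positivity)
            (by positivity)]
          linarith [mul_nonneg hn0 hn0]
        linarith }
  refine ⟨t, q, dq, ?_⟩
  exact
    { a_eq := rfl
      a_le := ha1
      a_half := ha2
      N_large := by change 2 * (s.N + dq) ≤ N; omega
      a_Mx := by
        change 8 * a * √s.Mx ≤ 1
        have h1 : 0 ≤ √(s.Mx : ℝ) := Real.sqrt_nonneg _
        have h2 : a * (8 * (√s.Mx + 1)) ≤ 1 := by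
          rwa [le_div_iff₀ (by positivity)] at ha3
        linarith
      lip := ⟨K1, K2, K3, K4, k1, k2, k3, k4, l1, l2, l3, l4, by
        change a ^ 2 * (N : ℝ) + 2 * a * (K1 + K2 + K3 + K4) ≤ 1 / 4 * (1 / 2) ^ n
        rw [haN, ← hK]
        have h1 : a * (K + 1) ≤ 1 / 16 * (1 / 2) ^ n := by
          rwa [le_div_iff₀ (by positivity)] at ha4
        have h2 : 2 * a * K ≤ 1 / 8 * (1 / 2) ^ n := by linarith
        have h3 : eps n ^ 2 ≤ 1 / 8 * (1 / 2) ^ n := by
          have h4 := eps_le n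
          have h5 := (eps_pos n).le
          have h6 : eps n ^ 2 ≤ (1 / 40 * (1 / 4) ^ n) ^ 2 := pow_le_pow_left₀ h5 h4 2
          have h7 : (1 / 40 * (1 / 4 : ℝ) ^ n) ^ 2 = 1 / 1600 * ((1 / 16) ^ n) := by
            rw [mul_pow, ← pow_mul, mul_comm n 2, pow_mul]
            norm_num
          have h8 : (1 / 16 : ℝ) ^ n ≤ (1 / 2) ^ n :=
            pow_le_pow_left₀ (by norm_num) (by norm_num) n
          have h9 : (0 : ℝ) ≤ (1 / 2) ^ n := by positivity
          rw [h7] at h6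
          linarith
        linarith⟩
      C_eq := rfl
      A_eq := rfl
      Mx_N := by change 2 * N ≤ Mx; omega
      Mx_ge := by change n + 1 ≤ Mx; omega
      Mx_mono := by change s.Mx ≤ Mx; omega
      q_norm := hM2
      approx := ⟨p, by change p.natDegree < Mx; omega, hp.le⟩
      wt := hM1.le
      h_dv := hh1
      q_mem := hq1
      q_near := hq2
      q_l2 := by
        refine hq3.trans ?_
        have h1 := s.h_Om
        have h2 : Real.exp (-(20 * (n : ℝ))) ^ 2 = Real.exp (-(40 * n)) := by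
          rw [← Real.exp_nat_mul]
          congr 1
          push_cast
          ring
        rw [h2]
        linarith }

/-- the initial stage -/
noncomputable def stage0 : Stage 0 where
  N := 1
  a' := 1
  C := 1
  A := 0
  Mx := 1
  h := 1
  N_pos := le_rfl
  a'_pos := one_pos
  C_mem := one_mem_Pol 1
  A_mem := (Pol 1).zero_mem
  h_mem := AD.one_mem
  h_avg := avgL_one
  h_pos := fun w => by
    change 0 < (1 : ℂ).re
    simp
  h_le := fun w => by
    change (1 : ℂ).re ≤ _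
    simp
  h_Om := by
    have h1 : avg (fun w : Circle => Om ((1 : CA) w).re) ≤ avg (fun _ : Circle => (1 : ℝ)) := by
      refine avg_mono (Om_continuous.comp (by fun_prop)) continuous_const fun w => ?_
      exact Om_le_one (by
        change 0 ≤ (1 : ℂ).re
        simp)
    rw [avg_const] at h1
    refine h1.trans ?_
    norm_num
  h_min := by
    have h1 : avg (fun w : Circle => min 1 ((1 : CA) w).re) ≤ avg (fun _ : Circle => (1 : ℝ)) := by
      refine avg_mono (by fun_prop) continuous_const fun w => ?_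
      exact min_le_left _ _
    rw [avg_const] at h1
    refine h1.trans ?_
    norm_num

section
variable (d : ℕ)

/-- the sequence of stages -/
noncomputable def seqS : (n : ℕ) → Stage n
  | 0 => stage0
  | (n + 1) => (exists_next d n (seqS n)).choose

/-- the correcting functions -/
noncomputable def seqq (n : ℕ) : CA := (exists_next d n (seqS d n)).choose_spec.choose

/-- their negative degrees -/
noncomputable def seqd (n : ℕ) : ℕ := (exists_next d n (seqS d n)).choose_spec.choose_spec.choose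

lemma seq_rel (n : ℕ) : Rel d n (seqS d n) (seqS d (n + 1)) (seqq d n) (seqd d n) :=
  (exists_next d n (seqS d n)).choose_spec.choose_spec.choose_spec

/-- the rotations -/
noncomputable def suS : SUSeq where
  N n := (seqS d n).N
  a n := (seqS d (n + 1)).a'
  C n := (seqS d n).C
  A n := (seqS d n).A
  N_pos := (seqS d 0).N_pos
  N_mono n := by have := (seq_rel d n).N_large; omega
  a_pos n := (seqS d (n + 1)).a'_pos
  a_le n := (seq_rel d n).a_le
  a_half n := (seq_rel d (n + 1)).a_half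
  C_zero := rfl
  A_zero := rfl
  C_succ n := (seq_rel d n).C_eq
  A_succ n := (seq_rel d n).A_eq

lemma suS_aN (n : ℕ) : (suS d).a n * √((suS d).N (n + 1)) = eps n := by
  change (seqS d (n + 1)).a' * √((seqS d (n + 1)).N) = eps n
  rw [(seq_rel d n).a_eq]
  have : (0 : ℝ) < √((seqS d (n + 1)).N) := by
    apply Real.sqrt_pos.2
    have := (seqS d (n + 1)).N_pos
    exact_mod_cast this
  field_simp

lemma suS_aN2 (n : ℕ) : (suS d).a n ^ 2 * (suS d).N (n + 1) = eps n ^ 2 := by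
  rw [← suS_aN d n, mul_pow, Real.sq_sqrt (by positivity)]

lemma eps_sq_eq (n : ℕ) : 2 ^ (n + 1) * eps n ^ 2 =
    1 / 800 * (1 / 8) ^ n * Real.exp (-(2 * (10 * n + 1))) := by
  unfold eps
  rw [mul_pow, mul_pow, ← Real.exp_nat_mul, ← pow_mul]
  have h1 : (2 : ℝ) ^ (n + 1) * ((1 / 4) ^ (n * 2)) = 2 * (1 / 8) ^ n := by
    rw [pow_succ, mul_comm n 2, pow_mul]
    have : (1 / 8 : ℝ) ^ n = 2 ^ n * (1 / 16) ^ n := by
      rw [← mul_pow]; norm_num
    rw [this]
    norm_num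
    ring
  have h2 : ((2 : ℕ) : ℝ) * (-(10 * (n : ℝ) + 1)) = -(2 * (10 * n + 1)) := by
    push_cast
    ring
  rw [h2]
  have h3 : (2 : ℝ) ^ (n + 1) * ((1 / 40) ^ 2 * (1 / 4) ^ (n * 2) *
      Real.exp (-(2 * (10 * (n : ℝ) + 1)))) =
      (1 / 40) ^ 2 * (2 ^ (n + 1) * (1 / 4) ^ (n * 2)) * Real.exp (-(2 * (10 * (n : ℝ) + 1))) := by
    ring
  rw [h3, h1]
  ring

lemma suS_cc (n : ℕ) : (suS d).cc n =
    1 / 800 * (1 / 8) ^ n * Real.exp (-(2 * (10 * n + 1))) := by
  unfold SUSeq.cc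
  rw [suS_aN2, eps_sq_eq]

lemma suS_cc_le (n : ℕ) : (suS d).cc n ≤ 1 / 400 * (1 / 2) ^ (n + 1) := by
  rw [suS_cc]
  have h1 : Real.exp (-(2 * (10 * (n : ℝ) + 1))) ≤ 1 := by
    rw [Real.exp_le_one_iff]
    have : (0 : ℝ) ≤ n := Nat.cast_nonneg n
    linarith
  have h2 : (1 / 8 : ℝ) ^ n ≤ (1 / 2) ^ n := pow_le_pow_left₀ (by norm_num) (by norm_num) n
  have h3 : (0 : ℝ) ≤ (1 / 8) ^ n := by positivity
  rw [pow_succ]
  nlinarith

lemma suS_hcs (n0 : ℕ) : ∑ n ∈ range n0, (suS d).cc n ≤ 1 / 200 := by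
  refine (sum_le_sum fun n _ => suS_cc_le d n).trans ?_
  rw [← mul_sum]
  have := SUSeq.half_sum n0
  linarith

lemma suS_weights (n0 j : ℕ) :
    (∑ k ∈ range n0, 100 * (suS d).cc k * xx (suS d).N' k ^ (seqS d (j + 1)).Mx) *
      Real.exp (2 * (10 * ((j + 1 : ℕ) : ℝ) + 1)) ≤ 2 * (1 / 4) ^ (j + 1) := by
  rw [sum_mul]
  have hterm : ∀ k ∈ range n0, 100 * (suS d).cc k * xx (suS d).N' k ^ (seqS d (j + 1)).Mx *
      Real.exp (2 * (10 * ((j + 1 : ℕ) : ℝ) + 1)) ≤
      100 * (1 / 4) ^ (j + 1) * (suS d).cc k + (1 / 4) ^ (j + 1) * (1 / 2) ^ (k + 1) := by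
    intro k _
    have hcc := (suS d).cc_nonneg k
    have hx0 := xx_nonneg (N := (suS d).N') k
    have hx1 := (xx_lt_one (N := (suS d).N') k).le
    set E := Real.exp (2 * (10 * ((j + 1 : ℕ) : ℝ) + 1)) with hE
    have hE0 : 0 < E := Real.exp_pos _
    rcases le_or_gt k j with hkj | hkj
    · have h1 : xx (suS d).N' k ^ (seqS d (j + 1)).Mx ≤ xx (suS d).N' j ^ (seqS d (j + 1)).Mx :=
        pow_le_pow_left₀ hx0 (xx_mono (suS d).N'_mono hkj) _
      have h2 : xx (suS d).N' j ^ (seqS d (j + 1)).Mx * E ≤ (1 / 4) ^ (j + 1) := by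
        have h3 := (seq_rel d j).wt
        have h4 : xx (suS d).N' j = ((seqS d (j + 1)).N : ℝ) / ((seqS d (j + 1)).N + 1) := rfl
        rw [h4, hE]
        push_cast
        exact h3
      have h3 : 100 * (suS d).cc k * xx (suS d).N' k ^ (seqS d (j + 1)).Mx * E ≤
          100 * (suS d).cc k * (1 / 4) ^ (j + 1) := by
        have h4 : xx (suS d).N' k ^ (seqS d (j + 1)).Mx * E ≤ (1 / 4) ^ (j + 1) :=
          (mul_le_mul_of_nonneg_right h1 hE0.le).trans h2
        calc 100 * (suS d).cc k * xx (suS d).N' k ^ (seqS d (j + 1)).Mx * E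
            = 100 * (suS d).cc k * (xx (suS d).N' k ^ (seqS d (j + 1)).Mx * E) := by ring
          _ ≤ _ := by gcongr
      have h5 : (0 : ℝ) ≤ (1 / 4) ^ (j + 1) * (1 / 2) ^ (k + 1) := by positivity
      linarith
    · have h1 : xx (suS d).N' k ^ (seqS d (j + 1)).Mx ≤ 1 := pow_le_one₀ hx0 hx1
      have h2 : (suS d).cc k * E ≤ 1 / 800 * (1 / 8) ^ k := by
        rw [suS_cc, hE, mul_assoc (1 / 800 * (1 / 8 : ℝ) ^ k), ← Real.exp_add]
        have h3 : Real.exp (-(2 * (10 * (k : ℝ) + 1)) + 2 * (10 * ((j + 1 : ℕ) : ℝ) + 1)) ≤ 1 := by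
          rw [Real.exp_le_one_iff]
          have : ((j + 1 : ℕ) : ℝ) ≤ k := by exact_mod_cast hkj
          linarith
        have h4 : (0 : ℝ) ≤ 1 / 800 * (1 / 8) ^ k := by positivity
        nlinarith
      have h3 : 100 * (suS d).cc k * xx (suS d).N' k ^ (seqS d (j + 1)).Mx * E ≤
          100 * ((suS d).cc k * E) := by
        have h4 : 0 ≤ 100 * ((suS d).cc k * E) := by positivity
        calc 100 * (suS d).cc k * xx (suS d).N' k ^ (seqS d (j + 1)).Mx * E
            = 100 * ((suS d).cc k * E) * xx (suS d).N' k ^ (seqS d (j + 1)).Mx := by ring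
          _ ≤ 100 * ((suS d).cc k * E) * 1 := by gcongr
          _ = _ := mul_one _
      have h4 : 100 * (1 / 800 * (1 / 8 : ℝ) ^ k) = (1 / 4) ^ (k + 1) * (1 / 2) ^ (k + 1) := by
        rw [← mul_pow, pow_succ]
        norm_num
        ring
      have h5 : (1 / 4 : ℝ) ^ (k + 1) ≤ (1 / 4) ^ (j + 1) :=
        pow_le_pow_of_le_one (by norm_num) (by norm_num) (by omega)
      have h6 : (1 / 4 : ℝ) ^ (k + 1) * (1 / 2) ^ (k + 1) ≤
          (1 / 4) ^ (j + 1) * (1 / 2) ^ (k + 1) := by gcongr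
      have h7 : 0 ≤ 100 * (1 / 4 : ℝ) ^ (j + 1) * (suS d).cc k := by positivity
      linarith
  refine (sum_le_sum hterm).trans ?_
  rw [sum_add_distrib, ← mul_sum, ← mul_sum]
  have h1 := suS_hcs d n0
  have h2 := SUSeq.half_sum n0
  have h3 : (0 : ℝ) < (1 / 4) ^ (j + 1) := by positivity
  nlinarith

lemma suS_l2 (n : ℕ) : 18 * Real.exp (-(40 * n)) ≤ (eps n * (500 * (1 / 2) ^ n)) ^ 2 := by
  have e1 : (eps n * (500 * (1 / 2) ^ n)) ^ 2 =
      625 / 4 * ((1 / 64) ^ n * (Real.exp (-(20 * n)) * Real.exp (-2))) := by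
    unfold eps
    have h1 : (1 / 64 : ℝ) ^ n = ((1 / 4) ^ n) ^ 2 * ((1 / 2) ^ n) ^ 2 := by
      rw [← mul_pow, ← mul_pow, ← pow_mul, mul_comm n 2, pow_mul]
      norm_num
    have h2 : Real.exp (-(20 * (n : ℝ))) * Real.exp (-2) =
        Real.exp (-(10 * (n : ℝ) + 1)) ^ 2 := by
      rw [← Real.exp_add, ← Real.exp_nat_mul]
      congr 1
      push_cast
      ring
    rw [h1, h2]
    ring
  have e2 : Real.exp (-(40 * (n : ℝ))) = Real.exp (-(20 * n)) * Real.exp (-20) ^ n := by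
    rw [← Real.exp_nat_mul, ← Real.exp_add]
    congr 1
    ring
  have h20 : Real.exp (-20) ≤ 1 / 64 := by
    rw [Real.exp_neg, ← one_div]
    apply one_div_le_one_div_of_le (by norm_num)
    have h1 : Real.exp 20 = Real.exp 1 ^ 20 := by
      rw [← Real.exp_nat_mul]; norm_num
    have h2 : (2 : ℝ) ≤ Real.exp 1 := by
      have := Real.add_one_le_exp (1 : ℝ)
      linarith
    rw [h1]
    calc (64 : ℝ) ≤ 2 ^ 20 := by norm_num
      _ ≤ Real.exp 1 ^ 20 := pow_le_pow_left₀ (by norm_num) h2 20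
  have h2' : 18 ≤ 625 / 4 * Real.exp (-2) := by
    rw [Real.exp_neg]
    have h1 : Real.exp 2 = Real.exp 1 ^ 2 := by
      rw [← Real.exp_nat_mul]; norm_num
    have h2 : Real.exp 1 ≤ 2.7182818286 := Real.exp_one_lt_d9.le
    have h3 : Real.exp 2 ≤ 7.4 := by
      rw [h1]
      have := Real.exp_pos 1
      nlinarith
    have h4 : (7.4 : ℝ)⁻¹ ≤ (Real.exp 2)⁻¹ := by
      apply inv_anti₀ (Real.exp_pos 2) h3
    have : (18 : ℝ) ≤ 625 / 4 * (7.4 : ℝ)⁻¹ := by norm_num
    linarith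
  rw [e1, e2]
  have h3 : Real.exp (-20) ^ n ≤ (1 / 64) ^ n := pow_le_pow_left₀ (Real.exp_pos _).le h20 n
  have h4 := Real.exp_pos (-(20 * (n : ℝ)))
  have h5 : (0 : ℝ) < (1 / 64) ^ n := by positivity
  calc 18 * (Real.exp (-(20 * (n : ℝ))) * Real.exp (-20) ^ n)
      ≤ 18 * (Real.exp (-(20 * (n : ℝ))) * (1 / 64) ^ n) := by gcongr
    _ ≤ (625 / 4 * Real.exp (-2)) * (Real.exp (-(20 * (n : ℝ))) * (1 / 64) ^ n) := by gcongr
    _ = _ := by ring

/-- the full data exist -/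
noncomputable def fseq : FSeq d where
  toSUSeq := suS d
  h n := (seqS d n).h
  L n := 10 * n + 1
  Mx n := (seqS d n).Mx
  q := seqq d
  dq := seqd d
  δ n := (1 / 2) ^ n
  τ n := 500 * (1 / 2) ^ n
  hcs := suS_hcs d
  hok n := (seq_rel d n).lip
  h_mem n := (seqS d n).h_mem
  h_avg n := (seqS d n).h_avg
  h_pos n w := ((seqS d n).h_pos w).le
  h_le n w := (seqS d n).h_le w
  L_mono n := by push_cast; linarith
  h_succ n := (seq_rel d n).h_dv
  Mx_mono n := (seq_rel d n).Mx_mono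
  Mx_ge n := (seq_rel d n).Mx_ge
  min_tendsto := by
    have h1 : Tendsto (fun n : ℕ => 4 / (10 * (n : ℝ) + 1)) atTop (𝓝 0) := by
      apply tendsto_const_nhds.div_atTop
      exact tendsto_atTop_add_const_right _ _
        (tendsto_natCast_atTop_atTop.const_mul_atTop (by norm_num))
    refine squeeze_zero (fun n => ?_) (fun n => (seqS d n).h_min) h1
    have h2 : avg (fun _ : Circle => (0 : ℝ)) ≤ avg (fun w => min 1 ((seqS d n).h w).re) := by
      refine avg_mono continuous_const (by fun_prop) fun w => ?_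
      exact le_min zero_le_one ((seqS d n).h_pos w).le
    rwa [avg_const] at h2
  approx n := (seq_rel d n).approx
  δ_tendsto := tendsto_pow_atTop_nhds_zero_of_lt_one (by norm_num) (by norm_num)
  weights n0 j := suS_weights d n0 j
  q_mem n := (seq_rel d n).q_mem
  q_near n w := (seq_rel d n).q_near w
  q_l2 n := by
    refine (seq_rel d n).q_l2.trans ?_
    have h1 := suS_aN d n
    rw [h1]
    exact suS_l2 n
  τ_nonneg n := by positivity
  τ_tendsto := by
    have : Tendsto (fun n : ℕ => (500 : ℝ) * (1 / 2) ^ n) atTop (𝓝 (500 * 0)) :=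
      (tendsto_pow_atTop_nhds_zero_of_lt_one (by norm_num) (by norm_num)).const_mul 500
    rwa [mul_zero] at this
  N_large n := (seq_rel d n).N_large
  a_Mx n := (seq_rel d (n + 1)).a_Mx
  a_N n := by
    have h1 := suS_aN d n
    have h2 := eps_le' n
    rw [mul_assoc, h1]
    linarith
  Mx_N n := (seq_rel d n).Mx_N
  q_norm n := (seq_rel d n).q_norm

end

end Run7.h163
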