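import Mathlib

/-!
# Continuous functions on the circle and unitary operators
-/

set_option autoImplicit false
set_option linter.deprecated false

open scoped ComplexConjugate InnerProductSpace
open ContinuousLinearMap

namespace Run7.h163

/-- the algebra of continuous complex functions on the unit circle -/
abbrev CA := C(Circle, ℂ)

/-- the coordinate function -/
noncomputable def zC : CA := ⟨fun z => (z : ℂ), continuous_subtype_val⟩

@[simp] lemma zC_apply (w : Circle) : zC w = (w : ℂ) := rfl

lemma star_zC_mul : star zC * zC = 1 := by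
  ext w
  simp [← Complex.normSq_eq_conj_mul_self]

lemma zC_mul_star : zC * star zC = 1 := by
  rw [mul_comm, star_zC_mul]

theorem exists_rep {K : Type*} [NormedAddCommGroup K] [InnerProductSpace ℂ K] [CompleteSpace K]
    (U : K →L[ℂ] K) (hU : U ∈ unitary (K →L[ℂ] K)) :
    ∃ π : CA →⋆ₐ[ℂ] (K →L[ℂ] K), π zC = U := by
  have hn : IsStarNormal U := by
    constructor
    rw [Commute, SemiconjBy]
    rw [(Unitary.mem_iff.1 hU).1, (Unitary.mem_iff.1 hU).2]
  have hs : ∀ x : spectrum ℂ U, (x : ℂ) ∈ Metric.sphere (0:ℂ) 1 := fun x =>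
    spectrum.subset_circle_of_unitary hU x.2
  let g : C(spectrum ℂ U, Circle) := ⟨fun x => ⟨(x : ℂ), hs x⟩, by
    exact Continuous.subtype_mk continuous_subtype_val _⟩
  refine ⟨(cfcHom hn).comp (ContinuousMap.compStarAlgHom' ℂ ℂ g), ?_⟩
  have h1 : (ContinuousMap.compStarAlgHom' ℂ ℂ g) zC =
      ContinuousMap.restrict (spectrum ℂ U) (ContinuousMap.id ℂ) := by
    ext x
    rfl
  simp only [StarAlgHom.coe_comp, Function.comp_apply]
  rw [h1]
  exact cfcHom_id hn

section lp2
variable {ι : Type*} {E : ι → Type*} [∀ i, NormedAddCommGroup (E i)]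

lemma lp2_hasSum (f : lp E 2) : HasSum (fun i => ‖f i‖ ^ 2) (‖f‖ ^ 2) := by
  have h := lp.hasSum_norm (p := 2) (by norm_num) f
  simpa using h

lemma memlp2 {f : ∀ i, E i} (h : Summable fun i => ‖f i‖ ^ 2) : Memℓp f 2 := by
  apply memℓp_gen
  simpa using h

end lp2

end Run7.h163
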