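import Mathlib

/-!
# The scalar inequality for the weights
-/

set_option autoImplicit false
set_option linter.unusedSectionVars false
set_option linter.unusedVariables false
set_option linter.deprecated false

namespace Run7.h163

open Finset

section scalar
variable (N : ℕ → ℕ) (c : ℕ → ℝ)

/-- the ratios -/
noncomputable def xx (k : ℕ) : ℝ := (N k : ℝ) / (N k + 1)

/-- the weights -/
noncomputable def sw (n0 l : ℕ) : ℝ :=
  if l = 0 then 1 / 2 else ∑ k ∈ range n0, 100 * c k * (1 - xx N k) * xx N k ^ l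

variable {N c}

lemma xx_nonneg (k : ℕ) : 0 ≤ xx N k := by unfold xx; positivity

lemma xx_lt_one (k : ℕ) : xx N k < 1 := by
  unfold xx
  rw [div_lt_one (by positivity)]
  linarith

lemma one_sub_xx (k : ℕ) : 1 - xx N k = 1 / (N k + 1) := by
  unfold xx
  field_simp
  ring

lemma xx_mono (hm : Monotone N) {k n : ℕ} (h : k ≤ n) : xx N k ≤ xx N n := by
  have h1 := one_sub_xx (N := N) k
  have h2 := one_sub_xx (N := N) n
  have h3 : (1 : ℝ) / (N n + 1) ≤ 1 / (N k + 1) := by
    apply one_div_le_one_div_of_le (by positivity)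
    have : (N k : ℝ) ≤ N n := by exact_mod_cast hm h
    linarith
  linarith

lemma xx_pow (hN : ∀ n, 1 ≤ N n) {k m : ℕ} (h : m ≤ N k) : 1 ≤ 3 * xx N k ^ m := by
  have hNk : (0 : ℝ) < N k := by exact_mod_cast hN k
  have h1 : (1 + (1 : ℝ) / N k) ^ m ≤ 3 := by
    calc (1 + (1 : ℝ) / N k) ^ m ≤ (1 + (1 : ℝ) / N k) ^ (N k) := by
          apply pow_le_pow_right₀ _ h
          have : 0 ≤ (1 : ℝ) / N k := by positivity
          linarith
      _ ≤ (Real.exp (1 / N k)) ^ (N k) := by
          apply pow_le_pow_left₀ (by positivity)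
          have := Real.add_one_le_exp ((1 : ℝ) / N k)
          linarith
      _ = Real.exp 1 := by
          rw [← Real.exp_nat_mul]
          congr 1
          field_simp
      _ ≤ 3 := by
          have := Real.exp_one_lt_d9
          linarith
  have h2 : xx N k ^ m * (1 + (1 : ℝ) / N k) ^ m = 1 := by
    rw [← mul_pow]
    have : xx N k * (1 + (1 : ℝ) / N k) = 1 := by
      unfold xx
      field_simp
    rw [this, one_pow]
  have h3 : 0 ≤ xx N k ^ m := pow_nonneg (xx_nonneg k) m
  nlinarith

lemma sw_nonneg (hc : ∀ n, 0 ≤ c n) (n0 l : ℕ) : 0 ≤ sw N c n0 l := by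
  unfold sw
  split_ifs
  · norm_num
  · refine sum_nonneg fun k _ => ?_
    have := hc k
    have h1 := xx_lt_one (N := N) k
    have h2 := xx_nonneg (N := N) k
    have : 0 ≤ 1 - xx N k := by linarith
    positivity

lemma geom_window (x : ℝ) (p m : ℕ) (hm : m ≤ p) :
    (1 - x) * ∑ j ∈ Icc 1 m, x ^ (p - j) = x ^ (p - m) - x ^ p := by
  induction m with
  | zero => simp
  | succ m ih =>
    rw [sum_Icc_succ_top (by omega), mul_add, ih (by omega)]
    have : x ^ (p - m) = x ^ (p - (m + 1)) * x := by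
      rw [← pow_succ]
      congr 1
      omega
    rw [this]
    ring

lemma window (hN : ∀ n, 1 ≤ N n) (hm : Monotone N) (hc : ∀ n, 0 ≤ c n)
    (hcs : ∀ n0, ∑ n ∈ range n0, c n ≤ 1 / 200) (n0 n p : ℕ) (hn : n < n0) (hp : 1 ≤ p) :
    ∑ j ∈ Icc 1 (N n), (if j ≤ p then sw N c n0 (p - j) else 0) ≤
      3 * N n * sw N c n0 p + 3 * xx N n ^ p := by
  set x := xx N with hx
  have hx0 : ∀ k, 0 ≤ x k := xx_nonneg
  have hx1 : ∀ k, x k ≤ 1 := fun k => (xx_lt_one k).le
  have h1 : ∀ j ∈ Icc 1 (N n), (if j ≤ p then sw N c n0 (p - j) else 0) ≤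
      (if j = p then 1 / 2 else 0) +
        ∑ k ∈ range n0, 100 * c k * ((1 - x k) * (if j ≤ p then x k ^ (p - j) else 0)) := by
    intro j hj
    by_cases h : j ≤ p
    · rw [if_pos h]
      have hnn : ∀ k ∈ range n0, 0 ≤ 100 * c k * ((1 - x k) * x k ^ (p - j)) := by
        intro k _
        have := hc k
        have h2 := hx0 k
        have h3 : 0 ≤ 1 - x k := by linarith [hx1 k]
        positivity
      simp only [h, if_true]
      by_cases h2 : j = p
      · rw [if_pos h2]
        unfold sw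
        rw [if_pos (by omega)]
        have := sum_nonneg hnn
        linarith
      · rw [if_neg h2, zero_add]
        unfold sw
        rw [if_neg (by omega)]
        apply le_of_eq
        refine sum_congr rfl fun k _ => ?_
        ring
    · rw [if_neg h]
      have h2 : j ≠ p := by omega
      rw [if_neg h2]
      simp [h]
  refine (sum_le_sum h1).trans ?_
  rw [sum_add_distrib, sum_comm]
  have h2 : ∑ j ∈ Icc 1 (N n), (if j = p then (1:ℝ) / 2 else 0) ≤ 3 / 2 * x n ^ p := by
    rw [sum_ite_eq']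
    split_ifs with h
    · have := xx_pow hN (mem_Icc.1 h).2
      linarith
    · have := pow_nonneg (hx0 n) p
      positivity
  have h3 : ∀ k ∈ range n0, ∑ j ∈ Icc 1 (N n), 100 * c k * ((1 - x k) *
      (if j ≤ p then x k ^ (p - j) else 0)) ≤
      3 * N n * (100 * c k * (1 - x k) * x k ^ p) + 100 * c k * (3 * x n ^ p) := by
    intro k hk
    have hck := hc k
    have h1x : 0 ≤ 1 - x k := by linarith [hx1 k]
    have hxkp := pow_nonneg (hx0 k) p
    have hxnp := pow_nonneg (hx0 n) p
    rw [← mul_sum, ← mul_sum]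
    by_cases hkn : n ≤ k
    · have h4 : ∑ j ∈ Icc 1 (N n), (if j ≤ p then x k ^ (p - j) else 0) ≤ N n * (3 * x k ^ p) := by
        have : ∀ j ∈ Icc 1 (N n), (if j ≤ p then x k ^ (p - j) else 0) ≤ 3 * x k ^ p := by
          intro j hj
          split_ifs with h
          · have h5 := xx_pow hN (((mem_Icc.1 hj).2).trans (hm hkn))
            have h6 : x k ^ p = x k ^ (p - j) * x k ^ j := by
              rw [← pow_add]; congr 1; omega
            rw [h6]
            have h7 := pow_nonneg (hx0 k) (p - j)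
            nlinarith
          · positivity
        refine (sum_le_sum this).trans ?_
        rw [sum_const, Nat.card_Icc]
        simp
      have h5 : 100 * c k * ((1 - x k) * ∑ j ∈ Icc 1 (N n), (if j ≤ p then x k ^ (p - j) else 0))
          ≤ 100 * c k * ((1 - x k) * (N n * (3 * x k ^ p))) := by gcongr
      refine h5.trans ?_
      have : 0 ≤ 100 * c k * (3 * x n ^ p) := by positivity
      linarith
    · have h4 : (1 - x k) * ∑ j ∈ Icc 1 (N n), (if j ≤ p then x k ^ (p - j) else 0) ≤
          3 * x n ^ p := by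
        set m := min (N n) p with hmm
        have e : ∑ j ∈ Icc 1 (N n), (if j ≤ p then x k ^ (p - j) else 0) =
            ∑ j ∈ Icc 1 m, x k ^ (p - j) := by
          rw [← sum_filter]
          apply sum_congr _ fun _ _ => rfl
          ext j
          simp only [mem_filter, mem_Icc]
          omega
        rw [e, geom_window _ _ _ (by omega)]
        have h5 : x k ^ (p - m) ≤ x n ^ (p - m) :=
          pow_le_pow_left₀ (hx0 k) (xx_mono hm (by omega)) _
        have h6 := xx_pow hN (show m ≤ N n by omega)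
        have h7 : x n ^ p = x n ^ (p - m) * x n ^ m := by
          rw [← pow_add]; congr 1; omega
        have h8 := pow_nonneg (hx0 n) (p - m)
        rw [h7]
        nlinarith
      have h5 : 100 * c k * ((1 - x k) * ∑ j ∈ Icc 1 (N n), (if j ≤ p then x k ^ (p - j) else 0))
          ≤ 100 * c k * (3 * x n ^ p) := by gcongr
      refine h5.trans ?_
      have : 0 ≤ 3 * N n * (100 * c k * (1 - x k) * x k ^ p) := by positivity
      linarith
  refine (add_le_add h2 (sum_le_sum h3)).trans ?_
  rw [sum_add_distrib, ← mul_sum, ← sum_mul, ← mul_sum]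
  have h4 : sw N c n0 p = ∑ k ∈ range n0, 100 * c k * (1 - x k) * x k ^ p := by
    unfold sw
    rw [if_neg (by omega)]
  rw [h4]
  have h5 := hcs n0
  have h6 := pow_nonneg (hx0 n) p
  nlinarith

/-- the scalar inequality -/
theorem scalar_ineq (hN : ∀ n, 1 ≤ N n) (hm : Monotone N) (hc : ∀ n, 0 ≤ c n)
    (hcs : ∀ n0, ∑ n ∈ range n0, c n ≤ 1 / 200) (n0 p : ℕ) (hp : 1 ≤ p) :
    ∑ n ∈ range n0, 8 * (c n / N n) *
      ∑ j ∈ Icc 1 (N n), (if j ≤ p then sw N c n0 (p - j) else 0) ≤ sw N c n0 p := by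
  have h1 : ∀ n ∈ range n0, 8 * (c n / N n) *
      ∑ j ∈ Icc 1 (N n), (if j ≤ p then sw N c n0 (p - j) else 0) ≤
      24 * sw N c n0 p * c n + 48 / 100 * (100 * c n * (1 - xx N n) * xx N n ^ p) := by
    intro n hn
    have hNn : (1 : ℝ) ≤ N n := by exact_mod_cast hN n
    have hcn := hc n
    have h2 := window hN hm hc hcs n0 n p (mem_range.1 hn) hp
    have h3 : 8 * (c n / N n) *
      ∑ j ∈ Icc 1 (N n), (if j ≤ p then sw N c n0 (p - j) else 0) ≤ 8 * (c n / N n) *
        (3 * N n * sw N c n0 p + 3 * xx N n ^ p) := by gcongr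
    refine h3.trans ?_
    have h4 : 8 * (c n / N n) * (3 * N n * sw N c n0 p + 3 * xx N n ^ p) =
        24 * sw N c n0 p * c n + 24 * (c n / N n) * xx N n ^ p := by
      field_simp
      ring
    rw [h4]
    have h5 : 24 * (c n / N n) * xx N n ^ p ≤
        48 / 100 * (100 * c n * (1 - xx N n) * xx N n ^ p) := by
      rw [one_sub_xx]
      have h6 : (1 : ℝ) / N n ≤ 2 * (1 / (N n + 1)) := by
        rw [mul_one_div, div_le_div_iff₀ (by linarith) (by linarith)]
        linarith
      have h7 := pow_nonneg (xx_nonneg (N := N) n) p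
      have h8 : 24 * (c n / N n) * xx N n ^ p = 24 * c n * xx N n ^ p * (1 / N n) := by ring
      have h9 : 48 / 100 * (100 * c n * (1 / ((N n : ℝ) + 1)) * xx N n ^ p) =
        24 * c n * xx N n ^ p * (2 * (1 / (N n + 1))) := by ring
      rw [h8, h9]
      gcongr
    linarith
  refine (sum_le_sum h1).trans ?_
  rw [sum_add_distrib, ← mul_sum, ← mul_sum]
  have h4 : sw N c n0 p = ∑ k ∈ range n0, 100 * c k * (1 - xx N k) * xx N k ^ p := by
    unfold sw
    rw [if_neg (by omega)]
  rw [← h4]
  have h5 := hcs n0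
  have h6 := sw_nonneg (N := N) hc n0 p
  nlinarith

lemma sw_summable (n0 : ℕ) : Summable (sw N c n0) := by
  rw [← summable_nat_add_iff 1]
  have : (fun l => sw N c n0 (l + 1)) =
      fun l => ∑ k ∈ range n0, 100 * c k * (1 - xx N k) * xx N k ^ (l + 1) := by
    ext l
    unfold sw
    rw [if_neg (by omega)]
  rw [this]
  refine summable_sum fun k _ => Summable.mul_left _ ?_
  exact (summable_nat_add_iff 1).2 (summable_geometric_of_lt_one (xx_nonneg k) (xx_lt_one k))

/-- the tail sums of the weights -/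
lemma sw_tail (n0 m : ℕ) (hm : 1 ≤ m) :
    ∑' l, sw N c n0 (l + m) = ∑ k ∈ range n0, 100 * c k * xx N k ^ m := by
  have h1 : ∀ l, sw N c n0 (l + m) =
      ∑ k ∈ range n0, 100 * c k * (1 - xx N k) * xx N k ^ m * xx N k ^ l := by
    intro l
    unfold sw
    rw [if_neg (by omega)]
    refine sum_congr rfl fun k _ => ?_
    rw [pow_add]
    ring
  simp_rw [h1]
  rw [Summable.tsum_finsetSum (fun k _ => (summable_geometric_of_lt_one (xx_nonneg k)
    (xx_lt_one k)).mul_left _)]
  refine sum_congr rfl fun k _ => ?_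
  rw [tsum_mul_left, tsum_geometric_of_lt_one (xx_nonneg k) (xx_lt_one k)]
  have : (1 - xx N k) ≠ 0 := by
    have := xx_lt_one (N := N) k
    linarith
  field_simp

lemma sw_total (hc : ∀ n, 0 ≤ c n)
    (hcs : ∀ n0, ∑ n ∈ range n0, c n ≤ 1 / 200) (n0 : ℕ) : ∑' l, sw N c n0 l ≤ 1 := by
  rw [(sw_summable n0).tsum_eq_zero_add, sw_tail n0 1 le_rfl]
  have h0 : sw N c n0 0 = 1 / 2 := by simp [sw]
  rw [h0]
  have h1 : ∑ k ∈ range n0, 100 * c k * xx N k ^ 1 ≤ ∑ k ∈ range n0, 100 * c k := by
    refine sum_le_sum fun k _ => ?_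
    rw [pow_one]
    have := hc k
    have h2 := (xx_lt_one (N := N) k).le
    have h3 : 0 ≤ 100 * c k := by positivity
    nlinarith
  rw [← mul_sum] at h1
  have := hcs n0
  linarith

end scalar

end Run7.h163
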