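import Pool.Agent.Run7.h163.SU
import Pool.Agent.Run7.h163.SC

/-!
# The weights of a sequence
-/

set_option autoImplicit false
set_option linter.unusedSectionVars false
set_option linter.unusedVariables false
set_option linter.deprecated false

open scoped ComplexConjugate InnerProductSpace InnerProduct
open ContinuousLinearMap Filter Topology Finset

namespace Run7.h163

namespace SUSeq
variable (s : SUSeq)

/-- the degrees, indexed by steps -/
def N' (k : ℕ) : ℕ := s.N (k + 1)

/-- the coefficients of the weights -/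
noncomputable def cc (k : ℕ) : ℝ := 2 ^ (k + 1) * (s.a k ^ 2 * s.N (k + 1))

lemma N'_pos (k : ℕ) : 1 ≤ s.N' k := s.one_le_N (k + 1)

lemma N'_mono : Monotone s.N' := fun _ _ h => s.N_monotone (Nat.succ_le_succ h)

lemma cc_nonneg (k : ℕ) : 0 ≤ s.cc k := by unfold cc; positivity

lemma half_sum (n0 : ℕ) : ∑ n ∈ range n0, (1 / 2 : ℝ) ^ (n + 1) ≤ 1 := by
  have h : ∀ n, ∑ n ∈ range n, (1 / 2 : ℝ) ^ (n + 1) = 1 - (1 / 2) ^ n := by
    intro n
    induction n with
    | zero => simp
    | succ n ih => rw [sum_range_succ, ih, pow_succ]; ring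
  rw [h]
  have : (0 : ℝ) ≤ (1 / 2) ^ n0 := by positivity
  linarith

end SUSeq

end Run7.h163
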