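import Pool.Agent.Run7.h163.PL

/-!
# Products of rotations: the polynomials `C n`, `A n`
-/

set_option autoImplicit false
set_option linter.unusedSectionVars false
set_option linter.unusedVariables false
set_option linter.deprecated false

open scoped ComplexConjugate InnerProductSpace InnerProduct
open ContinuousLinearMap Filter Topology

namespace Run7.h163

/-- the sequence of polynomial columns -/
structure SUSeq where
  N : ℕ → ℕ
  a : ℕ → ℝ
  C : ℕ → CA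
  A : ℕ → CA
  N_pos : 1 ≤ N 0
  N_mono : ∀ n, N n ≤ N (n + 1)
  a_pos : ∀ n, 0 < a n
  a_le : ∀ n, a n ≤ 1 / 8
  a_half : ∀ n, a (n + 1) ≤ a n / 2
  C_zero : C 0 = 1
  A_zero : A 0 = 0
  C_succ : ∀ n, C (n + 1) = ((√(1 - a n ^ 2) : ℝ) : ℂ) • C n -
    (a n : ℂ) • (zC ^ N (n + 1) * star (A n))
  A_succ : ∀ n, A (n + 1) = ((√(1 - a n ^ 2) : ℝ) : ℂ) • A n +
    (a n : ℂ) • (zC ^ N (n + 1) * star (C n))

lemma rot_unit (C A Z c a : ℂ) (hc : conj c = c) (ha : conj a = a) (hca : c ^ 2 + a ^ 2 = 1)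
    (hZ : conj Z * Z = 1) (h : conj C * C + conj A * A = 1) :
    conj (c * C - a * (Z * conj A)) * (c * C - a * (Z * conj A)) +
      conj (c * A + a * (Z * conj C)) * (c * A + a * (Z * conj C)) = 1 := by
  simp only [map_sub, map_add, map_mul, Complex.conj_conj, hc, ha]
  linear_combination (a ^ 2 * (conj C * C + conj A * A)) * hZ + (c ^ 2 + a ^ 2) * h + hca

lemma zC_star_mul_pow (N : ℕ) : star (zC ^ N) * zC ^ N = 1 := by
  rw [star_pow, ← mul_pow, star_zC_mul, one_pow]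

namespace SUSeq
variable (s : SUSeq)

lemma N_monotone : Monotone s.N := monotone_nat_of_le_succ s.N_mono

lemma one_le_N (n : ℕ) : 1 ≤ s.N n := s.N_pos.trans (s.N_monotone (Nat.zero_le n))

lemma a_sq_le (n : ℕ) : s.a n ^ 2 ≤ 1 := by
  nlinarith [s.a_pos n, s.a_le n]

lemma c_sq (n : ℕ) : √(1 - s.a n ^ 2) ^ 2 = 1 - s.a n ^ 2 :=
  Real.sq_sqrt (by linarith [s.a_sq_le n])

lemma unit (n : ℕ) : star (s.C n) * s.C n + star (s.A n) * s.A n = 1 := by
  induction n with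
  | zero => rw [s.C_zero, s.A_zero]; simp
  | succ n ih =>
    rw [s.C_succ, s.A_succ]
    ext w
    have h1 := congrArg (fun f : CA => f w) ih
    simp only [ContinuousMap.add_apply, ContinuousMap.mul_apply, ContinuousMap.star_apply,
      ContinuousMap.one_apply] at h1
    have h2 := congrArg (fun f : CA => f w) (zC_star_mul_pow (s.N (n + 1)))
    simp only [ContinuousMap.mul_apply, ContinuousMap.star_apply,
      ContinuousMap.one_apply] at h2
    have h3 : (((√(1 - s.a n ^ 2) : ℝ) : ℂ)) ^ 2 + (s.a n : ℂ) ^ 2 = 1 := by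
      rw [← Complex.ofReal_pow, s.c_sq]
      push_cast
      ring
    exact rot_unit (s.C n w) (s.A n w) ((zC ^ s.N (n + 1)) w) _ (s.a n : ℂ)
      (Complex.conj_ofReal _) (Complex.conj_ofReal _) h3 h2 h1

lemma unit_apply (n : ℕ) (w : Circle) : ‖s.C n w‖ ^ 2 + ‖s.A n w‖ ^ 2 = 1 := by
  have h1 := congrArg (fun f : CA => f w) (s.unit n)
  simp only [ContinuousMap.add_apply, ContinuousMap.mul_apply, ContinuousMap.star_apply,
      ContinuousMap.one_apply] at h1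
  have hsq : ∀ a : ℂ, star a * a = ((‖a‖ ^ 2 : ℝ) : ℂ) := by
    intro a
    rw [← Complex.normSq_eq_norm_sq, Complex.normSq_eq_conj_mul_self]
    rfl
  rw [hsq, hsq] at h1
  exact_mod_cast h1

lemma norm_C_le (n : ℕ) : ‖s.C n‖ ≤ 1 := by
  rw [ContinuousMap.norm_le _ zero_le_one]
  intro w
  have := s.unit_apply n w
  nlinarith [norm_nonneg (s.C n w), sq_nonneg ‖s.A n w‖]

lemma norm_A_le (n : ℕ) : ‖s.A n‖ ≤ 1 := by
  rw [ContinuousMap.norm_le _ zero_le_one]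
  intro w
  have := s.unit_apply n w
  nlinarith [norm_nonneg (s.A n w), sq_nonneg ‖s.C n w‖]

lemma mem_Pol (n : ℕ) : s.C n ∈ Pol (s.N n) ∧ s.A n ∈ Pol (s.N n) := by
  induction n with
  | zero => rw [s.C_zero, s.A_zero]; exact ⟨one_mem_Pol _, (Pol _).zero_mem⟩
  | succ n ih =>
    rw [s.C_succ, s.A_succ]
    have h1 := Pol_mono (s.N_mono n) ih.1
    have h2 := Pol_mono (s.N_mono n) ih.2
    have h3 := Pol_rev (s.N_mono n) ih.1
    have h4 := Pol_rev (s.N_mono n) ih.2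
    exact ⟨(Pol _).sub_mem ((Pol _).smul_mem _ h1) ((Pol _).smul_mem _ h4),
      (Pol _).add_mem ((Pol _).smul_mem _ h2) ((Pol _).smul_mem _ h3)⟩

lemma diff_mem (n : ℕ) : s.C (n + 1) - s.C n ∈ Pol (s.N (n + 1)) ∧
    s.A (n + 1) - s.A n ∈ Pol (s.N (n + 1)) :=
  ⟨(Pol _).sub_mem (s.mem_Pol _).1 (Pol_mono (s.N_mono n) (s.mem_Pol n).1),
    (Pol _).sub_mem (s.mem_Pol _).2 (Pol_mono (s.N_mono n) (s.mem_Pol n).2)⟩

lemma norm_zC_pow (N : ℕ) : ‖zC ^ N‖ ≤ 1 := by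
  rw [ContinuousMap.norm_le _ zero_le_one]
  intro w
  simp

lemma diff_aux (c a : ℝ) (ha : 0 ≤ a) (ha1 : a ≤ 1) (hc : c ^ 2 = 1 - a ^ 2) (hc0 : 0 ≤ c) :
    |c - 1| + a ≤ 2 * a := by
  have : c ≤ 1 := by nlinarith
  rw [abs_of_nonpos (by linarith)]
  nlinarith

lemma diff_norm (n : ℕ) : ‖s.C (n + 1) - s.C n‖ ≤ 2 * s.a n ∧
    ‖s.A (n + 1) - s.A n‖ ≤ 2 * s.a n := by
  have haux := diff_aux (√(1 - s.a n ^ 2)) (s.a n) (s.a_pos n).le
    (by linarith [s.a_le n]) (s.c_sq n) (Real.sqrt_nonneg _)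
  have hz := norm_zC_pow (s.N (n + 1))
  have e1 : s.C (n + 1) - s.C n = (((√(1 - s.a n ^ 2) - 1 : ℝ)) : ℂ) • s.C n -
    (s.a n : ℂ) • (zC ^ s.N (n + 1) * star (s.A n)) := by
    rw [s.C_succ]
    push_cast
    rw [sub_smul, one_smul]
    abel
  have e2 : s.A (n + 1) - s.A n = (((√(1 - s.a n ^ 2) - 1 : ℝ)) : ℂ) • s.A n +
    (s.a n : ℂ) • (zC ^ s.N (n + 1) * star (s.C n)) := by
    rw [s.A_succ]
    push_cast
    rw [sub_smul, one_smul]
    abel
  have h1 : ∀ f : CA, ‖f‖ ≤ 1 → ‖(((√(1 - s.a n ^ 2) - 1 : ℝ)) : ℂ) • f‖ ≤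
      |√(1 - s.a n ^ 2) - 1| := by
    intro f hf
    rw [norm_smul, Complex.norm_real, Real.norm_eq_abs]
    nlinarith [abs_nonneg (√(1 - s.a n ^ 2) - 1), norm_nonneg f]
  have h2 : ∀ f : CA, ‖f‖ ≤ 1 → ‖(s.a n : ℂ) • (zC ^ s.N (n + 1) * star f)‖ ≤ s.a n := by
    intro f hf
    rw [norm_smul, Complex.norm_real, Real.norm_eq_abs, abs_of_pos (s.a_pos n)]
    have : ‖zC ^ s.N (n + 1) * star f‖ ≤ 1 := by
      calc ‖zC ^ s.N (n + 1) * star f‖ ≤ ‖zC ^ s.N (n + 1)‖ * ‖star f‖ := norm_mul_le _ _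
        _ ≤ 1 * 1 := by
            rw [norm_star]
            gcongr
        _ = 1 := one_mul _
    nlinarith [s.a_pos n]
  rw [e1, e2]
  exact ⟨((norm_sub_le _ _).trans (add_le_add (h1 _ (s.norm_C_le n)) (h2 _ (s.norm_A_le n)))).trans
    haux, ((norm_add_le _ _).trans (add_le_add (h1 _ (s.norm_A_le n))
      (h2 _ (s.norm_C_le n)))).trans haux⟩

lemma a_shift (n k : ℕ) : s.a (n + k) ≤ s.a n / 2 ^ k := by
  induction k with
  | zero => simp
  | succ k ih =>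
    calc s.a (n + (k + 1)) ≤ s.a (n + k) / 2 := s.a_half (n + k)
      _ ≤ s.a n / 2 ^ k / 2 := by gcongr
      _ = s.a n / 2 ^ (k + 1) := by rw [pow_succ, div_div]

lemma exists_lim_aux {f : ℕ → CA} (hf : ∀ n, ‖f (n + 1) - f n‖ ≤ 2 * s.a n) :
    ∃ g, Tendsto f atTop (𝓝 g) ∧ ∀ n, ‖g - f n‖ ≤ 4 * s.a n := by
  have h1 : ∀ n k, dist (f (n + k)) (f (n + (k + 1))) ≤ (4 * s.a n) / 2 / 2 ^ k := by
    intro n k
    rw [dist_comm, dist_eq_norm]
    calc ‖f (n + (k + 1)) - f (n + k)‖ ≤ 2 * s.a (n + k) := hf (n + k)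
      _ ≤ 2 * (s.a n / 2 ^ k) := by
          have := s.a_shift n k
          linarith
      _ = (4 * s.a n) / 2 / 2 ^ k := by ring
  have hcs : CauchySeq f := by
    refine cauchySeq_of_le_geometric_two (C := 4 * s.a 0) fun n => ?_
    have := h1 0 n
    simpa using this
  obtain ⟨g, hg⟩ := cauchySeq_tendsto_of_complete hcs
  refine ⟨g, hg, fun n => ?_⟩
  have h2 : Tendsto (fun k => f (n + k)) atTop (𝓝 g) := by
    have := (tendsto_add_atTop_iff_nat n).2 hg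
    simpa [add_comm] using this
  have h3 := dist_le_of_le_geometric_two_of_tendsto₀ (C := 4 * s.a n) (f := fun k => f (n + k))
    (h1 n) h2
  rw [← dist_eq_norm, dist_comm]
  simpa using h3

lemma exists_limit : ∃ C A : CA, Tendsto s.C atTop (𝓝 C) ∧ Tendsto s.A atTop (𝓝 A) ∧
    (∀ n, ‖C - s.C n‖ ≤ 4 * s.a n) ∧ (∀ n, ‖A - s.A n‖ ≤ 4 * s.a n) := by
  obtain ⟨C, hC, hC'⟩ := s.exists_lim_aux (fun n => (s.diff_norm n).1)
  obtain ⟨A, hA, hA'⟩ := s.exists_lim_aux (fun n => (s.diff_norm n).2)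
  exact ⟨C, A, hC, hA, hC', hA'⟩

/-- the limits -/
noncomputable def Cl : CA := s.exists_limit.choose
/-- the limits -/
noncomputable def Al : CA := s.exists_limit.choose_spec.choose

lemma C_tendsto : Tendsto s.C atTop (𝓝 s.Cl) := s.exists_limit.choose_spec.choose_spec.1
lemma A_tendsto : Tendsto s.A atTop (𝓝 s.Al) := s.exists_limit.choose_spec.choose_spec.2.1
lemma C_near (n : ℕ) : ‖s.Cl - s.C n‖ ≤ 4 * s.a n :=
  s.exists_limit.choose_spec.choose_spec.2.2.1 n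
lemma A_near (n : ℕ) : ‖s.Al - s.A n‖ ≤ 4 * s.a n :=
  s.exists_limit.choose_spec.choose_spec.2.2.2 n

lemma Cl_mem : s.Cl ∈ AD :=
  AD_closed.mem_of_tendsto s.C_tendsto (Eventually.of_forall fun n => Pol_AD (s.mem_Pol n).1)

lemma Al_mem : s.Al ∈ AD :=
  AD_closed.mem_of_tendsto s.A_tendsto (Eventually.of_forall fun n => Pol_AD (s.mem_Pol n).2)

lemma unit_lim : star s.Cl * s.Cl + star s.Al * s.Al = 1 := by
  have h1 : Tendsto (fun n => star (s.C n) * s.C n + star (s.A n) * s.A n) atTop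
      (𝓝 (star s.Cl * s.Cl + star s.Al * s.Al)) :=
    ((s.C_tendsto.star.mul s.C_tendsto).add (s.A_tendsto.star.mul s.A_tendsto))
  simp_rw [s.unit] at h1
  exact (tendsto_nhds_unique h1 tendsto_const_nhds)

lemma unit_lim_apply (w : Circle) : ‖s.Cl w‖ ^ 2 + ‖s.Al w‖ ^ 2 = 1 := by
  have h1 := congrArg (fun f : CA => f w) (s.unit_lim)
  simp only [ContinuousMap.add_apply, ContinuousMap.mul_apply, ContinuousMap.star_apply,
      ContinuousMap.one_apply] at h1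
  have hsq : ∀ a : ℂ, star a * a = ((‖a‖ ^ 2 : ℝ) : ℂ) := by
    intro a
    rw [← Complex.normSq_eq_norm_sq, Complex.normSq_eq_conj_mul_self]
    rfl
  rw [hsq, hsq] at h1
  exact_mod_cast h1

lemma cross_succ (n : ℕ) : s.C n * s.A (n + 1) - s.A n * s.C (n + 1) =
    (s.a n : ℂ) • zC ^ s.N (n + 1) := by
  rw [s.C_succ, s.A_succ]
  have h := s.unit n
  simp only [mul_add, mul_sub, mul_smul_comm]
  have e : (s.a n : ℂ) • zC ^ s.N (n + 1) =
      (s.a n : ℂ) • (zC ^ s.N (n + 1) * (star (s.C n) * s.C n + star (s.A n) * s.A n)) := by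
    rw [h, mul_one]
  rw [e, mul_comm (s.A n) (s.C n), mul_add, smul_add]
  have e1 : s.C n * (zC ^ s.N (n + 1) * star (s.C n)) =
    zC ^ s.N (n + 1) * (star (s.C n) * s.C n) := by ring
  have e2 : s.A n * (zC ^ s.N (n + 1) * star (s.A n)) =
    zC ^ s.N (n + 1) * (star (s.A n) * s.A n) := by ring
  rw [e1, e2]
  abel

lemma cross_lim (n : ℕ) : ‖s.C n * s.Al - s.A n * s.Cl - (s.a n : ℂ) • zC ^ s.N (n + 1)‖ ≤
    8 * s.a (n + 1) := by
  rw [← s.cross_succ]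
  have e : s.C n * s.Al - s.A n * s.Cl - (s.C n * s.A (n + 1) - s.A n * s.C (n + 1)) =
    s.C n * (s.Al - s.A (n + 1)) - s.A n * (s.Cl - s.C (n + 1)) := by ring
  rw [e]
  have h1 := s.C_near (n + 1)
  have h2 := s.A_near (n + 1)
  have h3 := s.norm_C_le n
  have h4 := s.norm_A_le n
  calc ‖s.C n * (s.Al - s.A (n + 1)) - s.A n * (s.Cl - s.C (n + 1))‖
      ≤ ‖s.C n * (s.Al - s.A (n + 1))‖ + ‖s.A n * (s.Cl - s.C (n + 1))‖ := norm_sub_le _ _
    _ ≤ ‖s.C n‖ * ‖s.Al - s.A (n + 1)‖ + ‖s.A n‖ * ‖s.Cl - s.C (n + 1)‖ :=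
        add_le_add (norm_mul_le _ _) (norm_mul_le _ _)
    _ ≤ 1 * (4 * s.a (n + 1)) + 1 * (4 * s.a (n + 1)) := by gcongr
    _ = 8 * s.a (n + 1) := by ring

end SUSeq

end Run7.h163
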