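import Pool.Agent.Run7.h163.Rep

/-!
# Density of trigonometric polynomials on the torus and on the circle, and averages
-/

set_option autoImplicit false
set_option linter.deprecated false
set_option linter.unusedSectionVars false

open scoped ComplexConjugate

namespace Run7.h163

/-- continuous functions on the torus -/
abbrev CT := C(Circle × Circle, ℂ)

/-- the monomials on the torus -/
noncomputable def mono (k l : ℤ) : CT :=
  ⟨fun p => ((p.1 ^ k * p.2 ^ l : Circle) : ℂ), by
    have h1 : Continuous fun p : Circle × Circle => p.1 ^ k * p.2 ^ l :=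
      (continuous_fst.zpow k).mul (continuous_snd.zpow l)
    exact continuous_subtype_val.comp h1⟩

lemma mono_apply (k l : ℤ) (p : Circle × Circle) :
    mono k l p = ((p.1 ^ k * p.2 ^ l : Circle) : ℂ) := rfl

lemma mono_mul (k l k' l' : ℤ) : mono k l * mono k' l' = mono (k + k') (l + l') := by
  ext p
  rw [ContinuousMap.mul_apply, mono_apply, mono_apply, mono_apply, ← Circle.coe_mul, zpow_add,
    zpow_add]
  congr 1
  exact mul_mul_mul_comm _ _ _ _

lemma mono_star (k l : ℤ) : star (mono k l) = mono (-k) (-l) := by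
  ext p
  rw [ContinuousMap.star_apply, mono_apply, mono_apply, zpow_neg, zpow_neg, ← mul_inv,
    Circle.coe_inv_eq_conj]
  rfl

lemma mono_zero : mono 0 0 = 1 := by
  ext p
  rw [mono_apply]
  simp

/-- trigonometric polynomials on the torus -/
noncomputable def TP : Submodule ℂ CT := Submodule.span ℂ (Set.range fun p : ℤ × ℤ => mono p.1 p.2)

lemma mono_mem_TP (k l : ℤ) : mono k l ∈ TP := Submodule.subset_span ⟨(k, l), rfl⟩

lemma TP_mul {f g : CT} (hf : f ∈ TP) (hg : g ∈ TP) : f * g ∈ TP := by
  have h1 : f * g ∈ TP * TP := Submodule.mul_mem_mul hf hg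
  unfold TP at h1
  rw [Submodule.span_mul_span] at h1
  refine Submodule.span_mono ?_ h1
  rintro _ ⟨_, ⟨p, rfl⟩, _, ⟨q, rfl⟩, rfl⟩
  exact ⟨(p.1 + q.1, p.2 + q.2), (mono_mul _ _ _ _).symm⟩

lemma TP_star {f : CT} (hf : f ∈ TP) : star f ∈ TP := by
  induction hf using Submodule.span_induction with
  | mem x h =>
    obtain ⟨p, rfl⟩ := h
    simp only [mono_star]
    exact mono_mem_TP _ _
  | zero => rw [star_zero]; exact TP.zero_mem
  | add x y _ _ hx hy => rw [star_add]; exact TP.add_mem hx hy
  | smul c x _ hx => rw [star_smul]; exact TP.smul_mem _ hx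

/-- trigonometric polynomials on the torus, as a star subalgebra -/
noncomputable def TPstar : StarSubalgebra ℂ CT where
  carrier := TP
  mul_mem' := TP_mul
  add_mem' := TP.add_mem
  algebraMap_mem' c := by
    rw [Algebra.algebraMap_eq_smul_one, ← mono_zero]
    exact TP.smul_mem _ (mono_mem_TP _ _)
  star_mem' := TP_star

theorem TP_dense (F : CT) {ε : ℝ} (hε : 0 < ε) : ∃ P ∈ TP, ‖F - P‖ < ε := by
  have h1 := ContinuousMap.starSubalgebra_topologicalClosure_eq_top_of_separatesPoints TPstar (by
    intro x y hxy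
    rcases not_and_or.1 (fun h => hxy (Prod.ext_iff.2 h)) with h | h
    · refine ⟨mono 1 0, ⟨mono 1 0, mono_mem_TP _ _, rfl⟩, ?_⟩
      rw [mono_apply, mono_apply]
      simp only [zpow_one, zpow_zero, mul_one]
      exact fun h2 => h (Circle.coe_injective h2)
    · refine ⟨mono 0 1, ⟨mono 0 1, mono_mem_TP _ _, rfl⟩, ?_⟩
      rw [mono_apply, mono_apply]
      simp only [zpow_one, zpow_zero, one_mul]
      exact fun h2 => h (Circle.coe_injective h2))
  have h2 : F ∈ TPstar.topologicalClosure := by rw [h1]; trivial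
  have h3 : F ∈ closure (TP : Set CT) := h2
  rw [Metric.mem_closure_iff] at h3
  obtain ⟨P, hP, hd⟩ := h3 ε hε
  exact ⟨P, hP, by rwa [← dist_eq_norm]⟩

/-- integer powers of the coordinate -/
noncomputable def zp (k : ℤ) : CA :=
  ⟨fun w => ((w ^ k : Circle) : ℂ), continuous_subtype_val.comp (continuous_zpow k)⟩

lemma zp_apply (k : ℤ) (w : Circle) : zp k w = ((w ^ k : Circle) : ℂ) := rfl

lemma zp_natCast (k : ℕ) : zp k = zC ^ k := by
  ext w
  rw [zp_apply, zpow_natCast]
  simp

lemma zp_neg (k : ℤ) : zp (-k) = star (zp k) := by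
  ext w
  rw [ContinuousMap.star_apply, zp_apply, zp_apply, zpow_neg, Circle.coe_inv_eq_conj]
  rfl

lemma zp_add (k l : ℤ) : zp (k + l) = zp k * zp l := by
  ext w
  rw [ContinuousMap.mul_apply, zp_apply, zp_apply, zp_apply, zpow_add, Circle.coe_mul]

/-- trigonometric polynomials on the circle -/
noncomputable def TP1 : Submodule ℂ CA := Submodule.span ℂ (Set.range zp)

lemma zp_mem_TP1 (k : ℤ) : zp k ∈ TP1 := Submodule.subset_span ⟨k, rfl⟩

theorem TP1_dense (f : CA) {ε : ℝ} (hε : 0 < ε) : ∃ P ∈ TP1, ‖f - P‖ < ε := by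
  obtain ⟨P, hP, hd⟩ := TP_dense (f.comp ⟨Prod.fst, continuous_fst⟩) hε
  let j : C(Circle, Circle × Circle) := ⟨fun w => (w, 1), by fun_prop⟩
  refine ⟨P.comp j, ?_, ?_⟩
  · clear hd
    induction hP using Submodule.span_induction with
    | mem x h =>
      obtain ⟨p, rfl⟩ := h
      have : (mono p.1 p.2).comp j = zp p.1 := by
        ext w
        rw [ContinuousMap.comp_apply, mono_apply, zp_apply]
        simp [j]
      rw [this]
      exact zp_mem_TP1 _
    | zero => exact TP1.zero_mem
    | add x y _ _ hx hy => exact TP1.add_mem hx hy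
    | smul c x _ hx => exact TP1.smul_mem _ hx
  · refine lt_of_le_of_lt ?_ hd
    rw [ContinuousMap.norm_le _ (norm_nonneg _)]
    intro w
    exact (f.comp ⟨Prod.fst, continuous_fst⟩ - P).norm_coe_le_norm (w, 1)

/-- average over the circle -/
noncomputable def avg {E : Type*} [NormedAddCommGroup E] [NormedSpace ℝ E] (f : Circle → E) : E :=
  (2 * Real.pi)⁻¹ • ∫ θ in (0:ℝ)..(2 * Real.pi), f (Circle.exp θ)

section avg
variable {E : Type*} [NormedAddCommGroup E] [NormedSpace ℝ E]

lemma intg {f : Circle → E} (hf : Continuous f) (a b : ℝ) :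
    IntervalIntegrable (fun θ => f (Circle.exp θ)) MeasureTheory.volume a b :=
  (hf.comp Circle.exp.continuous).intervalIntegrable _ _

lemma avg_add {f g : Circle → E} (hf : Continuous f) (hg : Continuous g) :
    avg (fun w => f w + g w) = avg f + avg g := by
  unfold avg
  rw [intervalIntegral.integral_add (intg hf _ _) (intg hg _ _), smul_add]

lemma avg_sub {f g : Circle → E} (hf : Continuous f) (hg : Continuous g) :
    avg (fun w => f w - g w) = avg f - avg g := by
  unfold avg
  rw [intervalIntegral.integral_sub (intg hf _ _) (intg hg _ _), smul_sub]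

lemma avg_const [CompleteSpace E] (c : E) : avg (fun _ => c) = c := by
  unfold avg
  rw [intervalIntegral.integral_const, sub_zero, smul_smul, inv_mul_cancel₀ (by positivity),
    one_smul]

lemma avg_cmul (c : ℂ) (f : Circle → ℂ) : avg (fun w => c * f w) = c * avg f := by
  unfold avg
  rw [intervalIntegral.integral_const_mul, Complex.real_smul, Complex.real_smul]
  ring

lemma avg_rmul (c : ℝ) (f : Circle → ℝ) : avg (fun w => c * f w) = c * avg f := by
  unfold avg
  rw [intervalIntegral.integral_const_mul, smul_eq_mul, smul_eq_mul]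
  ring

lemma avg_mono {f g : Circle → ℝ} (hf : Continuous f) (hg : Continuous g) (h : ∀ w, f w ≤ g w) :
    avg f ≤ avg g := by
  unfold avg
  rw [smul_eq_mul, smul_eq_mul]
  apply mul_le_mul_of_nonneg_left _ (by positivity)
  exact intervalIntegral.integral_mono (by positivity) (intg hf _ _) (intg hg _ _)
    fun θ => h _

lemma avg_ofReal (f : Circle → ℝ) : avg (fun w => (f w : ℂ)) = ((avg f : ℝ) : ℂ) := by
  unfold avg
  rw [intervalIntegral.integral_ofReal]
  simp

lemma avg_re {f : Circle → ℂ} (hf : Continuous f) : (avg f).re = avg (fun w => (f w).re) := by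
  have h1 := (Complex.reCLM.intervalIntegral_comp_comm (intg hf 0 (2 * Real.pi)))
  unfold avg
  simp only [Complex.reCLM_apply] at h1
  rw [h1, Complex.smul_re]

lemma norm_avg_le {f : Circle → E} {C : ℝ} (h : ∀ w, ‖f w‖ ≤ C) : ‖avg f‖ ≤ C := by
  unfold avg
  have h1 := intervalIntegral.norm_integral_le_of_norm_le_const
    (a := 0) (b := 2 * Real.pi) (f := fun θ => f (Circle.exp θ)) (C := C) (fun θ _ => h _)
  rw [norm_smul, sub_zero, abs_of_pos (by positivity)] at *
  rw [Real.norm_eq_abs, abs_of_pos (by positivity : 0 < (2 * Real.pi)⁻¹)]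
  rw [inv_mul_le_iff₀ (by positivity)]
  linarith

lemma avg_star (f : Circle → ℂ) : avg (fun w => star (f w)) = star (avg f) := by
  unfold avg
  have h1 : ∫ θ in (0:ℝ)..(2 * Real.pi), star (f (Circle.exp θ)) =
      star (∫ θ in (0:ℝ)..(2 * Real.pi), f (Circle.exp θ)) := by
    rw [intervalIntegral, intervalIntegral]
    rw [star_sub]
    congr 1
    · exact integral_conj
    · exact integral_conj
  rw [h1]
  simp

lemma avg_zp (k : ℤ) (hk : k ≠ 0) : avg (zp k) = 0 := by
  unfold avg
  have h1 : ∀ θ : ℝ, zp k (Circle.exp θ) = Complex.exp (((k : ℂ) * Complex.I) * θ) := by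
    intro θ
    rw [zp_apply, ← Circle.exp_intCast_mul, Circle.coe_exp]
    push_cast
    ring_nf
  simp_rw [h1]
  rw [integral_exp_mul_complex (by simp [hk])]
  have h2 : Complex.exp ((k : ℂ) * Complex.I * ((2 * Real.pi : ℝ) : ℂ)) = 1 := by
    rw [Complex.exp_eq_one_iff]
    refine ⟨k, ?_⟩
    push_cast
    ring
  rw [h2]
  simp

lemma avg_zp_zero : avg (zp 0) = 1 := by
  have : (zp 0 : Circle → ℂ) = fun _ => (1:ℂ) := by
    ext w
    rw [zp_apply]
    simp
  rw [this, avg_const]

end avg

end Run7.h163
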